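import Mathlib
import Pool.Agent.Work.MP_73869e_nt.AP.Mom2
import Pool.Agent.Work.MP_73869e_nt.P5.Defs

set_option autoImplicit false

/-!
MP_73869e_nt, almost all n have many P_5 in (n^2, n^2 + C log n]: definitions. The shifts are now all
k ≤ C log N in a residue class.
-/

namespace Pool.Agent.Work.MP_73869e_nt.OW

open Finset Filter Pool.Agent.Work.MP_2dba45_nt.Sel
open Pool.Agent.Work.MP_73869e_nt.AP (zN g nu SS VV AA NN)
open Pool.Agent.Work.MP_73869e_nt.P5 (zE yE lam5 wt5 ph LS ML BHW)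
open Pool.Agent.Work.MP_2dba45_nt.Sv (pw PQ cost)

/-- the character `n ↦ (-k/n)` modulo `4 k` -/
def chi (k n : ℕ) : ℤ := if Odd n then jacobiSym (-(k : ℤ)) n else 0

/-- the convolution `1 * chi k` -/
def rr (k n : ℕ) : ℤ := ∑ d ∈ n.divisors, chi k d

/-- the value of the L-series of `chi k` at 1 -/
noncomputable def LL (k : ℕ) : ℝ :=
  limUnder atTop (fun x : ℕ => ∑ n ∈ Ioc 0 x, (chi k n : ℝ) / n)

/-- local density of `n ^ 2 + k` -/
noncomputable def hk (k p : ℕ) : ℝ := if p.Prime ∧ chi k p = 1 then 2 / (p : ℝ) else 0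

/-- densities of dimension one, at scale `N`, with error `η` -/
structure DimU (h : ℕ → ℝ) (N : ℕ) (δ η : ℝ) : Prop where
  nn : ∀ p, 0 ≤ h p
  le : ∀ p : ℕ, p.Prime → h p ≤ 2 / p
  law : ∀ w x : ℝ, (N : ℝ) ^ δ ≤ w → w ≤ x → x ≤ N →
    |∑ p ∈ (Ico ⌈w⌉₊ ⌈x⌉₊).filter Nat.Prime, h p -
      (Real.log (Real.log x) - Real.log (Real.log w))| ≤ η

/-- largest shift -/
noncomputable def KK (C : ℝ) (N : ℕ) : ℕ := ⌊C * Real.log N⌋₊

/-- the shifts: a residue class in `(√K, K]` -/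
noncomputable def Fm (C : ℝ) (N Q b : ℕ) : Finset ℕ :=
  (Ioc (Nat.sqrt (KK C N)) (KK C N)).filter (fun k => k % Q = b % Q)

/-- the primes that can divide `n ^ 2 + k` -/
def PA (k N : ℕ) : Finset ℕ := (Ioo (zN N) N).filter (fun p => p.Prime ∧ chi k p = 1)

/-- the primes below `N ^ δ` -/
noncomputable def Psm (k : ℕ) (δ : ℝ) (N : ℕ) : Finset ℕ := (PA k N).filter (fun p => p < pw N δ)

/-- the primes from `N ^ δ` on -/
noncomputable def Pbg (k : ℕ) (δ : ℝ) (N : ℕ) : Finset ℕ := (PA k N).filter (fun p => pw N δ ≤ p)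

/-- the Brun-Hooley weights for all `k` -/
def Env (δ : ℝ) (b N : ℕ) (lp dp : ℕ → Finset ℕ → ℝ) : Prop :=
  ∀ k, BHW (Psm k δ N) g (pw N δ) b (lp k) (dp k)

/-- main term of the small primes -/
noncomputable def ThM (δ : ℝ) (N : ℕ) (lp : ℕ → Finset ℕ → ℝ) (k : ℕ) : ℝ :=
  ML (Psm k δ N).powerset (lp k)

/-- main term of the large primes -/
noncomputable def WM (δ : ℝ) (κ N k : ℕ) : ℝ := ML (Pbg k δ N).powerset (ph κ N)

/-- coefficient of a shift -/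
noncomputable def ck (δ : ℝ) (w N : ℕ) (lp : ℕ → Finset ℕ → ℝ) (k : ℕ) : ℝ :=
  1 / (VV {k} w N * ThM δ N lp k)

noncomputable def th (δ : ℝ) (N : ℕ) (lp : ℕ → Finset ℕ → ℝ) (k n : ℕ) : ℝ :=
  LS (Psm k δ N).powerset (lp k) k n

noncomputable def wv (δ : ℝ) (κ N k n : ℕ) : ℝ := LS (Pbg k δ N).powerset (ph κ N) k n

/-- no middle prime divides the shifted square -/
def Ro (δ : ℝ) (N k n : ℕ) : Prop := ∀ p ∈ Psm k δ N, ¬ p ∣ n ^ 2 + k

open Classical in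
noncomputable def uu (δ : ℝ) (κ w N a : ℕ) (lp : ℕ → Finset ℕ → ℝ) (k n : ℕ) : ℝ :=
  ck δ w N lp k * (if n ∈ AA {k} w N a then th δ N lp k n * wv δ κ N k n else 0)

open Classical in
noncomputable def tt (δ : ℝ) (w N a : ℕ) (lp : ℕ → Finset ℕ → ℝ) (k n : ℕ) : ℝ :=
  ck δ w N lp k * (if n ∈ AA {k} w N a then th δ N lp k n else 0)

open Classical in
noncomputable def ee (δ : ℝ) (w N a : ℕ) (lp : ℕ → Finset ℕ → ℝ) (k n : ℕ) : ℝ :=
  ck δ w N lp k * (if n ∈ AA {k} w N a then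
    th δ N lp k n - (if Ro δ N k n then 1 else 0) else 0)

/-- a success -/
def Gd (δ : ℝ) (κ w N a k n : ℕ) : Prop :=
  n ∈ AA {k} w N a ∧ Ro δ N k n ∧
    (∀ p ∈ Pbg k δ N, p < pw N zE → ¬ p ∣ n ^ 2 + k) ∧
    lam5 * ∑ p ∈ (Pbg k δ N).filter (fun p => pw N zE ≤ p ∧ p < pw N yE ∧
      p ∣ n ^ 2 + k), wt5 κ (cost (1000 * κ) N p) < 1

end Pool.Agent.Work.MP_73869e_nt.OW
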