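import Mathlib
import Pool.Agent.Work.MP_73869e_nt.OW.Defs

set_option autoImplicit false

/-!
Module ChiA (size M). Elementary facts on chi k n = (-k/n) for odd n.
chi_mul: jacobiSym.mul_right. chi_per: jacobiSym.mod_right (J(a | b) = J(a | b % (4 a.natAbs)) for odd b).
chi_neg: first n = 1: with m = 4 k - 1 ≡ 3 mod 4, J(-k | m) = J(-4k | m) (J(4 | m) = 1) = J(-1 | m) = -1
since -4k ≡ -1 mod m. In general (4 k - 1) n ≡ 4 k - n mod 4 k, so chi k (4k - n) = chi k (4k-1) chi k n.
chi_psum: the sum over a full period is 0 (pair n with 4k - n), so every interval sum equals a sum over fewer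
than 4k consecutive integers. chi_abel: summation by parts (antitone, nonnegative f).
-/

namespace Pool.Agent.Work.MP_73869e_nt.OW

open Finset

theorem chi_one (k : ℕ) : chi k 1 = 1 := by
  unfold chi
  rw [if_pos odd_one, jacobiSym.one_right]

theorem chi_mul (k m n : ℕ) : chi k (m * n) = chi k m * chi k n := by
  unfold chi
  by_cases hm : Odd m
  · by_cases hn : Odd n
    · rw [if_pos (hm.mul hn), if_pos hm, if_pos hn]
      exact jacobiSym.mul_right' _ hm.pos.ne' hn.pos.ne'
    · rw [if_neg (fun h => hn (Nat.odd_mul.mp h).2), if_neg hn, mul_zero]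
  · rw [if_neg (fun h => hm (Nat.odd_mul.mp h).1), if_neg hm, zero_mul]

theorem chi_abs (k n : ℕ) : |chi k n| ≤ 1 := by
  unfold chi
  split_ifs with h
  · rcases jacobiSym.trichotomy (-(k : ℤ)) n with h | h | h <;> rw [h] <;> decide
  · decide

theorem chi_per (k n : ℕ) (hk : 1 ≤ k) : chi k (n + 4 * k) = chi k n := by
  unfold chi
  by_cases hn : Odd n
  · have h1 : Odd (n + 4 * k) := by
      rw [Nat.odd_iff] at hn ⊢
      omega
    rw [if_pos h1, if_pos hn, jacobiSym.mod_right _ h1, jacobiSym.mod_right _ hn, Int.natAbs_neg,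
      Int.natAbs_natCast, Nat.add_mod_right]
  · have h1 : ¬ Odd (n + 4 * k) := by
      rw [Nat.odd_iff] at hn ⊢
      omega
    rw [if_neg h1, if_neg hn]

private theorem ca_per (k n j : ℕ) (hk : 1 ≤ k) : chi k (n + 4 * k * j) = chi k n := by
  induction j with
  | zero => rw [mul_zero, add_zero]
  | succ j ih =>
    have e : n + 4 * k * (j + 1) = n + 4 * k * j + 4 * k := by ring
    rw [e, chi_per k _ hk, ih]

private theorem ca_top (k : ℕ) (hk : 1 ≤ k) : chi k (4 * k - 1) = -1 := by
  have ho : Odd (4 * k - 1) := by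
    rw [Nat.odd_iff]
    omega
  unfold chi
  rw [if_pos ho]
  have h4 : jacobiSym 4 (4 * k - 1) = 1 := by
    have e : (4 : ℤ) = 2 ^ 2 := by norm_num
    rw [e]
    apply jacobiSym.sq_one'
    have hc : Nat.Coprime 2 (4 * k - 1) := (Nat.coprime_two_left).mpr ho
    exact hc
  have h1 : jacobiSym (-(k : ℤ)) (4 * k - 1) = jacobiSym (-(k : ℤ) * 4) (4 * k - 1) := by
    rw [jacobiSym.mul_left, h4, mul_one]
  have h2 : jacobiSym (-(k : ℤ) * 4) (4 * k - 1) = jacobiSym (-1) (4 * k - 1) := by
    apply jacobiSym.mod_left'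
    have e : ((4 * k - 1 : ℕ) : ℤ) = 4 * k - 1 := by
      rw [Nat.cast_sub (by omega)]
      push_cast
      ring
    rw [e]
    have e2 : -(k : ℤ) * 4 = -1 + (4 * k - 1) * (-1) := by ring
    rw [e2, Int.add_mul_emod_self_left]
  rw [h1, h2, jacobiSym.at_neg_one ho]
  exact ZMod.χ₄_nat_three_mod_four (by omega)

theorem chi_neg (k n : ℕ) (hk : 1 ≤ k) (hn : n ≤ 4 * k) : chi k (4 * k - n) = -chi k n := by
  by_cases ho : Odd n
  · have hn' : n < 4 * k := by
      rcases hn.lt_or_eq with h | h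
      · exact h
      · rw [h, Nat.odd_iff] at ho
        omega
    have hn1 : 1 ≤ n := ho.pos
    have e : (4 * k - 1) * n = (4 * k - n) + 4 * k * (n - 1) := by
      obtain ⟨a, rfl⟩ := Nat.exists_eq_add_of_le hn1
      obtain ⟨b, hb⟩ := Nat.exists_eq_add_of_lt hn'
      rw [hb]
      have e1 : 1 + a + b + 1 - 1 = 1 + a + b := by omega
      have e2 : 1 + a + b + 1 - (1 + a) = b + 1 := by omega
      have e3 : 1 + a - 1 = a := by omega
      rw [e1, e2, e3]
      ring
    have h1 := chi_mul k (4 * k - 1) n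
    rw [e, ca_per k _ _ hk, ca_top k hk] at h1
    rw [h1]
    ring
  · have h1 : ¬ Odd (4 * k - n) := by
      rw [Nat.odd_iff] at ho ⊢
      omega
    unfold chi
    rw [if_neg h1, if_neg ho, neg_zero]

private theorem ca_full (k : ℕ) (hk : 1 ≤ k) : ∑ i ∈ range (4 * k), chi k i = 0 := by
  have h0 : chi k 0 = 0 := by
    unfold chi
    rw [if_neg (by decide)]
  have h4 : chi k (4 * k) = 0 := by
    unfold chi
    rw [if_neg]
    rw [Nat.odd_iff]
    omega
  have h1 : ∑ i ∈ range (4 * k), chi k (i + 1) = ∑ i ∈ range (4 * k), chi k i := by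
    have h2 := Finset.sum_range_succ' (fun i => chi k i) (4 * k)
    rw [Finset.sum_range_succ, h0, h4, add_zero, add_zero] at h2
    exact h2.symm
  have h3 := Finset.sum_range_reflect (fun i => chi k (i + 1)) (4 * k)
  rw [h1] at h3
  have h5 : ∑ j ∈ range (4 * k), chi k (4 * k - 1 - j + 1) = -∑ i ∈ range (4 * k), chi k i := by
    rw [← Finset.sum_neg_distrib]
    refine Finset.sum_congr rfl fun j hj => ?_
    rw [Finset.mem_range] at hj
    have e : 4 * k - 1 - j + 1 = 4 * k - j := by omega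
    rw [e, chi_neg k j hk hj.le]
  rw [h5] at h3
  omega

private theorem ca_full' (k : ℕ) (hk : 1 ≤ k) (a : ℕ) :
    ∑ i ∈ range (4 * k), chi k (a + i) = 0 := by
  induction a with
  | zero =>
    simp only [zero_add]
    exact ca_full k hk
  | succ a ih =>
    have h1 := Finset.sum_range_succ' (fun i => chi k (a + i)) (4 * k)
    rw [Finset.sum_range_succ, ih] at h1
    have h2 := chi_per k a hk
    rw [h2, add_zero, zero_add] at h1
    have h3 : ∑ i ∈ range (4 * k), chi k (a + 1 + i) = ∑ i ∈ range (4 * k), chi k (a + (i + 1)) := by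
      refine Finset.sum_congr rfl fun i _ => ?_
      congr 1
      ring
    rw [h3]
    omega

private theorem ca_mul (k : ℕ) (hk : 1 ≤ k) (a q : ℕ) :
    ∑ i ∈ range (4 * k * q), chi k (a + i) = 0 := by
  induction q with
  | zero => rw [mul_zero, Finset.range_zero, Finset.sum_empty]
  | succ q ih =>
    have e : 4 * k * (q + 1) = 4 * k * q + 4 * k := by ring
    rw [e, Finset.sum_range_add, ih, zero_add]
    have h3 : ∑ i ∈ range (4 * k), chi k (a + (4 * k * q + i)) =
        ∑ i ∈ range (4 * k), chi k (a + 4 * k * q + i) := by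
      refine Finset.sum_congr rfl fun i _ => ?_
      congr 1
      ring
    rw [h3]
    exact ca_full' k hk _

private theorem ca_bd (k : ℕ) (hk : 1 ≤ k) (a L : ℕ) :
    |∑ i ∈ range L, chi k (a + i)| ≤ 4 * k := by
  have e : L = 4 * k * (L / (4 * k)) + L % (4 * k) := (Nat.div_add_mod L (4 * k)).symm
  have hlt : L % (4 * k) < 4 * k := Nat.mod_lt _ (by omega)
  rw [e, Finset.sum_range_add, ca_mul k hk, zero_add]
  refine (Finset.abs_sum_le_sum_abs _ _).trans ?_
  refine (Finset.sum_le_sum fun i _ => chi_abs k _).trans ?_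
  rw [Finset.sum_const, Finset.card_range, nsmul_eq_mul, mul_one]
  exact_mod_cast hlt.le

theorem chi_psum (k x y : ℕ) (hk : 1 ≤ k) : |∑ n ∈ Ioc x y, (chi k n : ℝ)| ≤ 4 * k := by
  have e : Ioc x y = Ico (x + 1) (y + 1) := by
    ext n
    simp only [mem_Ioc, mem_Ico]
    omega
  rw [e, Finset.sum_Ico_eq_sum_range]
  have h1 := ca_bd k hk (x + 1) (y + 1 - (x + 1))
  have h2 : ((∑ i ∈ range (y + 1 - (x + 1)), chi k (x + 1 + i) : ℤ) : ℝ) =
      ∑ i ∈ range (y + 1 - (x + 1)), (chi k (x + 1 + i) : ℝ) := by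
    push_cast
    rfl
  rw [← h2]
  exact_mod_cast h1

theorem chi_abel (k x y : ℕ) (hk : 1 ≤ k) (f : ℕ → ℝ) (B : ℝ) (hB : 0 ≤ B)
    (hf : ∀ m n, x < m → m ≤ n → n ≤ y → f n ≤ f m) (hf0 : ∀ n, x < n → n ≤ y → 0 ≤ f n)
    (hfB : ∀ n, x < n → n ≤ y → f n ≤ B) :
    |∑ n ∈ Ioc x y, (chi k n : ℝ) * f n| ≤ 4 * k * B := by
  rcases Nat.lt_or_ge x y with hxy | hxy
  · have hind : ∀ z, x + 1 ≤ z → z ≤ y →
        |∑ n ∈ Ioc x z, (chi k n : ℝ) * f n - (∑ n ∈ Ioc x z, (chi k n : ℝ)) * f z| ≤
          4 * k * (f (x + 1) - f z) := by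
      intro z hz
      induction z, hz using Nat.le_induction with
      | base =>
        intro _
        have e : Ioc x (x + 1) = {x + 1} := by
          ext n
          simp only [mem_Ioc, mem_singleton]
          omega
        rw [e, Finset.sum_singleton, Finset.sum_singleton, sub_self, sub_self, abs_zero, mul_zero]
      | succ z hz ih =>
        intro hzy
        have ih' := ih (by omega)
        have e : Ioc x (z + 1) = insert (z + 1) (Ioc x z) := by
          ext n
          simp only [mem_Ioc, mem_insert]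
          omega
        have hnot : z + 1 ∉ Ioc x z := by
          simp only [mem_Ioc]
          omega
        rw [e, Finset.sum_insert hnot, Finset.sum_insert hnot]
        have h1 := chi_psum k x z hk
        have h2 : 0 ≤ f z - f (z + 1) := by
          have := hf z (z + 1) (by omega) (by omega) hzy
          linarith
        have h3 : (chi k (z + 1) : ℝ) * f (z + 1) + ∑ n ∈ Ioc x z, (chi k n : ℝ) * f n -
            ((chi k (z + 1) : ℝ) + ∑ n ∈ Ioc x z, (chi k n : ℝ)) * f (z + 1) =
            (∑ n ∈ Ioc x z, (chi k n : ℝ) * f n - (∑ n ∈ Ioc x z, (chi k n : ℝ)) * f z) +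
              (∑ n ∈ Ioc x z, (chi k n : ℝ)) * (f z - f (z + 1)) := by ring
        rw [h3]
        refine (abs_add_le _ _).trans ?_
        rw [abs_mul, abs_of_nonneg h2]
        have h4 := mul_le_mul_of_nonneg_right h1 h2
        calc _ ≤ 4 * k * (f (x + 1) - f z) + 4 * k * (f z - f (z + 1)) := add_le_add ih' h4
          _ = 4 * k * (f (x + 1) - f (z + 1)) := by ring
    have h1 := hind y (by omega) le_rfl
    have h2 := chi_psum k x y hk
    have h3 : 0 ≤ f y := hf0 y hxy le_rfl
    have h4 : f (x + 1) ≤ B := hfB (x + 1) (by omega) (by omega)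
    have h5 : |(∑ n ∈ Ioc x y, (chi k n : ℝ)) * f y| ≤ 4 * k * f y := by
      rw [abs_mul, abs_of_nonneg h3]
      exact mul_le_mul_of_nonneg_right h2 h3
    have h6 : ∑ n ∈ Ioc x y, (chi k n : ℝ) * f n =
        (∑ n ∈ Ioc x y, (chi k n : ℝ) * f n - (∑ n ∈ Ioc x y, (chi k n : ℝ)) * f y) +
          (∑ n ∈ Ioc x y, (chi k n : ℝ)) * f y := by ring
    rw [h6]
    refine (abs_add_le _ _).trans ((add_le_add h1 h5).trans ?_)
    have h7 : (0 : ℝ) ≤ 4 * k := by positivity
    calc 4 * (k : ℝ) * (f (x + 1) - f y) + 4 * k * f y = 4 * k * f (x + 1) := by ring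
      _ ≤ 4 * k * B := mul_le_mul_of_nonneg_left h4 h7
  · rw [Finset.Ioc_eq_empty (by omega), Finset.sum_empty, abs_zero]
    positivity

end Pool.Agent.Work.MP_73869e_nt.OW
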