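import Mathlib
import Pool.Agent.Work.MP_73869e_nt.OW.ChiA

set_option autoImplicit false

/-!
Module ChiB (size M). nu_chi: nu {k} p is the number of x mod p with p ∣ x^2 + k: 1 if p ∣ k (x = 0), otherwise
1 + legendreSym p (-k) (ZMod: legendreSym.card_sqrts, or see AP.nu_single and MP_2dba45_nt/Nu.lean);
chi k p = jacobiSym (-k) p = legendreSym p (-k) for odd p.
rr k = 1 * chi k is multiplicative (chi k is completely multiplicative): rr k (p^a) = Σ_{i ≤ a} (chi k p)^i is
a + 1, 1 or 0/1 (≥ 0) for chi k p = 1, 0, -1. rr_nonneg: product over the prime powers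
(Nat.ArithmeticFunction.IsMultiplicative.multiplicative_factorization or induction on coprime parts,
Nat.recOnPosPrimePosCoprime). rr k 0 = 0 (no divisors).
-/

namespace Pool.Agent.Work.MP_73869e_nt.OW

open Finset
open Pool.Agent.Work.MP_73869e_nt.AP (nu)

theorem nu_chi (k p : ℕ) (hk : 1 ≤ k) (hp : p.Prime) (hp2 : p ≠ 2) :
    (nu {k} p : ℤ) = 1 + chi k p := by
  have : Fact p.Prime := ⟨hp⟩
  have hodd : Odd p := hp.odd_of_ne_two hp2
  unfold chi
  rw [if_pos hodd, Pool.Agent.Work.MP_73869e_nt.AP.nu_singleton,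
    Pool.Agent.Work.MP_2dba45_nt.Nu.nu_eq_card, ← jacobiSym.legendreSym.to_jacobiSym, add_comm,
    ← legendreSym.card_sqrts p hp2]
  norm_cast
  congr 1
  ext x
  simp only [Finset.mem_filter, Finset.mem_univ, true_and, Set.mem_toFinset, Set.mem_ofPred_eq]
  push_cast
  constructor
  · intro h
    linear_combination h
  · intro h
    linear_combination h

private noncomputable def chiA (k : ℕ) : ArithmeticFunction ℤ :=
  ⟨chi k, by simp [chi]⟩

private theorem chiA_mult (k : ℕ) : (chiA k).IsMultiplicative :=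
  ⟨chi_one k, fun {m n} _ => chi_mul k m n⟩

private noncomputable def rrA (k : ℕ) : ArithmeticFunction ℤ :=
  (ArithmeticFunction.zeta : ArithmeticFunction ℤ) * chiA k

private theorem rrA_apply (k n : ℕ) : rrA k n = rr k n := by
  unfold rrA rr
  rw [ArithmeticFunction.coe_zeta_mul_apply]
  rfl

private theorem rrA_mult (k : ℕ) : (rrA k).IsMultiplicative :=
  (ArithmeticFunction.isMultiplicative_zeta.natCast).mul (chiA_mult k)

private theorem rr_mul (k m n : ℕ) (h : m.Coprime n) : rr k (m * n) = rr k m * rr k n := by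
  rw [← rrA_apply, ← rrA_apply, ← rrA_apply]
  exact (rrA_mult k).map_mul_of_coprime h

private theorem chi_pow (k p i : ℕ) : chi k (p ^ i) = chi k p ^ i := by
  induction i with
  | zero => rw [pow_zero, pow_zero, chi_one]
  | succ i ih => rw [pow_succ, chi_mul, ih, pow_succ]

private theorem chi_cases (k p : ℕ) : chi k p = 1 ∨ chi k p = 0 ∨ chi k p = -1 := by
  have h := abs_le.1 (chi_abs k p)
  omega

private theorem rr_pp (k p a : ℕ) (hp : p.Prime) : 0 ≤ rr k (p ^ a) := by
  unfold rr
  rw [Nat.sum_divisors_prime_pow hp]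
  simp only [chi_pow]
  rcases chi_cases k p with h | h | h
  · rw [h]; exact Finset.sum_nonneg fun i _ => by simp
  · rw [h]; exact Finset.sum_nonneg fun i _ => by positivity
  · rw [h, neg_one_geom_sum]
    split_ifs <;> norm_num

theorem rr_nonneg (k n : ℕ) : 0 ≤ rr k n := by
  rcases Nat.eq_zero_or_pos n with rfl | hn
  · simp [rr]
  · rw [← rrA_apply, (rrA_mult k).multiplicative_factorization (rrA k) hn.ne']
    unfold Finsupp.prod
    refine Finset.prod_nonneg fun p hp => ?_
    show 0 ≤ (rrA k) (p ^ _)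
    rw [rrA_apply]
    exact rr_pp k p _ (Nat.prime_of_mem_primeFactors (by simpa using hp))

theorem rr_sqfree (k : ℕ) (T : Finset ℕ) (hT : ∀ p ∈ T, p.Prime) :
    rr k (∏ p ∈ T, p) = ∏ p ∈ T, (1 + chi k p) := by
  classical
  induction T using Finset.induction_on with
  | empty => simp [rr, chi_one]
  | insert a s ha ih =>
    have hap : a.Prime := hT a (Finset.mem_insert_self a s)
    have hs : ∀ p ∈ s, p.Prime := fun p hp => hT p (Finset.mem_insert_of_mem hp)
    have hcop : a.Coprime (∏ p ∈ s, p) := by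
      refine Nat.Coprime.prod_right fun p hp => ?_
      rw [Nat.coprime_primes hap (hs p hp)]
      rintro rfl
      exact ha hp
    rw [Finset.prod_insert ha, Finset.prod_insert ha, rr_mul k _ _ hcop, ih hs]
    congr 1
    unfold rr
    rw [hap.sum_divisors, chi_one]
    ring

theorem rr_all (k n : ℕ) (hn : n ≠ 0) (h : ∀ p : ℕ, p.Prime → p ∣ n → chi k p = 1) :
    rr k n = #n.divisors := by
  have key : ∀ d : ℕ, d ≠ 0 → d ∣ n → chi k d = 1 := by
    intro d
    induction d using Nat.recOnMul with
    | zero => intro h0 _; exact absurd rfl h0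
    | one => intro _ _; exact chi_one k
    | prime p hp => intro _ hd; exact h p hp hd
    | mul a b iha ihb =>
      intro h0 hd
      rw [chi_mul, iha (fun h' => h0 (by rw [h', zero_mul])) ((dvd_mul_right a b).trans hd),
        ihb (fun h' => h0 (by rw [h', mul_zero])) ((dvd_mul_left b a).trans hd), mul_one]
  unfold rr
  rw [Finset.sum_congr rfl fun d hd => key d (Nat.pos_of_mem_divisors hd).ne'
    (Nat.dvd_of_mem_divisors hd)]
  simp

end Pool.Agent.Work.MP_73869e_nt.OW
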