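import Mathlib
import Pool.Agent.Work.MP_73869e_nt.OW.Defs

set_option autoImplicit false

/-!
Module Fmc (size S-M). Simple facts on the family of shifts. ev_KK: KK C N ≤ C log N, zN N ≥ (log N)^20 (AP.zN_ge,
AP.ev_log_ge), zN N < pw N δ (zN is at most a power of log N: AP.zN_le). card_Fm_ge: the number of k in (√K, K] in a
class mod Q is at least (K - √K)/Q - 1 (Nat.Ioc_filter_modEq_card as in AP.card_modEq_le, or as in AP.card_js_ge),
K = ⌊C log N⌋ → ∞.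
-/

namespace Pool.Agent.Work.MP_73869e_nt.OW

open Finset Filter
open Pool.Agent.Work.MP_73869e_nt.AP (zN)
open Pool.Agent.Work.MP_2dba45_nt.Sv (pw)

private theorem fm_zlt (δ : ℝ) (hδ : 0 < δ) : ∀ᶠ N : ℕ in atTop,
    (2 * Real.log N) ^ 20 < (N : ℝ) ^ δ := by
  have h1 : (fun x : ℝ => Real.log x ^ (20 : ℝ)) =o[atTop] (fun x : ℝ => x ^ δ) :=
    isLittleO_log_rpow_rpow_atTop 20 hδ
  have h2 : ∀ᶠ x : ℝ in atTop, ‖Real.log x ^ (20 : ℝ)‖ ≤ (1 / 2 ^ 21) * ‖x ^ δ‖ :=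
    h1.def (by positivity)
  have h3 := (tendsto_natCast_atTop_atTop (R := ℝ)).eventually h2
  filter_upwards [h3, eventually_ge_atTop 1] with N hN hN1
  have hNr : (1 : ℝ) ≤ N := by exact_mod_cast hN1
  have hl : 0 ≤ Real.log (N : ℝ) := Real.log_nonneg hNr
  have hp : 0 < (N : ℝ) ^ δ := Real.rpow_pos_of_pos (by linarith) δ
  rw [Real.norm_of_nonneg (Real.rpow_nonneg hl _), Real.norm_of_nonneg hp.le] at hN
  have h4 : Real.log (N : ℝ) ^ (20 : ℝ) = Real.log (N : ℝ) ^ 20 := by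
    rw [← Real.rpow_natCast]
    norm_num
  rw [h4] at hN
  calc (2 * Real.log N) ^ 20 = 2 ^ 20 * Real.log N ^ 20 := by ring
    _ ≤ 2 ^ 20 * ((1 / 2 ^ 21) * (N : ℝ) ^ δ) := by gcongr
    _ = (N : ℝ) ^ δ / 2 := by ring
    _ < (N : ℝ) ^ δ := by linarith

theorem ev_KK (C δ B : ℝ) (hC : 0 < C) (hδ : 0 < δ) : ∀ᶠ N : ℕ in atTop,
    B ≤ (Nat.sqrt (KK C N) : ℝ) ∧ (KK C N : ℝ) ≤ C * Real.log N ∧ 2 * KK C N < zN N ∧
      zN N < pw N δ ∧ KK C N ≤ N := by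
  have hlog : Tendsto (fun N : ℕ => Real.log N) atTop atTop :=
    Real.tendsto_log_atTop.comp tendsto_natCast_atTop_atTop
  filter_upwards [hlog.eventually_ge_atTop (max 2 (2 * C + 1)),
    hlog.eventually_ge_atTop ((⌈B⌉₊ : ℝ) ^ 2 / C), fm_zlt δ hδ, fm_zlt 1 one_pos,
    eventually_ge_atTop 8] with N h1 h2 h3 h4 h8
  have hL2 : 2 ≤ Real.log N := (le_max_left _ _).trans h1
  have hLC : 2 * C + 1 ≤ Real.log N := (le_max_right _ _).trans h1
  have hKle : (KK C N : ℝ) ≤ C * Real.log N := Nat.floor_le (by positivity)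
  have hz := AP.zN_ge N h8
  have hz2 := AP.zN_le N (by omega)
  have hK2 : 2 * KK C N < zN N := by
    have h5 : (2 * KK C N : ℝ) < zN N := by
      have h6 : Real.log N ^ 2 ≤ Real.log N ^ 20 :=
        pow_le_pow_right₀ (by linarith) (by norm_num)
      nlinarith
    exact_mod_cast h5
  refine ⟨?_, hKle, hK2, ?_, ?_⟩
  · have h5 : ⌈B⌉₊ ≤ Nat.sqrt (KK C N) := by
      rw [Nat.le_sqrt]
      unfold KK
      apply Nat.le_floor
      push_cast
      rw [div_le_iff₀ hC] at h2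
      nlinarith
    exact (Nat.le_ceil B).trans (by exact_mod_cast h5)
  · have h5 : (zN N : ℝ) < pw N δ := (hz2.trans_lt h3).trans_le (Nat.le_ceil _)
    exact_mod_cast h5
  · have h5 : (zN N : ℝ) < N := by
      have h6 := hz2.trans_lt h4
      rwa [Real.rpow_one] at h6
    have h6 : zN N < N := by exact_mod_cast h5
    omega

theorem mem_Fm {C : ℝ} {N Q b k : ℕ} : k ∈ Fm C N Q b ↔
    k ∈ Ioc (Nat.sqrt (KK C N)) (KK C N) ∧ k % Q = b % Q := by
  unfold Fm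
  rw [Finset.mem_filter]

theorem Fm_sub {C : ℝ} {N Q b k : ℕ} (h : k ∈ Fm C N Q b) : k ∈ Icc 1 (KK C N) := by
  rw [mem_Fm, Finset.mem_Ioc] at h
  rw [Finset.mem_Icc]
  omega

private theorem fm_card (s K Q v : ℕ) (hQ : 0 < Q) :
    ((K : ℝ) - s) / Q - 1 ≤ (#((Ioc s K).filter (fun k => k % Q = v % Q)) : ℝ) := by
  have h := Nat.Ioc_filter_modEq_card s K hQ v
  have e : (Ioc s K).filter (fun k => k % Q = v % Q) = (Ioc s K).filter (fun k => k ≡ v [MOD Q]) :=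
    rfl
  rw [e]
  have hq : ((K : ℚ) - s) / Q - 1 ≤ ((#((Ioc s K).filter (fun k => k ≡ v [MOD Q])) : ℤ) : ℚ) := by
    rw [h, Int.cast_max]
    refine le_max_of_le_left ?_
    push_cast
    have h1 := Int.sub_one_lt_floor (((K : ℚ) - v) / Q)
    have h2 := Int.floor_le (((s : ℚ) - v) / Q)
    have h3 : ((K : ℚ) - s) / Q = ((K : ℚ) - v) / Q - ((s : ℚ) - v) / Q := by
      ring
    linarith
  have h4 : (((K : ℚ) - s) / Q - 1 : ℚ) ≤ ((#((Ioc s K).filter (fun k => k ≡ v [MOD Q])) : ℕ) : ℚ) := by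
    exact_mod_cast hq
  have h5 : (((((K : ℚ) - s) / Q - 1 : ℚ)) : ℝ) ≤
      (((#((Ioc s K).filter (fun k => k ≡ v [MOD Q])) : ℕ) : ℚ) : ℝ) := by exact_mod_cast h4
  push_cast at h5
  exact h5

theorem card_Fm_ge (C : ℝ) (hC : 0 < C) (Q : ℕ) (hQ : 0 < Q) : ∀ᶠ N : ℕ in atTop, ∀ b : ℕ,
    C * Real.log N / (4 * Q) ≤ (#(Fm C N Q b) : ℝ) := by
  have hlog : Tendsto (fun N : ℕ => Real.log N) atTop atTop :=
    Real.tendsto_log_atTop.comp tendsto_natCast_atTop_atTop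
  have hQ0 : (0 : ℝ) < Q := by exact_mod_cast hQ
  filter_upwards [hlog.eventually_ge_atTop ((17 + 4 * Q) / C)] with N hN b
  rw [div_le_iff₀ hC] at hN
  have h1 := fm_card (Nat.sqrt (KK C N)) (KK C N) Q b hQ
  have hK : C * Real.log N - 1 < (KK C N : ℝ) := by
    have := Nat.lt_floor_add_one (C * Real.log N)
    unfold KK
    linarith
  have hK16 : (16 : ℝ) ≤ KK C N := by linarith
  have hs : (Nat.sqrt (KK C N) : ℝ) ≤ KK C N / 4 := by
    have h2 : Nat.sqrt (KK C N) * Nat.sqrt (KK C N) ≤ KK C N := Nat.sqrt_le (KK C N)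
    have h3 : (Nat.sqrt (KK C N) : ℝ) * Nat.sqrt (KK C N) ≤ KK C N := by exact_mod_cast h2
    have h4 : 4 ≤ Nat.sqrt (KK C N) := by
      rw [Nat.le_sqrt]
      exact_mod_cast hK16
    have h5 : (4 : ℝ) ≤ Nat.sqrt (KK C N) := by exact_mod_cast h4
    nlinarith
  unfold Fm
  refine le_trans ?_ h1
  rw [div_le_iff₀ (by positivity)]
  have e : (((KK C N : ℝ) - Nat.sqrt (KK C N)) / Q - 1) * (4 * Q) =
      4 * ((KK C N : ℝ) - Nat.sqrt (KK C N)) - 4 * Q := by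
    field_simp
  rw [e]
  linarith

end Pool.Agent.Work.MP_73869e_nt.OW
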