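import Mathlib
import Pool.Agent.Work.MP_73869e_nt.OW.ChiB
import Pool.Agent.Work.MP_73869e_nt.OW.Fmc

set_option autoImplicit false

/-!
Module Vprod (size M). VV {k} w N = ∏ over the primes w < p ≤ zN N of (1 - nu/p), nu = 1 + chi k p (nu_chi);
Psm k δ N = primes zN N < p < pw N δ with chi k p = 1, g p = 2/p. For x = nu/p or 2/p (p > 16, x ≤ 2/17) we have
1/(1 - x) ≤ (1 + x)(1 + 8/p^2). All these primes are distinct odd primes < pw N δ (zN N < pw N δ for N large, ev_KK)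
and the remaining factors 1 + (1 + chi)/p are ≥ 1. ∏ (1 + 8/p^2) ≤ exp(8 Σ 1/p^2) ≤ C₂.
(The range k ≤ KK C N is not really needed; k ≥ 1 is, for nu_chi.)
-/

namespace Pool.Agent.Work.MP_73869e_nt.OW

open Finset Filter
open Pool.Agent.Work.MP_73869e_nt.AP (zN g nu SS VV)
open Pool.Agent.Work.MP_2dba45_nt.Sv (pw)

private lemma chi_tri (k n : ℕ) : chi k n = 0 ∨ chi k n = 1 ∨ chi k n = -1 := by
  unfold chi
  split_ifs
  · exact jacobiSym.trichotomy _ _
  · exact Or.inl rfl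

private lemma chi_ge (k n : ℕ) : (0 : ℝ) ≤ 1 + (chi k n : ℝ) := by
  rcases chi_tri k n with h | h | h <;> rw [h] <;> norm_num

private lemma chi_le (k n : ℕ) : 1 + (chi k n : ℝ) ≤ 2 := by
  rcases chi_tri k n with h | h | h <;> rw [h] <;> norm_num

private lemma vp_tail (P : ℕ) (hP : 2 ≤ P) (N : ℕ) :
    ∑ p ∈ Ico P N, (1 : ℝ) / (p : ℝ) ^ 2 ≤ 1 / ((P : ℝ) - 1) := by
  have hP' : (2 : ℝ) ≤ P := by exact_mod_cast hP
  rcases le_or_gt N P with h | h
  · rw [Finset.Ico_eq_empty (by omega), Finset.sum_empty]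
    exact div_nonneg zero_le_one (by linarith)
  · have key : ∀ n : ℕ, P ≤ n →
        ∑ p ∈ Ico P n, (1 : ℝ) / (p : ℝ) ^ 2 ≤ 1 / ((P : ℝ) - 1) - 1 / ((n : ℝ) - 1) := by
      intro n hn
      induction n, hn using Nat.le_induction with
      | base => simp
      | succ n hn ih =>
        rw [Finset.sum_Ico_succ_top hn]
        have hn' : (2 : ℝ) ≤ n := by exact_mod_cast (hP.trans hn)
        have e : (1 : ℝ) / (n : ℝ) ^ 2 ≤ 1 / ((n : ℝ) - 1) - 1 / (((n + 1 : ℕ) : ℝ) - 1) := by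
          push_cast
          rw [add_sub_cancel_right, div_sub_div _ _ (by linarith) (by linarith)]
          rw [div_le_div_iff₀ (by positivity) (mul_pos (by linarith) (by linarith))]
          nlinarith
        linarith
    have h2 := key N h.le
    have hN : (2 : ℝ) < N := by exact_mod_cast (lt_of_le_of_lt hP h)
    have h3 : 0 ≤ 1 / ((N : ℝ) - 1) := div_nonneg zero_le_one (by linarith)
    linarith

/-- the basic inequality -/
private lemma vp_fac (k p : ℕ) (hp : 17 ≤ p) :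
    0 < 1 - (1 + (chi k p : ℝ)) / p ∧ 1 - (1 + (chi k p : ℝ)) / p ≤ 1 ∧
      1 / (1 - (1 + (chi k p : ℝ)) / p) ≤
        (1 + (1 + (chi k p : ℝ)) / p) * (1 + 8 * (1 / (p : ℝ) ^ 2)) := by
  have hp' : (17 : ℝ) ≤ p := by exact_mod_cast hp
  have h0 := chi_ge k p
  have h2 := chi_le k p
  set x := (1 + (chi k p : ℝ)) / p with hx
  have hx0 : 0 ≤ x := div_nonneg h0 (by linarith)
  have hx2 : x ≤ 2 / p := div_le_div_of_nonneg_right h2 (by linarith)
  have hx3 : 2 / (p : ℝ) ≤ 2 / 17 := div_le_div_of_nonneg_left (by norm_num) (by norm_num) hp'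
  have hx1 : x < 1 := by linarith
  refine ⟨by linarith, by linarith, ?_⟩
  rw [div_le_iff₀ (by linarith)]
  set y := 1 / (p : ℝ) ^ 2 with hy
  have hy0 : 0 ≤ y := by positivity
  have hy1 : y ≤ 1 / 17 ^ 2 := by
    apply div_le_div_of_nonneg_left (by norm_num) (by norm_num)
    nlinarith
  have hxy : x ^ 2 ≤ 4 * y := by
    have h1 : x ^ 2 ≤ (2 / (p : ℝ)) ^ 2 := pow_le_pow_left₀ hx0 hx2 2
    have h3 : (2 / (p : ℝ)) ^ 2 = 4 * y := by
      rw [hy, div_pow]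
      ring
    linarith
  have e : (1 + x) * (1 + 8 * y) * (1 - x) = (1 - x ^ 2) * (1 + 8 * y) := by ring
  rw [e]
  nlinarith [mul_nonneg hy0 hy0, mul_le_mul hxy (le_refl (1 + 8 * y)) (by positivity) (by positivity)]

theorem v_prod : ∃ C₂ : ℝ, 0 < C₂ ∧ ∀ (C δ : ℝ) (w : ℕ), 0 < C → 0 < δ → δ ≤ 1 / 200 → 16 ≤ w →
    ∀ᶠ N : ℕ in atTop, ∀ k ∈ Icc 1 (KK C N),
      0 < VV {k} w N ∧ VV {k} w N ≤ 1 ∧ 0 < ∏ p ∈ Psm k δ N, (1 - g p) ∧
      ∏ p ∈ Psm k δ N, (1 - g p) ≤ 1 ∧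
      1 / (VV {k} w N * ∏ p ∈ Psm k δ N, (1 - g p)) ≤
        C₂ * ∏ p ∈ (Ioo 2 (pw N δ)).filter Nat.Prime, (1 + (1 + (chi k p : ℝ)) / p) := by
  classical
  refine ⟨Real.exp 8, Real.exp_pos 8, fun C δ w hC hδ _ hw => ?_⟩
  filter_upwards [ev_KK C δ 16 hC hδ] with N hN k hk
  obtain ⟨hN1, _, hN3, hN4, _⟩ := hN
  have hk1 : 1 ≤ k := (Finset.mem_Icc.1 hk).1
  have hs : 16 ≤ Nat.sqrt (KK C N) := by exact_mod_cast hN1
  have hKK : 16 ≤ KK C N := hs.trans (Nat.sqrt_le_self _)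
  have hz : 16 < zN N := by omega
  -- membership facts
  have hSS : ∀ p ∈ SS w N, p.Prime ∧ 17 ≤ p ∧ p ≤ zN N := by
    intro p hp
    unfold SS at hp
    rw [Finset.mem_filter, Finset.mem_Ioc] at hp
    exact ⟨hp.2, by omega, hp.1.2⟩
  have hPs : ∀ p ∈ Psm k δ N, p.Prime ∧ 17 ≤ p ∧ zN N < p ∧ p < pw N δ ∧ chi k p = 1 := by
    intro p hp
    unfold Psm PA at hp
    rw [Finset.mem_filter, Finset.mem_filter, Finset.mem_Ioo] at hp
    exact ⟨hp.1.2.1, by omega, hp.1.1.1, hp.2, hp.1.2.2⟩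
  have eVV : VV {k} w N = ∏ p ∈ SS w N, (1 - (1 + (chi k p : ℝ)) / p) := by
    unfold VV
    refine Finset.prod_congr rfl fun p hp => ?_
    have h1 := hSS p hp
    have h2 := nu_chi k p hk1 h1.1 (by omega)
    have h3 : (nu {k} p : ℝ) = 1 + (chi k p : ℝ) := by exact_mod_cast h2
    rw [h3]
  have ePs : ∏ p ∈ Psm k δ N, (1 - g p) = ∏ p ∈ Psm k δ N, (1 - (1 + (chi k p : ℝ)) / p) := by
    refine Finset.prod_congr rfl fun p hp => ?_
    have h1 := (hPs p hp).2.2.2.2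
    unfold g
    rw [h1]
    norm_num
  have hdisj : Disjoint (SS w N) (Psm k δ N) := by
    rw [Finset.disjoint_left]
    intro p hp hp'
    have h1 := (hSS p hp).2.2
    have h2 := (hPs p hp').2.2.1
    omega
  set U := SS w N ∪ Psm k δ N with hU
  have hU17 : ∀ p ∈ U, 17 ≤ p := by
    intro p hp
    rcases Finset.mem_union.1 hp with h | h
    · exact (hSS p h).2.1
    · exact (hPs p h).2.1
  have hUsub : U ⊆ (Ioo 2 (pw N δ)).filter Nat.Prime := by
    intro p hp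
    rw [Finset.mem_filter, Finset.mem_Ioo]
    rcases Finset.mem_union.1 hp with h | h
    · have h1 := hSS p h
      exact ⟨⟨by omega, by omega⟩, h1.1⟩
    · have h1 := hPs p h
      exact ⟨⟨by omega, h1.2.2.2.1⟩, h1.1⟩
  have hA : 0 < ∏ p ∈ SS w N, (1 - (1 + (chi k p : ℝ)) / p) :=
    Finset.prod_pos fun p hp => (vp_fac k p (hSS p hp).2.1).1
  have hB : 0 < ∏ p ∈ Psm k δ N, (1 - (1 + (chi k p : ℝ)) / p) :=
    Finset.prod_pos fun p hp => (vp_fac k p (hPs p hp).2.1).1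
  rw [ePs, eVV]
  refine ⟨hA, ?_, hB, ?_, ?_⟩
  · exact Finset.prod_le_one (fun p hp => (vp_fac k p (hSS p hp).2.1).1.le)
      (fun p hp => (vp_fac k p (hSS p hp).2.1).2.1)
  · exact Finset.prod_le_one (fun p hp => (vp_fac k p (hPs p hp).2.1).1.le)
      (fun p hp => (vp_fac k p (hPs p hp).2.1).2.1)
  · rw [← Finset.prod_union hdisj, ← hU]
    have e1 : 1 / ∏ p ∈ U, (1 - (1 + (chi k p : ℝ)) / p) =
        ∏ p ∈ U, 1 / (1 - (1 + (chi k p : ℝ)) / p) := by
      rw [Finset.prod_div_distrib, Finset.prod_const_one]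
    have e2 : ∏ p ∈ U, 1 / (1 - (1 + (chi k p : ℝ)) / p) ≤
        ∏ p ∈ U, ((1 + (1 + (chi k p : ℝ)) / p) * (1 + 8 * (1 / (p : ℝ) ^ 2))) := by
      refine Finset.prod_le_prod (fun p hp => ?_) fun p hp => (vp_fac k p (hU17 p hp)).2.2
      exact (div_pos one_pos (vp_fac k p (hU17 p hp)).1).le
    rw [Finset.prod_mul_distrib] at e2
    have e3 : ∏ p ∈ U, (1 + 8 * (1 / (p : ℝ) ^ 2)) ≤ Real.exp 8 := by
      have h1 : ∏ p ∈ U, (1 + 8 * (1 / (p : ℝ) ^ 2)) ≤
          Real.exp (∑ p ∈ U, 8 * (1 / (p : ℝ) ^ 2)) := by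
        rw [Real.exp_sum]
        refine Finset.prod_le_prod (fun p _ => by positivity) fun p _ => ?_
        rw [add_comm]
        exact Real.add_one_le_exp _
      refine h1.trans (Real.exp_le_exp.2 ?_)
      rw [← Finset.mul_sum]
      have h2 : ∑ p ∈ U, (1 : ℝ) / (p : ℝ) ^ 2 ≤ ∑ p ∈ Ico 2 (pw N δ), (1 : ℝ) / (p : ℝ) ^ 2 := by
        refine Finset.sum_le_sum_of_subset_of_nonneg ?_ fun p _ _ => by positivity
        intro p hp
        have h3 := Finset.mem_filter.1 (hUsub hp)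
        rw [Finset.mem_Ioo] at h3
        rw [Finset.mem_Ico]
        exact ⟨by omega, h3.1.2⟩
      have h4 := vp_tail 2 le_rfl (pw N δ)
      norm_num at h4 h2 ⊢
      linarith
    have e4 : ∏ p ∈ U, (1 + (1 + (chi k p : ℝ)) / p) ≤
        ∏ p ∈ (Ioo 2 (pw N δ)).filter Nat.Prime, (1 + (1 + (chi k p : ℝ)) / p) := by
      rw [← Finset.prod_sdiff hUsub]
      have h1 : (1 : ℝ) ≤ ∏ p ∈ (Ioo 2 (pw N δ)).filter Nat.Prime \ U,
          (1 + (1 + (chi k p : ℝ)) / p) := by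
        have h2 := Finset.prod_le_prod (s := (Ioo 2 (pw N δ)).filter Nat.Prime \ U)
          (f := fun _ => (1 : ℝ)) (g := fun p : ℕ => (1 + (1 + (chi k p : ℝ)) / p))
          (fun p _ => zero_le_one) (fun p _ => by
            have := div_nonneg (chi_ge k p) (Nat.cast_nonneg p : (0 : ℝ) ≤ p)
            linarith)
        rwa [Finset.prod_const_one] at h2
      have h3 : 0 ≤ ∏ p ∈ U, (1 + (1 + (chi k p : ℝ)) / p) :=
        Finset.prod_nonneg fun p _ => by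
          have := div_nonneg (chi_ge k p) (Nat.cast_nonneg p : (0 : ℝ) ≤ p)
          linarith
      exact le_mul_of_one_le_left h3 h1
    have e5 : 0 ≤ ∏ p ∈ U, (1 + (1 + (chi k p : ℝ)) / p) :=
      Finset.prod_nonneg fun p _ => by
        have := div_nonneg (chi_ge k p) (Nat.cast_nonneg p : (0 : ℝ) ≤ p)
        linarith
    rw [e1]
    refine e2.trans ?_
    rw [mul_comm]
    exact mul_le_mul e3 e4 e5 (Real.exp_pos 8).le

end Pool.Agent.Work.MP_73869e_nt.OW
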