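import Mathlib
import Pool.Agent.Work.MP_73869e_nt.OW.Vprod
import Pool.Agent.Work.MP_2dba45_nt.Psum

set_option autoImplicit false

/-!
Module Ckf (size S-M; compare P5/C5f.lean). V0 = ∏ over Psm of (1 - g p). V0 ≤ ThM ≤ 2 V0 ≤ 2 (BHW.main1, BHW.main2: ThM is
Σ lp d gg g d). ck = 1/(VV ThM) ≤ 1/(VV V0) ≤ C₂ ∏_{2<p<pw N δ} (1 + 2/p) ≤ C (log N)^2 ≤ (log N)^3 (Mertens: Σ_{p≤N} 1/p ≤
log log N + C). ck ≥ 1/2.
-/

namespace Pool.Agent.Work.MP_73869e_nt.OW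

open Finset Filter
open Pool.Agent.Work.MP_73869e_nt.AP (zN g nu SS VV)
open Pool.Agent.Work.MP_2dba45_nt.Sv (pw)

private theorem chi_le (k n : ℕ) : (-1 : ℝ) ≤ chi k n ∧ (chi k n : ℝ) ≤ 1 := by
  unfold chi
  split_ifs
  · rcases jacobiSym.trichotomy (-(k : ℤ)) n with h | h | h <;> rw [h] <;> norm_num
  · norm_num

private theorem prod_bd : ∃ D : ℝ, 0 < D ∧ ∀ (k N z : ℕ), 3 ≤ N → z ≤ N →
    ∏ p ∈ (Ioo 2 z).filter Nat.Prime, (1 + (1 + (chi k p : ℝ)) / p) ≤ D * Real.log N ^ 2 := by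
  obtain ⟨C₃, hC₃, hm⟩ := Pool.Agent.Work.MP_2dba45_nt.Psum.psum_one
  refine ⟨Real.exp (2 * (C₃ - Real.log (Real.log 2))), Real.exp_pos _, fun k N z hN hz => ?_⟩
  have hlN : 0 < Real.log N := Real.log_pos (by exact_mod_cast (by omega : 1 < N))
  have h1 : ∏ p ∈ (Ioo 2 z).filter Nat.Prime, (1 + (1 + (chi k p : ℝ)) / p) ≤
      ∏ p ∈ (Ioo 2 z).filter Nat.Prime, Real.exp (2 * (1 / (p : ℝ))) := by
    refine Finset.prod_le_prod (fun p hp => ?_) (fun p hp => ?_)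
    · have := (chi_le k p).1
      have h2 : 0 ≤ (1 + (chi k p : ℝ)) / p := div_nonneg (by linarith) (Nat.cast_nonneg p)
      linarith
    · have h3 := (chi_le k p).2
      have h4 : (1 + (chi k p : ℝ)) / p ≤ 2 / p :=
        div_le_div_of_nonneg_right (by linarith) (Nat.cast_nonneg p)
      have h5 := Real.add_one_le_exp (2 * (1 / (p : ℝ)))
      have h6 : 2 * (1 / (p : ℝ)) = 2 / p := by ring
      rw [h6] at h5 ⊢
      linarith
  refine h1.trans ?_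
  rw [← Real.exp_sum, ← Finset.mul_sum]
  have h2 : ∑ p ∈ (Ioo 2 z).filter Nat.Prime, 1 / (p : ℝ) ≤
      ∑ p ∈ (Ioc 2 N).filter Nat.Prime, 1 / (p : ℝ) := by
    apply Finset.sum_le_sum_of_subset_of_nonneg
    · intro p hp
      rw [Finset.mem_filter, Finset.mem_Ioo] at hp
      rw [Finset.mem_filter, Finset.mem_Ioc]
      exact ⟨⟨hp.1.1, by omega⟩, hp.2⟩
    · intro p _ _
      positivity
  have h3 := (abs_le.1 (hm 2 N le_rfl (by omega))).2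
  have h4 : Real.log N ^ 2 = Real.exp (2 * Real.log (Real.log N)) := by
    rw [two_mul, Real.exp_add, Real.exp_log hlN, sq]
  rw [h4, ← Real.exp_add]
  apply Real.exp_le_exp.2
  push_cast at h3
  linarith

theorem ck_facts (C δ : ℝ) (b w : ℕ) (hC : 0 < C) (hδ : 0 < δ) (hδ1 : δ ≤ 1 / 200) (hw : 16 ≤ w) :
    ∀ᶠ N : ℕ in atTop, ∀ lp dp : ℕ → Finset ℕ → ℝ, Env δ b N lp dp → ∀ k ∈ Icc 1 (KK C N),
      0 < ∏ p ∈ Psm k δ N, (1 - g p) ∧ ∏ p ∈ Psm k δ N, (1 - g p) ≤ ThM δ N lp k ∧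
      ThM δ N lp k ≤ 2 ∧ 0 < VV {k} w N ∧ VV {k} w N ≤ 1 ∧ 1 / 2 ≤ ck δ w N lp k ∧
      ck δ w N lp k ≤ 1 / (VV {k} w N * ∏ p ∈ Psm k δ N, (1 - g p)) ∧
      ck δ w N lp k ≤ Real.log N ^ 3 := by
  obtain ⟨C₂, hC₂, hv⟩ := v_prod
  obtain ⟨D, hD, hprod⟩ := prod_bd
  have hlog : Tendsto (fun N : ℕ => Real.log (N : ℝ)) atTop atTop :=
    Real.tendsto_log_atTop.comp tendsto_natCast_atTop_atTop
  have hpw : ∀ᶠ N : ℕ in atTop, pw N δ ≤ N := by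
    filter_upwards [eventually_ge_atTop 1] with N hN
    unfold pw
    rw [Nat.ceil_le]
    have h1 : (1 : ℝ) ≤ N := by exact_mod_cast hN
    calc (N : ℝ) ^ δ ≤ (N : ℝ) ^ (1 : ℝ) :=
          Real.rpow_le_rpow_of_exponent_le h1 (by linarith)
      _ = N := Real.rpow_one _
  filter_upwards [hv C δ w hC hδ hδ1 hw, hpw, eventually_ge_atTop 3,
    hlog.eventually_ge_atTop (C₂ * D)] with N hN hpN hN3 hL
  intro lp dp henv k hk
  obtain ⟨hVp, hVl, hV0, hV1, hG⟩ := hN k hk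
  have hE := henv k
  have hm1 : ∏ p ∈ Psm k δ N, (1 - g p) ≤ ThM δ N lp k := hE.main1
  have hm2 : ThM δ N lp k ≤ 2 * ∏ p ∈ Psm k δ N, (1 - g p) := hE.main2
  have hT : 0 < ThM δ N lp k := hV0.trans_le hm1
  have hT2 : ThM δ N lp k ≤ 2 := by linarith
  have hc1 : ck δ w N lp k ≤ 1 / (VV {k} w N * ∏ p ∈ Psm k δ N, (1 - g p)) := by
    show 1 / (VV {k} w N * ThM δ N lp k) ≤ _
    apply one_div_le_one_div_of_le (by positivity)
    gcongr
  refine ⟨hV0, hm1, hT2, hVp, hVl, ?_, hc1, hc1.trans (hG.trans ?_)⟩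
  · show 1 / 2 ≤ 1 / (VV {k} w N * ThM δ N lp k)
    apply one_div_le_one_div_of_le (by positivity)
    nlinarith
  · have h1 := hprod k N (pw N δ) hN3 hpN
    have hlN : 0 < Real.log N := Real.log_pos (by exact_mod_cast (by omega : 1 < N))
    calc C₂ * ∏ p ∈ (Ioo 2 (pw N δ)).filter Nat.Prime, (1 + (1 + (chi k p : ℝ)) / p)
        ≤ C₂ * (D * Real.log N ^ 2) := mul_le_mul_of_nonneg_left h1 hC₂.le
      _ = (C₂ * D) * Real.log N ^ 2 := by ring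
      _ ≤ Real.log N * Real.log N ^ 2 := mul_le_mul_of_nonneg_right hL (by positivity)
      _ = Real.log N ^ 3 := by ring

end Pool.Agent.Work.MP_73869e_nt.OW
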