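import Mathlib
import Pool.Agent.Work.MP_73869e_nt.OW.Defs

set_option autoImplicit false

/-!
Module AvgA (size S-M). k ↦ chi k e = jacobiSym (-k) e is periodic mod e and its sum over a period is 0:
there is a unit u mod e with jacobiSym u e = -1 (e = p^(2i+1) m with p prime, p ∤ m, since e is not a square:
u ≡ a nonresidue mod p, u ≡ 1 mod m), and k ↦ u k permutes Z/e. So every interval sum is at most e in absolute value.
-/

namespace Pool.Agent.Work.MP_73869e_nt.OW

open Finset

private theorem odd_fact (e : ℕ) (he0 : e ≠ 0) (hsq : ¬ IsSquare e) :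
    ∃ p : ℕ, p.Prime ∧ Odd (e.factorization p) := by
  obtain ⟨a, b, h, ha⟩ := Nat.sq_mul_squarefree e
  have ha1 : a ≠ 1 := by
    rintro rfl
    exact hsq ⟨b, by rw [← h]; ring⟩
  have hb0 : b ≠ 0 := by
    rintro rfl
    apply he0
    rw [← h]; simp
  have ha0 : a ≠ 0 := ha.ne_zero
  have hp := Nat.minFac_prime ha1
  refine ⟨a.minFac, hp, ?_⟩
  have h1 : a.factorization a.minFac = 1 := by
    apply le_antisymm (ha.natFactorization_le_one _)
    exact (hp.dvd_iff_one_le_factorization ha0).1 (Nat.minFac_dvd a)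
  rw [← h, Nat.factorization_mul (pow_ne_zero 2 hb0) ha0, Nat.factorization_pow]
  simp only [Finsupp.coe_add, Finsupp.coe_smul, Pi.add_apply, Pi.smul_apply, smul_eq_mul, h1]
  exact ⟨_, rfl⟩

private theorem exists_neg (e : ℕ) (he : Odd e) (hsq : ¬ IsSquare e) :
    ∃ u : ℕ, Nat.Coprime u e ∧ jacobiSym (u : ℤ) e = -1 := by
  have he0 : e ≠ 0 := by rintro rfl; simp at he
  obtain ⟨p, hp, hodd⟩ := odd_fact e he0 hsq
  have : Fact p.Prime := ⟨hp⟩
  have hpe : p ∣ e := by
    rw [hp.dvd_iff_one_le_factorization he0]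
    obtain ⟨j, hj⟩ := hodd
    omega
  have hp2 : p ≠ 2 := by
    rintro rfl
    exact (Nat.not_even_iff_odd.2 he) (even_iff_two_dvd.2 hpe)
  have hch : ringChar (ZMod p) ≠ 2 := by
    rw [ZMod.ringChar_zmod_n]; exact hp2
  obtain ⟨g, hg⟩ := quadraticChar_exists_neg_one hch
  set n := e.factorization p with hn
  set m := e / p ^ n with hm
  have hem : e = p ^ n * m := (Nat.ordProj_mul_ordCompl_eq_self e p).symm
  have hcop : Nat.Coprime p m := Nat.coprime_ordCompl hp he0
  obtain ⟨u, hu1, hu2⟩ := Nat.chineseRemainder hcop g.val 1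
  have hjp : jacobiSym (u : ℤ) p = -1 := by
    rw [← jacobiSym.legendreSym.to_jacobiSym, legendreSym]
    have : ((u : ℤ) : ZMod p) = g := by
      have := (ZMod.natCast_eq_natCast_iff _ _ _).2 hu1
      rw [Int.cast_natCast, this, ZMod.natCast_zmod_val]
    rw [this, hg]
  have hjm : jacobiSym (u : ℤ) m = 1 := by
    have h1 : (u : ℤ) % (m : ℤ) = 1 % (m : ℤ) := by
      have := hu2
      unfold Nat.ModEq at this
      exact_mod_cast this
    rw [jacobiSym.mod_left, h1, ← jacobiSym.mod_left, jacobiSym.one_left]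
  refine ⟨u, ?_, ?_⟩
  · have hup : Nat.Coprime u p := by
      rw [Nat.coprime_comm, hp.coprime_iff_not_dvd]
      intro hd
      have : jacobiSym (u : ℤ) p = 0 := by
        rw [jacobiSym.eq_zero_iff]
        refine ⟨hp.ne_zero, ?_⟩
        rw [Int.gcd_natCast_natCast]
        intro hc
        have := Nat.dvd_gcd hd (dvd_refl p)
        rw [hc] at this
        exact hp.one_lt.ne' (Nat.dvd_one.1 this)
      rw [hjp] at this
      norm_num at this
    have hum : Nat.Coprime u m := by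
      have := Nat.ModEq.gcd_eq hu2
      rw [Nat.gcd_one_left] at this
      exact this
    rw [hem]
    exact (Nat.Coprime.pow_right _ hup).mul_right hum
  · have hm0 : m ≠ 0 := by
      rintro h0
      rw [h0, mul_zero] at hem
      exact he0 hem
    have : NeZero m := ⟨hm0⟩
    have : NeZero (p ^ n) := ⟨pow_ne_zero _ hp.ne_zero⟩
    rw [hem, jacobiSym.mul_right, jacobiSym.pow_right, hjp, hjm, mul_one]
    exact hodd.neg_one_pow

private theorem per_sum (e : ℕ) (he : Odd e) (hsq : ¬ IsSquare e) :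
    ∑ k ∈ range e, jacobiSym (-(k : ℤ)) e = 0 := by
  obtain ⟨u, hu, hj⟩ := exists_neg e he hsq
  obtain ⟨m, rfl⟩ : ∃ m, e = m + 1 := by
    have he0 : e ≠ 0 := by rintro rfl; simp at he
    exact Nat.exists_eq_succ_of_ne_zero he0
  have h0 : ∑ k ∈ range (m + 1), jacobiSym (-(k : ℤ)) (m + 1) =
      ∑ a : ZMod (m + 1), jacobiSym (-(a.val : ℤ)) (m + 1) :=
    Finset.sum_range (fun k => jacobiSym (-(k : ℤ)) (m + 1))
  rw [h0]
  have h1 := Equiv.sum_comp (Units.mulLeft (ZMod.unitOfCoprime u hu))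
    (fun a : ZMod (m + 1) => jacobiSym (-(a.val : ℤ)) (m + 1))
  have h2 : ∀ a : ZMod (m + 1),
      jacobiSym (-((Units.mulLeft (ZMod.unitOfCoprime u hu) a).val : ℤ)) (m + 1) =
        - jacobiSym (-(a.val : ℤ)) (m + 1) := by
    intro a
    have h3 : (-((Units.mulLeft (ZMod.unitOfCoprime u hu) a).val : ℤ)) % ((m + 1 : ℕ) : ℤ) =
        ((u : ℤ) * (-(a.val : ℤ))) % ((m + 1 : ℕ) : ℤ) := by
      rw [← ZMod.intCast_eq_intCast_iff']
      push_cast
      rw [Units.mulLeft_apply, ZMod.coe_unitOfCoprime]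
      simp
    rw [jacobiSym.mod_left, h3, ← jacobiSym.mod_left, jacobiSym.mul_left, hj]
    ring
  simp only [h2, Finset.sum_neg_distrib] at h1
  omega

private theorem per_shift (e : ℕ) (he : Odd e) (hsq : ¬ IsSquare e) (s : ℕ) :
    ∑ k ∈ range e, jacobiSym (-((s + k : ℕ) : ℤ)) e = 0 := by
  induction s with
  | zero => simpa using per_sum e he hsq
  | succ s ih =>
    have h1 := Finset.sum_range_succ' (fun k => jacobiSym (-((s + k : ℕ) : ℤ)) e) e
    have h2 := Finset.sum_range_succ (fun k => jacobiSym (-((s + k : ℕ) : ℤ)) e) e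
    have h3 : jacobiSym (-((s + e : ℕ) : ℤ)) e = jacobiSym (-((s + 0 : ℕ) : ℤ)) e := by
      have : (-((s + e : ℕ) : ℤ)) % (e : ℤ) = (-((s + 0 : ℕ) : ℤ)) % (e : ℤ) := by
        push_cast
        rw [show -((s : ℤ) + e) = -(s + 0) + e * (-1) by ring, Int.add_mul_emod_self_left]
      rw [jacobiSym.mod_left, this, ← jacobiSym.mod_left]
    have h4 : ∀ k, s + 1 + k = s + (k + 1) := fun k => by ring
    simp only [h4]
    rw [h2, ih, h3] at h1
    linarith

private theorem int_sum (e : ℕ) (he : Odd e) (hsq : ¬ IsSquare e) (K : ℕ) :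
    |∑ k ∈ range K, jacobiSym (-((1 + k : ℕ) : ℤ)) e| ≤ e := by
  induction K using Nat.strong_induction_on with
  | _ K ih =>
    rcases Nat.lt_or_ge K e with h | h
    · have h1 : ∀ k ∈ range K, |jacobiSym (-((1 + k : ℕ) : ℤ)) e| ≤ 1 := by
        intro k _
        rcases jacobiSym.trichotomy (-((1 + k : ℕ) : ℤ)) e with h | h | h <;> rw [h] <;> norm_num
      calc |∑ k ∈ range K, jacobiSym (-((1 + k : ℕ) : ℤ)) e|
          ≤ ∑ k ∈ range K, |jacobiSym (-((1 + k : ℕ) : ℤ)) e| := Finset.abs_sum_le_sum_abs _ _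
        _ ≤ ∑ _k ∈ range K, (1 : ℤ) := Finset.sum_le_sum h1
        _ ≤ e := by simp; exact h.le
    · have he0 : 0 < e := he.pos
      obtain ⟨t, rfl⟩ := Nat.exists_eq_add_of_le' h
      rw [Finset.sum_range_add]
      have := per_shift e he hsq (1 + t)
      simp only [← add_assoc]
      rw [this, add_zero]
      exact ih t (by omega)

theorem jac_sum (K e : ℕ) (he : Odd e) (hsq : ¬ IsSquare e) :
    |∑ k ∈ Icc 1 K, (chi k e : ℝ)| ≤ e := by
  have h1 : ∑ k ∈ Icc 1 K, (chi k e : ℝ) =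
      ((∑ k ∈ range K, jacobiSym (-((1 + k : ℕ) : ℤ)) e : ℤ) : ℝ) := by
    have h2 : Icc 1 K = Ico 1 (K + 1) := by
      ext x; simp only [Finset.mem_Icc, Finset.mem_Ico]; omega
    rw [h2, Finset.sum_Ico_eq_sum_range]
    push_cast
    apply Finset.sum_congr rfl
    intro k _
    unfold chi
    rw [if_pos he]
    push_cast
    rfl
  rw [h1, ← Int.cast_abs]
  exact_mod_cast int_sum e he hsq K

end Pool.Agent.Work.MP_73869e_nt.OW
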