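import Mathlib
import Pool.Agent.Work.MP_73869e_nt.OW.AvgA
import Pool.Agent.Work.MP_73869e_nt.OW.ChiA

set_option autoImplicit false

/-!
Module AvgB (size M). Σ_{n≤Y} rr k n/n = Σ_{e≤Y} chi k e f(e), f e = (Σ_{m ≤ Y/e} 1/m)/e, which is nonnegative, antitone
and ≤ (1 + log Y)/e. For e > K: chi_abel, at most 4 k f(K+1) ≤ 4 (1 + log Y) for each k ≤ K. For e ≤ min K Y
sum over k first: e even 0; e an odd square ≤ K, with Σ over squares of 1/e ≤ 2; e odd, not a square: ≤ e (jac_sum),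
Σ_{e≤K} (1 + log Y)/e * e ≤ K (1 + log Y). Total ≤ 7 K (1 + log Y).
-/

namespace Pool.Agent.Work.MP_73869e_nt.OW

open Finset

private noncomputable def ff (Y e : ℕ) : ℝ := (∑ m ∈ Ioc 0 (Y / e), (1 : ℝ) / m) / e

private theorem rr_expand (k Y : ℕ) :
    ∑ n ∈ Ioc 0 Y, (rr k n : ℝ) / n = ∑ e ∈ Ioc 0 Y, (chi k e : ℝ) * ff Y e := by
  have h1 : ∀ n ∈ Ioc 0 Y, (rr k n : ℝ) / n = ∑ d ∈ n.divisors, (chi k d : ℝ) / n := by
    intro n _
    unfold rr
    push_cast
    rw [Finset.sum_div]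
  rw [Finset.sum_congr rfl h1]
  rw [Finset.sum_comm' (t' := Ioc 0 Y) (s' := fun d => (Ioc 0 Y).filter (fun n => d ∣ n))]
  · apply Finset.sum_congr rfl
    intro d hd
    rw [Finset.mem_Ioc] at hd
    have hd0 : 0 < d := hd.1
    have h2 : ∑ n ∈ (Ioc 0 Y).filter (fun n => d ∣ n), (chi k d : ℝ) / n =
        ∑ m ∈ Ioc 0 (Y / d), (chi k d : ℝ) / ((d * m : ℕ) : ℝ) := by
      symm
      apply Finset.sum_bij' (fun m _ => d * m) (fun n _ => n / d)
      · intro m hm
        rw [Finset.mem_Ioc] at hm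
        rw [Finset.mem_filter, Finset.mem_Ioc]
        refine ⟨⟨Nat.mul_pos hd0 hm.1, ?_⟩, dvd_mul_right _ _⟩
        calc d * m ≤ d * (Y / d) := Nat.mul_le_mul_left _ hm.2
          _ ≤ Y := Nat.mul_div_le _ _
      · intro n hn
        rw [Finset.mem_filter, Finset.mem_Ioc] at hn
        rw [Finset.mem_Ioc]
        exact ⟨Nat.div_pos (Nat.le_of_dvd hn.1.1 hn.2) hd0, Nat.div_le_div_right hn.1.2⟩
      · intro m _
        exact Nat.mul_div_cancel_left m hd0
      · intro n hn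
        rw [Finset.mem_filter] at hn
        exact Nat.mul_div_cancel' hn.2
      · intro m _
        rfl
    rw [h2]
    unfold ff
    rw [Finset.sum_div, Finset.mul_sum]
    apply Finset.sum_congr rfl
    intro m hm
    rw [Finset.mem_Ioc] at hm
    have hm0 : (m : ℝ) ≠ 0 := by
      have : 0 < m := hm.1
      positivity
    have hd0' : (d : ℝ) ≠ 0 := by positivity
    push_cast
    field_simp
  · intro n d
    rw [Finset.mem_filter, Finset.mem_Ioc, Finset.mem_Ioc, Nat.mem_divisors]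
    constructor
    · rintro ⟨⟨h1, h2⟩, h3, _⟩
      exact ⟨⟨⟨h1, h2⟩, h3⟩, Nat.pos_of_dvd_of_pos h3 h1, (Nat.le_of_dvd h1 h3).trans h2⟩
    · rintro ⟨⟨⟨h1, h2⟩, h3⟩, _⟩
      exact ⟨⟨h1, h2⟩, h3, by omega⟩

private theorem ff_nonneg (Y e : ℕ) : 0 ≤ ff Y e := by
  unfold ff
  positivity

private theorem ff_anti (Y m n : ℕ) (hm : 0 < m) (hmn : m ≤ n) : ff Y n ≤ ff Y m := by
  unfold ff
  have h1 : ∑ i ∈ Ioc 0 (Y / n), (1 : ℝ) / i ≤ ∑ i ∈ Ioc 0 (Y / m), (1 : ℝ) / i := by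
    apply Finset.sum_le_sum_of_subset_of_nonneg
    · exact Finset.Ioc_subset_Ioc_right (Nat.div_le_div_left hmn hm)
    · intro i _ _
      positivity
  have h2 : (0 : ℝ) < m := by exact_mod_cast hm
  have h3 : (m : ℝ) ≤ n := by exact_mod_cast hmn
  apply div_le_div₀ _ h1 h2 h3
  positivity

private theorem ff_le (Y e : ℕ) (_hY : 1 ≤ Y) : ff Y e ≤ (1 + Real.log Y) / e := by
  unfold ff
  have h1 : ∑ m ∈ Ioc 0 (Y / e), (1 : ℝ) / m ≤ 1 + Real.log (Y / e : ℕ) := by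
    have h := harmonic_le_one_add_log (Y / e)
    rw [harmonic_eq_sum_Icc] at h
    push_cast at h
    refine le_trans (le_of_eq ?_) h
    have : Ioc 0 (Y / e) = Icc 1 (Y / e) := by
      ext x
      simp only [Finset.mem_Ioc, Finset.mem_Icc]
      omega
    rw [this]
    apply Finset.sum_congr rfl
    intro m _
    rw [one_div]
  have h2 : Real.log (Y / e : ℕ) ≤ Real.log Y := by
    rcases Nat.eq_zero_or_pos (Y / e) with h | h
    · rw [h, Nat.cast_zero, Real.log_zero]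
      exact Real.log_natCast_nonneg Y
    · apply Real.log_le_log
      · exact_mod_cast h
      · exact_mod_cast Nat.div_le_self Y e
  apply div_le_div_of_nonneg_right (h1.trans (by linarith))
  positivity

private theorem sq_sum (M : ℕ) : ∑ e ∈ (Ioc 0 M).filter (fun e => IsSquare e), (1 : ℝ) / e ≤ 2 := by
  classical
  have h1 : (Ioc 0 M).filter (fun e => IsSquare e) ⊆ (Ioo 0 (M + 1)).image (fun s : ℕ => (s ^ 2 : ℕ)) := by
    intro e he
    rw [Finset.mem_filter, Finset.mem_Ioc] at he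
    obtain ⟨⟨h1, h2⟩, s, hs⟩ := he
    rw [Finset.mem_image]
    refine ⟨s, ?_, by rw [hs]; ring⟩
    rw [Finset.mem_Ioo]
    constructor
    · rcases Nat.eq_zero_or_pos s with h | h
      · rw [h] at hs; omega
      · exact h
    · have : s ≤ s * s := Nat.le_mul_self s
      omega
  have h2 : ∑ e ∈ (Ioc 0 M).filter (fun e => IsSquare e), (1 : ℝ) / e ≤
      ∑ e ∈ (Ioo 0 (M + 1)).image (fun s : ℕ => (s ^ 2 : ℕ)), (1 : ℝ) / ((e : ℕ) : ℝ) := by
    apply Finset.sum_le_sum_of_subset_of_nonneg h1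
    intro i _ _
    positivity
  have h3 : ∑ e ∈ (Ioo 0 (M + 1)).image (fun s : ℕ => (s ^ 2 : ℕ)), (1 : ℝ) / ((e : ℕ) : ℝ) =
      ∑ s ∈ Ioo 0 (M + 1), ((s : ℝ) ^ 2)⁻¹ := by
    rw [Finset.sum_image]
    · apply Finset.sum_congr rfl
      intro s _
      push_cast
      rw [one_div]
    · intro a _ b _ hab
      exact Nat.pow_left_injective (by norm_num : (2 : ℕ) ≠ 0) hab
  have h4 := sum_Ioo_inv_sq_le (α := ℝ) 0 (M + 1)
  rw [h3] at h2
  refine h2.trans (h4.trans ?_)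
  norm_num

private theorem tail_part (K Y k : ℕ) (hY : 1 ≤ Y) (hk : k ∈ Icc 1 K) :
    ∑ e ∈ Ioc (min K Y) Y, (chi k e : ℝ) * ff Y e ≤ 4 * (1 + Real.log Y) := by
  rw [Finset.mem_Icc] at hk
  have hL : 0 ≤ 1 + Real.log Y := by
    have := Real.log_natCast_nonneg Y
    linarith
  have hK : (0 : ℝ) < (K : ℝ) + 1 := by positivity
  have h := chi_abel k (min K Y) Y hk.1 (ff Y) ((1 + Real.log Y) / (K + 1)) (by positivity)
    (fun m n h1 h2 _ => ff_anti Y m n (by omega) h2) (fun n _ _ => ff_nonneg Y n) (by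
      intro n h1 h2
      have h3 : K < n := by omega
      refine (ff_le Y n hY).trans ?_
      apply div_le_div_of_nonneg_left hL hK
      exact_mod_cast h3)
  refine (le_abs_self _).trans (h.trans ?_)
  have hk' : (k : ℝ) ≤ K := by exact_mod_cast hk.2
  rw [mul_div_assoc', div_le_iff₀ hK]
  nlinarith

private theorem head_term (K Y e : ℕ) (hY : 1 ≤ Y) (he : e ∈ Ioc 0 (min K Y)) :
    ff Y e * ∑ k ∈ Icc 1 K, (chi k e : ℝ) ≤
      (1 + Real.log Y) * (if IsSquare e then (K : ℝ) * (1 / e) else 0) + (1 + Real.log Y) := by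
  rw [Finset.mem_Ioc] at he
  have hL : 0 ≤ 1 + Real.log Y := by
    have := Real.log_natCast_nonneg Y
    linarith
  have he0 : (0 : ℝ) < e := by exact_mod_cast he.1
  have h1 := ff_le Y e hY
  have h0 := ff_nonneg Y e
  by_cases hsq : IsSquare e
  · rw [if_pos hsq]
    have h2 : ∑ k ∈ Icc 1 K, (chi k e : ℝ) ≤ K := by
      calc ∑ k ∈ Icc 1 K, (chi k e : ℝ) ≤ ∑ _k ∈ Icc 1 K, (1 : ℝ) := by
            apply Finset.sum_le_sum
            intro k _
            have := (abs_le.1 (chi_abs k e)).2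
            exact_mod_cast this
        _ = K := by simp
    calc ff Y e * ∑ k ∈ Icc 1 K, (chi k e : ℝ) ≤ ff Y e * K := mul_le_mul_of_nonneg_left h2 h0
      _ ≤ (1 + Real.log Y) / e * K := mul_le_mul_of_nonneg_right h1 (by positivity)
      _ = (1 + Real.log Y) * ((K : ℝ) * (1 / e)) := by ring
      _ ≤ _ := by linarith
  · rw [if_neg hsq, mul_zero, zero_add]
    by_cases hodd : Odd e
    · have h2 := (abs_le.1 (jac_sum K e hodd hsq)).2
      calc ff Y e * ∑ k ∈ Icc 1 K, (chi k e : ℝ) ≤ ff Y e * e := mul_le_mul_of_nonneg_left h2 h0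
        _ ≤ (1 + Real.log Y) / e * e := mul_le_mul_of_nonneg_right h1 he0.le
        _ = 1 + Real.log Y := by field_simp
    · have h2 : ∑ k ∈ Icc 1 K, (chi k e : ℝ) = 0 := by
        apply Finset.sum_eq_zero
        intro k _
        unfold chi
        rw [if_neg hodd, Int.cast_zero]
      rw [h2, mul_zero]
      exact hL

theorem avg_rr (K Y : ℕ) (hY : 1 ≤ Y) :
    ∑ k ∈ Icc 1 K, ∑ n ∈ Ioc 0 Y, (rr k n : ℝ) / n ≤ 8 * K * (1 + Real.log Y) := by
  have hL : 0 ≤ 1 + Real.log Y := by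
    have := Real.log_natCast_nonneg Y
    linarith
  have h1 : ∀ k ∈ Icc 1 K, ∑ n ∈ Ioc 0 Y, (rr k n : ℝ) / n ≤
      ∑ e ∈ Ioc 0 (min K Y), (chi k e : ℝ) * ff Y e + 4 * (1 + Real.log Y) := by
    intro k hk
    rw [rr_expand, ← Finset.sum_Ioc_consecutive _ (Nat.zero_le (min K Y)) (Nat.min_le_right K Y)]
    have := tail_part K Y k hY hk
    linarith
  refine (Finset.sum_le_sum h1).trans ?_
  rw [Finset.sum_add_distrib, Finset.sum_comm]
  have h2 : ∀ e ∈ Ioc 0 (min K Y), ∑ k ∈ Icc 1 K, (chi k e : ℝ) * ff Y e ≤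
      (1 + Real.log Y) * (if IsSquare e then (K : ℝ) * (1 / e) else 0) + (1 + Real.log Y) := by
    intro e he
    have h3 := head_term K Y e hY he
    rw [← Finset.sum_mul, mul_comm]
    exact h3
  have h4 := Finset.sum_le_sum h2
  rw [Finset.sum_add_distrib, ← Finset.mul_sum, ← Finset.sum_filter, ← Finset.mul_sum] at h4
  have h5 := sq_sum (min K Y)
  have h6 : ∑ _e ∈ Ioc 0 (min K Y), (1 + Real.log Y) ≤ K * (1 + Real.log Y) := by
    rw [Finset.sum_const, Nat.card_Ioc, nsmul_eq_mul]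
    apply mul_le_mul_of_nonneg_right _ hL
    have : min K Y - 0 ≤ K := by omega
    exact_mod_cast this
  have h7 : ∑ _k ∈ Icc 1 K, 4 * (1 + Real.log Y) = K * (4 * (1 + Real.log Y)) := by
    rw [Finset.sum_const, Nat.card_Icc, nsmul_eq_mul]
    simp
  rw [h7]
  have hK : (0 : ℝ) ≤ K := by positivity
  have h8 : (1 + Real.log Y) *
      ((K : ℝ) * ∑ e ∈ (Ioc 0 (min K Y)).filter (fun e => IsSquare e), (1 : ℝ) / e) ≤
      (1 + Real.log Y) * ((K : ℝ) * 2) :=
    mul_le_mul_of_nonneg_left (mul_le_mul_of_nonneg_left h5 hK) hL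
  have h9 : 0 ≤ (K : ℝ) * (1 + Real.log Y) := mul_nonneg hK hL
  nlinarith

end Pool.Agent.Work.MP_73869e_nt.OW
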