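import Mathlib
import Pool.Agent.Work.MP_73869e_nt.OW.ChiB
import Pool.Agent.Work.MP_2dba45_nt.Mert

set_option autoImplicit false

/-!
Module RankA (size M). Rankin's trick; compare P5/V0G.lean. Let P = the odd primes < y, f p = (1 + chi k p)/p ≥ 0. Then
∏ (1 + f p) = Σ over T ⊆ P of ∏_T f p = Σ_T rr k (∏ T)/∏ T (rr_sqfree). The T with ∏ T ≤ y^A give at most
Σ_{n ≤ y^A} rr k n/n (n = ∏ T distinct, rr ≥ 0). The others: ≤ y^(-A s) ∏ (1 + f p p^s) with s = 1/log y, y^(-As) = exp(-A),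
1 + f p p^s ≤ (1 + f p)(1 + f p (p^s - 1)), p^s - 1 ≤ 2 log p/log y, Σ_{p<y} f p (p^s - 1) ≤ 4 Σ_{p<y} log p/(p log y) ≤ 4 (1 + C/log 2)
(mertens_one). So for a constant A the tail is at most half of the product.
-/

namespace Pool.Agent.Work.MP_73869e_nt.OW

open Finset

private theorem ra_one_add (P : Finset ℕ) (h : ℕ → ℝ) (s R : ℝ) (hR : 0 < R) (hs : 0 ≤ s)
    (h0 : ∀ p ∈ P, 0 ≤ h p) (h1 : ∀ p ∈ P, 1 ≤ p) :
    ∑ T ∈ P.powerset.filter (fun T => ¬ ((∏ p ∈ T, p : ℕ) : ℝ) ≤ R), ∏ p ∈ T, h p ≤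
      R ^ (-s) * ((∏ p ∈ P, (1 + h p)) * Real.exp (∑ p ∈ P, h p * ((p : ℝ) ^ s - 1))) := by
  have hRs : 0 < R ^ (-s) := Real.rpow_pos_of_pos hR _
  have hps : ∀ p ∈ P, 1 ≤ (p : ℝ) ^ s := fun p hp =>
    Real.one_le_rpow (by exact_mod_cast h1 p hp) hs
  have e1 : ∀ T ∈ P.powerset.filter (fun T => ¬ ((∏ p ∈ T, p : ℕ) : ℝ) ≤ R), ∏ p ∈ T, h p ≤
      R ^ (-s) * ∏ p ∈ T, (h p * (p : ℝ) ^ s) := by
    intro T hT
    rw [Finset.mem_filter, Finset.mem_powerset] at hT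
    have a1 : 0 ≤ ∏ p ∈ T, h p := Finset.prod_nonneg fun p hp => h0 p (hT.1 hp)
    have a2 : ∏ p ∈ T, (p : ℝ) ^ s = ((∏ p ∈ T, p : ℕ) : ℝ) ^ s := by
      push_cast
      exact Real.finsetProd_rpow T (fun p => (p : ℝ)) (fun p _ => Nat.cast_nonneg p) s
    rw [Finset.prod_mul_distrib, a2]
    have a3 : R ^ s ≤ ((∏ p ∈ T, p : ℕ) : ℝ) ^ s :=
      Real.rpow_le_rpow hR.le (le_of_lt (not_le.1 hT.2)) hs
    have a4 : R ^ (-s) * R ^ s = 1 := by
      rw [← Real.rpow_add hR, neg_add_cancel, Real.rpow_zero]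
    calc ∏ p ∈ T, h p = (∏ p ∈ T, h p) * (R ^ (-s) * R ^ s) := by rw [a4, mul_one]
      _ ≤ (∏ p ∈ T, h p) * (R ^ (-s) * ((∏ p ∈ T, p : ℕ) : ℝ) ^ s) :=
          mul_le_mul_of_nonneg_left (mul_le_mul_of_nonneg_left a3 hRs.le) a1
      _ = _ := by ring
  refine (Finset.sum_le_sum e1).trans ?_
  rw [← Finset.mul_sum]
  refine mul_le_mul_of_nonneg_left ?_ hRs.le
  have e2 : ∑ T ∈ P.powerset.filter (fun T => ¬ ((∏ p ∈ T, p : ℕ) : ℝ) ≤ R),
      ∏ p ∈ T, (h p * (p : ℝ) ^ s) ≤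
      ∑ T ∈ P.powerset, ∏ p ∈ T, (h p * (p : ℝ) ^ s) := by
    refine Finset.sum_le_sum_of_subset_of_nonneg (Finset.filter_subset _ _) fun T hT _ => ?_
    rw [Finset.mem_powerset] at hT
    exact Finset.prod_nonneg fun p hp =>
      mul_nonneg (h0 p (hT hp)) (by linarith [hps p (hT hp)])
  refine e2.trans ?_
  rw [← Finset.prod_one_add, Real.exp_sum, ← Finset.prod_mul_distrib]
  refine Finset.prod_le_prod (fun p hp => ?_) fun p hp => ?_
  · have := h0 p hp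
    have := hps p hp
    nlinarith
  · have a1 := h0 p hp
    have a2 := hps p hp
    have a3 := Real.add_one_le_exp (h p * ((p : ℝ) ^ s - 1))
    have a4 : 0 ≤ h p * ((p : ℝ) ^ s - 1) := mul_nonneg a1 (by linarith)
    have a5 : 1 + h p * (p : ℝ) ^ s ≤ (1 + h p) * (1 + h p * ((p : ℝ) ^ s - 1)) := by
      have e : (1 + h p) * (1 + h p * ((p : ℝ) ^ s - 1)) =
          1 + h p * (p : ℝ) ^ s + h p * (h p * ((p : ℝ) ^ s - 1)) := by ring
      rw [e]
      have := mul_nonneg a1 a4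
      linarith
    refine a5.trans (mul_le_mul_of_nonneg_left ?_ (by linarith))
    linarith

theorem rank_a : ∃ A : ℕ, 1 ≤ A ∧ ∀ k y : ℕ, 2 ≤ y →
    ∏ p ∈ (Ioo 2 y).filter Nat.Prime, (1 + (1 + (chi k p : ℝ)) / p) ≤
      2 * ∑ n ∈ Ioc 0 (y ^ A), (rr k n : ℝ) / n := by
  classical
  obtain ⟨C, hC⟩ := Pool.Agent.Work.MP_2dba45_nt.Mert.mertens_one
  have hC0 : 0 ≤ C := (abs_nonneg _).trans (hC 1 one_pos)
  have hl2 : 0 < Real.log 2 := Real.log_pos (by norm_num)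
  refine ⟨⌈4 + 4 * C / Real.log 2⌉₊ + 1, by omega, ?_⟩
  intro k y hy
  obtain ⟨A, hA⟩ : ∃ A, A = ⌈4 + 4 * C / Real.log 2⌉₊ + 1 := ⟨_, rfl⟩
  rw [← hA]
  have hA1 : 4 + 4 * C / Real.log 2 + 1 ≤ (A : ℝ) := by
    rw [hA]
    push_cast
    have := Nat.le_ceil (4 + 4 * C / Real.log 2)
    linarith
  have hy0 : (0 : ℝ) < y := by
    have : 0 < y := by omega
    exact_mod_cast this
  have hy2 : (2 : ℝ) ≤ y := by exact_mod_cast hy
  obtain ⟨L, hL⟩ : ∃ L, L = Real.log y := ⟨_, rfl⟩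
  have hL2 : Real.log 2 ≤ L := by
    rw [hL]
    exact Real.log_le_log (by norm_num) hy2
  have hL0 : 0 < L := by linarith
  obtain ⟨P, hP⟩ : ∃ P, P = (Ioo 2 y).filter Nat.Prime := ⟨_, rfl⟩
  rw [← hP]
  have hmem : ∀ p ∈ P, 2 < p ∧ p < y ∧ p.Prime := by
    intro p hp
    rw [hP, Finset.mem_filter, Finset.mem_Ioo] at hp
    exact ⟨hp.1.1, hp.1.2, hp.2⟩
  have hp2 : ∀ p ∈ P, (2 : ℝ) ≤ p := by
    intro p hp
    exact_mod_cast (hmem p hp).1.le
  have hchi : ∀ p, -1 ≤ (chi k p : ℝ) ∧ (chi k p : ℝ) ≤ 1 := by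
    intro p
    have h1 := abs_le.1 (chi_abs k p)
    constructor
    · exact_mod_cast h1.1
    · exact_mod_cast h1.2
  obtain ⟨h, hh⟩ : ∃ h : ℕ → ℝ, h = fun p => (1 + (chi k p : ℝ)) / p := ⟨_, rfl⟩
  have hh0 : ∀ p ∈ P, 0 ≤ h p := by
    intro p hp
    rw [hh]
    have := (hchi p).1
    have := hp2 p hp
    exact div_nonneg (by linarith) (by linarith)
  have hh1 : ∀ p ∈ P, h p ≤ 2 / p := by
    intro p hp
    rw [hh]
    have := (hchi p).2
    have := hp2 p hp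
    exact div_le_div_of_nonneg_right (by linarith) (by linarith)
  have hgoal : ∏ p ∈ P, (1 + (1 + (chi k p : ℝ)) / p) = ∏ p ∈ P, (1 + h p) := by
    rw [hh]
  rw [hgoal]
  obtain ⟨R, hR⟩ : ∃ R : ℝ, R = (y : ℝ) ^ A := ⟨_, rfl⟩
  have hR0 : 0 < R := by
    rw [hR]
    positivity
  have hsplit : ∏ p ∈ P, (1 + h p) =
      ∑ T ∈ P.powerset.filter (fun T => ((∏ p ∈ T, p : ℕ) : ℝ) ≤ R), ∏ p ∈ T, h p +
      ∑ T ∈ P.powerset.filter (fun T => ¬ ((∏ p ∈ T, p : ℕ) : ℝ) ≤ R), ∏ p ∈ T, h p := by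
    rw [Finset.prod_one_add, Finset.sum_filter_add_sum_filter_not]
  -- the small sets
  have hS1 : ∑ T ∈ P.powerset.filter (fun T => ((∏ p ∈ T, p : ℕ) : ℝ) ≤ R), ∏ p ∈ T, h p ≤
      ∑ n ∈ Ioc 0 (y ^ A), (rr k n : ℝ) / n := by
    have e1 : ∀ T ∈ P.powerset.filter (fun T => ((∏ p ∈ T, p : ℕ) : ℝ) ≤ R),
        ∏ p ∈ T, h p = (fun n : ℕ => (rr k n : ℝ) / n) (∏ p ∈ T, p) := by
      intro T hT
      rw [Finset.mem_filter, Finset.mem_powerset] at hT
      show _ = (rr k (∏ p ∈ T, p) : ℝ) / ((∏ p ∈ T, p : ℕ) : ℝ)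
      rw [rr_sqfree k T fun p hp => (hmem p (hT.1 hp)).2.2]
      push_cast
      rw [← Finset.prod_div_distrib, hh]
    rw [Finset.sum_congr rfl e1]
    have hinj : Set.InjOn (fun T : Finset ℕ => ∏ p ∈ T, p)
        (P.powerset.filter (fun T => ((∏ p ∈ T, p : ℕ) : ℝ) ≤ R) : Finset (Finset ℕ)) := by
      intro T hT T' hT' heq
      rw [Finset.mem_coe, Finset.mem_filter, Finset.mem_powerset] at hT hT'
      have a1 := Nat.primeFactors_prod (s := T) fun p hp => (hmem p (hT.1 hp)).2.2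
      have a2 := Nat.primeFactors_prod (s := T') fun p hp => (hmem p (hT'.1 hp)).2.2
      have heq' : ∏ p ∈ T, p = ∏ p ∈ T', p := heq
      rw [← a1, ← a2, heq']
    rw [← Finset.sum_image (f := fun n : ℕ => (rr k n : ℝ) / n)
      (g := fun T : Finset ℕ => ∏ p ∈ T, p) hinj]
    refine Finset.sum_le_sum_of_subset_of_nonneg ?_ fun n _ _ => ?_
    · intro n hn
      obtain ⟨T, hT, rfl⟩ := Finset.mem_image.1 hn
      rw [Finset.mem_filter, Finset.mem_powerset] at hT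
      rw [Finset.mem_Ioc]
      refine ⟨Finset.prod_pos fun p hp => (hmem p (hT.1 hp)).2.2.pos, ?_⟩
      have := hT.2
      rw [hR] at this
      exact_mod_cast this
    · have : (0 : ℝ) ≤ (rr k n : ℝ) := by exact_mod_cast rr_nonneg k n
      positivity
  -- the other sets
  obtain ⟨s, hs⟩ : ∃ s : ℝ, s = 1 / L := ⟨_, rfl⟩
  have hs0 : 0 ≤ s := by
    rw [hs]
    positivity
  have hS2 := ra_one_add P h s R hR0 hs0 hh0 (fun p hp => (hmem p hp).2.2.one_lt.le)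
  have hRs : R ^ (-s) = Real.exp (-(A : ℝ)) := by
    rw [hR, ← Real.rpow_natCast, ← Real.rpow_mul hy0.le, Real.rpow_def_of_pos hy0, ← hL, hs]
    congr 1
    field_simp
  have hsum : ∑ p ∈ P, h p * ((p : ℝ) ^ s - 1) ≤ 4 + 4 * C / Real.log 2 := by
    have t1 : ∀ p ∈ P, h p * ((p : ℝ) ^ s - 1) ≤ 4 * s * (Real.log p / p) := by
      intro p hp
      have hp0 : (0 : ℝ) < p := by linarith [hp2 p hp]
      have hlp0 : 0 ≤ Real.log p := Real.log_nonneg (by linarith [hp2 p hp])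
      have hlp : Real.log p ≤ L := by
        rw [hL]
        exact Real.log_le_log hp0 (by exact_mod_cast (hmem p hp).2.1.le)
      have hx0 : 0 ≤ s * Real.log p := mul_nonneg hs0 hlp0
      have hx1 : s * Real.log p ≤ 1 := by
        rw [hs, one_div_mul_eq_div, div_le_one hL0]
        exact hlp
      have h1 : (p : ℝ) ^ s - 1 ≤ 2 * (s * Real.log p) := by
        rw [Real.rpow_def_of_pos hp0, mul_comm (Real.log p) s]
        have h2 := (abs_le.1 (Real.abs_exp_sub_one_sub_id_le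
          (x := s * Real.log p) (by rw [abs_of_nonneg hx0]; exact hx1))).2
        nlinarith
      have h2 : 0 ≤ 2 * (s * Real.log p) := by positivity
      calc h p * ((p : ℝ) ^ s - 1) ≤ h p * (2 * (s * Real.log p)) :=
            mul_le_mul_of_nonneg_left h1 (hh0 p hp)
        _ ≤ 2 / p * (2 * (s * Real.log p)) := mul_le_mul_of_nonneg_right (hh1 p hp) h2
        _ = 4 * s * (Real.log p / p) := by ring
    refine (Finset.sum_le_sum t1).trans ?_
    rw [← Finset.mul_sum]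
    have t2 : ∑ p ∈ P, Real.log p / p ≤ L + C := by
      have t3 : ∑ p ∈ P, Real.log p / p ≤
          ∑ p ∈ (Ioc 0 y).filter Nat.Prime, Real.log p / p := by
        refine Finset.sum_le_sum_of_subset_of_nonneg ?_ fun p hp _ => ?_
        · intro p hp
          obtain ⟨h1, h2, h3⟩ := hmem p hp
          rw [Finset.mem_filter, Finset.mem_Ioc]
          exact ⟨⟨h3.pos, h2.le⟩, h3⟩
        · rw [Finset.mem_filter] at hp
          have : (1 : ℝ) ≤ p := by exact_mod_cast hp.2.one_lt.le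
          exact div_nonneg (Real.log_nonneg this) (by linarith)
      have t4 := (abs_le.1 (hC y (by omega))).2
      rw [← hL] at t4
      linarith
    calc 4 * s * ∑ p ∈ P, Real.log p / p ≤ 4 * s * (L + C) :=
          mul_le_mul_of_nonneg_left t2 (by positivity)
      _ = 4 + 4 * C / L := by
          rw [hs]
          field_simp
      _ ≤ 4 + 4 * C / Real.log 2 := by
          have : 4 * C / L ≤ 4 * C / Real.log 2 :=
            div_le_div_of_nonneg_left (by positivity) hl2 hL2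
          linarith
  have hW0 : 0 < ∏ p ∈ P, (1 + h p) := Finset.prod_pos fun p hp => by
    linarith [hh0 p hp]
  have hS3 : ∑ T ∈ P.powerset.filter (fun T => ¬ ((∏ p ∈ T, p : ℕ) : ℝ) ≤ R), ∏ p ∈ T, h p ≤
      1 / 2 * ∏ p ∈ P, (1 + h p) := by
    refine hS2.trans ?_
    have a1 : Real.exp (∑ p ∈ P, h p * ((p : ℝ) ^ s - 1)) ≤
        Real.exp (4 + 4 * C / Real.log 2) := Real.exp_le_exp.2 hsum
    have a2 : Real.exp (-(A : ℝ)) * Real.exp (4 + 4 * C / Real.log 2) ≤ 1 / 2 := by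
      rw [← Real.exp_add]
      have a3 : -(A : ℝ) + (4 + 4 * C / Real.log 2) ≤ -1 := by linarith
      refine (Real.exp_le_exp.2 a3).trans ?_
      rw [Real.exp_neg, one_div]
      have a4 := Real.add_one_le_exp (1 : ℝ)
      exact inv_anti₀ (by norm_num) (by linarith)
    rw [hRs]
    calc Real.exp (-(A : ℝ)) * ((∏ p ∈ P, (1 + h p)) *
          Real.exp (∑ p ∈ P, h p * ((p : ℝ) ^ s - 1)))
        ≤ Real.exp (-(A : ℝ)) * ((∏ p ∈ P, (1 + h p)) *
          Real.exp (4 + 4 * C / Real.log 2)) :=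
          mul_le_mul_of_nonneg_left (mul_le_mul_of_nonneg_left a1 hW0.le) (Real.exp_pos _).le
      _ = (Real.exp (-(A : ℝ)) * Real.exp (4 + 4 * C / Real.log 2)) *
          ∏ p ∈ P, (1 + h p) := by ring
      _ ≤ 1 / 2 * ∏ p ∈ P, (1 + h p) := mul_le_mul_of_nonneg_right a2 hW0.le
  linarith

end Pool.Agent.Work.MP_73869e_nt.OW
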