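import Mathlib
import Pool.Agent.Work.MP_73869e_nt.OW.Ckf
import Pool.Agent.Work.MP_73869e_nt.OW.RankA
import Pool.Agent.Work.MP_73869e_nt.OW.AvgB

set_option autoImplicit false

/-!
Module SumC (size S-M). ck ≤ 1/(VV V0) ≤ C₂ ∏ ≤ 2 C₂ Σ_{n ≤ Y} rr k n/n with Y = (pw N δ)^A (v_prod, rank_a). Sum over all
k ≤ K = KK C N (Fm_sub, all terms are nonnegative): avg_rr gives 16 C₂ K (1 + log Y), K ≤ C log N,
log Y = A log(pw N δ) ≤ A (log N + 1). So C₄ = 16 C₂ (A + 2) * 2, say, for N large.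
-/

namespace Pool.Agent.Work.MP_73869e_nt.OW

open Finset Filter
open Pool.Agent.Work.MP_2dba45_nt.Sv (pw)

theorem sum_ck : ∃ C₄ : ℝ, 0 < C₄ ∧ ∀ (C δ : ℝ) (b w : ℕ), 0 < C → 0 < δ → δ ≤ 1 / 200 →
    16 ≤ w → ∀ᶠ N : ℕ in atTop, ∀ lp dp : ℕ → Finset ℕ → ℝ, Env δ b N lp dp → ∀ bb : ℕ,
      ∑ k ∈ Fm C N (primorial w) bb, ck δ w N lp k ≤ C₄ * C * Real.log N ^ 2 := by
  obtain ⟨C₂, hC₂, hv⟩ := v_prod
  obtain ⟨A, -, hA⟩ := rank_a
  refine ⟨16 * C₂ * (1 + A), by positivity, ?_⟩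
  intro C δ b w hC hδ hδ1 hw
  filter_upwards [hv C δ w hC hδ hδ1 hw, ck_facts C δ b w hC hδ hδ1 hw, ev_KK C δ 1 hC hδ,
    eventually_ge_atTop 3] with N hvN hckN hKN hN3 lp dp hE bb
  obtain ⟨hK1, hK2, hK3, hzp, -⟩ := hKN
  have hKge : 1 ≤ KK C N := by
    have h1 : 1 ≤ Nat.sqrt (KK C N) := by exact_mod_cast hK1
    exact h1.trans (Nat.sqrt_le_self _)
  have hy2 : 2 ≤ pw N δ := by omega
  have hN1 : (1 : ℝ) ≤ N := by exact_mod_cast (by omega : 1 ≤ N)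
  have hpN : pw N δ ≤ N := by
    unfold pw
    rw [Nat.ceil_le]
    calc (N : ℝ) ^ δ ≤ (N : ℝ) ^ (1 : ℝ) :=
          Real.rpow_le_rpow_of_exponent_le hN1 (by linarith)
      _ = N := Real.rpow_one _
  have hL1 : 1 ≤ Real.log N := by
    have h3 : (3 : ℝ) ≤ N := by exact_mod_cast hN3
    rw [Real.le_log_iff_exp_le (by linarith)]
    exact (Real.exp_one_lt_d9.le.trans (by norm_num)).trans h3
  have hY1 : 1 ≤ pw N δ ^ A := Nat.one_le_pow _ _ (by omega)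
  have hlogY : Real.log ((pw N δ ^ A : ℕ) : ℝ) ≤ A * Real.log N := by
    push_cast
    rw [Real.log_pow]
    refine mul_le_mul_of_nonneg_left ?_ (Nat.cast_nonneg _)
    apply Real.log_le_log
    · exact_mod_cast (by omega : 0 < pw N δ)
    · exact_mod_cast hpN
  -- the bound for one k
  have hone : ∀ k ∈ Icc 1 (KK C N), ck δ w N lp k ≤
      2 * C₂ * ∑ n ∈ Ioc 0 (pw N δ ^ A), (rr k n : ℝ) / n := by
    intro k hk
    obtain ⟨-, -, -, -, -, -, hc, -⟩ := hckN lp dp hE k hk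
    obtain ⟨-, -, -, -, hc2⟩ := hvN k hk
    refine hc.trans (hc2.trans ?_)
    calc C₂ * ∏ p ∈ (Ioo 2 (pw N δ)).filter Nat.Prime, (1 + (1 + (chi k p : ℝ)) / p)
        ≤ C₂ * (2 * ∑ n ∈ Ioc 0 (pw N δ ^ A), (rr k n : ℝ) / n) :=
          mul_le_mul_of_nonneg_left (hA k _ hy2) hC₂.le
      _ = _ := by ring
  have hnn : ∀ k, 0 ≤ ∑ n ∈ Ioc 0 (pw N δ ^ A), (rr k n : ℝ) / n := by
    intro k
    refine Finset.sum_nonneg fun n _ => ?_
    have : (0 : ℝ) ≤ (rr k n : ℝ) := by exact_mod_cast rr_nonneg k n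
    positivity
  calc ∑ k ∈ Fm C N (primorial w) bb, ck δ w N lp k
      ≤ ∑ k ∈ Fm C N (primorial w) bb,
          2 * C₂ * ∑ n ∈ Ioc 0 (pw N δ ^ A), (rr k n : ℝ) / n :=
        Finset.sum_le_sum fun k hk => hone k (Fm_sub hk)
    _ ≤ ∑ k ∈ Icc 1 (KK C N), 2 * C₂ * ∑ n ∈ Ioc 0 (pw N δ ^ A), (rr k n : ℝ) / n := by
        refine Finset.sum_le_sum_of_subset_of_nonneg (fun k hk => Fm_sub hk) fun k _ _ => ?_
        exact mul_nonneg (by positivity) (hnn k)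
    _ = 2 * C₂ * ∑ k ∈ Icc 1 (KK C N), ∑ n ∈ Ioc 0 (pw N δ ^ A), (rr k n : ℝ) / n := by
        rw [Finset.mul_sum]
    _ ≤ 2 * C₂ * (8 * (KK C N : ℕ) * (1 + Real.log ((pw N δ ^ A : ℕ) : ℝ))) :=
        mul_le_mul_of_nonneg_left (avg_rr _ _ hY1) (by positivity)
    _ ≤ 2 * C₂ * (8 * (C * Real.log N) * ((1 + A) * Real.log N)) := by
        refine mul_le_mul_of_nonneg_left ?_ (by positivity)
        have h1 : 1 + Real.log ((pw N δ ^ A : ℕ) : ℝ) ≤ (1 + A) * Real.log N := by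
          have : (1 + (A : ℝ)) * Real.log N = Real.log N + A * Real.log N := by ring
          rw [this]
          linarith
        have h0 : 0 ≤ 1 + Real.log ((pw N δ ^ A : ℕ) : ℝ) := by
          have : 0 ≤ Real.log ((pw N δ ^ A : ℕ) : ℝ) := Real.log_natCast_nonneg _
          linarith
        have h2 : 8 * ((KK C N : ℕ) : ℝ) ≤ 8 * (C * Real.log N) := by linarith
        exact mul_le_mul h2 h1 h0 (by positivity)
    _ = 16 * C₂ * (1 + A) * C * Real.log N ^ 2 := by ring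

end Pool.Agent.Work.MP_73869e_nt.OW
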