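import Mathlib
import Pool.Agent.Work.MP_73869e_nt.OW.SumC
import Pool.Agent.Work.MP_73869e_nt.OW.Ckf
import Pool.Agent.Work.MP_73869e_nt.OW.Fmc

set_option autoImplicit false

/-!
Module BigU (size S, compare P5/Big.lean). T log N # ≤ Σ ck ≤ C4 C log^2 N and C log N ≤ 4 Q #F (card_Fm_ge).
-/

namespace Pool.Agent.Work.MP_73869e_nt.OW

open Finset Filter

open Classical in
theorem big_k (C δ T : ℝ) (b w : ℕ) (hC : 0 < C) (hδ : 0 < δ) (hδ1 : δ ≤ 1 / 200) (hT : 0 < T)
    (hw : 16 ≤ w) (C4 : ℝ) (hC4 : 0 < C4)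
    (hsum : ∀ᶠ N : ℕ in atTop, ∀ lp dp : ℕ → Finset ℕ → ℝ, Env δ b N lp dp → ∀ bb : ℕ,
      ∑ k ∈ Fm C N (primorial w) bb, ck δ w N lp k ≤ C4 * C * Real.log N ^ 2) :
    ∀ᶠ N : ℕ in atTop, ∀ lp dp : ℕ → Finset ℕ → ℝ, Env δ b N lp dp → ∀ bb : ℕ,
      (#((Fm C N (primorial w) bb).filter (fun k => T * Real.log N < ck δ w N lp k)) : ℝ) ≤
        4 * C4 * primorial w / T * #(Fm C N (primorial w) bb) := by
  have hQpos : 0 < primorial w := primorial_pos w
  have hlog : ∀ᶠ N : ℕ in atTop, 0 < Real.log N := by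
    filter_upwards [eventually_ge_atTop 2] with N hN
    exact Real.log_pos (by exact_mod_cast hN)
  filter_upwards [hsum, ck_facts C δ b w hC hδ hδ1 hw, card_Fm_ge C hC (primorial w) hQpos, hlog]
    with N hsum hcf hcard hL0
  intro lp dp hEnv bb
  set Q := primorial w with hQdef
  have hQ0 : (0 : ℝ) < Q := by exact_mod_cast hQpos
  set F := Fm C N Q bb with hF
  set B := F.filter (fun k => T * Real.log N < ck δ w N lp k) with hB
  have h1 : (#B : ℝ) * (T * Real.log N) ≤ ∑ k ∈ F, ck δ w N lp k := by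
    calc (#B : ℝ) * (T * Real.log N) = ∑ k ∈ B, T * Real.log N := by
          rw [Finset.sum_const, nsmul_eq_mul]
      _ ≤ ∑ k ∈ B, ck δ w N lp k :=
          Finset.sum_le_sum fun x hx => (Finset.mem_filter.1 hx).2.le
      _ ≤ _ := by
          apply Finset.sum_le_sum_of_subset_of_nonneg (Finset.filter_subset _ _)
          intro k hk _
          have := (hcf lp dp hEnv k (Fm_sub hk)).2.2.2.2.2.1
          linarith
  have h2 : ∑ k ∈ F, ck δ w N lp k ≤ C4 * C * Real.log N ^ 2 := hsum lp dp hEnv bb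
  have h3 : C * Real.log N / (4 * Q) ≤ (#F : ℝ) := hcard bb
  have h4 : (#B : ℝ) ≤ C4 * C * Real.log N / T := by
    rw [le_div_iff₀ hT]
    have h5 : (#B : ℝ) * T * Real.log N ≤ C4 * C * Real.log N * Real.log N := by
      calc (#B : ℝ) * T * Real.log N = (#B : ℝ) * (T * Real.log N) := by ring
        _ ≤ C4 * C * Real.log N ^ 2 := h1.trans h2
        _ = _ := by ring
    exact le_of_mul_le_mul_right h5 hL0
  calc (#B : ℝ) ≤ C4 * C * Real.log N / T := h4
    _ = 4 * C4 * Q / T * (C * Real.log N / (4 * Q)) := by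
        field_simp
    _ ≤ 4 * C4 * Q / T * #F := by gcongr

end Pool.Agent.Work.MP_73869e_nt.OW
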