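import Mathlib
import Pool.Agent.Work.MP_73869e_nt.OW.Defs
import Pool.Agent.Work.MP_73869e_nt.P5.EnvE

set_option autoImplicit false

/-!
Module EnvU (size S-M, a port of P5.env_ev, file P5/EnvE.lean): blk_bound and bh2 apply to P = Psm k δ N for every k, with
one threshold N₀ (zN N ≥ 4, pw N δ ≥ 2); choose lp k, dp k for every k (Classical.choose).
-/

namespace Pool.Agent.Work.MP_73869e_nt.OW

open Finset Filter

theorem env_ev_u : ∃ b₀ : ℕ, ∀ b : ℕ, b₀ ≤ b → ∀ δ : ℝ, 0 < δ →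
    ∀ᶠ N : ℕ in atTop, ∃ lp dp : ℕ → Finset ℕ → ℝ, Env δ b N lp dp := by
  obtain ⟨L₀, hL₀, hblk⟩ := Pool.Agent.Work.MP_73869e_nt.P5.blk_bound
  obtain ⟨b₀, hb₀⟩ := Pool.Agent.Work.MP_73869e_nt.P5.bh2 L₀ hL₀
  refine ⟨b₀, fun b hb δ hδ => ?_⟩
  have hpw : ∀ᶠ N : ℕ in atTop, 2 ≤ Pool.Agent.Work.MP_2dba45_nt.Sv.pw N δ := by
    have h1 : Tendsto (fun N : ℕ => (N : ℝ) ^ δ) atTop atTop :=
      (tendsto_rpow_atTop hδ).comp tendsto_natCast_atTop_atTop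
    filter_upwards [h1.eventually_ge_atTop 2] with N hN
    unfold Pool.Agent.Work.MP_2dba45_nt.Sv.pw
    have h2 : (2 : ℝ) ≤ ⌈(N : ℝ) ^ δ⌉₊ := hN.trans (Nat.le_ceil _)
    exact_mod_cast h2
  have hzN : ∀ᶠ N : ℕ in atTop, 4 ≤ Pool.Agent.Work.MP_73869e_nt.AP.zN N := by
    filter_upwards [eventually_ge_atTop 4] with N hN
    unfold Pool.Agent.Work.MP_73869e_nt.AP.zN
    have h1 : 2 ≤ Nat.log 2 N := by
      have h2 := Nat.log_mono_right (b := 2) hN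
      have h3 : Nat.log 2 4 = 2 := by decide
      omega
    calc 4 ≤ 2 ^ 20 := by norm_num
      _ ≤ (Nat.log 2 N) ^ 20 := Nat.pow_le_pow_left h1 20
  filter_upwards [hpw, hzN] with N hN1 hN2
  have h : ∀ k : ℕ, ∃ lp dp : Finset ℕ → ℝ,
      Pool.Agent.Work.MP_73869e_nt.P5.BHW (Psm k δ N) Pool.Agent.Work.MP_73869e_nt.AP.g
        (Pool.Agent.Work.MP_2dba45_nt.Sv.pw N δ) b lp dp := by
    intro k
    have hmem : ∀ p ∈ Psm k δ N, p.Prime ∧ 4 < p ∧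
        p < Pool.Agent.Work.MP_2dba45_nt.Sv.pw N δ := by
      intro p hp
      unfold Psm PA at hp
      rw [Finset.mem_filter, Finset.mem_filter, Finset.mem_Ioo] at hp
      exact ⟨hp.1.2.1, by omega, hp.2⟩
    refine hb₀ b hb _ _ _ hN1 (fun p hp => ?_) (fun p hp => ?_) (hblk _ fun p hp => (hmem p hp).1)
    · obtain ⟨h1, h2, h3⟩ := hmem p hp
      exact ⟨by omega, h3⟩
    · obtain ⟨h1, h2, h3⟩ := hmem p hp
      unfold Pool.Agent.Work.MP_73869e_nt.AP.g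
      have h4 : (4 : ℝ) < p := by exact_mod_cast h2
      refine ⟨by positivity, ?_⟩
      rw [div_le_iff₀ (by linarith)]
      linarith
  choose lp dp hlp using h
  exact ⟨lp, dp, fun k => hlp k⟩

end Pool.Agent.Work.MP_73869e_nt.OW
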