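import Mathlib
import Pool.Agent.Work.MP_73869e_nt.OW.Defs
import Pool.Agent.Work.MP_73869e_nt.P5.Comb

set_option autoImplicit false

/-!
Module CombU (size S-M, a port of P5/Comb.lean: same proofs with the new PA, Psm, Pbg; P5.lev can be cited).
-/

namespace Pool.Agent.Work.MP_73869e_nt.OW

open Finset Filter Pool.Agent.Work.MP_2dba45_nt.Sel
open Pool.Agent.Work.MP_73869e_nt.AP (zN g prd)
open Pool.Agent.Work.MP_73869e_nt.P5 (LS ML BHW ph)
open Pool.Agent.Work.MP_2dba45_nt.Sv (pw)

private lemma split_sum (P : Finset ℕ) (a : ℕ → Prop) [DecidablePred a] (F G : Finset ℕ → ℝ) :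
    ∑ T ∈ P.powerset, F (T.filter a) * G (T.filter (fun p => ¬ a p)) =
      (∑ T ∈ (P.filter a).powerset, F T) * ∑ T ∈ (P.filter (fun p => ¬ a p)).powerset, G T := by
  classical
  rw [Finset.sum_mul_sum, ← Finset.sum_product']
  refine Finset.sum_bij' (fun T _ => (T.filter a, T.filter (fun p => ¬ a p)))
    (fun x _ => x.1 ∪ x.2) ?_ ?_ ?_ ?_ ?_
  · intro T hT
    rw [Finset.mem_powerset] at hT
    simp only [Finset.mem_product, Finset.mem_powerset]
    exact ⟨Finset.filter_subset_filter _ hT, Finset.filter_subset_filter _ hT⟩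
  · intro x hx
    simp only [Finset.mem_product, Finset.mem_powerset] at hx
    rw [Finset.mem_powerset]
    exact Finset.union_subset (hx.1.trans (Finset.filter_subset _ _))
      (hx.2.trans (Finset.filter_subset _ _))
  · intro T _
    exact Finset.filter_union_filter_not_eq a T
  · intro x hx
    simp only [Finset.mem_product, Finset.mem_powerset] at hx
    have h1 : ∀ p ∈ x.1, a p := fun p hp => (Finset.mem_filter.1 (hx.1 hp)).2
    have h2 : ∀ p ∈ x.2, ¬ a p := fun p hp => (Finset.mem_filter.1 (hx.2 hp)).2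
    refine Prod.ext ?_ ?_
    · ext p
      simp only [Finset.mem_filter, Finset.mem_union]
      constructor
      · rintro ⟨h | h, h3⟩
        · exact h
        · exact absurd h3 (h2 p h)
      · intro h
        exact ⟨Or.inl h, h1 p h⟩
    · ext p
      simp only [Finset.mem_filter, Finset.mem_union]
      constructor
      · rintro ⟨h | h, h3⟩
        · exact absurd (h1 p h) h3
        · exact h
      · intro h
        exact ⟨Or.inr h, h2 p h⟩
  · intro T _
    rfl

private lemma Pbg_eq (k : ℕ) (δ : ℝ) (N : ℕ) :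
    Pbg k δ N = (PA k N).filter (fun p => ¬ p < pw N δ) := by
  unfold Pbg
  congr 1
  ext p
  simp only [not_lt]

theorem comb_u (δ : ℝ) (b κ : ℕ) (hδ : 0 < δ) (hlev : δ * (4 * b + 10) ≤ 1 / 1000) (hκ : 1 ≤ κ) :
    ∀ᶠ N : ℕ in atTop, ∀ (k : ℕ) (lp dp : Finset ℕ → ℝ), BHW (Psm k δ N) g (pw N δ) b lp dp →
    ∃ (E : Finset (Finset ℕ)) (om : Finset ℕ → ℝ), E ⊆ (PA k N).powerset ∧ (∀ T, |om T| ≤ 1) ∧
      (∀ T ∈ E, (prd T : ℝ) ≤ (N : ℝ) ^ ((497 : ℝ) / 1000)) ∧
      (∀ m n, LS E om m n =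
        LS (Psm k δ N).powerset lp m n * LS (Pbg k δ N).powerset (ph κ N) m n) ∧
      ML E om = ML (Psm k δ N).powerset lp * ML (Pbg k δ N).powerset (ph κ N) := by
  filter_upwards [P5.lev δ b hδ hlev, eventually_ge_atTop 2] with N hN hN2 k lp dp hB
  have hN0 : (0 : ℝ) < N := by
    have : 0 < N := by omega
    exact_mod_cast this
  have hprime : ∀ T ∈ (PA k N).powerset, ∀ p ∈ T, p.Prime := by
    intro T hT p hp
    have h1 := (Finset.mem_powerset.1 hT) hp
    unfold PA at h1
    exact (Finset.mem_filter.1 h1).2.1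
  set om : Finset ℕ → ℝ := fun T => lp (T.filter (fun p => p < pw N δ)) *
    ph κ N (T.filter (fun p => ¬ p < pw N δ)) with hom
  refine ⟨(PA k N).powerset.filter (fun T => om T ≠ 0), om, Finset.filter_subset _ _, ?_, ?_, ?_,
    ?_⟩
  · intro T
    rw [hom]
    simp only
    rw [abs_mul]
    exact mul_le_one₀ (hB.lp_le _) (abs_nonneg _) (P5.ph_le_one κ hκ N _)
  · intro T hT
    rw [Finset.mem_filter] at hT
    obtain ⟨hT1, hT2⟩ := hT
    rw [hom] at hT2
    simp only at hT2
    have h1 := left_ne_zero_of_mul hT2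
    have h2 := right_ne_zero_of_mul hT2
    have h3 := (hB.supp _ (Or.inl h1)).2.trans hN
    have h4 := P5.ph_level κ hκ N hN2 _
      (fun p hp => hprime T hT1 p (Finset.mem_filter.1 hp).1) h2
    have h5 : prd T = (∏ p ∈ T.filter (fun p => p < pw N δ), p) *
        ∏ p ∈ T.filter (fun p => ¬ p < pw N δ), p := by
      unfold prd
      exact (Finset.prod_filter_mul_prod_filter_not T _ _).symm
    rw [h5]
    push_cast
    push_cast at h3 h4
    calc (∏ p ∈ T.filter (fun p => p < pw N δ), (p : ℝ)) *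
          ∏ p ∈ T.filter (fun p => ¬ p < pw N δ), (p : ℝ)
        ≤ (N : ℝ) ^ ((2 : ℝ) / 1000) * (N : ℝ) ^ ((495 : ℝ) / 1000) :=
          mul_le_mul h3 h4 (Finset.prod_nonneg fun _ _ => Nat.cast_nonneg _) (by positivity)
      _ = (N : ℝ) ^ ((497 : ℝ) / 1000) := by
          rw [← Real.rpow_add hN0]
          norm_num
  · intro m n
    have h1 : LS ((PA k N).powerset.filter (fun T => om T ≠ 0)) om m n =
        ∑ T ∈ (PA k N).powerset, if (∀ p ∈ T, p ∣ n ^ 2 + m) then om T else 0 := by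
      unfold LS
      refine Finset.sum_filter_of_ne ?_
      intro T _ h2 h3
      rw [h3] at h2
      simp at h2
    rw [h1]
    unfold LS Psm
    rw [Pbg_eq, ← split_sum (PA k N) (fun p => p < pw N δ)
      (fun T => if (∀ p ∈ T, p ∣ n ^ 2 + m) then lp T else 0)
      (fun T => if (∀ p ∈ T, p ∣ n ^ 2 + m) then ph κ N T else 0)]
    refine Finset.sum_congr rfl fun T _ => ?_
    have h2 : (∀ p ∈ T, p ∣ n ^ 2 + m) ↔ (∀ p ∈ T.filter (fun p => p < pw N δ), p ∣ n ^ 2 + m) ∧
        (∀ p ∈ T.filter (fun p => ¬ p < pw N δ), p ∣ n ^ 2 + m) := by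
      constructor
      · intro h
        exact ⟨fun p hp => h p (Finset.mem_filter.1 hp).1, fun p hp => h p (Finset.mem_filter.1 hp).1⟩
      · rintro ⟨h, h'⟩ p hp
        by_cases hc : p < pw N δ
        · exact h p (Finset.mem_filter.2 ⟨hp, hc⟩)
        · exact h' p (Finset.mem_filter.2 ⟨hp, hc⟩)
    by_cases ha : ∀ p ∈ T.filter (fun p => p < pw N δ), p ∣ n ^ 2 + m
    · by_cases hb : ∀ p ∈ T.filter (fun p => ¬ p < pw N δ), p ∣ n ^ 2 + m
      · rw [if_pos (h2.2 ⟨ha, hb⟩), if_pos ha, if_pos hb]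
      · rw [if_neg (fun h => hb (h2.1 h).2), if_neg hb, mul_zero]
    · rw [if_neg (fun h => ha (h2.1 h).1), if_neg ha, zero_mul]
  · have h1 : ML ((PA k N).powerset.filter (fun T => om T ≠ 0)) om =
        ∑ T ∈ (PA k N).powerset, om T * gg g T := by
      unfold ML
      refine Finset.sum_filter_of_ne ?_
      intro T _ h2
      exact left_ne_zero_of_mul h2
    rw [h1]
    unfold ML Psm
    rw [Pbg_eq, ← split_sum (PA k N) (fun p => p < pw N δ)
      (fun T => lp T * gg g T) (fun T => ph κ N T * gg g T)]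
    refine Finset.sum_congr rfl fun T _ => ?_
    have h5 : gg g T = gg g (T.filter (fun p => p < pw N δ)) *
        gg g (T.filter (fun p => ¬ p < pw N δ)) := by
      unfold gg
      exact (Finset.prod_filter_mul_prod_filter_not T _ _).symm
    rw [h5, hom]
    simp only
    ring

theorem sing_lp_u (δ : ℝ) (b : ℕ) (hδ : 0 < δ) (hlev : δ * (4 * b + 10) ≤ 1 / 1000) :
    ∀ᶠ N : ℕ in atTop, ∀ (k : ℕ) (lp dp : Finset ℕ → ℝ), BHW (Psm k δ N) g (pw N δ) b lp dp →
    ∃ E : Finset (Finset ℕ), E ⊆ (PA k N).powerset ∧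
      (∀ T ∈ E, (prd T : ℝ) ≤ (N : ℝ) ^ ((2 : ℝ) / 1000)) ∧
      (∀ m n, LS E lp m n = LS (Psm k δ N).powerset lp m n) ∧
      ML E lp = ML (Psm k δ N).powerset lp ∧
      ∑ d ∈ E, ∑ e ∈ E, lp d * lp e * gg g (d ∪ e) =
        ∑ d ∈ (Psm k δ N).powerset, ∑ e ∈ (Psm k δ N).powerset, lp d * lp e * gg g (d ∪ e) := by
  filter_upwards [P5.lev δ b hδ hlev] with N hN k lp dp hB
  refine ⟨(Psm k δ N).powerset.filter (fun T => lp T ≠ 0), ?_, ?_, ?_, ?_, ?_⟩
  · refine (Finset.filter_subset _ _).trans (Finset.powerset_mono.2 ?_)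
    unfold Psm
    exact Finset.filter_subset _ _
  · intro T hT
    rw [Finset.mem_filter] at hT
    unfold prd
    exact (hB.supp _ (Or.inl hT.2)).2.trans hN
  · intro m n
    unfold LS
    refine Finset.sum_filter_of_ne ?_
    intro T _ h2 h3
    rw [h3] at h2
    simp at h2
  · unfold ML
    refine Finset.sum_filter_of_ne ?_
    intro T _ h2
    exact left_ne_zero_of_mul h2
  · have h1 : ∀ d, ∑ e ∈ (Psm k δ N).powerset.filter (fun T => lp T ≠ 0),
        lp d * lp e * gg g (d ∪ e) = ∑ e ∈ (Psm k δ N).powerset, lp d * lp e * gg g (d ∪ e) := by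
      intro d
      refine Finset.sum_filter_of_ne ?_
      intro T _ h2
      exact right_ne_zero_of_mul (left_ne_zero_of_mul h2)
    simp only [h1]
    refine Finset.sum_filter_of_ne ?_
    intro T _ h2 h3
    apply h2
    refine Finset.sum_eq_zero fun e _ => ?_
    rw [h3]
    ring

theorem sing_dp_u (δ : ℝ) (b : ℕ) (hδ : 0 < δ) (hlev : δ * (4 * b + 10) ≤ 1 / 1000) :
    ∀ᶠ N : ℕ in atTop, ∀ (k : ℕ) (lp dp : Finset ℕ → ℝ), BHW (Psm k δ N) g (pw N δ) b lp dp →
    ∃ (E : Finset (Finset ℕ)) (om : Finset ℕ → ℝ), E ⊆ (PA k N).powerset ∧ (∀ T, |om T| ≤ 1) ∧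
      (∀ T ∈ E, (prd T : ℝ) ≤ (N : ℝ) ^ ((2 : ℝ) / 1000)) ∧
      (∀ m n, LS (Psm k δ N).powerset dp m n = 2 * Real.log N * LS E om m n) ∧
      ML (Psm k δ N).powerset dp = 2 * Real.log N * ML E om := by
  filter_upwards [P5.lev δ b hδ hlev, eventually_ge_atTop 2] with N hN hN2 k lp dp hB
  have hN2' : (2 : ℝ) ≤ N := by exact_mod_cast hN2
  have hN0 : (0 : ℝ) < N := by linarith
  have hlog : 0 < Real.log N := Real.log_pos (by linarith)
  set E : Finset (Finset ℕ) := (Psm k δ N).powerset.filter (fun T => dp T ≠ 0) with hE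
  set om : Finset ℕ → ℝ := fun T => if T ∈ E then dp T / (2 * Real.log N) else 0 with hom
  have hval : ∀ T ∈ E, 2 * Real.log N * om T = dp T := by
    intro T hT
    rw [hom]
    simp only [hT, if_true]
    field_simp
  have hlvl : ∀ T ∈ E, (prd T : ℝ) ≤ (N : ℝ) ^ ((2 : ℝ) / 1000) := by
    intro T hT
    rw [hE, Finset.mem_filter] at hT
    unfold prd
    exact (hB.supp _ (Or.inr hT.2)).2.trans hN
  refine ⟨E, om, ?_, ?_, hlvl, ?_, ?_⟩
  · refine (Finset.filter_subset _ _).trans (Finset.powerset_mono.2 ?_)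
    unfold Psm
    exact Finset.filter_subset _ _
  · intro T
    by_cases hT : T ∈ E
    · have h1 : |2 * Real.log N * om T| ≤ 2 * Real.log N := by
        rw [hval T hT]
        refine (hB.dp_le T).trans ?_
        have h2 : (2 : ℝ) ^ (#T) ≤ (N : ℝ) := by
          have h3 : 2 ^ (#T) ≤ prd T := by
            unfold prd
            refine Finset.pow_card_le_prod T _ _ ?_
            intro p hp
            rw [hE, Finset.mem_filter, Finset.mem_powerset] at hT
            have h4 := hT.1 hp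
            unfold Psm PA at h4
            exact (Finset.mem_filter.1 (Finset.mem_filter.1 h4).1).2.1.two_le
          have h5 : ((2 ^ (#T) : ℕ) : ℝ) ≤ ((prd T : ℕ) : ℝ) := by exact_mod_cast h3
          push_cast at h5
          refine h5.trans ((hlvl T hT).trans ?_)
          calc (N : ℝ) ^ ((2 : ℝ) / 1000) ≤ (N : ℝ) ^ (1 : ℝ) :=
                Real.rpow_le_rpow_of_exponent_le (by linarith) (by norm_num)
            _ = N := Real.rpow_one _
        have h6 := Real.log_le_log (by positivity) h2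
        rw [Real.log_pow] at h6
        have h7 : (1 : ℝ) / 2 ≤ Real.log 2 := by
          have := Real.log_two_gt_d9
          linarith
        have h8 : (0 : ℝ) ≤ (#T : ℝ) := Nat.cast_nonneg _
        nlinarith
      rw [abs_mul, abs_of_pos (by positivity : (0 : ℝ) < 2 * Real.log N)] at h1
      have h9 : 0 < 2 * Real.log N := by positivity
      exact le_of_mul_le_mul_left (by linarith) h9
    · rw [hom]
      simp [hT]
  · intro m n
    have h1 : LS (Psm k δ N).powerset dp m n = LS E dp m n := by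
      unfold LS
      refine (Finset.sum_filter_of_ne ?_).symm
      intro T _ h2 h3
      rw [h3] at h2
      simp at h2
    rw [h1]
    unfold LS
    rw [Finset.mul_sum]
    refine Finset.sum_congr rfl fun T hT => ?_
    by_cases hc : ∀ p ∈ T, p ∣ n ^ 2 + m
    · rw [if_pos hc, if_pos hc, hval T hT]
    · rw [if_neg hc, if_neg hc, mul_zero]
  · have h1 : ML (Psm k δ N).powerset dp = ML E dp := by
      unfold ML
      refine (Finset.sum_filter_of_ne ?_).symm
      intro T _ h2
      exact left_ne_zero_of_mul h2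
    rw [h1]
    unfold ML
    rw [Finset.mul_sum]
    refine Finset.sum_congr rfl fun T hT => ?_
    rw [← hval T hT]
    ring

end Pool.Agent.Work.MP_73869e_nt.OW
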