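import Mathlib
import Pool.Agent.Work.MP_73869e_nt.OW.Defs
import Pool.Agent.Work.MP_73869e_nt.P5.Cb
import Pool.Agent.Work.MP_2dba45_nt.Sv.Mert1
import Pool.Agent.Work.MP_2dba45_nt.Mert

set_option autoImplicit false

/-!
Module CbU (size S-M, a port of P5/Cb.lean with the new PA k N = primes zN < p < N with chi k p = 1).
sum_PAu: trivially Σ 2/p over all primes ≤ N ≤ 2 log log N + C (Mertens: mertens_one and partial summation, or
Sv.mt_psum / AP psum_diff). A1_leU, A2_leU: copy A1_le5, A2_le5. A1_one, A1p_one: for D = {∅} the sums are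
Σ_{T ∈ E} gg g T ≤ ∏ (1 + g p) ≤ exp(Σ g), and with p ∈ T: ≤ g p ∏_{p' ≠ p} (1 + g p'). ev_pow5, AP.ev_exp are reused.
-/

namespace Pool.Agent.Work.MP_73869e_nt.OW

open Finset Filter Pool.Agent.Work.MP_2dba45_nt.Sel
open Pool.Agent.Work.MP_73869e_nt.AP (zN g prd A1 A1p A2)
open Pool.Agent.Work.MP_73869e_nt.AP (momSum_le momTri_gg_le gg_g_nonneg prd_inj zN_eventually)

private theorem cbu_pow {k N : ℕ} {X : ℝ} (hz : 2 ^ 3000 ≤ zN N) {T : Finset ℕ}
    (hT : T ⊆ PA k N) (hX : (prd T : ℝ) ≤ X) : (2 : ℝ) ^ #T ≤ X ^ ((1 : ℝ) / 3000) := by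
  have h1 : ((2 : ℝ) ^ #T) ^ 3000 ≤ X := by
    refine le_trans ?_ hX
    have h2 : (2 ^ 3000) ^ #T ≤ prd T := by
      unfold prd
      rw [← prod_const]
      refine prod_le_prod' fun p hp => ?_
      have h3 := hT hp
      unfold PA at h3
      exact hz.trans (mem_Ioo.1 (mem_filter.1 h3).1).1.le
    have h3 : ((2 ^ #T) ^ 3000 : ℕ) ≤ prd T := by
      rw [← pow_mul, mul_comm, pow_mul]; exact h2
    calc ((2 : ℝ) ^ #T) ^ 3000 = (((2 ^ #T) ^ 3000 : ℕ) : ℝ) := by push_cast; ring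
      _ ≤ (prd T : ℝ) := by exact_mod_cast h3
  have h0 : (0 : ℝ) ≤ (2 : ℝ) ^ #T := by positivity
  calc (2 : ℝ) ^ #T = (((2 : ℝ) ^ #T) ^ 3000) ^ ((1 : ℝ) / 3000) := by
        rw [← Real.rpow_natCast ((2 : ℝ) ^ #T) 3000, ← Real.rpow_mul h0]
        norm_num
    _ ≤ X ^ ((1 : ℝ) / 3000) := by
        apply Real.rpow_le_rpow (by positivity) h1 (by norm_num)

private theorem cbu_card {k N : ℕ} {X : ℝ} {D : Finset (Finset ℕ)} (hD : D ⊆ (PA k N).powerset)
    (hX : 0 ≤ X) (h : ∀ T ∈ D, (prd T : ℝ) ≤ X) : (#D : ℝ) ≤ X := by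
  have hpr : ∀ T ∈ D, ∀ p ∈ T, p.Prime := by
    intro T hT p hp
    have h3 := (mem_powerset.1 (hD hT)) hp
    unfold PA at h3
    exact (mem_filter.1 h3).2.1
  have h1 : #D ≤ #(Ioc 0 ⌊X⌋₊) := by
    refine card_le_card_of_injOn prd ?_ ?_
    · intro T hT
      have hpos : 0 < prd T := by
        unfold prd
        exact prod_pos fun p hp => (hpr T hT p hp).pos
      rw [mem_coe, mem_Ioc]
      exact ⟨hpos, Nat.le_floor (h T hT)⟩
    · intro T hT T' hT' h'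
      exact prd_inj (hpr T hT) (hpr T' hT') h'
  rw [Nat.card_Ioc, Nat.sub_zero] at h1
  calc (#D : ℝ) ≤ (⌊X⌋₊ : ℝ) := by exact_mod_cast h1
    _ ≤ X := Nat.floor_le hX

theorem sum_PAu : ∃ C : ℝ, 0 ≤ C ∧ ∀ᶠ N : ℕ in atTop, ∀ k : ℕ,
    ∑ p ∈ PA k N, g p ≤ C + 2 * Real.log (Real.log N) := by
  obtain ⟨C, hC⟩ := Pool.Agent.Work.MP_2dba45_nt.Mert.mertens_one
  have hC0 : 0 ≤ C := (abs_nonneg _).trans (hC 1 one_pos)
  have hC' : ∀ N : ℕ, 0 < N → |∑ n ∈ Ioc 0 N, (if n.Prime then (1 : ℝ) else 0) *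
      (Real.log n / n) - Real.log N| ≤ C := by
    intro N hN
    have h := hC N hN
    rw [Finset.sum_filter] at h
    convert h using 3
    refine Finset.sum_congr rfl fun n _ => ?_
    split_ifs <;> simp
  have hl4 : 0 < Real.log 4 := Real.log_pos (by norm_num)
  refine ⟨2 * ((2 * C + 7) / Real.log 4), by positivity, ?_⟩
  filter_upwards [Pool.Agent.Work.MP_73869e_nt.AP.ev_z 0, eventually_ge_atTop 3] with N hN hN3 k
  obtain ⟨hz4, _⟩ := hN
  have hz4R : (4 : ℝ) ≤ zN N := by exact_mod_cast hz4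
  have hN3R : (3 : ℝ) ≤ N := by exact_mod_cast hN3
  have hlN1 : 1 ≤ Real.log N := by
    rw [Real.le_log_iff_exp_le (by linarith)]
    linarith [Real.exp_one_lt_d9]
  have hllN : 0 ≤ Real.log (Real.log N) := Real.log_nonneg hlN1
  have hlz : Real.log 4 ≤ Real.log (zN N) := Real.log_le_log (by norm_num) hz4R
  have hlz1 : 1 ≤ Real.log (zN N) := by
    rw [Real.le_log_iff_exp_le (by linarith)]
    linarith [Real.exp_one_lt_d9]
  rcases Nat.lt_or_ge N (zN N) with h | h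
  · have h1 : PA k N = ∅ := by
      unfold PA
      rw [Finset.Ioo_eq_empty (by omega), Finset.filter_empty]
    rw [h1, Finset.sum_empty]
    positivity
  · have hd := Pool.Agent.Work.MP_2dba45_nt.Sv.mt_psum
      (fun n => if n.Prime then (1 : ℝ) else 0) C hC0 hC' (zN N) N (by omega) h
    rw [abs_le] at hd
    have h0 : ∑ p ∈ PA k N, g p ≤
        2 * ∑ n ∈ Ioc (zN N) N, (if n.Prime then (1 : ℝ) else 0) / (n : ℝ) := by
      rw [Finset.mul_sum]
      have hsub : PA k N ⊆ Ioc (zN N) N := by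
        intro p hp
        unfold PA at hp
        rw [Finset.mem_filter, Finset.mem_Ioo] at hp
        exact Finset.mem_Ioc.2 ⟨hp.1.1, hp.1.2.le⟩
      refine le_trans (Finset.sum_le_sum fun p hp => ?_)
        (Finset.sum_le_sum_of_subset_of_nonneg hsub fun p _ _ => ?_)
      · unfold PA at hp
        rw [Finset.mem_filter] at hp
        rw [if_pos hp.2.1]
        unfold g
        apply le_of_eq
        ring
      · split_ifs <;> positivity
    have h2 : 0 ≤ Real.log (Real.log (zN N)) := Real.log_nonneg hlz1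
    have h3 : (2 * C + 7) / Real.log (zN N) ≤ (2 * C + 7) / Real.log 4 :=
      div_le_div_of_nonneg_left (by linarith) hl4 hlz
    linarith [hd.2]

theorem A1_leU (k N : ℕ) (D E : Finset (Finset ℕ)) (hD : D ⊆ (PA k N).powerset)
    (hE : E ⊆ (PA k N).powerset) : A1 D E ≤ Real.exp (7 * ∑ p ∈ PA k N, g p) := by
  unfold A1
  exact (momSum_le hD hE (gg g) gg_g_nonneg).trans (momTri_gg_le _)

private theorem cbu_sum_gg (P : Finset ℕ) :
    ∑ T ∈ P.powerset, gg g T ≤ Real.exp (∑ p ∈ P, g p) := by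
  have h1 : ∑ T ∈ P.powerset, gg g T = ∏ p ∈ P, (1 + g p) := by
    rw [Finset.prod_one_add]
    rfl
  rw [h1, Real.exp_sum]
  refine prod_le_prod (fun p _ => ?_) fun p _ => ?_
  · have := Pool.Agent.Work.MP_73869e_nt.AP.g_nonneg p
    linarith
  · have := Real.add_one_le_exp (g p)
    linarith

theorem A1_one (k N : ℕ) (E : Finset (Finset ℕ)) (hE : E ⊆ (PA k N).powerset) :
    A1 {∅} E ≤ Real.exp (∑ p ∈ PA k N, g p) := by
  unfold A1
  rw [sum_singleton, sum_singleton]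
  simp only [empty_union]
  exact (sum_le_sum_of_subset_of_nonneg hE fun T _ _ =>
    Pool.Agent.Work.MP_73869e_nt.AP.gg_g_nonneg T).trans (cbu_sum_gg _)

theorem A1p_one (k N : ℕ) (E : Finset (Finset ℕ)) (hE : E ⊆ (PA k N).powerset) (p : ℕ)
    (hp : p ∈ PA k N) : A1p {∅} E p ≤ g p * Real.exp (∑ p ∈ PA k N, g p) := by
  unfold A1p
  rw [sum_singleton, sum_singleton]
  simp only [empty_union]
  have hn : ∀ T : Finset ℕ, 0 ≤ gg g T := Pool.Agent.Work.MP_73869e_nt.AP.gg_g_nonneg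
  refine (sum_le_sum_of_subset_of_nonneg hE fun T _ _ => by split_ifs <;> simp [hn]).trans ?_
  have hins : insert p ((PA k N).erase p) = PA k N := insert_erase hp
  have h1 : ∑ T ∈ (PA k N).powerset, (if p ∈ T then gg g T else 0) =
      g p * ∑ T ∈ ((PA k N).erase p).powerset, gg g T := by
    conv_lhs => rw [← hins]
    rw [sum_powerset_insert (notMem_erase p _)]
    have h2 : ∀ T ∈ ((PA k N).erase p).powerset, (if p ∈ T then gg g T else 0) = 0 := by
      intro T hT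
      rw [if_neg fun h => notMem_erase p _ (mem_powerset.1 hT h)]
    rw [sum_eq_zero h2, zero_add, mul_sum]
    refine sum_congr rfl fun T hT => ?_
    have hpT : p ∉ T := fun h => notMem_erase p _ (mem_powerset.1 hT h)
    rw [if_pos (mem_insert_self p T)]
    unfold gg
    rw [prod_insert hpT]
  rw [h1]
  have h3 := Pool.Agent.Work.MP_73869e_nt.AP.g_nonneg p
  refine mul_le_mul_of_nonneg_left ((cbu_sum_gg _).trans (Real.exp_le_exp.mpr ?_)) h3
  exact sum_le_sum_of_subset_of_nonneg (erase_subset p (PA k N)) fun i _ _ =>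
    Pool.Agent.Work.MP_73869e_nt.AP.g_nonneg i

theorem A2_leU (x y : ℝ) (hx : 0 ≤ x) (hx1 : x ≤ 1) (hy : 0 ≤ y) (hy1 : y ≤ 1) :
    ∀ᶠ N : ℕ in atTop, ∀ k : ℕ, ∀ D E : Finset (Finset ℕ), D ⊆ (PA k N).powerset →
    E ⊆ (PA k N).powerset → (∀ T ∈ D, (prd T : ℝ) ≤ (N : ℝ) ^ x) →
    (∀ T ∈ E, (prd T : ℝ) ≤ (N : ℝ) ^ y) → A2 D E ≤ (N : ℝ) ^ (2 * x + y + 1 / 1000) := by
  filter_upwards [zN_eventually (2 ^ 3000), eventually_ge_atTop 1] with N hz hN1 k D E hD hE hDx hEy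
  have hN : (1 : ℝ) ≤ N := by exact_mod_cast hN1
  have hN0 : (0 : ℝ) < N := by linarith
  have hsum : ∀ (z : ℝ) (F : Finset (Finset ℕ)), F ⊆ (PA k N).powerset →
      (∀ T ∈ F, (prd T : ℝ) ≤ (N : ℝ) ^ z) →
      ∑ T ∈ F, (2 : ℝ) ^ #T ≤ (N : ℝ) ^ (z + z / 3000) := by
    intro z F hF hFz
    calc ∑ T ∈ F, (2 : ℝ) ^ #T ≤ ∑ T ∈ F, ((N : ℝ) ^ z) ^ ((1 : ℝ) / 3000) :=
          sum_le_sum fun T hT => cbu_pow hz (mem_powerset.1 (hF hT)) (hFz T hT)
      _ = #F * ((N : ℝ) ^ z) ^ ((1 : ℝ) / 3000) := by rw [sum_const, nsmul_eq_mul]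
      _ ≤ (N : ℝ) ^ z * ((N : ℝ) ^ z) ^ ((1 : ℝ) / 3000) := by
          gcongr
          exact cbu_card hF (by positivity) hFz
      _ = (N : ℝ) ^ (z + z / 3000) := by
          rw [← Real.rpow_mul hN0.le, ← Real.rpow_add hN0]
          congr 1
          ring
  have hA2 : A2 D E ≤ (∑ T ∈ D, (2 : ℝ) ^ #T) * (∑ T ∈ D, (2 : ℝ) ^ #T) *
      ∑ T ∈ E, (2 : ℝ) ^ #T := by
    unfold A2
    rw [sum_mul_sum, sum_mul]
    refine sum_le_sum fun T₁ _ => ?_
    rw [sum_mul]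
    refine sum_le_sum fun T₂ _ => ?_
    rw [mul_sum]
    refine sum_le_sum fun T₃ _ => ?_
    rw [← pow_add, ← pow_add]
    refine pow_le_pow_right₀ (by norm_num) ?_
    exact (card_union_le _ _).trans (by gcongr; exact card_union_le _ _)
  have h1 := hsum x D hD hDx
  have h2 := hsum y E hE hEy
  have hEn : 0 ≤ ∑ T ∈ E, (2 : ℝ) ^ #T := by positivity
  have hDn : 0 ≤ ∑ T ∈ D, (2 : ℝ) ^ #T := by positivity
  calc A2 D E ≤ (N : ℝ) ^ (x + x / 3000) * (N : ℝ) ^ (x + x / 3000) * (N : ℝ) ^ (y + y / 3000) := by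
        refine hA2.trans ?_
        gcongr
    _ = (N : ℝ) ^ (x + x / 3000 + (x + x / 3000) + (y + y / 3000)) := by
        rw [← Real.rpow_add hN0, ← Real.rpow_add hN0]
    _ ≤ _ := by
        apply Real.rpow_le_rpow_of_exponent_le hN
        linarith

end Pool.Agent.Work.MP_73869e_nt.OW
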