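import Mathlib
import Pool.Agent.Work.MP_73869e_nt.OW.CbU
import Pool.Agent.Work.MP_73869e_nt.OW.ChiB
import Pool.Agent.Work.MP_73869e_nt.OW.Fmc

set_option autoImplicit false

/-!
Module MomU (size M, a port of P5/MomL.lean). ev_PAu: k ≤ KK C N < zN N < p gives p ∤ k, nu {k} p = 1 + chi k p = 2
(nu_chi). mom_lin_u: AP.momA_single with D = {∅}; 2 (N/Q) exp(..) A1 ≤ 2 N log^(-30) K log^2 N (A1_one, sum_PAu).
mom_sq_u: A1 ≤ exp(7 Σ g) ≤ K log^14 N (A1_leU). Errors N/log^8 N.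
-/

namespace Pool.Agent.Work.MP_73869e_nt.OW

open Finset Filter Pool.Agent.Work.MP_2dba45_nt.Sel
open Pool.Agent.Work.MP_73869e_nt.AP (zN g prd nu SS VV AA)
open Pool.Agent.Work.MP_73869e_nt.P5 (LS ML)

theorem ev_PAu (C : ℝ) (hC : 0 < C) (w : ℕ) : ∀ᶠ N : ℕ in atTop, ∀ k ∈ Icc 1 (KK C N),
    k < zN N ∧ ∀ p ∈ PA k N, p.Prime ∧ zN N < p ∧ w < p ∧ nu {k} p = 2 := by
  filter_upwards [ev_KK C 1 0 hC one_pos, AP.ev_zN_ge (w + 2)] with N hN hz
  intro k hk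
  obtain ⟨-, -, h3, -, -⟩ := hN
  rw [Finset.mem_Icc] at hk
  have hzw : w + 2 ≤ zN N := by exact_mod_cast hz
  refine ⟨by omega, fun p hp => ?_⟩
  unfold PA at hp
  rw [Finset.mem_filter, Finset.mem_Ioo] at hp
  obtain ⟨⟨hpz, -⟩, hpp, hchi⟩ := hp
  have hnu := nu_chi k p hk.1 hpp (by omega)
  rw [hchi] at hnu
  exact ⟨hpp, hpz, by omega, by omega⟩

private theorem mlu_expC : ∃ K : ℝ, 0 < K ∧ ∀ᶠ N : ℕ in atTop, ∀ k : ℕ,
    Real.exp (7 * ∑ p ∈ PA k N, g p) ≤ K * Real.log N ^ 14 := by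
  obtain ⟨C, hC0, hC⟩ := sum_PAu
  refine ⟨Real.exp (7 * C), Real.exp_pos _, ?_⟩
  filter_upwards [hC, AP.ev_log_ge 1] with N hN hL k
  have hL0 : 0 < Real.log N := by linarith
  have hk := hN k
  calc Real.exp (7 * ∑ p ∈ PA k N, g p) ≤ Real.exp (7 * C + 14 * Real.log (Real.log N)) := by
        apply Real.exp_le_exp.2; linarith
    _ = Real.exp (7 * C) * Real.log N ^ 14 := by
        rw [Real.exp_add, show (14 : ℝ) * Real.log (Real.log N) = Real.log (Real.log N ^ 14) by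
          rw [Real.log_pow]; norm_num, Real.exp_log (by positivity)]

private theorem mlu_gen (C : ℝ) (hC : 0 < C) (w : ℕ) (hw : 6 ≤ w)
    (x y : ℝ) (hx : 0 ≤ x) (hx1 : x ≤ 1) (hy : 0 ≤ y) (hy1 : y ≤ 1)
    (hxy : 2 * x + y + 1 / 1000 + 1 / 1000 < 1) :
    ∀ᶠ N : ℕ in atTop, ∀ a < primorial w, ∀ k ∈ Icc 1 (KK C N),
    ∀ (lam om : Finset ℕ → ℝ) (D E : Finset (Finset ℕ)), (∀ T, |lam T| ≤ 1) → (∀ T, |om T| ≤ 1) →
    D ⊆ (PA k N).powerset → E ⊆ (PA k N).powerset →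
    (∀ T ∈ D, (prd T : ℝ) ≤ (N : ℝ) ^ x) → (∀ T ∈ E, (prd T : ℝ) ≤ (N : ℝ) ^ y) →
    |∑ n ∈ AA {k} w N a, AP.FF D lam E om k n -
      (N : ℝ) / primorial w * VV {k} w N * AP.MM D lam E om| ≤ N / Real.log N ^ 8 := by
  obtain ⟨K, hK0, hK⟩ := mlu_expC
  filter_upwards [ev_PAu C hC w, hK, A2_leU x y hx hx1 hy hy1, AP.ev_exp, P5.ev_pow5,
    AP.ev_log_ge (4 * K + 2), AP.ev_rpow_small (2 * x + y + 1 / 1000 + 1 / 1000) hxy 2 8,
    AP.ev_zN_ge 1, eventually_ge_atTop 8] with N hPP hKN hA2 hexp hpow hL hsmall hz1 h8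
  intro a ha k hk lam om D E hlam hom hD hE hDx hEy
  obtain ⟨-, hP⟩ := hPP k hk
  have hz1' : 1 ≤ zN N := by exact_mod_cast hz1
  have hmain := AP.momA_single N w a k (AP.bN N) (zN N) ha rfl hz1' (PA k N) hP
    D E hD hE lam om hlam hom (by omega)
  refine hmain.trans ?_
  have hN0 : (0 : ℝ) < N := by exact_mod_cast (by omega : 0 < N)
  have hL0 : 0 < Real.log N := by linarith
  have hQ : (1 : ℝ) ≤ primorial w := by exact_mod_cast primorial_pos w
  have h1 := A1_leU k N D E hD hE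
  have h2 := hA2 k D E hD hE hDx hEy
  have hNQ : (N : ℝ) / primorial w ≤ N := div_le_self hN0.le hQ
  have hNQ0 : 0 ≤ (N : ℝ) / primorial w := by positivity
  have t1 : 2 * ((N : ℝ) / primorial w) *
      Real.exp (11 * (1 + Real.log (zN N)) - (2 * (AP.bN N : ℝ) + 1)) * AP.A1 D E ≤
      (N / Real.log N ^ 8) / 2 := by
    calc _ ≤ 2 * (N : ℝ) * (1 / Real.log N ^ 30) * (K * Real.log N ^ 14) := by
          have := AP.A1_nonneg D E
          gcongr
          exact h1.trans (hKN k)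
      _ = (N / Real.log N ^ 8) / 2 * (4 * K / Real.log N ^ 8) := by
          field_simp
          norm_num
      _ ≤ (N / Real.log N ^ 8) / 2 * 1 := by
          gcongr
          rw [div_le_one (by positivity)]
          calc 4 * K ≤ Real.log N := by linarith
            _ ≤ Real.log N ^ 8 := le_self_pow₀ (by linarith) (by norm_num)
      _ = _ := by ring
  have t2 : 4 * (1 + 4 * ((zN N : ℕ) : ℝ)) ^ (2 * AP.bN N + 1) * AP.A2 D E ≤
      (N / Real.log N ^ 8) / 2 := by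
    calc _ ≤ (N : ℝ) ^ ((1 : ℝ) / 1000) * (N : ℝ) ^ (2 * x + y + 1 / 1000) := by
          have := AP.A2_nonneg D E
          gcongr
      _ = (2 * (N : ℝ) ^ (2 * x + y + 1 / 1000 + 1 / 1000)) / 2 := by
          rw [Real.rpow_add hN0 (2 * x + y + 1 / 1000)]
          ring
      _ ≤ _ := by gcongr
  linarith

theorem mom_lin_u (C : ℝ) (hC : 0 < C) (w : ℕ) (hw : 6 ≤ w) : ∀ᶠ N : ℕ in atTop,
    ∀ a < primorial w, ∀ k ∈ Icc 1 (KK C N),
    ∀ (om : Finset ℕ → ℝ) (E : Finset (Finset ℕ)), (∀ T, |om T| ≤ 1) →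
    E ⊆ (PA k N).powerset → (∀ T ∈ E, (prd T : ℝ) ≤ (N : ℝ) ^ ((497 : ℝ) / 1000)) →
    |∑ n ∈ AA {k} w N a, LS E om k n -
      (N : ℝ) / primorial w * VV {k} w N * ML E om| ≤ N / Real.log N ^ 8 := by
  filter_upwards [mlu_gen C hC w hw 0 (497 / 1000) le_rfl (by norm_num) (by norm_num)
    (by norm_num) (by norm_num)] with N hN
  intro a ha k hk om E hom hE hEy
  have h := hN a ha k hk (fun _ => 1) om {∅} E (fun _ => by norm_num) hom
    (by intro T hT; rw [Finset.mem_singleton] at hT; subst hT; simp) hE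
    (by intro T hT; rw [Finset.mem_singleton] at hT; subst hT; simp [prd]) hEy
  have e1 : ∀ n, AP.FF {∅} (fun _ => 1) E om k n = LS E om k n := by
    intro n
    unfold AP.FF LS
    rw [Finset.sum_singleton, if_pos (fun p hp => absurd hp (Finset.notMem_empty p))]
    ring
  have e2 : AP.MM {∅} (fun _ => 1) E om = ML E om := by
    unfold AP.MM ML
    simp
  rw [e2] at h
  simpa only [e1] using h

theorem mom_sq_u (C : ℝ) (hC : 0 < C) (w : ℕ) (hw : 6 ≤ w) : ∀ᶠ N : ℕ in atTop,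
    ∀ a < primorial w, ∀ k ∈ Icc 1 (KK C N),
    ∀ (lam : Finset ℕ → ℝ) (D : Finset (Finset ℕ)), (∀ T, |lam T| ≤ 1) →
    D ⊆ (PA k N).powerset → (∀ T ∈ D, (prd T : ℝ) ≤ (N : ℝ) ^ ((2 : ℝ) / 1000)) →
    |∑ n ∈ AA {k} w N a, LS D lam k n ^ 2 -
      (N : ℝ) / primorial w * VV {k} w N *
        ∑ d ∈ D, ∑ e ∈ D, lam d * lam e * gg g (d ∪ e)| ≤ N / Real.log N ^ 8 := by
  filter_upwards [mlu_gen C hC w hw (2 / 1000) 0 (by norm_num) (by norm_num) le_rfl
    (by norm_num) (by norm_num)] with N hN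
  intro a ha k hk lam D hlam hD hDx
  have h := hN a ha k hk lam (fun _ => 1) D {∅} hlam (fun _ => by norm_num) hD
    (by intro T hT; rw [Finset.mem_singleton] at hT; subst hT; simp) hDx
    (by intro T hT; rw [Finset.mem_singleton] at hT; subst hT; simp [prd])
  have e1 : ∀ n, AP.FF D lam {∅} (fun _ => 1) k n = LS D lam k n ^ 2 := by
    intro n
    unfold AP.FF LS
    rw [Finset.sum_singleton, if_pos (fun p hp => absurd hp (Finset.notMem_empty p))]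
    ring
  have e2 : AP.MM D lam {∅} (fun _ => 1) = ∑ d ∈ D, ∑ e ∈ D, lam d * lam e * gg g (d ∪ e) := by
    unfold AP.MM
    simp
  rw [e2] at h
  simpa only [e1] using h

end Pool.Agent.Work.MP_73869e_nt.OW
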