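import Mathlib
import Pool.Agent.Work.MP_73869e_nt.OW.Ckf
import Pool.Agent.Work.MP_73869e_nt.OW.CombU
import Pool.Agent.Work.MP_73869e_nt.OW.MomU

set_option autoImplicit false

/-!
Module FirstU (size M, a port of P5/First.lean, simpler: x = k). Errors: ck ≤ log^3 N (ck_facts), moments N/log^8 N:
ck N/log^8 ≤ N/log^5; first_e_u: ck * 2 log N * N/log^8 N ≤ 2 N/log^4 N.
-/

namespace Pool.Agent.Work.MP_73869e_nt.OW

open Finset Filter
open Pool.Agent.Work.MP_73869e_nt.AP (NN)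

open Pool.Agent.Work.MP_2dba45_nt.Sel in
open Pool.Agent.Work.MP_73869e_nt.AP (AA AA_sub) in
private theorem fu_sum {w N a : ℕ} {κ : Finset ℕ} (c : ℝ) (f : ℕ → ℝ)
    (h : ∀ n, Decidable (n ∈ AA κ w N a)) :
    ∑ n ∈ NN w N a, c * (@ite ℝ (n ∈ AA κ w N a) (h n) (f n) 0) = c * ∑ n ∈ AA κ w N a, f n := by
  rw [Finset.mul_sum, ← Finset.sum_subset (AA_sub κ w N a)]
  · refine Finset.sum_congr rfl fun n hn => ?_
    rw [if_pos hn]
  · intro n _ hn
    rw [if_neg hn, mul_zero]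

open Pool.Agent.Work.MP_73869e_nt.P5 (LS) in
private theorem fu_filter (P : Finset ℕ) (f : Finset ℕ → ℝ) (k n : ℕ) :
    LS P.powerset f k n = ∑ d ∈ (P.filter (fun p => p ∣ n ^ 2 + k)).powerset, f d := by
  unfold LS
  rw [← Finset.sum_filter]
  refine Finset.sum_congr ?_ fun _ _ => rfl
  ext d
  rw [Finset.mem_filter, Finset.mem_powerset, Finset.mem_powerset]
  constructor
  · rintro ⟨h1, h2⟩ p hp
    exact Finset.mem_filter.2 ⟨h1 hp, h2 p hp⟩
  · intro h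
    exact ⟨fun p hp => (Finset.mem_filter.1 (h hp)).1, fun p hp => (Finset.mem_filter.1 (h hp)).2⟩

theorem first_u_u (C δ : ℝ) (b κ w : ℕ) (hC : 0 < C) (hδ : 0 < δ) (hδ1 : δ ≤ 1 / 200)
    (hlev : δ * (4 * b + 10) ≤ 1 / 1000) (hκ : 1 ≤ κ) (hw : 16 ≤ w) :
    ∀ᶠ N : ℕ in atTop, ∀ lp dp : ℕ → Finset ℕ → ℝ, Env δ b N lp dp → ∀ a < primorial w,
    ∀ k ∈ Icc 1 (KK C N),
    |∑ n ∈ NN w N a, uu δ κ w N a lp k n - (N : ℝ) / primorial w * WM δ κ N k| ≤
      N / Real.log N ^ 3 := by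
  filter_upwards [mom_lin_u C hC w (by omega), comb_u δ b κ hδ hlev hκ, ck_facts C δ b w hC hδ hδ1 hw,
    Pool.Agent.Work.MP_73869e_nt.AP.ev_log_ge 4] with N hN hcomb hc5 hL4
  intro lp dp henv a ha k hk
  obtain ⟨E, om, hE1, hE2, hE3, hE4, hE5⟩ := hcomb k (lp k) (dp k) (henv k)
  have h2 := hN a ha k hk om E hE2 hE1 hE3
  obtain ⟨hV0, hT1, hT2, hVp, hV1, hc1, -, hc2⟩ := hc5 lp dp henv k hk
  have hT : 0 < ThM δ N lp k := hV0.trans_le hT1
  have hL0 : 0 < Real.log N := by linarith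
  have hsum : ∑ n ∈ NN w N a, uu δ κ w N a lp k n =
      ck δ w N lp k * ∑ n ∈ Pool.Agent.Work.MP_73869e_nt.AP.AA {k} w N a,
        Pool.Agent.Work.MP_73869e_nt.P5.LS E om k n := by
    unfold uu
    rw [fu_sum]
    congr 1
    refine Finset.sum_congr rfl fun n _ => ?_
    rw [hE4]
    rfl
  have e : ck δ w N lp k * ∑ n ∈ Pool.Agent.Work.MP_73869e_nt.AP.AA {k} w N a,
        Pool.Agent.Work.MP_73869e_nt.P5.LS E om k n -
      (N : ℝ) / primorial w * WM δ κ N k = ck δ w N lp k *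
      (∑ n ∈ Pool.Agent.Work.MP_73869e_nt.AP.AA {k} w N a,
        Pool.Agent.Work.MP_73869e_nt.P5.LS E om k n -
      (N : ℝ) / primorial w * Pool.Agent.Work.MP_73869e_nt.AP.VV {k} w N *
        Pool.Agent.Work.MP_73869e_nt.P5.ML E om) := by
    rw [mul_sub, hE5]
    congr 1
    show _ = 1 / (Pool.Agent.Work.MP_73869e_nt.AP.VV {k} w N * ThM δ N lp k) *
      ((N : ℝ) / primorial w * Pool.Agent.Work.MP_73869e_nt.AP.VV {k} w N *
        (ThM δ N lp k * WM δ κ N k))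
    field_simp
  have hc0 : 0 ≤ ck δ w N lp k := le_trans (by norm_num) hc1
  rw [hsum, e, abs_mul, abs_of_nonneg hc0]
  calc ck δ w N lp k * _ ≤ Real.log N ^ 3 * (N / Real.log N ^ 8) :=
        mul_le_mul hc2 h2 (abs_nonneg _) (by positivity)
    _ = N / Real.log N ^ 5 := by field_simp
    _ ≤ N / Real.log N ^ 3 := by
        gcongr
        · linarith
        · norm_num

theorem first_t_u (C δ : ℝ) (b w : ℕ) (hC : 0 < C) (hδ : 0 < δ) (hδ1 : δ ≤ 1 / 200)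
    (hlev : δ * (4 * b + 10) ≤ 1 / 1000) (hw : 16 ≤ w) :
    ∀ᶠ N : ℕ in atTop, ∀ lp dp : ℕ → Finset ℕ → ℝ, Env δ b N lp dp → ∀ a < primorial w,
    ∀ k ∈ Icc 1 (KK C N),
    |∑ n ∈ NN w N a, tt δ w N a lp k n - (N : ℝ) / primorial w| ≤ N / Real.log N ^ 3 := by
  filter_upwards [mom_lin_u C hC w (by omega), sing_lp_u δ b hδ hlev, ck_facts C δ b w hC hδ hδ1 hw,
    Pool.Agent.Work.MP_73869e_nt.AP.ev_log_ge 4, eventually_ge_atTop 1] with N hN hcomb hc5 hL4 hN1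
  intro lp dp henv a ha k hk
  obtain ⟨E, hE1, hE3, hE4, hE5, -⟩ := hcomb k (lp k) (dp k) (henv k)
  have hE3' : ∀ T ∈ E, (Pool.Agent.Work.MP_73869e_nt.AP.prd T : ℝ) ≤ (N : ℝ) ^ ((497 : ℝ) / 1000) :=
    fun T hT => (hE3 T hT).trans (Real.rpow_le_rpow_of_exponent_le (by exact_mod_cast hN1) (by norm_num))
  have h2 := hN a ha k hk (lp k) E (henv k).lp_le hE1 hE3'
  obtain ⟨hV0, hT1, hT2, hVp, hV1, hc1, -, hc2⟩ := hc5 lp dp henv k hk
  have hT : 0 < ThM δ N lp k := hV0.trans_le hT1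
  have hL0 : 0 < Real.log N := by linarith
  have hsum : ∑ n ∈ NN w N a, tt δ w N a lp k n =
      ck δ w N lp k * ∑ n ∈ Pool.Agent.Work.MP_73869e_nt.AP.AA {k} w N a,
        Pool.Agent.Work.MP_73869e_nt.P5.LS E (lp k) k n := by
    unfold tt
    rw [fu_sum]
    congr 1
    refine Finset.sum_congr rfl fun n _ => ?_
    rw [hE4]
    rfl
  have e : ck δ w N lp k * ∑ n ∈ Pool.Agent.Work.MP_73869e_nt.AP.AA {k} w N a,
        Pool.Agent.Work.MP_73869e_nt.P5.LS E (lp k) k n -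
      (N : ℝ) / primorial w = ck δ w N lp k *
      (∑ n ∈ Pool.Agent.Work.MP_73869e_nt.AP.AA {k} w N a,
        Pool.Agent.Work.MP_73869e_nt.P5.LS E (lp k) k n -
      (N : ℝ) / primorial w * Pool.Agent.Work.MP_73869e_nt.AP.VV {k} w N *
        Pool.Agent.Work.MP_73869e_nt.P5.ML E (lp k)) := by
    rw [mul_sub, hE5]
    congr 1
    show _ = 1 / (Pool.Agent.Work.MP_73869e_nt.AP.VV {k} w N * ThM δ N lp k) *
      ((N : ℝ) / primorial w * Pool.Agent.Work.MP_73869e_nt.AP.VV {k} w N * ThM δ N lp k)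
    field_simp
  have hc0 : 0 ≤ ck δ w N lp k := le_trans (by norm_num) hc1
  rw [hsum, e, abs_mul, abs_of_nonneg hc0]
  calc ck δ w N lp k * _ ≤ Real.log N ^ 3 * (N / Real.log N ^ 8) :=
        mul_le_mul hc2 h2 (abs_nonneg _) (by positivity)
    _ = N / Real.log N ^ 5 := by field_simp
    _ ≤ N / Real.log N ^ 3 := by
        gcongr
        · linarith
        · norm_num

theorem first_e_u (C δ : ℝ) (b w : ℕ) (hC : 0 < C) (hδ : 0 < δ) (hδ1 : δ ≤ 1 / 200)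
    (hlev : δ * (4 * b + 10) ≤ 1 / 1000) (hw : 16 ≤ w) :
    ∀ᶠ N : ℕ in atTop, ∀ lp dp : ℕ → Finset ℕ → ℝ, Env δ b N lp dp → ∀ a < primorial w,
    ∀ k ∈ Icc 1 (KK C N),
    ∑ n ∈ NN w N a, ee δ w N a lp k n ≤
      (N : ℝ) / primorial w * Real.exp (-(b : ℝ)) + N / Real.log N ^ 2 := by
  filter_upwards [mom_lin_u C hC w (by omega), sing_dp_u δ b hδ hlev, ck_facts C δ b w hC hδ hδ1 hw,
    Pool.Agent.Work.MP_73869e_nt.AP.ev_log_ge 4, eventually_ge_atTop 1] with N hN hcomb hc5 hL4 hN1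
  intro lp dp henv a ha k hk
  have hbh := henv k
  obtain ⟨E, om, hE1, hE2, hE3, hE4, hE5⟩ := hcomb k (lp k) (dp k) hbh
  have hE3' : ∀ T ∈ E, (Pool.Agent.Work.MP_73869e_nt.AP.prd T : ℝ) ≤ (N : ℝ) ^ ((497 : ℝ) / 1000) :=
    fun T hT => (hE3 T hT).trans (Real.rpow_le_rpow_of_exponent_le (by exact_mod_cast hN1) (by norm_num))
  have h2 := hN a ha k hk om E hE2 hE1 hE3'
  obtain ⟨hV0, hT1, hT2, hVp, hV1, hc1, -, hc2⟩ := hc5 lp dp henv k hk
  have hT : 0 < ThM δ N lp k := hV0.trans_le hT1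
  have hL0 : 0 < Real.log N := by linarith
  have hc0 : 0 ≤ ck δ w N lp k := le_trans (by norm_num) hc1
  have hQ0 : (0 : ℝ) < primorial w := by exact_mod_cast primorial_pos w
  set V := Pool.Agent.Work.MP_73869e_nt.AP.VV {k} w N with hV
  set X := (N : ℝ) / primorial w with hX
  have hX0 : 0 ≤ X := by positivity
  have hsum : ∑ n ∈ NN w N a, ee δ w N a lp k n ≤
      ck δ w N lp k * ∑ n ∈ Pool.Agent.Work.MP_73869e_nt.AP.AA {k} w N a,
        Pool.Agent.Work.MP_73869e_nt.P5.LS (Psm k δ N).powerset (dp k) k n := by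
    unfold ee
    rw [fu_sum]
    apply mul_le_mul_of_nonneg_left _ hc0
    refine Finset.sum_le_sum fun n _ => ?_
    unfold th
    rw [fu_filter, fu_filter]
    have h3 := hbh.up _ (Finset.filter_subset (fun p => p ∣ n ^ 2 + k) (Psm k δ N))
    have h4 : ((Psm k δ N).filter (fun p => p ∣ n ^ 2 + k) = ∅) ↔ Ro δ N k n := by
      rw [Finset.filter_eq_empty_iff]
      rfl
    by_cases hR : Ro δ N k n
    · rw [if_pos (h4.2 hR)] at h3
      rw [if_pos hR]
      exact h3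
    · rw [if_neg (fun h => hR (h4.1 h))] at h3
      rw [if_neg hR]
      exact h3
  refine hsum.trans ?_
  have h5 : ∑ n ∈ Pool.Agent.Work.MP_73869e_nt.AP.AA {k} w N a,
      Pool.Agent.Work.MP_73869e_nt.P5.LS (Psm k δ N).powerset (dp k) k n =
      2 * Real.log N * ∑ n ∈ Pool.Agent.Work.MP_73869e_nt.AP.AA {k} w N a,
        Pool.Agent.Work.MP_73869e_nt.P5.LS E om k n := by
    rw [Finset.mul_sum]
    exact Finset.sum_congr rfl fun n _ => hE4 _ _
  have h6 := (abs_le.1 h2).2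
  have h7 : Pool.Agent.Work.MP_73869e_nt.P5.ML (Psm k δ N).powerset (dp k) ≤
      Real.exp (-(b : ℝ)) * ∏ p ∈ Psm k δ N, (1 - Pool.Agent.Work.MP_73869e_nt.AP.g p) := hbh.errm
  have h8 : ck δ w N lp k * V * (ThM δ N lp k) = 1 := by
    show 1 / (V * ThM δ N lp k) * V * (ThM δ N lp k) = 1
    field_simp
  have h9 : ck δ w N lp k * V * Pool.Agent.Work.MP_73869e_nt.P5.ML (Psm k δ N).powerset (dp k) ≤
      Real.exp (-(b : ℝ)) := by
    calc ck δ w N lp k * V * Pool.Agent.Work.MP_73869e_nt.P5.ML (Psm k δ N).powerset (dp k)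
        ≤ ck δ w N lp k * V * (Real.exp (-(b : ℝ)) * ThM δ N lp k) := by
          refine mul_le_mul_of_nonneg_left (h7.trans ?_) (by positivity)
          gcongr
      _ = (ck δ w N lp k * V * ThM δ N lp k) * Real.exp (-(b : ℝ)) := by ring
      _ = _ := by rw [h8, one_mul]
  rw [h5]
  calc ck δ w N lp k * (2 * Real.log N * ∑ n ∈ Pool.Agent.Work.MP_73869e_nt.AP.AA {k} w N a,
        Pool.Agent.Work.MP_73869e_nt.P5.LS E om k n)
      ≤ ck δ w N lp k * (2 * Real.log N *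
          (X * V * Pool.Agent.Work.MP_73869e_nt.P5.ML E om + N / Real.log N ^ 8)) := by
        gcongr
        linarith
    _ = X * (ck δ w N lp k * V * (2 * Real.log N * Pool.Agent.Work.MP_73869e_nt.P5.ML E om)) +
        ck δ w N lp k * (2 * (N / Real.log N ^ 7)) := by
        field_simp
    _ ≤ X * Real.exp (-(b : ℝ)) + Real.log N ^ 3 * (2 * (N / Real.log N ^ 7)) := by
        rw [← hE5]
        gcongr
    _ = X * Real.exp (-(b : ℝ)) + (N / Real.log N ^ 2) * (2 / Real.log N ^ 2) := by field_simp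
    _ ≤ X * Real.exp (-(b : ℝ)) + (N / Real.log N ^ 2) * 1 := by
        gcongr
        rw [div_le_one (by positivity)]
        nlinarith
    _ = _ := by rw [mul_one]

end Pool.Agent.Work.MP_73869e_nt.OW
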