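import Mathlib
import Pool.Agent.Work.MP_73869e_nt.OW.Ckf
import Pool.Agent.Work.MP_73869e_nt.OW.CombU
import Pool.Agent.Work.MP_73869e_nt.OW.MomU
import Pool.Agent.Work.MP_73869e_nt.OW.WvbU

set_option autoImplicit false

/-!
Module DiagU (size S-M, a port of P5/Diag.lean with x = k; k ≤ KK C N ≤ N by ev_KK).
-/

namespace Pool.Agent.Work.MP_73869e_nt.OW

open Finset Filter
open Pool.Agent.Work.MP_73869e_nt.AP (NN)

theorem diag_u_u (C δ : ℝ) (b κ w : ℕ) (hC : 0 < C) (hδ : 0 < δ) (hδ1 : δ ≤ 1 / 200)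
    (hlev : δ * (4 * b + 10) ≤ 1 / 1000) (hκ : 1 ≤ κ) (hw : 16 ≤ w) :
    ∀ᶠ N : ℕ in atTop, ∀ lp dp : ℕ → Finset ℕ → ℝ, Env δ b N lp dp → ∀ a < primorial w,
    ∀ k ∈ Icc 1 (KK C N),
    ∑ n ∈ NN w N a, uu δ κ w N a lp k n ^ 2 ≤
      6 * (4 : ℝ) ^ (3 / δ) * ((N : ℝ) / primorial w) * ck δ w N lp k := by
  classical
  filter_upwards [ck_facts C δ b w hC hδ hδ1 hw, sing_lp_u δ b hδ hlev, mom_sq_u C hC w (by omega),
    ev_KK C 1 0 hC one_pos, wv_abs_u δ κ hδ hκ, AP.ev_log_ge (max 1 (primorial w : ℝ)), eventually_ge_atTop 8]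
    with N hck hsing hmom hKK hwv hLm h8
  intro lp dp hE a ha k hk
  have hL1 : 1 ≤ Real.log N := (le_max_left _ _).trans hLm
  have hLQ : (primorial w : ℝ) ≤ Real.log N := (le_max_right _ _).trans hLm
  have hL0 : 0 < Real.log N := by linarith
  have hN0 : (0 : ℝ) < N := by exact_mod_cast (by omega : 0 < N)
  have hQ0 : (0 : ℝ) < primorial w := by exact_mod_cast primorial_pos w
  obtain ⟨hV0, hV1, hT2, hVV0, hVV1, hcka, hckb, hckc⟩ := hck lp dp hE k hk
  have hBH := hE k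
  obtain ⟨D, hD1, hD2, hD3, hD4, hD5⟩ := hsing k (lp k) (dp k) hBH
  have hm := (abs_le.1 (hmom a ha k hk (lp k) D hBH.lp_le hD1 hD2)).2
  have hc0 : 0 < ck δ w N lp k := by linarith
  set V := ∏ p ∈ Psm k δ N, (1 - AP.g p) with hV
  set W := AP.VV {k} w N with hW
  set X := (N : ℝ) / primorial w with hX
  have hX0 : 0 < X := by positivity
  have hsq : ∑ d ∈ D, ∑ e ∈ D, lp k d * lp k e * MP_2dba45_nt.Sel.gg AP.g (d ∪ e) ≤ 4 * V := by
    rw [hD5]
    exact hBH.sq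
  have hth : ∑ n ∈ AP.AA {k} w N a, th δ N lp k n ^ 2 ≤
      X * W * (4 * V) + N / Real.log N ^ 8 := by
    have e : ∑ n ∈ AP.AA {k} w N a, th δ N lp k n ^ 2 =
        ∑ n ∈ AP.AA {k} w N a, P5.LS D (lp k) k n ^ 2 := by
      refine Finset.sum_congr rfl fun n _ => ?_
      unfold th
      rw [hD3]
    rw [e]
    have h1 : X * W * ∑ d ∈ D, ∑ e ∈ D, lp k d * lp k e * MP_2dba45_nt.Sel.gg AP.g (d ∪ e) ≤
        X * W * (4 * V) := mul_le_mul_of_nonneg_left hsq (by positivity)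
    linarith
  have hcV : ck δ w N lp k * (X * W * (4 * V)) ≤ 4 * X := by
    have hThM : 0 < ThM δ N lp k := lt_of_lt_of_le hV0 hV1
    have e : ck δ w N lp k = 1 / (W * ThM δ N lp k) := rfl
    rw [e]
    have h1 : V / ThM δ N lp k ≤ 1 := (div_le_one hThM).2 hV1
    calc 1 / (W * ThM δ N lp k) * (X * W * (4 * V)) =
          4 * X * (V / ThM δ N lp k) := by field_simp
      _ ≤ 4 * X * 1 := by gcongr
      _ = 4 * X := by ring
  have hcE : ck δ w N lp k * (N / Real.log N ^ 8) ≤ 2 * X := by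
    have h2 : (N : ℝ) / Real.log N ≤ X := by
      rw [hX]
      exact div_le_div_of_nonneg_left hN0.le hQ0 hLQ
    have h3 : (1 : ℝ) ≤ Real.log N ^ 4 := one_le_pow₀ hL1
    calc ck δ w N lp k * (N / Real.log N ^ 8) ≤
          Real.log N ^ 3 * (N / Real.log N ^ 8) := by
          gcongr
      _ = (N / Real.log N) * (1 / Real.log N ^ 4) := by field_simp
      _ ≤ (N / Real.log N) * 1 := by
          gcongr
          rw [div_le_one (by positivity)]
          exact h3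
      _ ≤ 2 * X := by linarith
  have hmain : ck δ w N lp k * ∑ n ∈ AP.AA {k} w N a, th δ N lp k n ^ 2 ≤ 6 * X := by
    have := mul_le_mul_of_nonneg_left hth hc0.le
    rw [mul_add] at this
    linarith
  have hstep : ∑ n ∈ NN w N a, uu δ κ w N a lp k n ^ 2 ≤
      ck δ w N lp k ^ 2 * ((4 : ℝ) ^ (3 / δ) *
        ∑ n ∈ AP.AA {k} w N a, th δ N lp k n ^ 2) := by
    rw [Finset.mul_sum, Finset.mul_sum, ← Finset.sum_subset (AP.AA_sub {k} w N a)]
    · refine Finset.sum_le_sum fun n hn => ?_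
      unfold uu
      rw [if_pos hn, mul_pow, mul_pow]
      apply mul_le_mul_of_nonneg_left _ (sq_nonneg _)
      have hn1 : n ∈ Ioc N (2 * N) := by
        unfold AP.AA at hn
        exact (Finset.mem_filter.1 hn).1
      have hb : |wv δ κ N k n| ≤ (2 : ℝ) ^ (3 / δ) :=
        hwv k k ((Finset.mem_Icc.1 hk).2.trans hKK.2.2.2.2) n hn1
      have hb2 : wv δ κ N k n ^ 2 ≤ (4 : ℝ) ^ (3 / δ) := by
        rw [← sq_abs]
        calc |wv δ κ N k n| ^ 2 ≤ ((2 : ℝ) ^ (3 / δ)) ^ 2 := by gcongr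
          _ = (4 : ℝ) ^ (3 / δ) := by
              rw [← Real.rpow_natCast, ← Real.rpow_mul (by norm_num), mul_comm,
                Real.rpow_mul (by norm_num)]
              norm_num
      rw [mul_comm]
      exact mul_le_mul_of_nonneg_right hb2 (sq_nonneg _)
    · intro n _ hn
      unfold uu
      rw [if_neg hn]
      simp
  refine hstep.trans ?_
  have h40 : (0 : ℝ) < (4 : ℝ) ^ (3 / δ) := by positivity
  calc ck δ w N lp k ^ 2 * ((4 : ℝ) ^ (3 / δ) *
        ∑ n ∈ AP.AA {k} w N a, th δ N lp k n ^ 2) =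
        ck δ w N lp k * (4 : ℝ) ^ (3 / δ) * (ck δ w N lp k *
          ∑ n ∈ AP.AA {k} w N a, th δ N lp k n ^ 2) := by ring
    _ ≤ ck δ w N lp k * (4 : ℝ) ^ (3 / δ) * (6 * X) := by gcongr
    _ = 6 * (4 : ℝ) ^ (3 / δ) * X * ck δ w N lp k := by ring

end Pool.Agent.Work.MP_73869e_nt.OW
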