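import Mathlib
import Pool.Agent.Work.MP_73869e_nt.OW.Defs
import Pool.Agent.Work.MP_73869e_nt.AP.Loc

set_option autoImplicit false

/-!
Module PairA (size M). Local factors of VV (products over the primes w < p ≤ zN N of 1 - nu/p, nu {k} p ≤ 2, p > 16).
If k ≢ k' mod p then the roots of x^2+k and x^2+k' mod p are disjoint, nu {k,k'} p = nu {k} p + nu {k'} p and
(1 - (a+b))/((1-a)(1-b)) ≤ 1. If k ≡ k' mod p then nu {k,k'} p = nu {k} p = nu {k'} p = a p and the factor is
1/(1-a) ≤ 1 + 4/p. (Bounds nu {k} p ≤ 2: as in AP, see AP.VV_pos, AP/Loc.lean, AP/PairAvg.lean.)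
-/

namespace Pool.Agent.Work.MP_73869e_nt.OW

open Finset
open Pool.Agent.Work.MP_73869e_nt.AP (zN nu SS VV)

theorem vv_ratio (w N k k' : ℕ) (hw : 16 ≤ w) :
    0 ≤ VV {k, k'} w N / (VV {k} w N * VV {k'} w N) ∧
    VV {k, k'} w N / (VV {k} w N * VV {k'} w N) ≤
      ∏ p ∈ (SS w N).filter (fun p => k ≡ k' [MOD p]), (1 + 4 / (p : ℝ)) := by
  have hpos : 0 < VV {k} w N * VV {k'} w N :=
    mul_pos (AP.VV_pos k w N (by omega)) (AP.VV_pos k' w N (by omega))
  have h0 : 0 ≤ VV {k, k'} w N := by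
    unfold VV
    refine Finset.prod_nonneg fun p hp => ?_
    simp only [SS, Finset.mem_filter, Finset.mem_Ioc] at hp
    have h1 : nu {k, k'} p ≤ p := by
      unfold nu
      exact (Finset.card_filter_le _ _).trans (by simp)
    have h3 : (0 : ℝ) < p := by exact_mod_cast hp.2.pos
    rw [sub_nonneg, div_le_one h3]
    exact_mod_cast h1
  refine ⟨div_nonneg h0 hpos.le, ?_⟩
  rw [div_le_iff₀ hpos, mul_comm]
  exact AP.VV_pair k k' w N (by omega)

end Pool.Agent.Work.MP_73869e_nt.OW
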