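import Mathlib
import Pool.Agent.Work.MP_73869e_nt.OW.PairA
import Pool.Agent.Work.MP_73869e_nt.OW.Fmc
import Pool.Agent.Work.MP_73869e_nt.AP.PairAvg

set_option autoImplicit false

/-!
Module PairB (size M-L). Put F = Fm, K = KK C N, Q = primorial w, R(k,k') = ∏ over the primes p in SS w N, p ∣ k - k', of
(1 + 4/p) ≥ 1. By vv_ratio the left side is at most Σ_{k≠k'} R m m' ≤ (Σ m)^2 + M^2 Σ_{k≠k'} (R - 1). Expand
R = Σ over sets T of such primes of ∏_T 4/p (Finset.prod_one_add); d = ∏ T divides k - k' ≠ 0, |k - k'| < K, so d < K. For d > 1 and k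
fixed, the k' in F with k' ≠ k, d ∣ k - k' are ≡ k mod Q d (the primes of T are > w, so coprime to Q); there are at most
K/(Q d) of them in [1,K] (no extra 1, since k itself is excluded), and K/Q ≤ 8 #F for N large (card_Fm_ge). Hence
Σ (R - 1) ≤ 8 #F^2 Σ_{T ≠ ∅} ∏_T 4/p^2 = 8 #F^2 (∏_{p>w} (1 + 4/p^2) - 1) ≤ 8 #F^2 (exp(4/w) - 1) ≤ 8 #F^2 * 8/w.
-/

namespace Pool.Agent.Work.MP_73869e_nt.OW

open Finset Filter
open Pool.Agent.Work.MP_73869e_nt.AP (zN nu SS VV)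

private theorem pb_count (K M₀ k : ℕ) (hk : k ∈ Icc 1 K) :
    #((Icc 1 K).filter (fun k' => k ≡ k' [MOD M₀] ∧ k ≠ k')) ≤ K / M₀ := by
  classical
  rw [mem_Icc] at hk
  have h1 : #((Icc 1 K).filter (fun k' => k ≡ k' [MOD M₀] ∧ k ≠ k')) ≤
      #((range (K / M₀ + 1)).erase (k / M₀)) := by
    apply Finset.card_le_card_of_injOn (fun k' => k' / M₀)
    · intro x hx
      simp only [coe_filter, mem_Icc, Set.mem_ofPred_eq] at hx
      simp only [coe_erase, coe_range, Set.mem_sdiff, Set.mem_Iio, Set.mem_singleton_iff]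
      refine ⟨Nat.lt_succ_of_le (Nat.div_le_div_right hx.1.2), fun h => hx.2.2 ?_⟩
      have h2 : k % M₀ = x % M₀ := hx.2.1
      rw [← Nat.div_add_mod k M₀, ← Nat.div_add_mod x M₀, h, h2]
    · intro x hx y hy hxy
      simp only [coe_filter, mem_Icc, Set.mem_ofPred_eq] at hx hy
      have h2 : k % M₀ = x % M₀ := hx.2.1
      have h3 : k % M₀ = y % M₀ := hy.2.1
      have h4 : x / M₀ = y / M₀ := hxy
      rw [← Nat.div_add_mod x M₀, ← Nat.div_add_mod y M₀, h4, ← h2, ← h3]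
  refine h1.trans ?_
  rw [Finset.card_erase_of_mem (mem_range.2 (Nat.lt_succ_of_le (Nat.div_le_div_right hk.2))),
    card_range]
  exact le_of_eq (Nat.succ_sub_one _)

private theorem pb_inner (w K Q : ℕ) (hw : 16 ≤ w) (hQ : 0 < Q) (S F : Finset ℕ)
    (hS : ∀ p ∈ S, p.Prime) (hSw : ∀ p ∈ S, w < p) (hQS : ∀ p ∈ S, Nat.Coprime Q p)
    (hF : ∀ k ∈ F, k ∈ Icc 1 K) (hFQ : ∀ k ∈ F, ∀ k' ∈ F, k ≡ k' [MOD Q]) (k : ℕ)
    (hk : k ∈ F) :
    ∑ k' ∈ F, (if k = k' then (0 : ℝ) else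
      ∏ p ∈ S.filter (fun p => k ≡ k' [MOD p]), (1 + 4 / (p : ℝ)) - 1) ≤
      (K : ℝ) / Q * (16 / w) := by
  classical
  have hQR : (0 : ℝ) < Q := by exact_mod_cast hQ
  have hnn : ∀ T : Finset ℕ, (0 : ℝ) ≤ ∏ p ∈ T, (4 : ℝ) / p :=
    fun T => Finset.prod_nonneg (fun p _ => by positivity)
  have hnn8 : ∀ T : Finset ℕ, (0 : ℝ) ≤ ∏ p ∈ T, (8 : ℝ) / p ^ 2 :=
    fun T => Finset.prod_nonneg (fun p _ => by positivity)
  have h1 : ∀ k' ∈ F, (if k = k' then (0 : ℝ) else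
      ∏ p ∈ S.filter (fun p => k ≡ k' [MOD p]), (1 + 4 / (p : ℝ)) - 1) =
      ∑ T ∈ S.powerset.erase ∅, (if (k ≠ k' ∧ ∀ p ∈ T, k ≡ k' [MOD p]) then
        ∏ p ∈ T, (4 : ℝ) / p else 0) := by
    intro k' _
    split_ifs with h
    · rw [Finset.sum_eq_zero]
      intro T _
      rw [if_neg]
      exact fun h' => h'.1 h
    · have e1 : (S.filter (fun p => k ≡ k' [MOD p])).powerset =
          S.powerset.filter (fun T => ∀ p ∈ T, k ≡ k' [MOD p]) := by
        ext T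
        simp only [mem_powerset, mem_filter]
        constructor
        · intro hT
          exact ⟨hT.trans (filter_subset _ _), fun p hp => (mem_filter.1 (hT hp)).2⟩
        · rintro ⟨hT, hT'⟩ p hp
          exact mem_filter.2 ⟨hT hp, hT' p hp⟩
      rw [Finset.prod_one_add, e1, Finset.sum_filter,
        ← Finset.add_sum_erase S.powerset _ (Finset.empty_mem_powerset S)]
      have e2 : (if (∀ p ∈ (∅ : Finset ℕ), k ≡ k' [MOD p]) then
          ∏ p ∈ (∅ : Finset ℕ), (4 : ℝ) / p else 0) = 1 := by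
        rw [if_pos (fun p hp => absurd hp (Finset.notMem_empty p)), Finset.prod_empty]
      rw [e2, add_sub_cancel_left]
      refine Finset.sum_congr rfl fun T _ => ?_
      congr 1
      rw [eq_iff_iff]
      exact ⟨fun h' => ⟨h, h'⟩, fun h' => h'.2⟩
  rw [Finset.sum_congr rfl h1, Finset.sum_comm]
  have h2 : ∀ T ∈ S.powerset.erase ∅,
      ∑ k' ∈ F, (if (k ≠ k' ∧ ∀ p ∈ T, k ≡ k' [MOD p]) then ∏ p ∈ T, (4 : ℝ) / p else 0) ≤
      (K : ℝ) / Q * ∏ p ∈ T, (8 : ℝ) / p ^ 2 := by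
    intro T hT
    rw [Finset.mem_erase, mem_powerset] at hT
    rw [← Finset.sum_filter, Finset.sum_const, nsmul_eq_mul]
    have hd0 : 0 < ∏ p ∈ T, p := Finset.prod_pos fun p hp => (hS p (hT.2 hp)).pos
    have hcop : Nat.Coprime Q (∏ p ∈ T, p) :=
      Nat.Coprime.prod_right fun p hp => hQS p (hT.2 hp)
    have h3 : #(F.filter (fun k' => k ≠ k' ∧ ∀ p ∈ T, k ≡ k' [MOD p])) ≤
        K / (Q * ∏ p ∈ T, p) := by
      refine le_trans (Finset.card_le_card ?_) (pb_count K (Q * ∏ p ∈ T, p) k (hF k hk))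
      intro k' hk'
      rw [mem_filter] at hk' ⊢
      refine ⟨hF k' hk'.1, ?_, hk'.2.1⟩
      rw [← Nat.modEq_and_modEq_iff_modEq_mul hcop]
      refine ⟨hFQ k hk k' hk'.1, ?_⟩
      rw [Nat.modEq_iff_dvd]
      have e3 : ((∏ p ∈ T, p : ℕ) : ℤ) = ∏ p ∈ T, (p : ℤ) := by push_cast; rfl
      rw [e3]
      apply Finset.prod_dvd_of_coprime
      · intro p hp p' hp' hpp'
        have := (Nat.coprime_primes (hS p (hT.2 hp)) (hS p' (hT.2 hp'))).2 hpp'
        exact Nat.isCoprime_iff_coprime.2 this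
      · intro p hp
        exact (Nat.modEq_iff_dvd).1 (hk'.2.2 p hp)
    have h4 : (#(F.filter (fun k' => k ≠ k' ∧ ∀ p ∈ T, k ≡ k' [MOD p])) : ℝ) ≤
        (K : ℝ) / (Q * ∏ p ∈ T, (p : ℝ)) := by
      have h5 : ((K / (Q * ∏ p ∈ T, p) : ℕ) : ℝ) ≤ (K : ℝ) / ((Q * ∏ p ∈ T, p : ℕ) : ℝ) :=
        Nat.cast_div_le
      have h6 : (#(F.filter (fun k' => k ≠ k' ∧ ∀ p ∈ T, k ≡ k' [MOD p])) : ℝ) ≤
          ((K / (Q * ∏ p ∈ T, p) : ℕ) : ℝ) := by exact_mod_cast h3
      push_cast at h5 h6 ⊢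
      exact h6.trans h5
    refine (mul_le_mul_of_nonneg_right h4 (hnn T)).trans ?_
    have h7 : (K : ℝ) / (Q * ∏ p ∈ T, (p : ℝ)) * ∏ p ∈ T, (4 : ℝ) / p =
        (K : ℝ) / Q * ∏ p ∈ T, (4 : ℝ) / p ^ 2 := by
      have e4 : ∏ p ∈ T, (4 : ℝ) / (p : ℝ) ^ 2 =
          (∏ p ∈ T, (4 : ℝ) / p) / ∏ p ∈ T, (p : ℝ) := by
        rw [← Finset.prod_div_distrib]
        refine Finset.prod_congr rfl fun p _ => ?_
        rw [div_div, pow_two]
      rw [e4, div_mul_eq_div_div]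
      ring
    rw [h7]
    refine mul_le_mul_of_nonneg_left ?_ (by positivity)
    refine Finset.prod_le_prod (fun p _ => by positivity) fun p _ => ?_
    exact div_le_div_of_nonneg_right (by norm_num) (by positivity)
  refine (Finset.sum_le_sum h2).trans ?_
  rw [← Finset.mul_sum]
  refine mul_le_mul_of_nonneg_left ?_ (by positivity)
  have h8 := AP.pa_exp S w hw hSw
  rw [← Finset.add_sum_erase S.powerset _ (Finset.empty_mem_powerset S), Finset.prod_empty] at h8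
  linarith

theorem pair_avg_k : ∃ C1 : ℝ, 0 < C1 ∧ ∀ w : ℕ, 16 ≤ w → ∀ C : ℝ, 0 < C →
    ∀ᶠ N : ℕ in atTop, ∀ b : ℕ, ∀ (m : ℕ → ℝ) (M : ℝ),
      (∀ k ∈ Fm C N (primorial w) b, 0 ≤ m k ∧ m k ≤ M) →
    ∑ k ∈ Fm C N (primorial w) b, ∑ k' ∈ Fm C N (primorial w) b,
      (if k = k' then 0 else
        VV {k, k'} w N / (VV {k} w N * VV {k'} w N) * (m k * m k')) ≤
      (∑ k ∈ Fm C N (primorial w) b, m k) ^ 2 +
        C1 / w * (M * #(Fm C N (primorial w) b)) ^ 2 := by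
  classical
  refine ⟨64, by norm_num, ?_⟩
  intro w hw C hC
  have hQ : 0 < primorial w := primorial_pos w
  have hQR : (0 : ℝ) < primorial w := by exact_mod_cast hQ
  have hw0 : (0 : ℝ) < w := by
    have : 0 < w := by omega
    exact_mod_cast this
  filter_upwards [card_Fm_ge C hC (primorial w) hQ, ev_KK C 1 0 hC one_pos] with N hN1 hN2
  intro b m M hm
  obtain ⟨F, hF⟩ : ∃ F, F = Fm C N (primorial w) b := ⟨_, rfl⟩
  rw [← hF] at hm ⊢
  have hcard : (KK C N : ℝ) / primorial w ≤ 4 * #F := by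
    have h1 := hN1 b
    rw [← hF, div_le_iff₀ (by positivity)] at h1
    rw [div_le_iff₀ hQR]
    have h2 := hN2.2.1
    nlinarith
  rcases F.eq_empty_or_nonempty with hE | hne
  · rw [hE]
    simp
  have hM0 : 0 ≤ M := by
    obtain ⟨k, hk⟩ := hne
    exact (hm k hk).1.trans (hm k hk).2
  obtain ⟨R, hR⟩ : ∃ R : ℕ → ℕ → ℝ, R = fun k k' =>
    ∏ p ∈ (SS w N).filter (fun p => k ≡ k' [MOD p]), (1 + 4 / (p : ℝ)) := ⟨_, rfl⟩
  have hR1 : ∀ k k', 1 ≤ R k k' := by
    intro k k'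
    rw [hR]
    show (1 : ℝ) ≤ ∏ p ∈ (SS w N).filter (fun p => k ≡ k' [MOD p]), (1 + 4 / (p : ℝ))
    calc (1 : ℝ) = ∏ p ∈ (SS w N).filter (fun p => k ≡ k' [MOD p]), (1 : ℝ) :=
          Finset.prod_const_one.symm
      _ ≤ _ := by
          refine Finset.prod_le_prod (fun _ _ => zero_le_one) fun p _ => ?_
          have : (0 : ℝ) ≤ 4 / (p : ℝ) := by positivity
          linarith
  have hinner : ∀ k ∈ F, ∑ k' ∈ F, (if k = k' then (0 : ℝ) else R k k' - 1) ≤
      4 * #F * (16 / w) := by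
    intro k hk
    have h1 := pb_inner w (KK C N) (primorial w) hw hQ (SS w N) F
      (fun p hp => (mem_filter.1 hp).2)
      (fun p hp => (mem_Ioc.1 (mem_filter.1 hp).1).1)
      (fun p hp => by
        have hpp : p.Prime := (mem_filter.1 hp).2
        have hwp : w < p := (mem_Ioc.1 (mem_filter.1 hp).1).1
        rw [Nat.coprime_comm, Nat.Prime.coprime_iff_not_dvd hpp, hpp.dvd_primorial_iff]
        omega)
      (fun k hk => by
        rw [hF] at hk
        exact Fm_sub hk)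
      (fun k hk k' hk' => by
        rw [hF, mem_Fm] at hk hk'
        show k % primorial w = k' % primorial w
        rw [hk.2, hk'.2]) k hk
    rw [hR]
    exact h1.trans (mul_le_mul_of_nonneg_right hcard (by positivity))
  have hterm : ∀ k ∈ F, ∀ k' ∈ F, (if k = k' then 0 else
        VV {k, k'} w N / (VV {k} w N * VV {k'} w N) * (m k * m k')) ≤
      m k * m k' + M ^ 2 * (if k = k' then (0 : ℝ) else R k k' - 1) := by
    intro k hk k' hk'
    have a1 := hm k hk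
    have a2 := hm k' hk'
    have a3 : 0 ≤ m k * m k' := mul_nonneg a1.1 a2.1
    have a4 : m k * m k' ≤ M ^ 2 := by
      rw [pow_two]
      exact mul_le_mul a1.2 a2.2 a2.1 hM0
    split_ifs with h
    · rw [mul_zero, add_zero]
      exact a3
    · have a5 := (vv_ratio w N k k' hw).2
      have a6 : VV {k, k'} w N / (VV {k} w N * VV {k'} w N) ≤ R k k' := by
        rw [hR]
        exact a5
      have a7 := mul_le_mul_of_nonneg_right a6 a3
      have a8 := mul_le_mul_of_nonneg_right a4 (sub_nonneg.2 (hR1 k k'))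
      nlinarith
  calc ∑ k ∈ F, ∑ k' ∈ F, (if k = k' then 0 else
        VV {k, k'} w N / (VV {k} w N * VV {k'} w N) * (m k * m k'))
      ≤ ∑ k ∈ F, ∑ k' ∈ F, (m k * m k' +
        M ^ 2 * (if k = k' then (0 : ℝ) else R k k' - 1)) :=
        Finset.sum_le_sum fun k hk => Finset.sum_le_sum fun k' hk' => hterm k hk k' hk'
    _ = (∑ k ∈ F, m k) ^ 2 + M ^ 2 * ∑ k ∈ F, ∑ k' ∈ F,
        (if k = k' then (0 : ℝ) else R k k' - 1) := by
        simp only [Finset.sum_add_distrib, Finset.mul_sum, pow_two, Finset.sum_mul]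
        congr 1
        rw [Finset.sum_comm]
    _ ≤ (∑ k ∈ F, m k) ^ 2 + M ^ 2 * ∑ k ∈ F, (4 * (#F : ℝ) * (16 / (w : ℝ))) := by
        have h3 := Finset.sum_le_sum hinner
        have h4 := mul_le_mul_of_nonneg_left h3 (sq_nonneg M)
        linarith
    _ = _ := by
        rw [Finset.sum_const, nsmul_eq_mul]
        ring

end Pool.Agent.Work.MP_73869e_nt.OW
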