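import Mathlib
import Pool.Agent.Work.MP_73869e_nt.OW.MomU

set_option autoImplicit false

/-!
Module MomPU (size M, a port of P5/MomP.lean). AP.momA_pair with D = D' = {∅}; k ≠ k' < zN N are different mod every
p ∈ PA k ∩ PA k'. Σ_p A1p A1p' ≤ Σ_{p>zN} (2/p)^2 exp(Σ g) exp(Σ g') ≤ C log^4 N/zN ≤ C log^(-16) N (A1p_one, sum_PAu); the
second error log^(-30) log^4; the last one N^(997/1000).
-/

namespace Pool.Agent.Work.MP_73869e_nt.OW

open Finset Filter Pool.Agent.Work.MP_2dba45_nt.Sel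
open Pool.Agent.Work.MP_73869e_nt.AP (zN g prd nu SS VV AA)
open Pool.Agent.Work.MP_73869e_nt.P5 (LS ML)

open Pool.Agent.Work.MP_73869e_nt.AP in
private theorem FF_one (E : Finset (Finset ℕ)) (om : Finset ℕ → ℝ) (k n : ℕ) :
    FF {∅} (fun _ => 1) E om k n = LS E om k n := by
  unfold FF LS
  rw [Finset.sum_singleton, if_pos (by intro p hp; simp at hp), one_pow, one_mul]

open Pool.Agent.Work.MP_73869e_nt.AP in
private theorem MM_one (E : Finset (Finset ℕ)) (om : Finset ℕ → ℝ) :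
    MM {∅} (fun _ => 1) E om = ML E om := by
  unfold MM ML
  rw [Finset.sum_singleton, Finset.sum_singleton]
  refine Finset.sum_congr rfl fun T _ => ?_
  rw [Finset.empty_union, Finset.empty_union, one_mul, one_mul]

private theorem sub_one (P : Finset ℕ) : ({∅} : Finset (Finset ℕ)) ⊆ P.powerset := by
  rw [Finset.singleton_subset_iff, Finset.mem_powerset]
  exact Finset.empty_subset _

private theorem ev_expU : ∃ K : ℝ, 0 < K ∧
    ∀ᶠ N : ℕ in atTop, ∀ k : ℕ, Real.exp (∑ p ∈ PA k N, g p) ≤ K * Real.log N ^ 2 := by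
  obtain ⟨C, hC0, hC⟩ := sum_PAu
  refine ⟨Real.exp C, Real.exp_pos _, ?_⟩
  filter_upwards [hC, Pool.Agent.Work.MP_73869e_nt.AP.ev_log_ge 1] with N hN hL k
  have hL0 : 0 < Real.log N := by linarith
  calc Real.exp (∑ p ∈ PA k N, g p) ≤ Real.exp (C + 2 * Real.log (Real.log N)) := by
        apply Real.exp_le_exp.2; exact hN k
    _ = Real.exp C * Real.log N ^ 2 := by
        rw [Real.exp_add, show (2 : ℝ) * Real.log (Real.log N) = Real.log (Real.log N ^ 2) by
          rw [Real.log_pow]; norm_num, Real.exp_log (by positivity)]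

open Pool.Agent.Work.MP_73869e_nt.AP in
theorem mom_pair_u (C : ℝ) (hC : 0 < C) (w : ℕ) (hw : 6 ≤ w) : ∀ᶠ N : ℕ in atTop,
    ∀ a < primorial w, ∀ k ∈ Icc 1 (KK C N), ∀ k' ∈ Icc 1 (KK C N), k ≠ k' →
    ∀ (om om' : Finset ℕ → ℝ) (E E' : Finset (Finset ℕ)), (∀ T, |om T| ≤ 1) →
    (∀ T, |om' T| ≤ 1) → E ⊆ (PA k N).powerset → E' ⊆ (PA k' N).powerset →
    (∀ T ∈ E, (prd T : ℝ) ≤ (N : ℝ) ^ ((497 : ℝ) / 1000)) →
    (∀ T ∈ E', (prd T : ℝ) ≤ (N : ℝ) ^ ((497 : ℝ) / 1000)) →
    |∑ n ∈ AA {k, k'} w N a, LS E om k n * LS E' om' k' n -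
      (N : ℝ) / primorial w * VV {k, k'} w N * (ML E om * ML E' om')| ≤
      N / Real.log N ^ 8 := by
  obtain ⟨K, hK0, hK⟩ := ev_expU
  filter_upwards [ev_PAu C hC w, hK,
    A2_leU 0 ((497 : ℝ) / 1000) le_rfl zero_le_one (by norm_num) (by norm_num),
    ev_exp, Pool.Agent.Work.MP_73869e_nt.P5.ev_pow5, ev_log_ge (max (12 * (K * K)) 2),
    ev_rpow_small ((997 : ℝ) / 1000) (by norm_num) 3 8,
    ev_zN_ge 1, eventually_ge_atTop 8]
    with N hPP hKN hA2 hexp hpow hLm hsmall hz1 h8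
  intro a ha k hk0 k' hk0' hne om om' E E' hom hom' hE hE' hE1 hE1'
  obtain ⟨hk, hP⟩ := hPP k hk0
  obtain ⟨hk', hP'⟩ := hPP k' hk0'
  have hL : 12 * (K * K) ≤ Real.log N := (le_max_left _ _).trans hLm
  have hL2 : 2 ≤ Real.log N := (le_max_right _ _).trans hLm
  have hz1' : 1 ≤ zN N := by exact_mod_cast hz1
  have hkk : ∀ p ∈ PA k N ∩ PA k' N, ¬ k ≡ k' [MOD p] := by
    intro p hp h
    have hpz := (hP p (Finset.mem_inter.1 hp).1).2.1
    exact hne (Nat.ModEq.eq_of_lt_of_lt h (by omega) (by omega))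
  have hone : ∀ T : Finset ℕ, |(fun _ => (1 : ℝ)) T| ≤ 1 := by intro T; simp
  have hmain := momA_pair N w a k k' (bN N) (zN N) ha rfl hz1' (PA k N)
    (PA k' N) hP hP' hkk {∅} E {∅} E' (sub_one _) hE
    (sub_one _) hE' (fun _ => 1) om (fun _ => 1) om' hone hom hone hom' (by omega)
  simp only [FF_one, MM_one] at hmain
  refine hmain.trans ?_
  have hN0 : (0 : ℝ) < N := by exact_mod_cast (by omega : 0 < N)
  have hL0 : 0 < Real.log N := by linarith
  have hQ : (1 : ℝ) ≤ primorial w := by exact_mod_cast primorial_pos w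
  have h1 := (A1_one k N E hE).trans (hKN k)
  have h1' := (A1_one k' N E' hE').trans (hKN k')
  have hemp : ∀ T ∈ ({∅} : Finset (Finset ℕ)), (prd T : ℝ) ≤ (N : ℝ) ^ (0 : ℝ) := by
    intro T hT
    rw [Finset.mem_singleton] at hT
    rw [hT, Real.rpow_zero]
    unfold prd
    simp
  have h2 := hA2 k {∅} E (sub_one _) hE hemp hE1
  have h2' := hA2 k' {∅} E' (sub_one _) hE' hemp hE1'
  have hNQ : (N : ℝ) / primorial w ≤ N := div_le_self hN0.le hQ
  have hNQ0 : 0 ≤ (N : ℝ) / primorial w := by positivity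
  have n1 := A1_nonneg {∅} E
  have n1' := A1_nonneg {∅} E'
  have n2 := A2_nonneg {∅} E
  have n2' := A2_nonneg {∅} E'
  have hLL : (1 : ℝ) ≤ Real.log N := by linarith
  have t0 : (N : ℝ) / primorial w * ∑ p ∈ PA k N ∩ PA k' N, A1p {∅} E p *
      A1p {∅} E' p ≤ (N / Real.log N ^ 8) / 3 := by
    have hb : ∀ p ∈ PA k N ∩ PA k' N, A1p {∅} E p * A1p {∅} E' p ≤
        4 * (K * K) * Real.log N ^ 4 * (1 / (p : ℝ) ^ 2) := by
      intro p hp
      rw [Finset.mem_inter] at hp
      have b1 := A1p_one k N E hE p hp.1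
      have b2 := A1p_one k' N E' hE' p hp.2
      have c1 : A1p {∅} E p ≤ g p * (K * Real.log N ^ 2) := by
        refine b1.trans ?_
        have := g_nonneg p
        exact mul_le_mul_of_nonneg_left (hKN k) this
      have c2 : A1p {∅} E' p ≤ g p * (K * Real.log N ^ 2) := by
        refine b2.trans ?_
        have := g_nonneg p
        exact mul_le_mul_of_nonneg_left (hKN k') this
      have hg0 := g_nonneg p
      calc A1p {∅} E p * A1p {∅} E' p
          ≤ (g p * (K * Real.log N ^ 2)) * (g p * (K * Real.log N ^ 2)) :=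
            mul_le_mul c1 c2 (A1p_nonneg _ _ _) (by positivity)
        _ = 4 * (K * K) * Real.log N ^ 4 * (1 / (p : ℝ) ^ 2) := by
            unfold g
            ring
    have hs : ∑ p ∈ PA k N ∩ PA k' N, 1 / (p : ℝ) ^ 2 ≤ 1 / (zN N : ℝ) := by
      refine le_trans ?_ (sum_inv_sq_le (zN N) N hz1')
      apply Finset.sum_le_sum_of_subset_of_nonneg
      · intro p hp
        rw [Finset.mem_inter] at hp
        have hp1 := Finset.mem_Ioo.1 (Finset.mem_filter.1 hp.1).1
        exact Finset.mem_Ioc.2 ⟨hp1.1, hp1.2.le⟩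
      · intros; positivity
    have hz20 := zN_ge N h8
    calc (N : ℝ) / primorial w * ∑ p ∈ PA k N ∩ PA k' N, A1p {∅} E p * A1p {∅} E' p
        ≤ N * (4 * (K * K) * Real.log N ^ 4 * (1 / Real.log N ^ 20)) := by
          apply mul_le_mul hNQ _ _ hN0.le
          · calc _ ≤ ∑ p ∈ PA k N ∩ PA k' N, 4 * (K * K) * Real.log N ^ 4 * (1 / (p : ℝ) ^ 2) :=
                  Finset.sum_le_sum hb
              _ = 4 * (K * K) * Real.log N ^ 4 * ∑ p ∈ PA k N ∩ PA k' N, (1 / (p : ℝ) ^ 2) := by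
                  rw [Finset.mul_sum]
              _ ≤ 4 * (K * K) * Real.log N ^ 4 * (1 / Real.log N ^ 20) := by
                  gcongr
                  refine hs.trans ?_
                  apply one_div_le_one_div_of_le (by positivity) hz20
          · exact Finset.sum_nonneg fun p _ => mul_nonneg (A1p_nonneg _ _ _) (A1p_nonneg _ _ _)
      _ = (N / Real.log N ^ 8) / 3 * (12 * (K * K) / Real.log N ^ 8) := by
          field_simp
          norm_num
      _ ≤ (N / Real.log N ^ 8) / 3 * 1 := by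
          gcongr
          rw [div_le_one (by positivity)]
          calc 12 * (K * K) ≤ Real.log N := hL
            _ ≤ Real.log N ^ 8 := le_self_pow₀ hLL (by norm_num)
      _ = _ := by ring
  have t1 : 2 * ((N : ℝ) / primorial w) *
      Real.exp (11 * (1 + Real.log (zN N)) - (2 * (bN N : ℝ) + 1)) *
      (A1 {∅} E * A1 {∅} E') ≤ (N / Real.log N ^ 8) / 3 := by
    calc _ ≤ 2 * (N : ℝ) * (1 / Real.log N ^ 30) * ((K * Real.log N ^ 2) * (K * Real.log N ^ 2)) := by
          gcongr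
      _ = (N / Real.log N ^ 8) / 3 * (6 * (K * K) / Real.log N ^ 18) := by
          field_simp
          norm_num
      _ ≤ (N / Real.log N ^ 8) / 3 * 1 := by
          gcongr
          rw [div_le_one (by positivity)]
          have : 0 < K * K := by positivity
          calc 6 * (K * K) ≤ Real.log N := by linarith
            _ ≤ Real.log N ^ 18 := le_self_pow₀ hLL (by norm_num)
      _ = _ := by ring
  have t2 : 4 * (1 + 4 * ((zN N : ℕ) : ℝ)) ^ (2 * bN N + 1) *
      (A2 {∅} E * A2 {∅} E') ≤ (N / Real.log N ^ 8) / 3 := by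
    calc _ ≤ (N : ℝ) ^ ((1 : ℝ) / 1000) *
          ((N : ℝ) ^ (2 * 0 + (497 : ℝ) / 1000 + 1 / 1000) *
            (N : ℝ) ^ (2 * 0 + (497 : ℝ) / 1000 + 1 / 1000)) := by
          gcongr
      _ = (3 * (N : ℝ) ^ ((997 : ℝ) / 1000)) / 3 := by
          rw [← Real.rpow_add hN0, ← Real.rpow_add hN0]
          norm_num
      _ ≤ _ := by gcongr
  linarith

end Pool.Agent.Work.MP_73869e_nt.OW
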