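import Mathlib
import Pool.Agent.Work.MP_73869e_nt.OW.Ckf
import Pool.Agent.Work.MP_73869e_nt.OW.CombU
import Pool.Agent.Work.MP_73869e_nt.OW.MomPU

set_option autoImplicit false

/-!
Module PairUU (size M, a port of P5/PairU.lean). Error ck ck' N/log^8 N ≤ N/log^2 N.
-/

namespace Pool.Agent.Work.MP_73869e_nt.OW

open Finset Filter
open Pool.Agent.Work.MP_2dba45_nt.Sel
open Pool.Agent.Work.MP_73869e_nt.AP (NN VV AA AA_sub mem_AA_pair)
open Pool.Agent.Work.MP_73869e_nt.P5 (LS ML)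

theorem pair_u_u (C δ : ℝ) (b κ w : ℕ) (hC : 0 < C) (hδ : 0 < δ) (hδ1 : δ ≤ 1 / 200)
    (hlev : δ * (4 * b + 10) ≤ 1 / 1000) (hκ : 1 ≤ κ) (hw : 16 ≤ w) :
    ∀ᶠ N : ℕ in atTop, ∀ lp dp : ℕ → Finset ℕ → ℝ, Env δ b N lp dp → ∀ a < primorial w,
    ∀ k ∈ Icc 1 (KK C N), ∀ k' ∈ Icc 1 (KK C N), k ≠ k' →
    |∑ n ∈ NN w N a, uu δ κ w N a lp k n * uu δ κ w N a lp k' n -
      (N : ℝ) / primorial w * (VV {k, k'} w N / (VV {k} w N * VV {k'} w N) *
        (WM δ κ N k * WM δ κ N k'))| ≤ N / Real.log N ^ 2 := by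
  filter_upwards [mom_pair_u C hC w (by omega), comb_u δ b κ hδ hlev hκ,
    ck_facts C δ b w hC hδ hδ1 hw, Pool.Agent.Work.MP_73869e_nt.AP.ev_log_ge 1] with
    N hmom hcomb hfacts hL1
  intro lp dp hEnv a ha k hk k' hk' hne
  obtain ⟨E, om, hE, hom, hEx, hLS, hML⟩ := hcomb k (lp k) (dp k) (hEnv k)
  obtain ⟨E', om', hE', hom', hEx', hLS', hML'⟩ := hcomb k' (lp k') (dp k') (hEnv k')
  obtain ⟨hV0, hVT, -, hVx, -, hcx1, -, hcx2⟩ := hfacts lp dp hEnv k hk
  obtain ⟨hV0', hVT', -, hVy, -, hcy1, -, hcy2⟩ := hfacts lp dp hEnv k' hk'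
  have hm := hmom a ha k hk k' hk' hne om om' E E' hom hom' hE hE' hEx hEx'
  have hL0 : 0 < Real.log N := by linarith
  have hT : 0 < ThM δ N lp k := hV0.trans_le hVT
  have hT' : 0 < ThM δ N lp k' := hV0'.trans_le hVT'
  have hcx : ck δ w N lp k = 1 / (VV {k} w N * ThM δ N lp k) := rfl
  have hcy : ck δ w N lp k' = 1 / (VV {k'} w N * ThM δ N lp k') := rfl
  -- the sum
  have hsum : ∑ n ∈ NN w N a, uu δ κ w N a lp k n * uu δ κ w N a lp k' n =
      ck δ w N lp k * ck δ w N lp k' * ∑ n ∈ AA {k, k'} w N a, LS E om k n * LS E' om' k' n := by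
    rw [Finset.mul_sum, ← Finset.sum_subset (AA_sub {k, k'} w N a)]
    · refine Finset.sum_congr rfl fun n hn => ?_
      have hnx : n ∈ AA {k} w N a := by
        unfold AA at hn ⊢
        rw [Finset.mem_filter] at hn ⊢
        refine ⟨hn.1, hn.2.1, fun p hp m hm => hn.2.2 p hp m ?_⟩
        rw [Finset.mem_singleton] at hm
        rw [hm]
        exact Finset.mem_insert_self _ _
      have hny : n ∈ AA {k'} w N a := by
        unfold AA at hn ⊢
        rw [Finset.mem_filter] at hn ⊢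
        refine ⟨hn.1, hn.2.1, fun p hp m hm => hn.2.2 p hp m ?_⟩
        rw [Finset.mem_singleton] at hm
        rw [hm]
        exact Finset.mem_insert_of_mem (Finset.mem_singleton_self _)
      unfold uu
      rw [if_pos hnx, if_pos hny, hLS, hLS']
      unfold th wv
      ring
    · intro n _ hn
      unfold uu
      by_cases h1 : n ∈ AA {k} w N a
      · by_cases h2 : n ∈ AA {k'} w N a
        · exact absurd (mem_AA_pair h1 h2) hn
        · rw [if_neg h2]
          ring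
      · rw [if_neg h1]
        ring
  have hmain : (N : ℝ) / primorial w * (VV {k, k'} w N /
        (VV {k} w N * VV {k'} w N) * (WM δ κ N k * WM δ κ N k')) =
      ck δ w N lp k * ck δ w N lp k' * ((N : ℝ) / primorial w *
        VV {k, k'} w N * (ML E om * ML E' om')) := by
    rw [hML, hML', hcx, hcy]
    change _ = _ * (_ * ((ThM δ N lp k * WM δ κ N k) * (ThM δ N lp k' * WM δ κ N k')))
    field_simp
  rw [hsum, hmain, ← mul_sub, abs_mul]
  have hc0 : 0 < ck δ w N lp k := by linarith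
  have hc0' : 0 < ck δ w N lp k' := by linarith
  rw [abs_of_pos (mul_pos hc0 hc0')]
  calc ck δ w N lp k * ck δ w N lp k' * _ ≤ Real.log N ^ 3 * Real.log N ^ 3 *
        (N / Real.log N ^ 8) := by
        refine mul_le_mul (mul_le_mul hcx2 hcy2 hc0'.le (by positivity)) hm (abs_nonneg _)
          (by positivity)
    _ = N / Real.log N ^ 2 := by
        field_simp

end Pool.Agent.Work.MP_73869e_nt.OW
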