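import Mathlib
import Pool.Agent.Work.MP_73869e_nt.OW.DiagU
import Pool.Agent.Work.MP_73869e_nt.OW.PairUU
import Pool.Agent.Work.MP_73869e_nt.OW.PairB
import Pool.Agent.Work.MP_73869e_nt.OW.SumC

set_option autoImplicit false

/-!
Module SecU (size M, compare P5/Sec.lean). Expand the square. k = k': diag_u_u and sum_ck (hsum):
6 * 4^(3/δ) X C4 C log^2 N ≤ X (η/3) #F^2 by #F ≥ C log N/(4Q) (card_Fm_ge) and hCd. k ≠ k': pair_u_u, then hpair with
m = WM δ κ N, M = 3/δ; C1/w (3/δ)^2 ≤ η/3; number of pairs #F^2 times N/log^2 N ≤ (η/3) X #F^2 for N large.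
-/

namespace Pool.Agent.Work.MP_73869e_nt.OW

open Finset Filter
open Pool.Agent.Work.MP_73869e_nt.AP (NN VV)

theorem sec_u_u (C δ η : ℝ) (b κ w : ℕ) (hC : 0 < C) (hδ : 0 < δ) (hδ1 : δ ≤ 1 / 200) (hη : 0 < η)
    (hlev : δ * (4 * b + 10) ≤ 1 / 1000) (hκ : 1 ≤ κ) (hw : 16 ≤ w)
    (C1 C4 : ℝ) (hC1 : 0 < C1) (hC4 : 0 < C4)
    (hpair : ∀ᶠ N : ℕ in atTop, ∀ b : ℕ, ∀ (m : ℕ → ℝ) (M : ℝ),
      (∀ k ∈ Fm C N (primorial w) b, 0 ≤ m k ∧ m k ≤ M) →
      ∑ k ∈ Fm C N (primorial w) b, ∑ k' ∈ Fm C N (primorial w) b,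
        (if k = k' then 0 else
          VV {k, k'} w N / (VV {k} w N * VV {k'} w N) * (m k * m k')) ≤
        (∑ k ∈ Fm C N (primorial w) b, m k) ^ 2 +
          C1 / w * (M * #(Fm C N (primorial w) b)) ^ 2)
    (hsum : ∀ᶠ N : ℕ in atTop, ∀ lp dp : ℕ → Finset ℕ → ℝ, Env δ b N lp dp → ∀ bb : ℕ,
      ∑ k ∈ Fm C N (primorial w) bb, ck δ w N lp k ≤ C4 * C * Real.log N ^ 2)
    (hw9 : C1 / w * (3 / δ) ^ 2 ≤ η / 3)
    (hCd : 288 * (4 : ℝ) ^ (3 / δ) * C4 * (primorial w) ^ 2 ≤ η * C) :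
    ∀ᶠ N : ℕ in atTop, ∀ lp dp : ℕ → Finset ℕ → ℝ, Env δ b N lp dp →
      (∀ k ∈ Ioc (Nat.sqrt (KK C N)) (KK C N), 0 ≤ WM δ κ N k ∧ WM δ κ N k ≤ 3 / δ) →
      ∀ a < primorial w, ∀ bb : ℕ,
    ∑ n ∈ NN w N a, (∑ k ∈ Fm C N (primorial w) bb, uu δ κ w N a lp k n) ^ 2 ≤
      (N : ℝ) / primorial w * ((∑ k ∈ Fm C N (primorial w) bb, WM δ κ N k) ^ 2 +
        η * (#(Fm C N (primorial w) bb) : ℝ) ^ 2) := by
  classical
  have hQpos : 0 < primorial w := primorial_pos w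
  have hQ0 : (0 : ℝ) < primorial w := by exact_mod_cast hQpos
  have hlog : Tendsto (fun N : ℕ => Real.log N) atTop atTop :=
    Real.tendsto_log_atTop.comp tendsto_natCast_atTop_atTop
  filter_upwards [hpair, hsum,
    diag_u_u C δ b κ w hC hδ hδ1 hlev hκ hw,
    pair_u_u C δ b κ w hC hδ hδ1 hlev hκ hw,
    card_Fm_ge C hC (primorial w) hQpos,
    hlog.eventually_ge_atTop (max 1 (3 * (primorial w) / η)), eventually_ge_atTop 1]
    with N hN1 hsum hdiag hpr hcard hLm hN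
  intro lp dp hE hmu a ha bb
  have hL1 : 1 ≤ Real.log N := (le_max_left _ _).trans hLm
  have hL0 : 0 < Real.log N := by linarith
  have hLη : 3 * (primorial w : ℝ) / η ≤ Real.log N := (le_max_right _ _).trans hLm
  have hN0 : (0 : ℝ) < N := by
    exact_mod_cast (by omega : 0 < N)
  have hs5 := hsum lp dp hE bb
  have hdg := hdiag lp dp hE a ha
  have hpu := hpr lp dp hE a ha
  have hcd := hcard bb
  clear hsum hdiag hpr hcard
  set F := Fm C N (primorial w) bb with hF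
  have hFI : ∀ k ∈ F, k ∈ Icc 1 (KK C N) := fun k hk => Fm_sub hk
  have hFo : ∀ k ∈ F, k ∈ Ioc (Nat.sqrt (KK C N)) (KK C N) := fun k hk => (mem_Fm.1 hk).1
  set X := (N : ℝ) / (primorial w : ℕ) with hX
  have hX0 : 0 < X := by positivity
  set m := WM δ κ N with hm
  set B := (4 : ℝ) ^ (3 / δ) with hB
  have hB0 : 0 < B := by positivity
  -- the pair bound
  have hpairb : ∀ x ∈ F, ∀ y ∈ F, ∑ n ∈ NN w N a, uu δ κ w N a lp x n * uu δ κ w N a lp y n ≤
      (if y = x then 6 * B * X * ck δ w N lp x else 0) +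
      X * (if x = y then 0 else
        VV {x, y} w N / (VV {x} w N * VV {y} w N) *
          (m x * m y)) + N / Real.log N ^ 2 := by
    intro x hx y hy
    have h7 : 0 ≤ (N : ℝ) / Real.log N ^ 2 := by positivity
    by_cases hs : x = y
    · subst hs
      rw [if_pos rfl, if_pos rfl, mul_zero, add_zero]
      have h3 := hdg x (hFI x hx)
      have h4 : ∑ n ∈ NN w N a, uu δ κ w N a lp x n * uu δ κ w N a lp x n =
          ∑ n ∈ NN w N a, uu δ κ w N a lp x n ^ 2 :=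
        Finset.sum_congr rfl fun n _ => (sq _).symm
      rw [h4]
      linarith
    · have hxy : y ≠ x := fun h => hs h.symm
      rw [if_neg hxy, if_neg hs, zero_add]
      have h3 := (abs_le.1 (hpu x (hFI x hx) y (hFI y hy) hs)).2
      linarith
  have hexp : ∑ n ∈ NN w N a, (∑ x ∈ F, uu δ κ w N a lp x n) ^ 2 =
      ∑ x ∈ F, ∑ y ∈ F, ∑ n ∈ NN w N a, uu δ κ w N a lp x n * uu δ κ w N a lp y n := by
    have : ∀ n ∈ NN w N a, (∑ x ∈ F, uu δ κ w N a lp x n) ^ 2 =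
        ∑ x ∈ F, ∑ y ∈ F, uu δ κ w N a lp x n * uu δ κ w N a lp y n := by
      intro n _
      rw [sq, Finset.sum_mul_sum]
    rw [Finset.sum_congr rfl this, Finset.sum_comm]
    refine Finset.sum_congr rfl fun x _ => ?_
    rw [Finset.sum_comm]
  rw [hexp]
  have hbig : ∑ x ∈ F, ∑ y ∈ F, ∑ n ∈ NN w N a, uu δ κ w N a lp x n * uu δ κ w N a lp y n ≤
      6 * B * X * ∑ x ∈ F, ck δ w N lp x +
      X * ((∑ x ∈ F, m x) ^ 2 + C1 / w * (3 / δ * #F) ^ 2) + (#F : ℝ) ^ 2 * (N / Real.log N ^ 2) := by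
    calc _ ≤ ∑ x ∈ F, ∑ y ∈ F, ((if y = x then 6 * B * X * ck δ w N lp x else 0) +
          X * (if x = y then 0 else
            VV {x, y} w N / (VV {x} w N * VV {y} w N) *
              (m x * m y)) + N / Real.log N ^ 2) :=
          Finset.sum_le_sum fun x hx => Finset.sum_le_sum fun y hy => hpairb x hx y hy
      _ = 6 * B * X * ∑ x ∈ F, ck δ w N lp x + X * (∑ x ∈ F, ∑ y ∈ F,
          (if x = y then 0 else
            VV {x, y} w N / (VV {x} w N * VV {y} w N) *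
              (m x * m y))) + (#F : ℝ) ^ 2 * (N / Real.log N ^ 2) := by
          simp_rw [Finset.sum_add_distrib]
          congr 1
          · congr 1
            · rw [Finset.mul_sum]
              refine Finset.sum_congr rfl fun x hx => ?_
              rw [Finset.sum_ite_eq' F x, if_pos hx]
            · rw [Finset.mul_sum]
              refine Finset.sum_congr rfl fun x hx => ?_
              rw [Finset.mul_sum]
          · simp only [Finset.sum_const, nsmul_eq_mul]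
            ring
      _ ≤ _ := by
          gcongr
          exact hN1 bb m (3 / δ) (fun k hk => hmu k (hFo k hk))
  refine hbig.trans ?_
  -- final numerical estimates
  have hw0 : (0 : ℝ) < w := by exact_mod_cast (by omega : 0 < w)
  have f1 : C1 / w * (3 / δ * (#F : ℝ)) ^ 2 ≤ η / 3 * (#F : ℝ) ^ 2 := by
    calc C1 / w * (3 / δ * (#F : ℝ)) ^ 2
        = C1 / w * (3 / δ) ^ 2 * (#F : ℝ) ^ 2 := by ring
      _ ≤ _ := by gcongr
  have f2 : (#F : ℝ) ^ 2 * (N / Real.log N ^ 2) ≤ X * (η / 3 * (#F : ℝ) ^ 2) := by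
    have h1 : (N : ℝ) / Real.log N ^ 2 ≤ X * (η / 3) := by
      rw [hX, div_mul_div_comm, div_le_div_iff₀ (by positivity) (by positivity)]
      have h2 : 3 * (primorial w : ℝ) ≤ Real.log N * η := by
        rw [div_le_iff₀ hη] at hLη
        exact hLη
      have h3 : Real.log N ≤ Real.log N ^ 2 := le_self_pow₀ hL1 (by norm_num)
      have h4 : (primorial w : ℝ) * 3 ≤ η * Real.log N ^ 2 := by nlinarith
      nlinarith
    calc (#F : ℝ) ^ 2 * (N / Real.log N ^ 2) ≤ (#F : ℝ) ^ 2 * (X * (η / 3)) := by gcongr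
      _ = _ := by ring
  have f3 : 6 * B * X * ∑ x ∈ F, ck δ w N lp x ≤ X * (η / 3 * (#F : ℝ) ^ 2) := by
    have h3 : (C * Real.log N / (4 * (primorial w : ℝ))) ^ 2 ≤ (#F : ℝ) ^ 2 := by
      gcongr
    have h6 : 6 * B * (C4 * C * Real.log N ^ 2) ≤
        η / 3 * (C * Real.log N / (4 * (primorial w : ℝ))) ^ 2 := by
      have e1 : η / 3 * (C * Real.log N / (4 * (primorial w : ℝ))) ^ 2 =
          (C * Real.log N ^ 2 / (48 * (primorial w : ℝ) ^ 2)) * (η * C) := by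
        field_simp
        ring
      have e2 : 6 * B * (C4 * C * Real.log N ^ 2) =
          (C * Real.log N ^ 2 / (48 * (primorial w : ℝ) ^ 2)) *
            (288 * B * C4 * (primorial w : ℝ) ^ 2) := by
        field_simp
        ring
      rw [e1, e2]
      gcongr
    calc 6 * B * X * ∑ x ∈ F, ck δ w N lp x
        ≤ 6 * B * X * (C4 * C * Real.log N ^ 2) := by gcongr
      _ = X * (6 * B * (C4 * C * Real.log N ^ 2)) := by ring
      _ ≤ X * (η / 3 * (C * Real.log N / (4 * (primorial w : ℝ))) ^ 2) := by gcongr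
      _ ≤ _ := by gcongr
  have f1' : X * (C1 / w * (3 / δ * (#F : ℝ)) ^ 2) ≤ X * (η / 3 * (#F : ℝ) ^ 2) := by gcongr
  have e : X * ((∑ x ∈ F, m x) ^ 2 + C1 / w * (3 / δ * (#F : ℝ)) ^ 2) = X * (∑ x ∈ F, m x) ^ 2 +
      X * (C1 / w * (3 / δ * (#F : ℝ)) ^ 2) := by ring
  have e' : X * ((∑ x ∈ F, m x) ^ 2 + η * (#F : ℝ) ^ 2) = X * (∑ x ∈ F, m x) ^ 2 +
      3 * (X * (η / 3 * (#F : ℝ) ^ 2)) := by ring
  rw [e, e']
  linarith

end Pool.Agent.Work.MP_73869e_nt.OW
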