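import Mathlib

set_option autoImplicit false

/-!
Module RepA (size M). Primitive representations n = u^2 + k v^2 inject into the roots of r^2 ≡ -k mod n.
gcd(v, n) = 1 (a common prime divides u). Map (u,v) to r = u v^(-1) mod n. If (u,v), (u',v') have the same r
then n ∣ u v' - u' v. But n^2 = (u u' + k v v')^2 + k (u v' - u' v)^2, so k (uv'-u'v)^2 ≤ n^2, hence
|uv'-u'v| < n as k ≥ 2, so u v' = u' v and (u,v) = (u',v') by coprimality.
-/

namespace Pool.Agent.Work.MP_73869e_nt.OW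

open Finset

private theorem repa_cop {k n u v : ℕ} (h1 : u.Coprime v) (h2 : u ^ 2 + k * v ^ 2 = n) :
    v.Coprime n := by
  rw [← h2]
  have h3 : k * v ^ 2 = (k * v) * v := by ring
  rw [h3, Nat.coprime_add_mul_right_right]
  exact Nat.Coprime.pow_right 2 h1.symm

private theorem repa_root {k n u v : ℕ} (hn : 0 < n) (h1 : u.Coprime v)
    (h2 : u ^ 2 + k * v ^ 2 = n) :
    n ∣ ((u : ZMod n) * (v : ZMod n)⁻¹).val ^ 2 + k := by
  have : NeZero n := ⟨hn.ne'⟩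
  have hbc := ZMod.coe_mul_inv_eq_one v (repa_cop h1 h2)
  have h0 : ((u : ZMod n)) ^ 2 + (k : ZMod n) * (v : ZMod n) ^ 2 = 0 := by
    have h3 : ((u ^ 2 + k * v ^ 2 : ℕ) : ZMod n) = ((n : ℕ) : ZMod n) := by rw [h2]
    push_cast at h3
    rw [h3, ZMod.natCast_self]
  rw [← ZMod.natCast_eq_zero_iff]
  push_cast
  rw [ZMod.natCast_zmod_val]
  linear_combination ((v : ZMod n)⁻¹) ^ 2 * h0 -
    (k : ZMod n) * ((v : ZMod n) * (v : ZMod n)⁻¹ + 1) * hbc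

private theorem repa_inj {k n u v u' v' : ℕ} (hk : 2 ≤ k) (hn : 0 < n) (hu : 1 ≤ u)
    (h1 : u.Coprime v) (h2 : u ^ 2 + k * v ^ 2 = n)
    (h1' : u'.Coprime v') (h2' : u' ^ 2 + k * v' ^ 2 = n)
    (h : (u : ZMod n) * (v : ZMod n)⁻¹ = (u' : ZMod n) * (v' : ZMod n)⁻¹) :
    u = u' ∧ v = v' := by
  have hbc := ZMod.coe_mul_inv_eq_one v (repa_cop h1 h2)
  have hbc' := ZMod.coe_mul_inv_eq_one v' (repa_cop h1' h2')
  have h3 : (u : ZMod n) * (v' : ZMod n) - (u' : ZMod n) * (v : ZMod n) = 0 := by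
    linear_combination (v : ZMod n) * (v' : ZMod n) * h - (u : ZMod n) * (v' : ZMod n) * hbc +
      (u' : ZMod n) * (v : ZMod n) * hbc'
  have h4 : ((n : ℕ) : ℤ) ∣ (u : ℤ) * v' - u' * v := by
    rw [← ZMod.intCast_zmod_eq_zero_iff_dvd]
    push_cast
    exact h3
  obtain ⟨t, ht⟩ := h4
  have e1 : (u : ℤ) ^ 2 + k * v ^ 2 = n := by exact_mod_cast h2
  have e2 : (u' : ℤ) ^ 2 + k * v' ^ 2 = n := by exact_mod_cast h2'
  have e3 : (n : ℤ) ^ 2 = ((u : ℤ) * u' + k * v * v') ^ 2 + k * ((u : ℤ) * v' - u' * v) ^ 2 := by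
    calc (n : ℤ) ^ 2 = ((u : ℤ) ^ 2 + k * v ^ 2) * ((u' : ℤ) ^ 2 + k * v' ^ 2) := by
          rw [e1, e2]
          ring
      _ = _ := by ring
  have hn0 : (0 : ℤ) < n := by exact_mod_cast hn
  have hk0 : (2 : ℤ) ≤ k := by exact_mod_cast hk
  have ht0 : t = 0 := by
    by_contra hne
    have h5 : 1 ≤ t ^ 2 := by
      have : 0 < t ^ 2 := by positivity
      omega
    rw [ht] at e3
    have h6 : (k : ℤ) * ((n : ℤ) * t) ^ 2 ≤ (n : ℤ) ^ 2 := by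
      nlinarith [sq_nonneg ((u : ℤ) * u' + k * v * v')]
    have h7 : 2 * (n : ℤ) ^ 2 ≤ (k : ℤ) * ((n : ℤ) * t) ^ 2 := by
      have h8 : (n : ℤ) ^ 2 ≤ ((n : ℤ) * t) ^ 2 := by
        rw [mul_pow]
        nlinarith [sq_nonneg (n : ℤ)]
      nlinarith [sq_nonneg ((n : ℤ) * t)]
    nlinarith [pow_pos hn0 2]
  rw [ht0, mul_zero] at ht
  have h9 : u * v' = u' * v := by
    have : (u : ℤ) * v' = u' * v := by linarith
    exact_mod_cast this
  have h10 : u ∣ u' := h1.dvd_of_dvd_mul_right (Dvd.intro _ h9)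
  have h11 : u' ∣ u := h1'.dvd_of_dvd_mul_right (Dvd.intro _ h9.symm)
  have h12 : u = u' := Nat.dvd_antisymm h10 h11
  refine ⟨h12, ?_⟩
  rw [← h12] at h9
  exact (Nat.eq_of_mul_eq_mul_left (by omega) h9).symm

theorem reps_roots (k n : ℕ) (hk : 2 ≤ k) (hn : 0 < n) :
    #(((Icc 1 n) ×ˢ (Icc 1 n)).filter
      (fun z : ℕ × ℕ => z.1.Coprime z.2 ∧ z.1 ^ 2 + k * z.2 ^ 2 = n)) ≤
      #((range n).filter (fun r => n ∣ r ^ 2 + k)) := by
  have : NeZero n := ⟨hn.ne'⟩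
  refine Finset.card_le_card_of_injOn
    (fun z : ℕ × ℕ => ((z.1 : ZMod n) * (z.2 : ZMod n)⁻¹).val) ?_ ?_
  · rintro ⟨u, v⟩ hz
    rw [mem_coe, mem_filter] at hz
    rw [mem_coe, mem_filter, mem_range]
    exact ⟨ZMod.val_lt _, repa_root hn hz.2.1 hz.2.2⟩
  · rintro ⟨u, v⟩ hz ⟨u', v'⟩ hz' h
    rw [mem_coe, mem_filter, mem_product, mem_Icc] at hz hz'
    have h1 := repa_inj hk hn hz.1.1.1 hz.2.1 hz.2.2 hz'.2.1 hz'.2.2 (ZMod.val_injective n h)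
    exact Prod.ext h1.1 h1.2

end Pool.Agent.Work.MP_73869e_nt.OW
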