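import Mathlib
import Pool.Agent.Work.MP_73869e_nt.OW.ChiB

set_option autoImplicit false

/-!
Module RepB (size M). If there is no root, rr_nonneg. Otherwise let r0 be a root: every prime p ∣ n is odd, does not
divide k, and -k is a square mod p, so chi k p = 1 and rr k n = number of divisors of n (rr_all), which is at
least 2^#primeFactors. For a root r put S(r) = the primes p ∣ n with p ∣ r - r0 (integers): n ∣ (r-r0)(r+r0) and no p ∣ n
divides both factors (else p ∣ 2 r0, p ∣ r0, p ∣ k), so p^a ∣ r - r0 for p in S(r) and p^a ∣ r + r0 otherwise (p^a ∥ n);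
hence S(r) determines r mod n: the number of roots is at most 2^#primeFactors.
-/

namespace Pool.Agent.Work.MP_73869e_nt.OW

open Finset

private theorem rb_key {k n : ℕ} (hn : 0 < n) (hodd : Odd n) (hc : n.Coprime k) {r0 r : ℕ}
    (h0 : n ∣ r0 ^ 2 + k) (h : n ∣ r ^ 2 + k) :
    ∃ m : ℕ, n = Int.gcd ((r : ℤ) - r0) n * m ∧ (m : ℤ) ∣ (r : ℤ) + r0 ∧
      Nat.Coprime (Int.gcd ((r : ℤ) - r0) n) m := by
  obtain ⟨m, hm⟩ : Int.gcd ((r : ℤ) - r0) n ∣ n := by
    have := Int.gcd_dvd_right ((r : ℤ) - r0) (n : ℤ)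
    exact_mod_cast this
  set d := Int.gcd ((r : ℤ) - r0) n with hd
  have hd0 : d ≠ 0 := by
    intro h1
    rw [h1, zero_mul] at hm
    omega
  have hda : (d : ℤ) ∣ (r : ℤ) - r0 := Int.gcd_dvd_left _ _
  obtain ⟨a, ha⟩ := hda
  have hd0' : (d : ℤ) ≠ 0 := by exact_mod_cast hd0
  have hcop : IsCoprime a (m : ℤ) := by
    rw [Int.isCoprime_iff_gcd_eq_one]
    have h1 : Int.gcd ((d : ℤ) * a) ((d : ℤ) * m) = d * Int.gcd a m := by
      rw [Int.gcd_mul_left]
      simp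
    have h2 : Int.gcd ((d : ℤ) * a) ((d : ℤ) * m) = d := by
      rw [← ha]
      have : ((d : ℤ) * m) = (n : ℤ) := by rw [hm]; push_cast; ring
      rw [this]
    rw [h2] at h1
    exact (Nat.eq_of_mul_eq_mul_left (Nat.pos_of_ne_zero hd0) (by rw [mul_one]; exact h1)).symm
  have hprod : (n : ℤ) ∣ ((r : ℤ) - r0) * ((r : ℤ) + r0) := by
    have e1 : (n : ℤ) ∣ ((r ^ 2 + k : ℕ) : ℤ) := by exact_mod_cast h
    have e2 : (n : ℤ) ∣ ((r0 ^ 2 + k : ℕ) : ℤ) := by exact_mod_cast h0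
    have e3 := dvd_sub e1 e2
    have e4 : ((r ^ 2 + k : ℕ) : ℤ) - ((r0 ^ 2 + k : ℕ) : ℤ) = ((r : ℤ) - r0) * ((r : ℤ) + r0) := by
      push_cast
      ring
    rwa [e4] at e3
  have hm1 : (m : ℤ) ∣ (r : ℤ) + r0 := by
    have e1 : (d : ℤ) * m ∣ (d : ℤ) * (a * ((r : ℤ) + r0)) := by
      have e2 : (n : ℤ) = (d : ℤ) * m := by
        have := congrArg (fun t : ℕ => (t : ℤ)) hm
        push_cast at this
        exact this
      rw [← e2, ← mul_assoc, ← ha]
      exact hprod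
    have e3 : (m : ℤ) ∣ a * ((r : ℤ) + r0) := (mul_dvd_mul_iff_left hd0').1 e1
    exact hcop.symm.dvd_of_dvd_mul_left e3
  refine ⟨m, hm, hm1, ?_⟩
  refine Nat.coprime_of_dvd fun p hp hpd hpm => ?_
  have hpn : p ∣ n := hm ▸ Dvd.dvd.mul_right hpd m
  have f1 : (p : ℤ) ∣ (r : ℤ) - r0 := (Int.natCast_dvd_natCast.2 hpd).trans ⟨a, ha⟩
  have f2 : (p : ℤ) ∣ (r : ℤ) + r0 := (Int.natCast_dvd_natCast.2 hpm).trans hm1
  have f3 : (p : ℤ) ∣ ((2 * r0 : ℕ) : ℤ) := by
    have := dvd_sub f2 f1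
    have e : ((r : ℤ) + r0) - ((r : ℤ) - r0) = ((2 * r0 : ℕ) : ℤ) := by push_cast; ring
    rwa [e] at this
  have f4 : p ∣ 2 * r0 := by exact_mod_cast f3
  have f5 : p ∣ r0 := by
    rcases (Nat.Prime.dvd_mul hp).1 f4 with h1 | h1
    · exfalso
      have h2 : p = 2 := (Nat.prime_dvd_prime_iff_eq hp Nat.prime_two).1 h1
      rw [h2] at hpn
      exact (Nat.not_even_iff_odd.2 hodd) (even_iff_two_dvd.2 hpn)
    · exact h1
  have f6 : p ∣ k := by
    have h1 : p ∣ r0 ^ 2 + k := hpn.trans h0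
    exact (Nat.dvd_add_right (dvd_pow f5 two_ne_zero)).1 h1
  have f7 : p ∣ 1 := by
    rw [← hc]
    exact Nat.dvd_gcd hpn f6
  exact hp.one_lt.ne' (Nat.dvd_one.1 f7)

theorem roots_le (k n : ℕ) (hn : 0 < n) (hodd : Odd n) (hc : n.Coprime k) :
    (#((range n).filter (fun r => n ∣ r ^ 2 + k)) : ℤ) ≤ rr k n := by
  rcases ((range n).filter (fun r => n ∣ r ^ 2 + k)).eq_empty_or_nonempty with he | ⟨r0, hr0⟩
  · rw [he, Finset.card_empty]
    exact_mod_cast rr_nonneg k n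
  rw [Finset.mem_filter, Finset.mem_range] at hr0
  obtain ⟨-, h0⟩ := hr0
  have hchi : ∀ p : ℕ, p.Prime → p ∣ n → chi k p = 1 := by
    intro p hp hpn
    have hpo : Odd p := by
      rcases hp.eq_two_or_odd' with h1 | h1
      · exfalso
        rw [h1] at hpn
        exact (Nat.not_even_iff_odd.2 hodd) (even_iff_two_dvd.2 hpn)
      · exact h1
    have hpk : ¬ p ∣ k := by
      intro h1
      have h2 : p ∣ 1 := by
        rw [← hc]
        exact Nat.dvd_gcd hpn h1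
      exact hp.one_lt.ne' (Nat.dvd_one.1 h2)
    haveI : Fact p.Prime := ⟨hp⟩
    unfold chi
    rw [if_pos hpo, ← jacobiSym.legendreSym.to_jacobiSym, legendreSym.eq_one_iff]
    · have h1 : ((r0 ^ 2 + k : ℕ) : ZMod p) = 0 := (ZMod.natCast_eq_zero_iff _ _).2 (hpn.trans h0)
      push_cast at h1
      refine ⟨(r0 : ZMod p), ?_⟩
      push_cast
      linear_combination -h1
    · push_cast
      rw [neg_ne_zero]
      intro h1
      exact hpk ((ZMod.natCast_eq_zero_iff _ _).1 h1)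
  rw [rr_all k n hn.ne' hchi]
  norm_cast
  refine Finset.card_le_card_of_injOn (fun r => Int.gcd ((r : ℤ) - r0) n) ?_ ?_
  · intro r _
    rw [Finset.mem_coe, Nat.mem_divisors]
    refine ⟨?_, hn.ne'⟩
    have := Int.gcd_dvd_right ((r : ℤ) - r0) (n : ℤ)
    exact_mod_cast this
  · intro r hr r' hr' hrr
    rw [Finset.mem_coe, Finset.mem_filter, Finset.mem_range] at hr hr'
    simp only at hrr
    obtain ⟨m, hm, hm1, hm2⟩ := rb_key hn hodd hc h0 hr.2
    obtain ⟨m', hm', hm1', hm2'⟩ := rb_key hn hodd hc h0 hr'.2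
    have hda : (Int.gcd ((r : ℤ) - r0) n : ℤ) ∣ (r : ℤ) - r0 := Int.gcd_dvd_left _ _
    have hda' : (Int.gcd ((r' : ℤ) - r0) n : ℤ) ∣ (r' : ℤ) - r0 := Int.gcd_dvd_left _ _
    rw [← hrr] at hm' hm2' hda'
    set d := Int.gcd ((r : ℤ) - r0) n with hd
    have hd0 : 0 < d := by
      rcases Nat.eq_zero_or_pos d with h1 | h1
      · rw [h1, zero_mul] at hm
        omega
      · exact h1
    have hmm : m' = m := Nat.eq_of_mul_eq_mul_left hd0 (hm'.symm.trans hm)
    rw [hmm] at hm1'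
    have e1 : (d : ℤ) ∣ (r' : ℤ) - r := by
      have := dvd_sub hda' hda
      have e : ((r' : ℤ) - r0) - ((r : ℤ) - r0) = (r' : ℤ) - r := by ring
      rwa [e] at this
    have e2 : (m : ℤ) ∣ (r' : ℤ) - r := by
      have := dvd_sub hm1' hm1
      have e : ((r' : ℤ) + r0) - ((r : ℤ) + r0) = (r' : ℤ) - r := by ring
      rwa [e] at this
    have e3 : (n : ℤ) ∣ (r' : ℤ) - r := by
      have e4 : (n : ℤ) = (d : ℤ) * m := by
        have := congrArg (fun t : ℕ => (t : ℤ)) hm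
        push_cast at this
        exact this
      rw [e4]
      exact (Nat.isCoprime_iff_coprime.2 hm2).mul_dvd e1 e2
    exact Nat.ModEq.eq_of_lt_of_lt ((Nat.modEq_iff_dvd).2 e3) hr.1 hr'.1

end Pool.Agent.Work.MP_73869e_nt.OW
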