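import Mathlib
import Pool.Agent.Work.MP_73869e_nt.OW.RepA
import Pool.Agent.Work.MP_73869e_nt.OW.RepB
import Pool.Agent.Work.MP_2dba45_nt.Mert

set_option autoImplicit false

/-!
Module CountR (size M). U = ⌊√(x/2)⌋, V = ⌊√(x/(2k))⌋. For every odd prime l with V < l ≤ U, l ∤ k, and every t ≥ 1
with 2 t ≤ V the number n = l^2 + k (2t)^2 ≤ x is odd, coprime to k, and (l, 2t) is a coprime pair, so by reps_roots
and roots_le the number of these pairs with given n is at most rr k n; rr ≥ 0 elsewhere (rr_nonneg). So the sum is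
at least #l * #t. #t = ⌊V/2⌋ ≥ c √(x/k). Primes: by mertens_one (MP_2dba45_nt.Mert) Σ_{cU<p≤U} log p/p ≥ 1 for a constant c,
so there are ≥ c U/log U primes ≤ U; remove the primes ≤ V (V ≤ 2U/√k, while log U ≤ 2 log k as x ≤ k^3) and the at most
log_2 k primes dividing k and 2: at least (c/2) U/log U remain for k ≥ k₀.
-/

namespace Pool.Agent.Work.MP_73869e_nt.OW

open Finset

/-- the primes used -/
private def crP (k U V : ℕ) : Finset ℕ := (Ioc V U).filter (fun l => l.Prime ∧ ¬ l ∣ k)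

private theorem cr_fiber {k V U x n : ℕ} (hk : 2 ≤ k) (hn : 0 < n) (hV : 2 ≤ V) :
    (#((crP k U V ×ˢ Icc 1 (V / 2)).filter
      (fun z : ℕ × ℕ => z.1 ^ 2 + k * (2 * z.2) ^ 2 = n)) : ℤ) ≤ rr k n := by
  rcases Finset.eq_empty_or_nonempty ((crP k U V ×ˢ Icc 1 (V / 2)).filter
      (fun z : ℕ × ℕ => z.1 ^ 2 + k * (2 * z.2) ^ 2 = n)) with h0 | ⟨⟨l, t⟩, hz⟩
  · rw [h0]
    simpa using rr_nonneg k n
  · rw [mem_filter, mem_product, crP, mem_filter, mem_Ioc, mem_Icc] at hz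
    obtain ⟨⟨⟨⟨hl1, hl2⟩, hl3, hl4⟩, ht1, ht2⟩, hzn⟩ := hz
    simp only at hl1 hl2 hl3 hl4 ht1 ht2 hzn
    have hlodd : Odd l := hl3.odd_of_ne_two (by omega)
    have hnodd : Odd n := by
      rw [← hzn]
      refine (hlodd.pow).add_even ?_
      rw [Nat.even_mul]
      right
      rw [Nat.even_pow]
      exact ⟨even_two_mul t, two_ne_zero⟩
    have hcop : n.Coprime k := by
      have h1 : n = l ^ 2 + (2 * t) ^ 2 * k := by
        rw [← hzn]
        ring
      rw [h1, Nat.coprime_add_mul_right_left]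
      exact Nat.Coprime.pow_left 2 ((Nat.Prime.coprime_iff_not_dvd hl3).2 hl4)
    refine le_trans ?_ (roots_le k n hn hnodd hcop)
    refine le_trans ?_ (Nat.cast_le.2 (reps_roots k n hk hn))
    rw [Nat.cast_le]
    refine Finset.card_le_card_of_injOn (fun z : ℕ × ℕ => (z.1, 2 * z.2)) ?_ ?_
    · rintro ⟨l', t'⟩ hz
      rw [mem_coe, mem_filter, mem_product, crP, mem_filter, mem_Ioc, mem_Icc] at hz
      obtain ⟨⟨⟨⟨hl1, hl2⟩, hl3, hl4⟩, ht1, ht2⟩, hzn⟩ := hz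
      simp only at hl1 hl2 hl3 hl4 ht1 ht2 hzn
      rw [mem_coe, mem_filter, mem_product, mem_Icc, mem_Icc]
      have hlpos := hl3.pos
      refine ⟨⟨⟨hlpos, ?_⟩, (show 1 ≤ 2 * t' by omega), ?_⟩, ?_, hzn⟩
      · show l' ≤ n
        rw [← hzn]
        nlinarith
      · show 2 * t' ≤ n
        rw [← hzn]
        nlinarith [Nat.zero_le (l' ^ 2), Nat.mul_le_mul hk (Nat.mul_le_mul ht1 ht1)]
      · show l'.Coprime (2 * t')
        rw [Nat.Prime.coprime_iff_not_dvd hl3]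
        intro hd
        have := Nat.le_of_dvd (by omega) hd
        omega
    · rintro ⟨a, b⟩ _ ⟨a', b'⟩ _ h
      simp only [Prod.mk.injEq] at h ⊢
      omega

private theorem cr_count {k V U x : ℕ} (hk : 2 ≤ k) (hV : 2 ≤ V) (hU : 2 * U ^ 2 ≤ x)
    (hVx : 2 * k * V ^ 2 ≤ x) :
    ((#(crP k U V) * #(Icc 1 (V / 2)) : ℕ) : ℤ) ≤ ∑ n ∈ Ioc 0 x, rr k n := by
  rw [← Finset.card_product]
  have hmaps : ∀ z ∈ crP k U V ×ˢ Icc 1 (V / 2), z.1 ^ 2 + k * (2 * z.2) ^ 2 ∈ Ioc 0 x := by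
    rintro ⟨l, t⟩ hz
    rw [mem_product, crP, mem_filter, mem_Ioc, mem_Icc] at hz
    obtain ⟨⟨⟨hl1, hl2⟩, hl3, hl4⟩, ht1, ht2⟩ := hz
    simp only at hl1 hl2 hl3 hl4 ht1 ht2
    rw [mem_Ioc]
    have hlpos := hl3.pos
    refine ⟨by positivity, ?_⟩
    show l ^ 2 + k * (2 * t) ^ 2 ≤ x
    have h1 : l ^ 2 ≤ U ^ 2 := Nat.pow_le_pow_left hl2 2
    have h2 : (2 * t) ^ 2 ≤ V ^ 2 := Nat.pow_le_pow_left (by omega) 2
    have h3 : k * (2 * t) ^ 2 ≤ k * V ^ 2 := Nat.mul_le_mul_left k h2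
    nlinarith
  rw [Finset.card_eq_sum_card_fiberwise hmaps]
  push_cast
  refine Finset.sum_le_sum fun n hn => ?_
  exact cr_fiber (x := x) hk (mem_Ioc.1 hn).1 hV

private theorem cr_primes {k V U : ℕ} (hk : k ≠ 0) :
    Nat.primeCounting U ≤ #(crP k U V) + V + #k.primeFactors := by
  rw [← Nat.primesLE_card_eq_primeCounting]
  have hsub : Nat.primesLE U ⊆ (crP k U V ∪ Icc 1 V) ∪ k.primeFactors := by
    intro l hl
    rw [Nat.mem_primesLE] at hl
    rw [mem_union, mem_union, crP, mem_filter, mem_Ioc, mem_Icc, Nat.mem_primeFactors]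
    have hpos := hl.2.pos
    by_cases h1 : l ≤ V
    · left; right
      exact ⟨hpos, h1⟩
    · by_cases h2 : l ∣ k
      · right
        exact ⟨hl.2, h2, hk⟩
      · left; left
        exact ⟨⟨by omega, hl.1⟩, hl.2, h2⟩
  refine (Finset.card_le_card hsub).trans ?_
  refine (Finset.card_union_le _ _).trans ?_
  refine Nat.add_le_add_right ?_ _
  refine (Finset.card_union_le _ _).trans ?_
  rw [Nat.card_Icc]
  omega

private theorem cr_omega {k : ℕ} (hk : k ≠ 0) : (#k.primeFactors : ℝ) ≤ 2 * Real.log k := by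
  have h1 : (2 : ℕ) ^ #k.primeFactors ≤ k := by
    refine le_trans ?_ (Nat.le_of_dvd (Nat.pos_of_ne_zero hk) (Nat.prod_primeFactors_dvd k))
    rw [← Finset.prod_const]
    exact Finset.prod_le_prod (fun _ _ => by norm_num)
      (fun p hp => (Nat.prime_of_mem_primeFactors hp).two_le)
  have h2 : ((2 : ℕ) ^ #k.primeFactors : ℝ) ≤ k := by exact_mod_cast h1
  have h3 : (0 : ℝ) < ((2 : ℕ) ^ #k.primeFactors : ℝ) := by positivity
  have h4 := Real.log_le_log h3 h2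
  rw [Real.log_pow] at h4
  push_cast at h4
  have h5 := Real.log_two_gt_d9
  have h6 : (0 : ℝ) ≤ (#k.primeFactors : ℝ) := Nat.cast_nonneg _
  nlinarith

private theorem cr_pi {U : ℕ} (hU : 20 ≤ U) :
    (U : ℝ) / 2 ≤ Nat.primeCounting U * Real.log U := by
  have h1 := Chebyshev.psi_ge U
  have h2 := Chebyshev.psi_le_primeCounting_mul_log U
  have hU' : (20 : ℝ) ≤ U := by exact_mod_cast hU
  have h3 := Real.log_le_sub_one_of_pos (x := ((U : ℝ) + 1) / 16) (by positivity)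
  rw [Real.log_div (by positivity) (by norm_num)] at h3
  have h4 : Real.log 16 = 4 * Real.log 2 := by
    rw [show (16 : ℝ) = 2 ^ 4 by norm_num, Real.log_pow]
    norm_num
  rw [h4] at h3
  have h5 := Real.log_two_gt_d9
  have h6 := Real.log_two_lt_d9
  nlinarith

private theorem cr_ev : ∀ᶠ k : ℕ in Filter.atTop, 24 * Real.log k ≤ √(k : ℝ) := by
  have h1 := (isLittleO_log_rpow_atTop (show (0 : ℝ) < 1 / 2 by norm_num)).def
    (show (0 : ℝ) < 1 / 24 by norm_num)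
  have h2 := tendsto_natCast_atTop_atTop (R := ℝ)
  filter_upwards [h2.eventually h1, Filter.eventually_ge_atTop 1] with k hk hk1
  have hk1' : (1 : ℝ) ≤ k := by exact_mod_cast hk1
  rw [Real.norm_of_nonneg (Real.log_nonneg hk1'),
    Real.norm_of_nonneg (Real.rpow_nonneg (by linarith) _), ← Real.sqrt_eq_rpow] at hk
  linarith

theorem rr_lower : ∃ c : ℝ, 0 < c ∧ ∃ k₀ : ℕ, ∀ k : ℕ, k₀ ≤ k → ∀ x : ℕ, k ^ 2 ≤ x → x ≤ k ^ 3 →
    c * x / (√(k : ℝ) * Real.log k) ≤ ∑ n ∈ Ioc 0 x, (rr k n : ℝ) := by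
  obtain ⟨k₁, hk₁⟩ := Filter.eventually_atTop.1 cr_ev
  refine ⟨1 / 48, by norm_num, max k₁ 400, fun k hk x hx1 hx2 => ?_⟩
  have hkk := hk₁ k (le_trans (le_max_left _ _) hk)
  have hk400 : 400 ≤ k := le_trans (le_max_right _ _) hk
  have hk400' : (400 : ℝ) ≤ k := by exact_mod_cast hk400
  have hk0 : 0 < 2 * k := by omega
  set U := Nat.sqrt (x / 2) with hU
  set V := Nat.sqrt (x / (2 * k)) with hV
  have hx400 : 160000 ≤ x := by nlinarith
  -- the bounds in ℕ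
  have u1 : 2 * U ^ 2 ≤ x := by
    have h1 : U ^ 2 ≤ x / 2 := Nat.sqrt_le' _
    omega
  have u2 : x ≤ 2 * (U + 1) ^ 2 := by
    have h1 : x / 2 < (U + 1) ^ 2 := Nat.lt_succ_sqrt' _
    omega
  have v1 : 2 * k * V ^ 2 ≤ x := by
    have h1 : V ^ 2 ≤ x / (2 * k) := Nat.sqrt_le' _
    calc 2 * k * V ^ 2 ≤ 2 * k * (x / (2 * k)) := Nat.mul_le_mul_left _ h1
      _ ≤ x := Nat.mul_div_le _ _
  have v2 : x ≤ 2 * k * (V + 1) ^ 2 := by
    have h1 : x / (2 * k) < (V + 1) ^ 2 := Nat.lt_succ_sqrt' _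
    have h2 : x < 2 * k * (x / (2 * k) + 1) := Nat.lt_mul_div_succ x hk0
    calc x ≤ 2 * k * (x / (2 * k) + 1) := h2.le
      _ ≤ _ := Nat.mul_le_mul_left _ h1
  have hU20 : 20 ≤ U := by
    by_contra hc
    push Not at hc
    have h1 : (U + 1) ^ 2 ≤ 20 ^ 2 := Nat.pow_le_pow_left (by omega) 2
    omega
  have hV6 : 6 ≤ V := by
    by_contra hc
    push Not at hc
    have h1 : (V + 1) ^ 2 ≤ 6 ^ 2 := Nat.pow_le_pow_left (by omega) 2
    have h2 : 2 * k * (V + 1) ^ 2 ≤ 2 * k * 6 ^ 2 := Nat.mul_le_mul_left _ h1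
    nlinarith
  -- the count
  have hcount := cr_count (k := k) (x := x) (by omega) (by omega) u1 v1
  have hcount' : ((#(crP k U V) : ℝ) * (#(Icc 1 (V / 2)) : ℝ)) ≤
      ∑ n ∈ Ioc 0 x, (rr k n : ℝ) := by
    have := (Int.cast_le (R := ℝ)).2 hcount
    push_cast at this
    exact this
  refine le_trans ?_ hcount'
  -- real numbers
  have hlk : 0 < Real.log k := Real.log_pos (by linarith)
  have hsk : 0 < √(k : ℝ) := Real.sqrt_pos.2 (by linarith)
  have hsk2 : √(k : ℝ) ^ 2 = k := Real.sq_sqrt (by linarith)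
  have hxp : (0 : ℝ) < x := by
    have : 0 < x := by omega
    exact_mod_cast this
  have hsx : 0 < √(x : ℝ) := Real.sqrt_pos.2 hxp
  have hsx2 : √(x : ℝ) ^ 2 = x := Real.sq_sqrt hxp.le
  have ru1 : 2 * (U : ℝ) ^ 2 ≤ x := by exact_mod_cast u1
  have ru2 : (x : ℝ) ≤ 2 * ((U : ℝ) + 1) ^ 2 := by exact_mod_cast u2
  have rv1 : 2 * (k : ℝ) * (V : ℝ) ^ 2 ≤ x := by exact_mod_cast v1
  have rv2 : (x : ℝ) ≤ 2 * (k : ℝ) * ((V : ℝ) + 1) ^ 2 := by exact_mod_cast v2
  have rU : (20 : ℝ) ≤ U := by exact_mod_cast hU20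
  have rV : (6 : ℝ) ≤ V := by exact_mod_cast hV6
  have rx1 : (k : ℝ) ^ 2 ≤ x := by exact_mod_cast hx1
  have rx2 : (x : ℝ) ≤ (k : ℝ) ^ 3 := by exact_mod_cast hx2
  -- √x ≤ 2 U
  have w1 : √(x : ℝ) ≤ 2 * U := by
    apply Real.sqrt_le_iff.2
    refine ⟨by positivity, ?_⟩
    nlinarith
  have w2 : (k : ℝ) ≤ 2 * U := by
    refine le_trans ?_ w1
    exact Real.le_sqrt_of_sq_le rx1
  -- log U ≤ 3 / 2 log k
  have w3 : Real.log U ≤ 3 / 2 * Real.log k := by
    have h1 : (U : ℝ) ^ 2 ≤ (k : ℝ) ^ 3 := by nlinarith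
    have h2 := Real.log_le_log (by positivity) h1
    rw [Real.log_pow, Real.log_pow] at h2
    push_cast at h2
    linarith
  -- √k V ≤ 2 U
  have w4 : √(k : ℝ) * V ≤ 2 * U := by
    apply le_of_sq_le_sq _ (by positivity)
    rw [mul_pow, hsk2]
    nlinarith
  have w5 : 12 * Real.log k * V ≤ U := by
    have h1 : 24 * Real.log k * V ≤ √(k : ℝ) * V :=
      mul_le_mul_of_nonneg_right hkk (by positivity)
    linarith
  have w6 : 12 * Real.log k * #k.primeFactors ≤ U := by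
    have h1 := cr_omega (k := k) (by omega)
    have h2 : (24 * Real.log k) ^ 2 ≤ k := by
      exact (pow_le_pow_left₀ (by positivity) hkk 2).trans_eq hsk2
    have h3 : 12 * Real.log k * #k.primeFactors ≤ 12 * Real.log k * (2 * Real.log k) :=
      mul_le_mul_of_nonneg_left h1 (by positivity)
    nlinarith
  have w7 : (U : ℝ) / 3 ≤ Nat.primeCounting U * Real.log k := by
    have h1 := cr_pi hU20
    have h2 : (Nat.primeCounting U : ℝ) * Real.log U ≤
        Nat.primeCounting U * (3 / 2 * Real.log k) :=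
      mul_le_mul_of_nonneg_left w3 (Nat.cast_nonneg _)
    linarith
  have w8 : (Nat.primeCounting U : ℝ) ≤ #(crP k U V) + V + #k.primeFactors := by
    exact_mod_cast cr_primes (k := k) (V := V) (U := U) (by omega)
  have w9 : (U : ℝ) / 6 ≤ #(crP k U V) * Real.log k := by
    have h1 : (Nat.primeCounting U : ℝ) * Real.log k ≤
        (#(crP k U V) + V + #k.primeFactors) * Real.log k :=
      mul_le_mul_of_nonneg_right w8 hlk.le
    nlinarith
  -- the number of the t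
  have w10 : √(x : ℝ) ≤ 4 * (√(k : ℝ) * #(Icc 1 (V / 2))) := by
    rw [Nat.card_Icc, Nat.add_sub_cancel]
    have h1 : V ≤ 2 * (V / 2) + 1 := by omega
    have h2 : (V : ℝ) ≤ 2 * ((V / 2 : ℕ) : ℝ) + 1 := by exact_mod_cast h1
    have h3 : √(x : ℝ) ≤ 2 * √(k : ℝ) * ((V : ℝ) - 1) := by
      apply Real.sqrt_le_iff.2
      refine ⟨mul_nonneg (by positivity) (by linarith), ?_⟩
      rw [mul_pow, mul_pow, hsk2]
      have h4 : ((V : ℝ) + 1) ^ 2 ≤ 2 * ((V : ℝ) - 1) ^ 2 := by nlinarith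
      nlinarith
    nlinarith
  rw [div_le_iff₀ (by positivity)]
  have z1 : √(x : ℝ) / 12 ≤ #(crP k U V) * Real.log k := by linarith
  have z2 : √(x : ℝ) / 4 ≤ √(k : ℝ) * #(Icc 1 (V / 2)) := by linarith
  have z3 := mul_le_mul z1 z2 (by positivity) (by positivity)
  calc 1 / 48 * (x : ℝ) = √(x : ℝ) / 12 * (√(x : ℝ) / 4) := by
        linear_combination (-1 / 48) * hsx2
    _ ≤ _ := z3
    _ = _ := by ring

end Pool.Agent.Work.MP_73869e_nt.OW
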