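import Mathlib
import Pool.Agent.Work.MP_73869e_nt.OW.ChiA

set_option autoImplicit false

/-!
Module LsA (size M). The L-value LL k. By chi_abel with f n = 1/n the partial sums are Cauchy:
|Σ_{x < n ≤ y} chi/n| ≤ 4k/(x+1), so the limit exists (LL is limUnder; Tendsto.limUnder_eq) and LL_tail.
LL_abs: |Σ_{n ≤ 4k} chi/n| ≤ 1 + log(4k), tail ≤ 1. LL_dist: every partial sum is at most 2 + log(4k) in
absolute value. log_sum: n ≤ 4k trivially log(4k)(1 + log(4k)); n > 4k by chi_abel with f n = log n/n (antitone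
for n ≥ 3: Real.log_div_self_antitoneOn), 4k log(4k+1)/(4k+1).
-/

namespace Pool.Agent.Work.MP_73869e_nt.OW

open Finset

private noncomputable def Sp (k x : ℕ) : ℝ := ∑ n ∈ Ioc 0 x, (chi k n : ℝ) / n

private theorem Sp_diff (k x y : ℕ) (hk : 1 ≤ k) (hxy : x ≤ y) :
    |Sp k y - Sp k x| ≤ 4 * k / ((x : ℝ) + 1) := by
  have h1 : Sp k y - Sp k x = ∑ n ∈ Ioc x y, (chi k n : ℝ) * (1 / (n : ℝ)) := by
    unfold Sp
    rw [← Finset.sum_Ioc_consecutive _ (Nat.zero_le x) hxy, add_sub_cancel_left]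
    refine Finset.sum_congr rfl fun n _ => by ring
  rw [h1]
  have h2 := chi_abel k x y hk (fun n => 1 / (n : ℝ)) (1 / ((x : ℝ) + 1)) (by positivity)
    (fun m n hm hmn _ => by
      have hm0 : (0 : ℝ) < m := by exact_mod_cast lt_of_le_of_lt (Nat.zero_le x) hm
      exact one_div_le_one_div_of_le hm0 (by exact_mod_cast hmn))
    (fun n _ _ => by positivity)
    (fun n hn _ => by
      have h0 : (0 : ℝ) < (x : ℝ) + 1 := by positivity
      exact one_div_le_one_div_of_le h0 (by exact_mod_cast hn))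
  refine h2.trans (le_of_eq ?_)
  ring

private theorem Sp_tendsto (k : ℕ) (hk : 1 ≤ k) :
    Filter.Tendsto (fun x : ℕ => Sp k x) Filter.atTop (nhds (LL k)) := by
  have hc : CauchySeq (fun x : ℕ => Sp k x) := by
    refine cauchySeq_of_le_tendsto_0 (fun N : ℕ => 8 * (k : ℝ) / ((N : ℝ) + 1)) ?_ ?_
    · intro n m N hn hm
      have h1 := Sp_diff k N n hk hn
      have h2 := Sp_diff k N m hk hm
      rw [Real.dist_eq]
      have h3 : Sp k n - Sp k m = (Sp k n - Sp k N) - (Sp k m - Sp k N) := by ring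
      rw [h3]
      refine (abs_sub _ _).trans ?_
      have h4 : 8 * (k : ℝ) / ((N : ℝ) + 1) = 4 * k / ((N : ℝ) + 1) + 4 * k / ((N : ℝ) + 1) := by
        ring
      rw [h4]
      exact add_le_add h1 h2
    · have h1 := tendsto_one_div_add_atTop_nhds_zero_nat (𝕜 := ℝ)
      have h2 := h1.const_mul (8 * (k : ℝ))
      rw [mul_zero] at h2
      refine h2.congr fun n => ?_
      ring
  obtain ⟨L, hL⟩ := cauchySeq_tendsto_of_complete hc
  have h1 : LL k = L := by
    unfold LL
    exact hL.limUnder_eq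
  rw [h1]
  exact hL

private theorem LL_sub (k x : ℕ) (hk : 1 ≤ k) :
    |LL k - Sp k x| ≤ 4 * k / ((x : ℝ) + 1) := by
  have h1 : Filter.Tendsto (fun y : ℕ => |Sp k y - Sp k x|) Filter.atTop
      (nhds |LL k - Sp k x|) := ((Sp_tendsto k hk).sub_const _).abs
  refine le_of_tendsto h1 ?_
  filter_upwards [Filter.eventually_ge_atTop x] with y hy
  exact Sp_diff k x y hk hy

private theorem harm (x : ℕ) : ∑ n ∈ Ioc 0 x, (1 : ℝ) / n ≤ 1 + Real.log x := by
  have h1 := harmonic_le_one_add_log x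
  refine le_trans (le_of_eq ?_) h1
  unfold harmonic
  push_cast
  clear h1
  induction x with
  | zero => simp
  | succ m ih =>
    rw [Finset.sum_Ioc_succ_top (Nat.zero_le m), ih, Finset.sum_range_succ, one_div]
    push_cast
    rfl

private theorem Sp_le (k x M : ℕ) (hx : x ≤ M) (hM : 1 ≤ M) : |Sp k x| ≤ 1 + Real.log M := by
  have hlogM : 0 ≤ Real.log M := Real.log_nonneg (by exact_mod_cast hM)
  unfold Sp
  refine (Finset.abs_sum_le_sum_abs _ _).trans ?_
  have h1 : ∑ n ∈ Ioc 0 x, |(chi k n : ℝ) / n| ≤ ∑ n ∈ Ioc 0 x, (1 : ℝ) / n := by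
    refine Finset.sum_le_sum fun n _ => ?_
    rw [abs_div, Nat.abs_cast]
    have h2 : |(chi k n : ℝ)| ≤ 1 := by exact_mod_cast chi_abs k n
    exact div_le_div_of_nonneg_right h2 (by positivity)
  refine h1.trans ?_
  refine (harm x).trans ?_
  rcases Nat.eq_zero_or_pos x with rfl | hx0
  · simp [hlogM]
  · have := Real.log_le_log (by exact_mod_cast hx0) (show (x : ℝ) ≤ M by exact_mod_cast hx)
    linarith

private theorem Sp_abs (k x : ℕ) (hk : 1 ≤ k) : |Sp k x| ≤ 2 + Real.log (4 * k) := by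
  have h4 : 1 ≤ 4 * k := by omega
  rcases le_total x (4 * k) with h | h
  · have := Sp_le k x (4 * k) h h4
    push_cast at this
    linarith
  · have h1 := Sp_le k (4 * k) (4 * k) le_rfl h4
    have h2 := Sp_diff k (4 * k) x hk h
    push_cast at h1 h2
    have h3 : 4 * (k : ℝ) / (4 * (k : ℝ) + 1) ≤ 1 := by
      rw [div_le_one (by positivity)]
      linarith
    have h5 : Sp k x = Sp k (4 * k) + (Sp k x - Sp k (4 * k)) := by ring
    rw [h5]
    refine (abs_add_le _ _).trans ?_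
    linarith

theorem LL_tail (k x : ℕ) (hk : 1 ≤ k) (hx : 1 ≤ x) :
    |LL k - ∑ n ∈ Ioc 0 x, (chi k n : ℝ) / n| ≤ 4 * k / x := by
  refine (LL_sub k x hk).trans ?_
  have hx0 : (0 : ℝ) < x := by exact_mod_cast hx
  exact div_le_div_of_nonneg_left (by positivity) hx0 (by linarith)

theorem LL_abs (k : ℕ) (hk : 1 ≤ k) : |LL k| ≤ 2 + Real.log (4 * k) := by
  have h1 : Filter.Tendsto (fun y : ℕ => |Sp k y|) Filter.atTop (nhds |LL k|) :=
    (Sp_tendsto k hk).abs
  exact le_of_tendsto' h1 fun y => Sp_abs k y hk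

theorem LL_dist (k x : ℕ) (hk : 1 ≤ k) :
    |LL k - ∑ n ∈ Ioc 0 x, (chi k n : ℝ) / n| ≤ 2 * (2 + Real.log (4 * k)) := by
  have h1 := LL_abs k hk
  have h2 := Sp_abs k x hk
  refine (abs_sub _ _).trans ?_
  unfold Sp at h2
  linarith

theorem log_sum (k x : ℕ) (hk : 1 ≤ k) :
    |∑ n ∈ Ioc 0 x, (chi k n : ℝ) * Real.log n / n| ≤ 2 * (2 + Real.log (4 * k)) ^ 2 := by
  have hk1 : (1 : ℝ) ≤ k := by exact_mod_cast hk
  have hL : 0 ≤ Real.log (4 * k) := Real.log_nonneg (by linarith)
  have hsm : ∀ y, y ≤ 4 * k → |∑ n ∈ Ioc 0 y, (chi k n : ℝ) * Real.log n / n| ≤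
      Real.log (4 * k) * (1 + Real.log (4 * k)) := by
    intro y hy
    refine (Finset.abs_sum_le_sum_abs _ _).trans ?_
    have h1 : ∑ n ∈ Ioc 0 y, |(chi k n : ℝ) * Real.log n / n| ≤
        ∑ n ∈ Ioc 0 y, Real.log (4 * k) * ((1 : ℝ) / n) := by
      refine Finset.sum_le_sum fun n hn => ?_
      rw [Finset.mem_Ioc] at hn
      have hn1 : (1 : ℝ) ≤ n := by exact_mod_cast hn.1
      have hn4 : (n : ℝ) ≤ 4 * k := by exact_mod_cast hn.2.trans hy
      have h2 : |(chi k n : ℝ)| ≤ 1 := by exact_mod_cast chi_abs k n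
      have h3 : 0 ≤ Real.log n := Real.log_nonneg hn1
      have h4 : Real.log n ≤ Real.log (4 * k) := Real.log_le_log (by linarith) hn4
      rw [abs_div, abs_mul, Nat.abs_cast, abs_of_nonneg h3, ← mul_one_div]
      refine mul_le_mul_of_nonneg_right ?_ (by positivity)
      calc |(chi k n : ℝ)| * Real.log n ≤ 1 * Real.log n := mul_le_mul_of_nonneg_right h2 h3
        _ ≤ Real.log (4 * k) := by rw [one_mul]; exact h4
    refine h1.trans ?_
    rw [← Finset.mul_sum]
    refine mul_le_mul_of_nonneg_left ?_ hL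
    refine (harm y).trans ?_
    rcases Nat.eq_zero_or_pos y with rfl | hy0
    · simp [hL]
    · have := Real.log_le_log (show (0 : ℝ) < y by exact_mod_cast hy0)
        (show (y : ℝ) ≤ 4 * k by exact_mod_cast hy)
      linarith
  rcases le_total x (4 * k) with h | h
  · refine (hsm x h).trans ?_
    nlinarith
  · have hanti : ∀ m n : ℕ, 4 * k < m → m ≤ n → Real.log n / n ≤ Real.log m / m := by
      intro m n hm hmn
      have he : Real.exp 1 ≤ 4 := by
        have := Real.exp_one_lt_d9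
        linarith
      have hm4 : (4 : ℝ) ≤ m := by
        have : 4 ≤ m := by omega
        exact_mod_cast this
      have hn4 : (4 : ℝ) ≤ n := hm4.trans (by exact_mod_cast hmn)
      exact Real.log_div_self_antitoneOn (by simpa using he.trans hm4) (by simpa using he.trans hn4)
        (by exact_mod_cast hmn)
    have h1 := chi_abel k (4 * k) x hk (fun n => Real.log n / n)
      (Real.log ((4 * k + 1 : ℕ) : ℝ) / ((4 * k + 1 : ℕ) : ℝ)) (by positivity)
      (fun m n hm hmn _ => hanti m n hm hmn)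
      (fun n _ _ => by positivity)
      (fun n hn _ => hanti (4 * k + 1) n (by omega) (by omega))
    have h2 : 4 * (k : ℝ) * (Real.log ((4 * k + 1 : ℕ) : ℝ) / ((4 * k + 1 : ℕ) : ℝ)) ≤
        1 + Real.log (4 * k) := by
      have h3 : Real.log ((4 * k + 1 : ℕ) : ℝ) ≤ 1 + Real.log (4 * k) := by
        have h4 : ((4 * k + 1 : ℕ) : ℝ) ≤ Real.exp 1 * (4 * k) := by
          push_cast
          have := Real.add_one_le_exp (1 : ℝ)
          nlinarith
        have h5 := Real.log_le_log (by positivity) h4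
        rw [Real.log_mul (Real.exp_pos 1).ne' (by positivity), Real.log_exp] at h5
        exact h5
      have h6 : 0 ≤ Real.log ((4 * k + 1 : ℕ) : ℝ) := Real.log_natCast_nonneg _
      have h7 : 4 * (k : ℝ) * (Real.log ((4 * k + 1 : ℕ) : ℝ) / ((4 * k + 1 : ℕ) : ℝ)) ≤
          Real.log ((4 * k + 1 : ℕ) : ℝ) := by
        rw [← mul_div_assoc, div_le_iff₀ (by positivity), mul_comm]
        refine mul_le_mul_of_nonneg_left ?_ h6
        push_cast
        linarith
      linarith
    have h8 := hsm (4 * k) le_rfl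
    have h9 : ∑ n ∈ Ioc 0 x, (chi k n : ℝ) * Real.log n / n =
        ∑ n ∈ Ioc 0 (4 * k), (chi k n : ℝ) * Real.log n / n +
        ∑ n ∈ Ioc (4 * k) x, (chi k n : ℝ) * (Real.log n / n) := by
      rw [← Finset.sum_Ioc_consecutive _ (Nat.zero_le (4 * k)) h]
      congr 1
      refine Finset.sum_congr rfl fun n _ => by ring
    rw [h9]
    refine (abs_add_le _ _).trans ?_
    nlinarith

end Pool.Agent.Work.MP_73869e_nt.OW
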