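import Mathlib
import Pool.Agent.Work.MP_73869e_nt.OW.LsA

set_option autoImplicit false

/-!
Module Rsum (size M). Σ_{n≤x} rr(n) = Σ_{a≤x} chi(a) ⌊x/a⌋. Put A = Nat.sqrt (k x), so √(kx)/2 ≤ A ≤ √(kx) ≤ x.
For a ≤ A: ⌊x/a⌋ = x/a + O(1), and x Σ_{a≤A} chi(a)/a = x LL + O(4 k x/A) (LL_tail). For a > A: a ↦ ⌊x/a⌋ is
antitone, ≤ x/A: chi_abel gives 4 k x/A. Total error A + 8 k x/A ≤ 17 √(kx).
-/

namespace Pool.Agent.Work.MP_73869e_nt.OW

open Finset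

private theorem rr_sum_eq (k x : ℕ) :
    ∑ n ∈ Ioc 0 x, (rr k n : ℝ) = ∑ a ∈ Ioc 0 x, (chi k a : ℝ) * ((x / a : ℕ) : ℝ) := by
  have h1 : ∀ n ∈ Ioc 0 x, (rr k n : ℝ) = ∑ a ∈ Ioc 0 x, if a ∣ n then (chi k a : ℝ) else 0 := by
    intro n hn
    rw [Finset.mem_Ioc] at hn
    rw [rr]
    push_cast
    rw [← Finset.sum_filter]
    refine Finset.sum_congr ?_ fun _ _ => rfl
    ext a
    rw [Nat.mem_divisors, Finset.mem_filter, Finset.mem_Ioc]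
    constructor
    · rintro ⟨h, _⟩
      exact ⟨⟨Nat.pos_of_dvd_of_pos h hn.1, (Nat.le_of_dvd hn.1 h).trans hn.2⟩, h⟩
    · rintro ⟨_, h⟩
      exact ⟨h, by omega⟩
  rw [Finset.sum_congr rfl h1, Finset.sum_comm]
  refine Finset.sum_congr rfl fun a _ => ?_
  rw [← Finset.sum_filter, Finset.sum_const, Nat.Ioc_filter_dvd_card_eq_div, nsmul_eq_mul,
    mul_comm]

private theorem floor_err (x a : ℕ) : |((x / a : ℕ) : ℝ) - (x : ℝ) / a| ≤ 1 := by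
  rw [← Nat.floor_div_eq_div (K := ℝ), abs_le]
  have h0 : (0 : ℝ) ≤ (x : ℝ) / a := by positivity
  have h1 := Nat.floor_le h0
  have h2 := Nat.lt_floor_add_one ((x : ℝ) / a)
  constructor <;> linarith

theorem rr_sum (k x : ℕ) (hk : 1 ≤ k) (hx : k ≤ x) :
    |∑ n ∈ Ioc 0 x, (rr k n : ℝ) - x * LL k| ≤ 20 * √((k : ℝ) * x) := by
  set A := Nat.sqrt (k * x) with hA
  set s := √((k : ℝ) * x) with hs
  have hkx : 1 ≤ k * x := Nat.one_le_iff_ne_zero.mpr (Nat.mul_ne_zero (by omega) (by omega))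
  have hA1 : 1 ≤ A := by
    rw [hA, Nat.le_sqrt]
    simpa using hkx
  have hAx : A ≤ x := by
    have h : A ≤ Nat.sqrt (x * x) := Nat.sqrt_le_sqrt (Nat.mul_le_mul_right x hx)
    rwa [Nat.sqrt_eq] at h
  have hA0 : (0 : ℝ) < A := by exact_mod_cast hA1
  have hAs : (A : ℝ) ≤ s := by
    rw [hs]
    apply Real.le_sqrt_of_sq_le
    have h : A * A ≤ k * x := Nat.sqrt_le (k * x)
    have h' : (A : ℝ) * A ≤ k * x := by exact_mod_cast h
    rw [sq]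
    exact h'
  have hsA : s ≤ 2 * A := by
    have h : k * x < (A + 1) * (A + 1) := Nat.lt_succ_sqrt (k * x)
    have h' : (k : ℝ) * x ≤ ((A : ℝ) + 1) ^ 2 := by
      rw [sq]
      exact_mod_cast h.le
    have h2 : s ≤ (A : ℝ) + 1 := by
      rw [hs]
      exact Real.sqrt_le_iff.mpr ⟨by positivity, h'⟩
    have h3 : (1 : ℝ) ≤ A := by exact_mod_cast hA1
    linarith
  have hss : s * s = (k : ℝ) * x := Real.mul_self_sqrt (by positivity)
  have hkA : (k : ℝ) * x / A ≤ 2 * s := by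
    rw [div_le_iff₀ hA0, ← hss]
    have hs0 : 0 ≤ s := Real.sqrt_nonneg _
    nlinarith
  -- the three parts
  have e1 : |∑ a ∈ Ioc 0 A, (chi k a : ℝ) * (((x / a : ℕ) : ℝ) - (x : ℝ) / a)| ≤ A := by
    refine (Finset.abs_sum_le_sum_abs _ _).trans ?_
    have h : ∑ a ∈ Ioc 0 A, |(chi k a : ℝ) * (((x / a : ℕ) : ℝ) - (x : ℝ) / a)| ≤
        ∑ _a ∈ Ioc 0 A, (1 : ℝ) := by
      refine Finset.sum_le_sum fun a _ => ?_
      rw [abs_mul]
      have h1 : |(chi k a : ℝ)| ≤ 1 := by exact_mod_cast chi_abs k a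
      exact mul_le_one₀ h1 (abs_nonneg _) (floor_err x a)
    refine h.trans (le_of_eq ?_)
    simp
  have e2 : |(x : ℝ) * (LL k - ∑ a ∈ Ioc 0 A, (chi k a : ℝ) / a)| ≤ 8 * s := by
    rw [abs_mul, Nat.abs_cast]
    have h := LL_tail k A hk hA1
    have h1 : (x : ℝ) * |LL k - ∑ a ∈ Ioc 0 A, (chi k a : ℝ) / a| ≤ x * (4 * k / A) :=
      mul_le_mul_of_nonneg_left h (Nat.cast_nonneg x)
    have h2 : (x : ℝ) * (4 * k / A) = 4 * ((k : ℝ) * x / A) := by ring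
    linarith
  have e3 : |∑ a ∈ Ioc A x, (chi k a : ℝ) * ((x / a : ℕ) : ℝ)| ≤ 8 * s := by
    have h := chi_abel k A x hk (fun a => ((x / a : ℕ) : ℝ)) ((x : ℝ) / A) (by positivity)
      (fun m n hm hmn _ => by
        have h1 : x / n ≤ x / m := Nat.div_le_div_left hmn (by omega)
        exact_mod_cast h1)
      (fun n _ _ => Nat.cast_nonneg _)
      (fun n hn _ => by
        have h1 : ((x / n : ℕ) : ℝ) ≤ (x : ℝ) / n := Nat.cast_div_le
        refine h1.trans ?_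
        exact div_le_div_of_nonneg_left (Nat.cast_nonneg x) hA0 (by exact_mod_cast hn.le))
    refine h.trans ?_
    have h2 : 4 * (k : ℝ) * ((x : ℝ) / A) = 4 * ((k : ℝ) * x / A) := by ring
    linarith
  have hsplit : ∑ n ∈ Ioc 0 x, (rr k n : ℝ) - x * LL k =
      ∑ a ∈ Ioc 0 A, (chi k a : ℝ) * (((x / a : ℕ) : ℝ) - (x : ℝ) / a) +
      ∑ a ∈ Ioc A x, (chi k a : ℝ) * ((x / a : ℕ) : ℝ) -
      (x : ℝ) * (LL k - ∑ a ∈ Ioc 0 A, (chi k a : ℝ) / a) := by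
    rw [rr_sum_eq, ← Finset.sum_Ioc_consecutive _ (Nat.zero_le A) hAx]
    have h : ∑ a ∈ Ioc 0 A, (chi k a : ℝ) * (((x / a : ℕ) : ℝ) - (x : ℝ) / a) =
        ∑ a ∈ Ioc 0 A, (chi k a : ℝ) * ((x / a : ℕ) : ℝ) -
          x * ∑ a ∈ Ioc 0 A, (chi k a : ℝ) / a := by
      rw [Finset.mul_sum, ← Finset.sum_sub_distrib]
      refine Finset.sum_congr rfl fun a _ => ?_
      ring
    rw [h]
    ring
  rw [hsplit]
  refine (abs_sub _ _).trans ?_
  have h4 := abs_add_le (∑ a ∈ Ioc 0 A, (chi k a : ℝ) * (((x / a : ℕ) : ℝ) - (x : ℝ) / a))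
    (∑ a ∈ Ioc A x, (chi k a : ℝ) * ((x / a : ℕ) : ℝ))
  have hs0 : 0 ≤ s := Real.sqrt_nonneg _
  linarith

end Pool.Agent.Work.MP_73869e_nt.OW
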