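import Mathlib
import Pool.Agent.Work.MP_73869e_nt.OW.Rsum
import Pool.Agent.Work.MP_73869e_nt.OW.CountR

set_option autoImplicit false

/-!
Module LLlow (size S-M). rr_sum and rr_lower with x = k^2 ⌈log k⌉₊^4 ≤ k^3 (k large): x LL ≥ c x/(√k log k) - 20 √(kx)
and 20 √(kx) ≤ (c/2) x/(√k log k) as √x = k ⌈log k⌉^2 ≥ (40/c) k log k.
-/

namespace Pool.Agent.Work.MP_73869e_nt.OW

open Finset

private theorem ll_log4 : ∀ᶠ k : ℕ in Filter.atTop, (⌈Real.log k⌉₊ : ℝ) ^ 4 ≤ k := by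
  have h1 : (fun x : ℝ => Real.log x ^ (4 : ℝ)) =o[Filter.atTop] (fun x : ℝ => x ^ (1 : ℝ)) :=
    isLittleO_log_rpow_rpow_atTop 4 one_pos
  have h2 : ∀ᶠ x : ℝ in Filter.atTop, ‖Real.log x ^ (4 : ℝ)‖ ≤ (1 / 16) * ‖x ^ (1 : ℝ)‖ :=
    h1.def (by positivity)
  have h3 := (tendsto_natCast_atTop_atTop (R := ℝ)).eventually h2
  have h5 : Filter.Tendsto (fun k : ℕ => Real.log k) Filter.atTop Filter.atTop :=
    Real.tendsto_log_atTop.comp tendsto_natCast_atTop_atTop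
  filter_upwards [h3, h5.eventually_ge_atTop 1, Filter.eventually_ge_atTop 1] with k hk hl hk1
  have hkr : (1 : ℝ) ≤ k := by exact_mod_cast hk1
  have hl0 : 0 ≤ Real.log (k : ℝ) := by linarith
  rw [Real.norm_of_nonneg (Real.rpow_nonneg hl0 _), Real.norm_of_nonneg (by positivity),
    Real.rpow_one] at hk
  have h4 : Real.log (k : ℝ) ^ (4 : ℝ) = Real.log (k : ℝ) ^ 4 := by
    rw [← Real.rpow_natCast]
    norm_num
  rw [h4] at hk
  have h6 : (⌈Real.log k⌉₊ : ℝ) ≤ 2 * Real.log k := by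
    have := Nat.ceil_lt_add_one hl0
    linarith
  calc (⌈Real.log k⌉₊ : ℝ) ^ 4 ≤ (2 * Real.log k) ^ 4 := by gcongr
    _ = 16 * Real.log k ^ 4 := by ring
    _ ≤ 16 * ((1 / 16) * k) := by gcongr
    _ = k := by ring

theorem LL_lower : ∃ c : ℝ, 0 < c ∧ ∃ k₀ : ℕ, ∀ k : ℕ, k₀ ≤ k →
    c / (√(k : ℝ) * Real.log k) ≤ LL k := by
  obtain ⟨c, hc, k₀, hk₀⟩ := rr_lower
  have h5 : Filter.Tendsto (fun k : ℕ => Real.log k) Filter.atTop Filter.atTop :=
    Real.tendsto_log_atTop.comp tendsto_natCast_atTop_atTop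
  have hev : ∀ᶠ k : ℕ in Filter.atTop, c / 2 / (√(k : ℝ) * Real.log k) ≤ LL k := by
    filter_upwards [ll_log4, h5.eventually_ge_atTop (max 1 (40 / c)),
      Filter.eventually_ge_atTop (max k₀ 1)] with k h4 hl hk
    have hk0 : k₀ ≤ k := (le_max_left _ _).trans hk
    have hk1 : 1 ≤ k := (le_max_right _ _).trans hk
    have hl1 : 1 ≤ Real.log k := (le_max_left _ _).trans hl
    have hlc : 40 / c ≤ Real.log k := (le_max_right _ _).trans hl
    have hkr : (1 : ℝ) ≤ k := by exact_mod_cast hk1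
    set m := ⌈Real.log k⌉₊ with hm
    have hm1 : Real.log k ≤ m := Nat.le_ceil _
    have hm0 : 1 ≤ m := by
      have : (1 : ℝ) ≤ m := hl1.trans hm1
      exact_mod_cast this
    have hm4 : m ^ 4 ≤ k := by exact_mod_cast h4
    have hm4' : 1 ≤ m ^ 4 := Nat.one_le_pow _ _ hm0
    set x := k ^ 2 * m ^ 4 with hx
    have hx2 : k ^ 2 ≤ x := Nat.le_mul_of_pos_right _ hm4'
    have hx3 : x ≤ k ^ 3 := by
      calc k ^ 2 * m ^ 4 ≤ k ^ 2 * k := Nat.mul_le_mul_left _ hm4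
        _ = k ^ 3 := by ring
    have hkx : k ≤ x := by nlinarith
    have hlow := hk₀ k hk0 x hx2 hx3
    have hup := (abs_le.1 (rr_sum k x hk1 hkx)).2
    have hxr : (x : ℝ) = (k : ℝ) ^ 2 * (m : ℝ) ^ 4 := by
      rw [hx]
      push_cast
      ring
    have hsk : √(k : ℝ) * √(k : ℝ) = k := Real.mul_self_sqrt (by linarith)
    have hsk0 : 0 < √(k : ℝ) := Real.sqrt_pos.2 (by linarith)
    have hsq : √((k : ℝ) * x) = √(k : ℝ) * (k * (m : ℝ) ^ 2) := by
      rw [hxr, Real.sqrt_mul (by linarith)]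
      congr 1
      rw [show (k : ℝ) ^ 2 * (m : ℝ) ^ 4 = (k * (m : ℝ) ^ 2) ^ 2 by ring]
      exact Real.sqrt_sq (by positivity)
    have hl0 : 0 < Real.log (k : ℝ) := by linarith
    have hxp : (0 : ℝ) < x := by
      have : 0 < x := by omega
      exact_mod_cast this
    have hmr : (0 : ℝ) < m := by exact_mod_cast hm0
    have hkey : 20 * √((k : ℝ) * x) ≤ c / 2 * x / (√(k : ℝ) * Real.log k) := by
      rw [hsq, hxr, le_div_iff₀ (by positivity)]
      have h40 : 40 ≤ c * Real.log k := by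
        rw [div_le_iff₀ hc] at hlc
        linarith
      have hm2 : Real.log k * 40 ≤ c * (m : ℝ) ^ 2 := by
        calc Real.log k * 40 ≤ Real.log k * (c * Real.log k) := by gcongr
          _ = c * Real.log k ^ 2 := by ring
          _ ≤ c * (m : ℝ) ^ 2 := by gcongr
      calc 20 * (√(k : ℝ) * (k * (m : ℝ) ^ 2)) * (√(k : ℝ) * Real.log k)
          = (√(k : ℝ) * √(k : ℝ)) * k * (m : ℝ) ^ 2 / 2 * (Real.log k * 40) := by ring
        _ = (k : ℝ) ^ 2 * (m : ℝ) ^ 2 / 2 * (Real.log k * 40) := by rw [hsk]; ring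
        _ ≤ (k : ℝ) ^ 2 * (m : ℝ) ^ 2 / 2 * (c * (m : ℝ) ^ 2) := by gcongr
        _ = c / 2 * ((k : ℝ) ^ 2 * (m : ℝ) ^ 4) := by ring
    have hfin : c / 2 * x / (√(k : ℝ) * Real.log k) ≤ x * LL k := by
      have e : c * x / (√(k : ℝ) * Real.log k) = c / 2 * x / (√(k : ℝ) * Real.log k) +
          c / 2 * x / (√(k : ℝ) * Real.log k) := by ring
      linarith
    have e2 : c / 2 * x / (√(k : ℝ) * Real.log k) = x * (c / 2 / (√(k : ℝ) * Real.log k)) := by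
      ring
    rw [e2] at hfin
    exact le_of_mul_le_mul_left hfin hxp
  obtain ⟨k₁, hk₁⟩ := Filter.eventually_atTop.1 hev
  exact ⟨c / 2, by positivity, k₁, hk₁⟩

end Pool.Agent.Work.MP_73869e_nt.OW
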