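import Mathlib
import Pool.Agent.Work.MP_73869e_nt.OW.LsA
import Pool.Agent.Work.MP_2dba45_nt.Mert

set_option autoImplicit false

/-!
Module MertL (size M-L). Mertens for chi k with explicit dependence on k (compare mertens_chi of
MP_2dba45_nt/Mert.lean). Λ = von Mangoldt. Σ_{n≤x} chi(n) log n/n = Σ_{d≤x} chi(d) Λ(d)/d S(x/d), S(y) = Σ_{m≤y} chi(m)/m
(Λ * 1 = log, chi completely multiplicative), so
LL Σ_{d≤x} chi(d)Λ(d)/d = Σ chi(n) log n/n + Σ_{d≤x} chi(d)Λ(d)/d (LL - S(x/d)).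
The first sum: log_sum. In the last one use LL_tail for d ≤ x/(4k) (4k/⌊x/d⌋ ≤ 8kd/x; Σ_{d ≤ y} Λ(d) ≤ C y) and LL_dist
for x/(4k) < d ≤ x (Σ of Λ(d)/d over this range ≤ log(4k) + C, Mertens). Prime powers p^j, j ≥ 2, contribute at
most |LL| Σ log p/p^j ≤ C (2 + log 4k) (LL_abs).
-/

namespace Pool.Agent.Work.MP_73869e_nt.OW

open Finset

open ArithmeticFunction in
private theorem ml_conv {χ : ℕ → ℝ} (h : ∀ m n, χ (m * n) = χ m * χ n) {n : ℕ} (hn : 0 < n) :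
    (Pool.Agent.Work.MP_2dba45_nt.Mert.wL χ * Pool.Agent.Work.MP_2dba45_nt.Mert.wC χ) n =
      χ n * (Real.log n / n) := by
  rw [ArithmeticFunction.mul_apply]
  have h1 : ∀ x ∈ n.divisorsAntidiagonal, Pool.Agent.Work.MP_2dba45_nt.Mert.wL χ x.1 *
      Pool.Agent.Work.MP_2dba45_nt.Mert.wC χ x.2 = χ n / n * Λ x.1 := by
    intro x hx
    rw [Nat.mem_divisorsAntidiagonal] at hx
    rw [Pool.Agent.Work.MP_2dba45_nt.Mert.wL_apply, Pool.Agent.Work.MP_2dba45_nt.Mert.wC_apply]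
    have h1 : x.1 ≠ 0 := by rintro h0; rw [h0] at hx; simp at hx; omega
    have h2 : x.2 ≠ 0 := by rintro h0; rw [h0] at hx; simp at hx; omega
    have h3 : χ n = χ x.1 * χ x.2 := by rw [← h, hx.1]
    have h4 : (n : ℝ) = x.1 * x.2 := by exact_mod_cast hx.1.symm
    rw [h3, h4]
    have h1' : (x.1 : ℝ) ≠ 0 := by exact_mod_cast h1
    have h2' : (x.2 : ℝ) ≠ 0 := by exact_mod_cast h2
    field_simp
  have h2 : ∑ i ∈ n.divisorsAntidiagonal, Λ i.1 = ∑ i ∈ n.divisors, Λ i :=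
    Nat.sum_divisorsAntidiagonal (fun i _ => Λ i)
  rw [Finset.sum_congr rfl h1, ← Finset.mul_sum, h2, vonMangoldt_sum]
  ring

open ArithmeticFunction in
private theorem ml_id {χ : ℕ → ℝ} (h : ∀ m n, χ (m * n) = χ m * χ n) (x : ℕ) (L : ℝ) :
    L * ∑ d ∈ Ioc 0 x, χ d * Λ d / d = ∑ n ∈ Ioc 0 x, χ n * Real.log n / n +
      ∑ d ∈ Ioc 0 x, (χ d * Λ d / d) * (L - ∑ m ∈ Ioc 0 (x / d), χ m / m) := by
  have h1 : ∑ n ∈ Ioc 0 x, χ n * Real.log n / n =
      ∑ d ∈ Ioc 0 x, (χ d * Λ d / d) * ∑ m ∈ Ioc 0 (x / d), χ m / m := by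
    have h2 : ∑ n ∈ Ioc 0 x, χ n * Real.log n / n = ∑ n ∈ Ioc 0 x, χ n * (Real.log n / n) :=
      Finset.sum_congr rfl fun n _ => by ring
    rw [h2, Finset.sum_congr rfl (fun n hn => (ml_conv h (Finset.mem_Ioc.1 hn).1).symm),
      ArithmeticFunction.sum_Ioc_mul_eq_sum_sum]
    rfl
  rw [h1, Finset.mul_sum, ← Finset.sum_add_distrib]
  refine Finset.sum_congr rfl fun d _ => ?_
  ring

open ArithmeticFunction in
/-- the sum of `Λ(d)/d` over `x/(4k) < d ≤ x` -/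
private theorem ml_far (k x : ℕ) (hk : 1 ≤ k) (hx : 1 ≤ x) :
    ∑ d ∈ (Ioc 0 x).filter (fun d => x < 4 * k * d), Λ d / d ≤ 7 * (2 + Real.log (4 * k)) := by
  have hk' : (1 : ℝ) ≤ k := by exact_mod_cast hk
  have hx' : (1 : ℝ) ≤ x := by exact_mod_cast hx
  have hx0 : (0 : ℝ) < x := by linarith
  have hlog4k : 0 ≤ Real.log (4 * k) := Real.log_nonneg (by linarith)
  have hup := (abs_le.1 (Pool.Agent.Work.MP_2dba45_nt.Mert.sum_Lam_div x hx)).2
  have hsplit := Finset.sum_filter_add_sum_filter_not (Ioc 0 x) (fun d => x < 4 * k * d)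
    (fun d => Λ d / (d : ℝ))
  have hset : (Ioc 0 x).filter (fun d => ¬ x < 4 * k * d) = Ioc 0 (x / (4 * k)) := by
    ext d
    rw [Finset.mem_filter, Finset.mem_Ioc, Finset.mem_Ioc, Nat.le_div_iff_mul_le (by omega),
      not_lt, mul_comm d]
    constructor
    · rintro ⟨⟨h1, -⟩, h3⟩
      exact ⟨h1, h3⟩
    · rintro ⟨h1, h3⟩
      refine ⟨⟨h1, ?_⟩, h3⟩
      nlinarith
  rw [hset] at hsplit
  rcases Nat.eq_zero_or_pos (x / (4 * k)) with h0 | h0
  · rw [h0] at hsplit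
    rw [Finset.Ioc_self, Finset.sum_empty, add_zero] at hsplit
    rw [hsplit]
    have h1 : x < 4 * k := by
      rcases (Nat.div_eq_zero_iff).1 h0 with h1 | h1
      · omega
      · exact h1
    have h2 : Real.log x ≤ Real.log (4 * k) := Real.log_le_log hx0 (by exact_mod_cast h1.le)
    linarith
  · have hlo := (abs_le.1 (Pool.Agent.Work.MP_2dba45_nt.Mert.sum_Lam_div (x / (4 * k)) h0)).1
    have h1 : (x : ℝ) ≤ 2 * (4 * k) * ((x / (4 * k) : ℕ) : ℝ) := by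
      have h2 := Nat.lt_mul_div_succ x (show 0 < 4 * k by omega)
      have h3 : x ≤ 2 * (4 * k) * (x / (4 * k)) := by nlinarith
      exact_mod_cast h3
    have h0' : (0 : ℝ) < ((x / (4 * k) : ℕ) : ℝ) := by exact_mod_cast h0
    have h2 : Real.log x ≤ Real.log 2 + Real.log (4 * k) +
        Real.log ((x / (4 * k) : ℕ) : ℝ) := by
      rw [← Real.log_mul (by norm_num) (by positivity), ← Real.log_mul (by positivity) h0'.ne']
      exact Real.log_le_log hx0 h1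
    have h3 := Real.log_two_lt_d9
    linarith

open ArithmeticFunction in
/-- the sum over `d ≤ x/(4k)` -/
private theorem ml_near (k x : ℕ) (hk : 1 ≤ k) (hx : 1 ≤ x) :
    ∑ d ∈ (Ioc 0 x).filter (fun d => ¬ x < 4 * k * d), Λ d / d *
      |LL k - ∑ m ∈ Ioc 0 (x / d), (chi k m : ℝ) / m| ≤ 12 := by
  have hk' : (1 : ℝ) ≤ k := by exact_mod_cast hk
  have hx' : (1 : ℝ) ≤ x := by exact_mod_cast hx
  have hx0 : (0 : ℝ) < x := by linarith
  have hset : (Ioc 0 x).filter (fun d => ¬ x < 4 * k * d) = Ioc 0 (x / (4 * k)) := by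
    ext d
    rw [Finset.mem_filter, Finset.mem_Ioc, Finset.mem_Ioc, Nat.le_div_iff_mul_le (by omega),
      not_lt, mul_comm d]
    constructor
    · rintro ⟨⟨h1, -⟩, h3⟩
      exact ⟨h1, h3⟩
    · rintro ⟨h1, h3⟩
      refine ⟨⟨h1, ?_⟩, h3⟩
      nlinarith
  rw [hset]
  have h1 : ∀ d ∈ Ioc 0 (x / (4 * k)), Λ d / d *
      |LL k - ∑ m ∈ Ioc 0 (x / d), (chi k m : ℝ) / m| ≤ 8 * k / x * Λ d := by
    intro d hd
    rw [Finset.mem_Ioc, Nat.le_div_iff_mul_le (by omega)] at hd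
    have hd0 : (0 : ℝ) < d := by exact_mod_cast hd.1
    have hxd : 1 ≤ x / d := by
      rw [Nat.le_div_iff_mul_le hd.1]
      nlinarith
    have h2 := LL_tail k (x / d) hk hxd
    have h3 : (x : ℝ) ≤ 2 * d * ((x / d : ℕ) : ℝ) := by
      have h4 := Nat.lt_mul_div_succ x hd.1
      have h5 : x ≤ 2 * d * (x / d) := by nlinarith
      exact_mod_cast h5
    have h0' : (0 : ℝ) < ((x / d : ℕ) : ℝ) := by exact_mod_cast hxd
    have h4 : 4 * (k : ℝ) / ((x / d : ℕ) : ℝ) ≤ 8 * k * d / x := by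
      rw [div_le_div_iff₀ h0' hx0]
      nlinarith
    have hL : 0 ≤ Λ d := vonMangoldt_nonneg
    calc Λ d / d * |LL k - ∑ m ∈ Ioc 0 (x / d), (chi k m : ℝ) / m|
        ≤ Λ d / d * (8 * k * d / x) := by
          exact mul_le_mul_of_nonneg_left (h2.trans h4) (by positivity)
      _ = 8 * k / x * Λ d := by field_simp
  refine (Finset.sum_le_sum h1).trans ?_
  rw [← Finset.mul_sum]
  have h2 := Pool.Agent.Work.MP_2dba45_nt.Mert.sum_Lam_le (x / (4 * k))
  have h3 : ((x / (4 * k) : ℕ) : ℝ) ≤ x / (4 * k) := by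
    have h4 : ((x / (4 * k) : ℕ) : ℝ) ≤ (x : ℝ) / ((4 * k : ℕ) : ℝ) := Nat.cast_div_le
    push_cast at h4
    exact h4
  have hlog4 : Real.log 4 ≤ 2 := by
    have : Real.log 4 = 2 * Real.log 2 := by
      rw [show (4 : ℝ) = 2 ^ 2 by norm_num, Real.log_pow]; norm_num
    rw [this]; linarith [Real.log_two_lt_d9]
  have h5 : ∑ i ∈ Ioc 0 (x / (4 * k)), Λ i ≤ 6 * (x / (4 * k)) := by
    refine h2.trans ?_
    have h6 : 0 ≤ ((x / (4 * k) : ℕ) : ℝ) := Nat.cast_nonneg _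
    calc (Real.log 4 + 4) * ((x / (4 * k) : ℕ) : ℝ) ≤ 6 * ((x / (4 * k) : ℕ) : ℝ) := by
          gcongr
          linarith
      _ ≤ 6 * (x / (4 * k)) := by gcongr
  calc 8 * (k : ℝ) / x * ∑ i ∈ Ioc 0 (x / (4 * k)), Λ i ≤ 8 * k / x * (6 * (x / (4 * k))) :=
        mul_le_mul_of_nonneg_left h5 (by positivity)
    _ = 12 := by field_simp; norm_num

theorem mert_LL : ∃ C : ℝ, 0 ≤ C ∧ ∀ k : ℕ, 1 ≤ k → ∀ x : ℕ,
    |LL k * ∑ p ∈ (Ioc 0 x).filter Nat.Prime, (chi k p : ℝ) * Real.log p / p| ≤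
      C * (2 + Real.log (4 * k)) ^ 2 := by
  obtain ⟨C, hC⟩ := Pool.Agent.Work.MP_2dba45_nt.Mert.nonprime_bound
  refine ⟨19 + max C 0, by positivity, fun k hk x => ?_⟩
  have hk' : (1 : ℝ) ≤ k := by exact_mod_cast hk
  set B : ℝ := 2 + Real.log (4 * k) with hB
  have hB2 : 2 ≤ B := by
    have := Real.log_nonneg (show (1 : ℝ) ≤ 4 * k by linarith)
    linarith
  have hCm : C ≤ max C 0 := le_max_left _ _
  have hCm0 : 0 ≤ max C 0 := le_max_right _ _
  rcases Nat.eq_zero_or_pos x with rfl | hx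
  · rw [Finset.Ioc_self, Finset.filter_empty, Finset.sum_empty, mul_zero, abs_zero]
    positivity
  have habs : ∀ n, |(chi k n : ℝ)| ≤ 1 := fun n => by exact_mod_cast chi_abs k n
  have hmul : ∀ m n : ℕ, (chi k (m * n) : ℝ) = (chi k m : ℝ) * (chi k n : ℝ) := fun m n => by
    rw [chi_mul, Int.cast_mul]
  have hid := ml_id (χ := fun n => (chi k n : ℝ)) hmul x (LL k)
  have h1 := log_sum k x hk
  have h2 : |∑ d ∈ Ioc 0 x, ((chi k d : ℝ) * ArithmeticFunction.vonMangoldt d / d) *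
      (LL k - ∑ m ∈ Ioc 0 (x / d), (chi k m : ℝ) / m)| ≤ 12 + 14 * B ^ 2 := by
    refine (Finset.abs_sum_le_sum_abs _ _).trans ?_
    have h3 : ∀ d ∈ Ioc 0 x, |((chi k d : ℝ) * ArithmeticFunction.vonMangoldt d / d) *
        (LL k - ∑ m ∈ Ioc 0 (x / d), (chi k m : ℝ) / m)| ≤
        ArithmeticFunction.vonMangoldt d / d *
          |LL k - ∑ m ∈ Ioc 0 (x / d), (chi k m : ℝ) / m| := by
      intro d hd
      rw [Finset.mem_Ioc] at hd
      have hd0 : (0 : ℝ) < d := by exact_mod_cast hd.1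
      have hL : 0 ≤ ArithmeticFunction.vonMangoldt d := ArithmeticFunction.vonMangoldt_nonneg
      rw [abs_mul, abs_div, abs_mul, abs_of_nonneg hL, abs_of_pos hd0]
      gcongr
      calc |(chi k d : ℝ)| * ArithmeticFunction.vonMangoldt d
          ≤ 1 * ArithmeticFunction.vonMangoldt d := by gcongr; exact habs d
        _ = ArithmeticFunction.vonMangoldt d := one_mul _
    refine (Finset.sum_le_sum h3).trans ?_
    rw [← Finset.sum_filter_add_sum_filter_not (Ioc 0 x) (fun d => x < 4 * k * d)]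
    have h4 := ml_near k x hk hx
    have h5 : ∑ d ∈ (Ioc 0 x).filter (fun d => x < 4 * k * d),
        ArithmeticFunction.vonMangoldt d / d *
          |LL k - ∑ m ∈ Ioc 0 (x / d), (chi k m : ℝ) / m| ≤ 14 * B ^ 2 := by
      calc ∑ d ∈ (Ioc 0 x).filter (fun d => x < 4 * k * d),
            ArithmeticFunction.vonMangoldt d / d *
              |LL k - ∑ m ∈ Ioc 0 (x / d), (chi k m : ℝ) / m|
          ≤ ∑ d ∈ (Ioc 0 x).filter (fun d => x < 4 * k * d),
            ArithmeticFunction.vonMangoldt d / d * (2 * B) := by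
            refine Finset.sum_le_sum fun d _ => ?_
            have hL : 0 ≤ ArithmeticFunction.vonMangoldt d :=
              ArithmeticFunction.vonMangoldt_nonneg
            exact mul_le_mul_of_nonneg_left (LL_dist k (x / d) hk) (by positivity)
        _ = (∑ d ∈ (Ioc 0 x).filter (fun d => x < 4 * k * d),
            ArithmeticFunction.vonMangoldt d / d) * (2 * B) := by rw [Finset.sum_mul]
        _ ≤ (7 * B) * (2 * B) :=
            mul_le_mul_of_nonneg_right (ml_far k x hk hx) (by linarith)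
        _ = 14 * B ^ 2 := by ring
    linarith
  have h3 : |LL k * ∑ d ∈ Ioc 0 x, (chi k d : ℝ) * ArithmeticFunction.vonMangoldt d / d| ≤
      19 * B ^ 2 := by
    rw [hid]
    refine (abs_add_le _ _).trans ?_
    have h4 : (12 : ℝ) ≤ 3 * B ^ 2 := by nlinarith
    linarith
  have h4 := hC (fun n => (chi k n : ℝ)) habs x
  have h5 := LL_abs k hk
  have h6 : LL k * ∑ p ∈ (Ioc 0 x).filter Nat.Prime, (chi k p : ℝ) * Real.log p / p =
      LL k * ∑ d ∈ Ioc 0 x, (chi k d : ℝ) * ArithmeticFunction.vonMangoldt d / d -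
      LL k * (∑ d ∈ Ioc 0 x, (chi k d : ℝ) * ArithmeticFunction.vonMangoldt d / d -
        ∑ p ∈ (Ioc 0 x).filter Nat.Prime, (chi k p : ℝ) * Real.log p / p) := by ring
  rw [h6]
  refine (abs_sub _ _).trans ?_
  rw [abs_mul (LL k) (_ - _)]
  have h7 : |LL k| * |∑ d ∈ Ioc 0 x, (chi k d : ℝ) * ArithmeticFunction.vonMangoldt d / d -
        ∑ p ∈ (Ioc 0 x).filter Nat.Prime, (chi k p : ℝ) * Real.log p / p| ≤ B * max C 0 :=
    mul_le_mul h5 (h4.trans hCm) (abs_nonneg _) (by linarith)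
  have h8 : B * max C 0 ≤ max C 0 * B ^ 2 := by
    have h9 : B ≤ B ^ 2 := by nlinarith
    calc B * max C 0 = max C 0 * B := mul_comm _ _
      _ ≤ max C 0 * B ^ 2 := mul_le_mul_of_nonneg_left h9 hCm0
  linarith

end Pool.Agent.Work.MP_73869e_nt.OW
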