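import Mathlib
import Pool.Agent.Work.MP_73869e_nt.OW.LLlow
import Pool.Agent.Work.MP_73869e_nt.OW.MertL

set_option autoImplicit false

/-!
Module MertU (size S-M). mert_LL divided by LL k ≥ c/(√k log k) (LL_lower):
|Σ| ≤ (C/c) √k log k (2 + log 4k)^2 ≤ C' k^(3/4) for k ≥ k₀.
-/

namespace Pool.Agent.Work.MP_73869e_nt.OW

open Finset

theorem mert_chi_unif : ∃ C : ℝ, 0 ≤ C ∧ ∃ k₀ : ℕ, ∀ k : ℕ, k₀ ≤ k → ∀ x : ℕ,
    |∑ p ∈ (Ioc 0 x).filter Nat.Prime, (chi k p : ℝ) * Real.log p / p| ≤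
      C * (k : ℝ) ^ ((3 : ℝ) / 4) := by
  obtain ⟨c, hc, k₀, hL⟩ := LL_lower
  obtain ⟨C, hC, hM⟩ := mert_LL
  refine ⟨C / c * 3072, by positivity, max k₀ 2, fun k hk x => ?_⟩
  have hk0 : k₀ ≤ k := (le_max_left _ _).trans hk
  have hk2 : 2 ≤ k := (le_max_right _ _).trans hk
  have hkr : (2 : ℝ) ≤ k := by exact_mod_cast hk2
  have hkpos : (0 : ℝ) < k := by linarith
  have hlog : 0 < Real.log k := Real.log_pos (by linarith)
  have hsq : 0 < √(k : ℝ) := Real.sqrt_pos.mpr hkpos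
  have h1 := hL k hk0
  have h2 := hM k (by omega) x
  obtain ⟨S, hS⟩ : ∃ S, S = ∑ p ∈ (Ioc 0 x).filter Nat.Prime, (chi k p : ℝ) * Real.log p / p :=
    ⟨_, rfl⟩
  rw [← hS] at h2 ⊢
  have hLpos : 0 < LL k := lt_of_lt_of_le (div_pos hc (mul_pos hsq hlog)) h1
  rw [abs_mul, abs_of_pos hLpos] at h2
  -- logarithms
  obtain ⟨t, ht⟩ : ∃ t : ℝ, t = (k : ℝ) ^ ((1 : ℝ) / 12) := ⟨_, rfl⟩
  have ht1 : 1 ≤ t := by
    rw [ht]
    exact Real.one_le_rpow (by linarith) (by norm_num)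
  have hlt : Real.log k ≤ 12 * t := by
    have h3 := Real.log_le_rpow_div hkpos.le (ε := (1 : ℝ) / 12) (by norm_num)
    rw [← ht] at h3
    linarith
  have hl4 : Real.log (4 * k) ≤ 2 + 12 * t := by
    rw [Real.log_mul (by norm_num) hkpos.ne']
    have h4 : Real.log 4 ≤ 2 := by
      have e : Real.log 4 = 2 * Real.log 2 := by
        rw [show (4 : ℝ) = 2 ^ 2 by norm_num, Real.log_pow]
        norm_num
      rw [e]
      have := Real.log_two_lt_d9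
      linarith
    linarith
  have hl4' : 0 ≤ Real.log (4 * k) := Real.log_nonneg (by linarith)
  have h5 : (2 + Real.log (4 * k)) ^ 2 ≤ (16 * t) ^ 2 :=
    pow_le_pow_left₀ (by linarith) (by linarith) 2
  have h6 : c * |S| ≤ √(k : ℝ) * Real.log k * (C * (2 + Real.log (4 * k)) ^ 2) := by
    have h7 : c ≤ LL k * (√(k : ℝ) * Real.log k) := (div_le_iff₀ (mul_pos hsq hlog)).mp h1
    calc c * |S| ≤ LL k * (√(k : ℝ) * Real.log k) * |S| :=
          mul_le_mul_of_nonneg_right h7 (abs_nonneg _)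
      _ = (√(k : ℝ) * Real.log k) * (LL k * |S|) := by ring
      _ ≤ _ := mul_le_mul_of_nonneg_left h2 (mul_pos hsq hlog).le
  have h8 : √(k : ℝ) * Real.log k * (C * (2 + Real.log (4 * k)) ^ 2) ≤
      C * 3072 * (√(k : ℝ) * t ^ 3) := by
    calc √(k : ℝ) * Real.log k * (C * (2 + Real.log (4 * k)) ^ 2)
        ≤ √(k : ℝ) * (12 * t) * (C * (16 * t) ^ 2) := by gcongr
      _ = C * 3072 * (√(k : ℝ) * t ^ 3) := by ring
  have h9 : √(k : ℝ) * t ^ 3 = (k : ℝ) ^ ((3 : ℝ) / 4) := by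
    rw [Real.sqrt_eq_rpow, ht, ← Real.rpow_natCast, ← Real.rpow_mul hkpos.le,
      ← Real.rpow_add hkpos]
    norm_num
  rw [h9] at h8
  have h10 : c * |S| ≤ c * (C / c * 3072 * (k : ℝ) ^ ((3 : ℝ) / 4)) := by
    have e : c * (C / c * 3072 * (k : ℝ) ^ ((3 : ℝ) / 4)) = C * 3072 * (k : ℝ) ^ ((3 : ℝ) / 4) := by
      field_simp
    rw [e]
    exact h6.trans h8
  exact le_of_mul_le_mul_left h10 hc

end Pool.Agent.Work.MP_73869e_nt.OW
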