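import Mathlib
import Pool.Agent.Work.MP_73869e_nt.OW.MertU
import Pool.Agent.Work.MP_73869e_nt.OW.Fmc
import Pool.Agent.Work.MP_2dba45_nt.Sv.Mert1

set_option autoImplicit false

/-!
Module LawU (size M). nn, le: unfold hk. law: the primes p ≥ w ≥ N^δ are > 2 k (ev_KK), so p ∤ 2k, chi k p = ±1 and
hk k p = (1 + chi k p)/p. Partial summation (Sv.mt_psum, see Sv.sum_g1, or directly):
|Σ_{w≤p<x} chi(p)/p| ≤ 2 C k^(3/4)/log w with mert_chi_unif (k ≥ √K ≥ k₀ for N large), k ≤ C log N, log w ≥ δ log N;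
and the sum of 1/p is log log x - log log w + O(1/log w) (mertens_one and partial summation). Everything is O((log N)^(-1/4)).
-/

namespace Pool.Agent.Work.MP_73869e_nt.OW

open Finset Filter

private theorem lw_chi_cases (k p : ℕ) : chi k p = 1 ∨ chi k p = -1 ∨ chi k p = 0 := by
  unfold chi
  split_ifs with h
  · rcases jacobiSym.trichotomy (-(k : ℤ)) p with h | h | h
    · exact Or.inr (Or.inr h)
    · exact Or.inl h
    · exact Or.inr (Or.inl h)
  · exact Or.inr (Or.inr rfl)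

private theorem lw_zero (k p : ℕ) (hp : p.Prime) (h : chi k p = 0) : p ∣ 2 * k := by
  unfold chi at h
  split_ifs at h with ho
  · haveI : NeZero p := ⟨hp.ne_zero⟩
    rw [jacobiSym.eq_zero_iff_not_coprime] at h
    have h1 : ¬ IsCoprime (-(k : ℤ)) (p : ℤ) := by
      rwa [Int.isCoprime_iff_gcd_eq_one]
    have h2 : ¬ Nat.Coprime k p := by
      intro h3
      apply h1
      exact (Nat.isCoprime_iff_coprime.2 h3).neg_left
    have h3 : p ∣ k := by
      by_contra h4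
      exact h2 ((Nat.Prime.coprime_iff_not_dvd hp).2 h4).symm
    exact Dvd.dvd.mul_left h3 2
  · have : p = 2 := by
      rcases hp.eq_two_or_odd' with h1 | h1
      · exact h1
      · exact absurd h1 ho
    rw [this]
    exact dvd_mul_right 2 k

private theorem lw_sumlog (m : ℕ) (hm : 0 < m) (x : ℕ) :
    ∑ p ∈ (Ioc 0 x).filter (fun p => p.Prime ∧ p ∣ m), Real.log p / p ≤ Real.log m := by
  have h1 : (Ioc 0 x).filter (fun p => p.Prime ∧ p ∣ m) ⊆ m.primeFactors := by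
    intro p hp
    rw [Finset.mem_filter] at hp
    exact Nat.mem_primeFactors.2 ⟨hp.2.1, hp.2.2, hm.ne'⟩
  have h2 : ∑ p ∈ (Ioc 0 x).filter (fun p => p.Prime ∧ p ∣ m), Real.log p / p ≤
      ∑ p ∈ m.primeFactors, Real.log p := by
    refine (Finset.sum_le_sum_of_subset_of_nonneg h1 fun p hp _ => ?_).trans
      (Finset.sum_le_sum fun p hp => ?_)
    · have := Real.log_natCast_nonneg p
      positivity
    · have h3 := (Nat.prime_of_mem_primeFactors hp).one_le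
      have h4 : (1 : ℝ) ≤ p := by exact_mod_cast h3
      exact div_le_self (Real.log_natCast_nonneg p) h4
  refine h2.trans ?_
  have h3 : ∑ p ∈ m.primeFactors, Real.log p = Real.log ((∏ p ∈ m.primeFactors, p : ℕ) : ℝ) := by
    rw [Nat.cast_prod, Real.log_prod]
    intro p hp
    have := (Nat.prime_of_mem_primeFactors hp).pos
    positivity
  rw [h3]
  apply Real.log_le_log
  · have : 0 < ∏ p ∈ m.primeFactors, p := Finset.prod_pos fun p hp =>
      (Nat.prime_of_mem_primeFactors hp).pos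
    exact_mod_cast this
  · exact_mod_cast Nat.le_of_dvd hm (Nat.prod_primeFactors_dvd m)

private theorem lw_mert : ∃ B : ℝ, 0 ≤ B ∧ ∃ k₀ : ℕ, ∀ k : ℕ, k₀ ≤ k → 1 ≤ k → ∀ x : ℕ, 0 < x →
    |∑ n ∈ Ioc 0 x, (if n.Prime ∧ chi k n = 1 then (2 : ℝ) else 0) * (Real.log n / n) -
      Real.log x| ≤ B * (k : ℝ) ^ ((3 : ℝ) / 4) := by
  obtain ⟨C, hC0, k₀, hC⟩ := mert_chi_unif
  obtain ⟨C₁, hC₁⟩ := MP_2dba45_nt.Mert.mertens_one
  refine ⟨C + |C₁| + 4, by positivity, k₀, fun k hk hk1 x hx => ?_⟩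
  have h1 := hC k hk x
  have h2 := (hC₁ x hx).trans (le_abs_self C₁)
  have h3 := lw_sumlog (2 * k) (by omega) x
  have h30 : 0 ≤ ∑ p ∈ (Ioc 0 x).filter (fun p => p.Prime ∧ p ∣ 2 * k), Real.log p / p := by
    apply Finset.sum_nonneg
    intro p _
    have := Real.log_natCast_nonneg p
    positivity
  have hkr : (1 : ℝ) ≤ k := by exact_mod_cast hk1
  have hkp : (1 : ℝ) ≤ (k : ℝ) ^ ((3 : ℝ) / 4) := Real.one_le_rpow hkr (by norm_num)
  have h4 : Real.log ((2 * k : ℕ) : ℝ) ≤ 4 * (k : ℝ) ^ ((3 : ℝ) / 4) := by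
    have h5 := Real.log_le_rpow_div (x := ((2 * k : ℕ) : ℝ)) (by positivity)
      (show (0 : ℝ) < 3 / 4 by norm_num)
    refine h5.trans ?_
    push_cast
    rw [Real.mul_rpow (by norm_num) (by positivity)]
    have h6 : (2 : ℝ) ^ ((3 : ℝ) / 4) ≤ 2 := by
      calc (2 : ℝ) ^ ((3 : ℝ) / 4) ≤ (2 : ℝ) ^ (1 : ℝ) :=
            Real.rpow_le_rpow_of_exponent_le (by norm_num) (by norm_num)
        _ = 2 := by simp
    rw [div_le_iff₀ (by norm_num)]
    nlinarith
  -- decomposition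
  set z : ℝ := ∑ p ∈ (Ioc 0 x).filter (fun p => p.Prime ∧ chi k p = 0), Real.log p / p with hz
  have hz0 : 0 ≤ z := by
    apply Finset.sum_nonneg
    intro p _
    have := Real.log_natCast_nonneg p
    positivity
  have hz1 : z ≤ ∑ p ∈ (Ioc 0 x).filter (fun p => p.Prime ∧ p ∣ 2 * k), Real.log p / p := by
    apply Finset.sum_le_sum_of_subset_of_nonneg
    · intro p hp
      rw [Finset.mem_filter] at hp ⊢
      exact ⟨hp.1, hp.2.1, lw_zero k p hp.2.1 hp.2.2⟩
    · intro p _ _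
      have := Real.log_natCast_nonneg p
      positivity
  have hdec : ∑ n ∈ Ioc 0 x, (if n.Prime ∧ chi k n = 1 then (2 : ℝ) else 0) * (Real.log n / n) =
      ∑ p ∈ (Ioc 0 x).filter Nat.Prime, Real.log p / p +
      ∑ p ∈ (Ioc 0 x).filter Nat.Prime, (chi k p : ℝ) * Real.log p / p - z := by
    rw [hz, Finset.sum_filter, Finset.sum_filter, Finset.sum_filter, ← Finset.sum_add_distrib,
      ← Finset.sum_sub_distrib]
    refine Finset.sum_congr rfl fun n _ => ?_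
    by_cases hn : n.Prime
    · rcases lw_chi_cases k n with h | h | h
      · simp [hn, h]
        ring
      · simp [hn, h]
        ring
      · simp [hn, h]
    · simp [hn]
  rw [hdec]
  have hC1 : |C₁| ≤ |C₁| * (k : ℝ) ^ ((3 : ℝ) / 4) := le_mul_of_one_le_right (abs_nonneg _) hkp
  rw [abs_le] at h1 h2 ⊢
  constructor
  · nlinarith [h1.1, h2.1]
  · nlinarith [h1.2, h2.2]

private theorem lw_shift (h : ℕ → ℝ) (C : ℝ) (hC0 : 0 ≤ C) (hn : ∀ p, 0 ≤ h p)
    (hl : ∀ p : ℕ, p.Prime → h p ≤ 2 / p)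
    (hC : ∀ w z : ℕ, 2 ≤ w → w ≤ z →
    |∑ p ∈ (Ioc w z).filter Nat.Prime, h p -
      (Real.log (Real.log z) - Real.log (Real.log w))| ≤ C / Real.log w) (w x : ℝ)
    (hw : 2 ≤ w) (hwx : w ≤ x) :
    |∑ p ∈ (Ico ⌈w⌉₊ ⌈x⌉₊).filter Nat.Prime, h p -
      (Real.log (Real.log x) - Real.log (Real.log w))| ≤ (C + 6) / Real.log w := by
  set W := ⌈w⌉₊ with hW
  set X := ⌈x⌉₊ with hX
  have hwW : w ≤ W := Nat.le_ceil w
  have hWw : (W : ℝ) ≤ w + 1 := (Nat.ceil_lt_add_one (by linarith)).le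
  have hxX : x ≤ X := Nat.le_ceil x
  have hXx : (X : ℝ) ≤ x + 1 := (Nat.ceil_lt_add_one (by linarith)).le
  have hWX : W ≤ X := Nat.ceil_le_ceil hwx
  have hW2 : 2 ≤ W := by
    have : (2 : ℝ) ≤ W := hw.trans hwW
    exact_mod_cast this
  have hlw : 0 < Real.log w := Real.log_pos (by linarith)
  have hlW : Real.log w ≤ Real.log W := Real.log_le_log (by linarith) hwW
  have hlx : Real.log w ≤ Real.log x := Real.log_le_log (by linarith) hwx
  have h1 := hC W X hW2 hWX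
  have h2 := MP_2dba45_nt.Sv.mt_loglog hw hwW hWw
  have h3 := MP_2dba45_nt.Sv.mt_loglog (hw.trans hwx) hxX hXx
  have h4 : ∀ Y : ℕ, w ≤ Y → 0 ≤ (if Y.Prime then h Y else 0) ∧
      (if Y.Prime then h Y else 0) ≤ 2 / Real.log w := by
    intro Y hY
    have hb : 2 / (Y : ℝ) ≤ 2 / Real.log w := by
      apply div_le_div_of_nonneg_left (by norm_num) hlw
      have := Real.log_le_sub_one_of_pos (x := w) (by linarith)
      linarith
    split_ifs with hp
    · exact ⟨hn Y, (hl Y hp).trans hb⟩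
    · exact ⟨le_rfl, by positivity⟩
  have h5 := h4 W hwW
  have h6 := h4 X (hwx.trans hxX)
  have h7 : C / Real.log W ≤ C / Real.log w := div_le_div_of_nonneg_left hC0 hlw hlW
  have h8 : 1 / Real.log x ≤ 1 / Real.log w := one_div_le_one_div_of_le hlw hlx
  rw [MP_2dba45_nt.Sv.mt_shift h W X hWX]
  have e6 : (C + 6) / Real.log w = C / Real.log w + 2 / Real.log w + 2 / Real.log w
      + 1 / Real.log w + 1 / Real.log w := by ring
  rw [e6]
  have h0 : 0 ≤ 1 / Real.log w := by positivity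
  have h00 : 0 ≤ 2 / Real.log w := by positivity
  rw [abs_le] at h1 ⊢
  constructor
  · linarith [h1.1, h2.1, h2.2, h3.1, h3.2, h5.1, h5.2, h6.1, h6.2]
  · linarith [h1.2, h2.1, h2.2, h3.1, h3.2, h5.1, h5.2, h6.1, h6.2]

private theorem lw_ev (A δ η : ℝ) (hA : 0 ≤ A) (hδ : 0 < δ) (hη : 0 < η) :
    ∀ᶠ L : ℝ in atTop, (A * L ^ ((3 : ℝ) / 4) + 13) / (δ * L) ≤ η := by
  have h1 : Tendsto (fun L : ℝ => L ^ ((1 : ℝ) / 4)) atTop atTop :=
    tendsto_rpow_atTop (by norm_num)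
  filter_upwards [h1.eventually_ge_atTop ((A + 13) / (δ * η)), eventually_ge_atTop 1] with L h2 h3
  have hL : 0 < L := by linarith
  rw [div_le_iff₀ (by positivity)]
  have h4 : L = L ^ ((3 : ℝ) / 4) * L ^ ((1 : ℝ) / 4) := by
    rw [← Real.rpow_add hL]
    norm_num
  have h5 : 1 ≤ L ^ ((3 : ℝ) / 4) := Real.one_le_rpow h3 (by norm_num)
  rw [div_le_iff₀ (by positivity)] at h2
  calc A * L ^ ((3 : ℝ) / 4) + 13 ≤ A * L ^ ((3 : ℝ) / 4) + 13 * L ^ ((3 : ℝ) / 4) := by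
        linarith
    _ = L ^ ((3 : ℝ) / 4) * (A + 13) := by ring
    _ ≤ L ^ ((3 : ℝ) / 4) * (L ^ ((1 : ℝ) / 4) * (δ * η)) := by gcongr
    _ = η * (δ * (L ^ ((3 : ℝ) / 4) * L ^ ((1 : ℝ) / 4))) := by ring
    _ = η * (δ * L) := by rw [← h4]

theorem law_unif (C δ η : ℝ) (hC : 0 < C) (hδ : 0 < δ) (hη : 0 < η) : ∀ᶠ N : ℕ in atTop,
    ∀ k ∈ Ioc (Nat.sqrt (KK C N)) (KK C N), DimU (hk k) N δ η := by
  obtain ⟨B, hB0, k₀, hB⟩ := lw_mert
  have hlog : Tendsto (fun N : ℕ => Real.log N) atTop atTop :=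
    Real.tendsto_log_atTop.comp tendsto_natCast_atTop_atTop
  have hpw : Tendsto (fun N : ℕ => (N : ℝ) ^ δ) atTop atTop :=
    (tendsto_rpow_atTop hδ).comp tendsto_natCast_atTop_atTop
  filter_upwards [ev_KK C δ (k₀ + 1) hC hδ, hlog.eventually
    (lw_ev (2 * B * C ^ ((3 : ℝ) / 4)) δ η (by positivity) hδ hη),
    hlog.eventually_ge_atTop 1, hpw.eventually_ge_atTop 2, eventually_ge_atTop 2]
    with N hKK hev hL1 hN2 hNN k hk
  obtain ⟨hK1, hK2, hK3, hK4, hK5⟩ := hKK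
  rw [Finset.mem_Ioc] at hk
  have hk0 : k₀ + 1 ≤ k := by
    have h1 : k₀ + 1 ≤ Nat.sqrt (KK C N) := by exact_mod_cast hK1
    omega
  have hkC : (k : ℝ) ≤ C * Real.log N := le_trans (by exact_mod_cast hk.2) hK2
  have hkpow : (k : ℝ) ^ ((3 : ℝ) / 4) ≤ C ^ ((3 : ℝ) / 4) * Real.log N ^ ((3 : ℝ) / 4) := by
    rw [← Real.mul_rpow hC.le (by linarith)]
    exact Real.rpow_le_rpow (by positivity) hkC (by norm_num)
  have hnn : ∀ p, 0 ≤ Pool.Agent.Work.MP_73869e_nt.OW.hk k p := by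
    intro p
    unfold Pool.Agent.Work.MP_73869e_nt.OW.hk
    split_ifs
    · positivity
    · exact le_rfl
  have hle : ∀ p : ℕ, p.Prime → Pool.Agent.Work.MP_73869e_nt.OW.hk k p ≤ 2 / p := by
    intro p _
    unfold Pool.Agent.Work.MP_73869e_nt.OW.hk
    split_ifs
    · exact le_rfl
    · positivity
  refine ⟨hnn, hle, fun w x hw hwx hx => ?_⟩
  have hw2 : 2 ≤ w := hN2.trans hw
  have hCk : 0 ≤ B * (k : ℝ) ^ ((3 : ℝ) / 4) := by positivity
  have h1 := lw_shift (Pool.Agent.Work.MP_73869e_nt.OW.hk k) (2 * (B * (k : ℝ) ^ ((3 : ℝ) / 4)) + 7)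
    (by positivity) hnn hle (fun w z hw hwz => by
      have h2 := MP_2dba45_nt.Sv.mt_psum (fun n => if n.Prime ∧ chi k n = 1 then (2 : ℝ) else 0)
        (B * (k : ℝ) ^ ((3 : ℝ) / 4)) hCk (fun N hN => hB k (by omega) (by omega) N hN) w z hw hwz
      rw [Finset.sum_filter]
      convert h2 using 3
      refine Finset.sum_congr rfl fun n _ => ?_
      unfold Pool.Agent.Work.MP_73869e_nt.OW.hk
      by_cases hn : n.Prime
      · by_cases hc : chi k n = 1 <;> simp [hn, hc]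
      · simp [hn]) w x hw2 hwx
  refine h1.trans (le_trans ?_ hev)
  have hlogw : δ * Real.log N ≤ Real.log w := by
    have h3 : Real.log ((N : ℝ) ^ δ) ≤ Real.log w := Real.log_le_log (by linarith) hw
    rwa [Real.log_rpow (by positivity)] at h3
  have hLpos : 0 < δ * Real.log N := by positivity
  have h4 : (2 * (B * (k : ℝ) ^ ((3 : ℝ) / 4)) + 7 + 6) ≤
      2 * B * C ^ ((3 : ℝ) / 4) * Real.log N ^ ((3 : ℝ) / 4) + 13 := by
    have := mul_le_mul_of_nonneg_left hkpow hB0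
    nlinarith
  calc (2 * (B * (k : ℝ) ^ ((3 : ℝ) / 4)) + 7 + 6) / Real.log w
      ≤ (2 * (B * (k : ℝ) ^ ((3 : ℝ) / 4)) + 7 + 6) / (δ * Real.log N) := by
        apply div_le_div_of_nonneg_left (by positivity) hLpos hlogw
    _ ≤ _ := by
        apply div_le_div_of_nonneg_right h4 hLpos.le

end Pool.Agent.Work.MP_73869e_nt.OW
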