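import Mathlib
import Pool.Agent.Work.MP_73869e_nt.OW.Defs
import Pool.Agent.Work.MP_2dba45_nt.Sv.Mert2

set_option autoImplicit false

/-!
Module MertLipU (size S-M, a port of P5/GMert.lean). Same proofs with the error C/(δ log N) of gm_mass, gm_piece replaced
by η (hypothesis DimU: the law is only needed for N^δ ≤ w ≤ x ≤ N). m pieces with 4 Λ |log δ| ≤ ε m; take
η := ε/(2 (Λ + m B + 1)) (so m (Λ/m + B) η ≤ ε/2), N₀ with 2 ≤ N^δ. mass_u: η := 1.
-/

namespace Pool.Agent.Work.MP_73869e_nt.OW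

open Finset Pool.Agent.Work.MP_2dba45_nt.Sv

theorem DimU.mono {h : ℕ → ℝ} {N : ℕ} {δ η η' : ℝ} (hh : DimU h N δ η) (hη : η ≤ η') :
    DimU h N δ η' :=
  ⟨hh.nn, hh.le, fun w x h1 h2 h3 => (hh.law w x h1 h2 h3).trans hη⟩

private theorem gm_mass {h : ℕ → ℝ} {N : ℕ} {δ E : ℝ} (hh : DimU h N δ E)
    (hN : 2 ≤ N) (s t : ℝ) (hδ : 0 < δ) (hs : δ ≤ s) (hst : s ≤ t) (ht : t ≤ 1) :
    |∑ p ∈ (Ico ⌈(N : ℝ) ^ s⌉₊ ⌈(N : ℝ) ^ t⌉₊).filter Nat.Prime, h p - Real.log (t / s)|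
      ≤ E := by
  have hN1 : (1 : ℝ) < N := by exact_mod_cast (by omega : 1 < N)
  have hN0 : (0 : ℝ) < N := by linarith
  have hl : 0 < Real.log N := Real.log_pos hN1
  have h3 : (N : ℝ) ^ s ≤ (N : ℝ) ^ t := Real.rpow_le_rpow_of_exponent_le hN1.le hst
  have h1 : (N : ℝ) ^ δ ≤ (N : ℝ) ^ s := Real.rpow_le_rpow_of_exponent_le hN1.le hs
  have h2 : (N : ℝ) ^ t ≤ N := by
    calc (N : ℝ) ^ t ≤ (N : ℝ) ^ (1 : ℝ) := Real.rpow_le_rpow_of_exponent_le hN1.le ht
      _ = N := Real.rpow_one _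
  have h4 := hh.law _ _ h1 h3 h2
  rw [Real.log_rpow hN0, Real.log_rpow hN0] at h4
  have hs0 : 0 < s := lt_of_lt_of_le hδ hs
  have ht0 : 0 < t := lt_of_lt_of_le hs0 hst
  rw [Real.log_mul ht0.ne' hl.ne', Real.log_mul hs0.ne' hl.ne'] at h4
  rw [Real.log_div ht0.ne' hs0.ne']
  have h5 : Real.log t + Real.log (Real.log N) - (Real.log s + Real.log (Real.log N))
      = Real.log t - Real.log s := by ring
  rw [h5] at h4
  exact h4

private theorem gm_piece {h : ℕ → ℝ} {N : ℕ} {δ E : ℝ} (hh : DimU h N δ E) (hE0 : 0 ≤ E)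
    (hN : 2 ≤ N) (s t B Λ r : ℝ) (hδ : 0 < δ) (hs : δ ≤ s) (hst : s ≤ t) (ht : t ≤ 1)
    (hB : 0 ≤ B) (hΛ : 0 ≤ Λ) (hr : t - s ≤ r) (φ : ℝ → ℝ)
    (hhB : ∀ v ∈ Set.Icc s t, |φ v| ≤ B)
    (hhL : ∀ v ∈ Set.Icc s t, ∀ w ∈ Set.Icc s t, |φ v - φ w| ≤ Λ * |v - w|) :
    |∑ p ∈ mtS N s t, h p * φ (Real.log p / Real.log N) - ∫ v in s..t, φ v / v|
      ≤ 2 * Λ * r * Real.log (t / s) + (Λ * r + B) * E := by
  classical
  have hN1 : (1 : ℝ) < N := by exact_mod_cast (by omega : 1 < N)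
  have hl : 0 < Real.log N := Real.log_pos hN1
  have hs0 : 0 < s := lt_of_lt_of_le hδ hs
  have ht0 : 0 < t := lt_of_lt_of_le hs0 hst
  have hr0 : 0 ≤ r := le_trans (by linarith) hr
  have hnn := hh.nn
  have hmass := gm_mass hh hN s t hδ hs hst ht
  rw [← mtS_eq N hN s t ht] at hmass
  have hlog0 : 0 ≤ Real.log (t / s) := Real.log_nonneg (by rw [le_div_iff₀ hs0]; linarith)
  set M := ∑ p ∈ mtS N s t, h p with hM
  have hMle : M ≤ Real.log (t / s) + E := by
    have := (abs_le.1 hmass).2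
    linarith
  have hs_mem : s ∈ Set.Icc s t := ⟨le_rfl, hst⟩
  -- the sum against the value at `s`
  have e1 : |∑ p ∈ mtS N s t, h p * φ (Real.log p / Real.log N) - φ s * M| ≤ Λ * r * M := by
    rw [hM, Finset.mul_sum, Finset.mul_sum, ← Finset.sum_sub_distrib]
    refine (Finset.abs_sum_le_sum_abs _ _).trans (Finset.sum_le_sum fun p hp => ?_)
    have hp' := hp
    unfold mtS at hp'
    rw [Finset.mem_filter] at hp'
    have hmem : Real.log p / Real.log N ∈ Set.Icc s t := ⟨hp'.2.2.1, hp'.2.2.2.le⟩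
    have e2 : h p * φ (Real.log p / Real.log N) - φ s * h p
        = h p * (φ (Real.log p / Real.log N) - φ s) := by ring
    rw [e2, abs_mul, abs_of_nonneg (hnn p), mul_comm]
    refine mul_le_mul_of_nonneg_right ?_ (hnn p)
    refine (hhL _ hmem _ hs_mem).trans (mul_le_mul_of_nonneg_left ?_ hΛ)
    rw [abs_of_nonneg (by linarith [hmem.1])]
    linarith [hmem.2]
  have e3 : |φ s * M - φ s * Real.log (t / s)| ≤ B * E := by
    rw [← mul_sub, abs_mul]
    exact mul_le_mul (hhB s hs_mem) hmass (abs_nonneg _) hB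
  have hint1 : ∫ v in s..t, v⁻¹ = Real.log (t / s) := integral_inv_of_pos hs0 ht0
  have hci : IntervalIntegrable (fun v : ℝ => v⁻¹) MeasureTheory.volume s t :=
    intervalIntegral.intervalIntegrable_inv (fun x hx => by
      rw [Set.uIcc_of_le hst] at hx
      exact (lt_of_lt_of_le hs0 hx.1).ne') continuousOn_id
  have hch : IntervalIntegrable (fun v : ℝ => φ v / v) MeasureTheory.volume s t := by
    refine ContinuousOn.intervalIntegrable ?_
    rw [Set.uIcc_of_le hst]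
    exact mt_cont hs0 hhL
  have e4 : |φ s * Real.log (t / s) - ∫ v in s..t, φ v / v| ≤ Λ * r * Real.log (t / s) := by
    rw [← hint1, ← intervalIntegral.integral_const_mul, ← intervalIntegral.integral_sub
      (hci.const_mul _) hch, ← intervalIntegral.integral_const_mul, ← Real.norm_eq_abs]
    refine intervalIntegral.norm_integral_le_of_norm_le hst ?_ (hci.const_mul _)
    refine Filter.Eventually.of_forall fun v hv => ?_
    have hv0 : 0 < v := lt_trans hs0 hv.1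
    have hvm : v ∈ Set.Icc s t := ⟨hv.1.le, hv.2⟩
    have e5 : φ s * v⁻¹ - φ v / v = (φ s - φ v) * v⁻¹ := by
      rw [div_eq_mul_inv]; ring
    rw [e5, Real.norm_eq_abs, abs_mul, abs_of_pos (inv_pos.2 hv0)]
    refine mul_le_mul_of_nonneg_right ?_ (inv_pos.2 hv0).le
    refine (hhL _ hs_mem _ hvm).trans (mul_le_mul_of_nonneg_left ?_ hΛ)
    rw [abs_of_nonpos (by linarith [hvm.1])]
    linarith [hvm.2]
  have e6 : Λ * r * M ≤ Λ * r * (Real.log (t / s) + E) :=
    mul_le_mul_of_nonneg_left hMle (by positivity)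
  have e7 : ∑ p ∈ mtS N s t, h p * φ (Real.log p / Real.log N) - ∫ v in s..t, φ v / v
      = (∑ p ∈ mtS N s t, h p * φ (Real.log p / Real.log N) - φ s * M)
        + (φ s * M - φ s * Real.log (t / s))
        + (φ s * Real.log (t / s) - ∫ v in s..t, φ v / v) := by ring
  rw [e7]
  refine (abs_add_le _ _).trans ?_
  have e8 := abs_add_le (∑ p ∈ mtS N s t, h p * φ (Real.log p / Real.log N) - φ s * M)
    (φ s * M - φ s * Real.log (t / s))
  nlinarith

theorem mert_lip_u (δ B Λ ε : ℝ) (hδ : 0 < δ) (hB : 0 ≤ B) (hΛ : 0 ≤ Λ) (hε : 0 < ε) :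
    ∃ η : ℝ, 0 < η ∧ ∃ N₀ : ℕ, ∀ N : ℕ, N₀ ≤ N → ∀ h : ℕ → ℝ, DimU h N δ η →
      ∀ v₁ v₂ : ℝ, δ ≤ v₁ → v₁ ≤ v₂ → v₂ ≤ 1 → ∀ φ : ℝ → ℝ,
      (∀ v ∈ Set.Icc v₁ v₂, |φ v| ≤ B) →
      (∀ v ∈ Set.Icc v₁ v₂, ∀ w ∈ Set.Icc v₁ v₂, |φ v - φ w| ≤ Λ * |v - w|) →
      |∑ p ∈ (range N).filter (fun p : ℕ => p.Prime ∧ v₁ ≤ Real.log p / Real.log N ∧
          Real.log p / Real.log N < v₂), h p * φ (Real.log p / Real.log N) -
        ∫ v in v₁..v₂, φ v / v| ≤ ε := by
  -- number of pieces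
  obtain ⟨m, hm⟩ := exists_nat_gt (4 * Λ * |Real.log δ| / ε)
  have hlogd : 0 ≤ |Real.log δ| := abs_nonneg _
  have hm0 : (0 : ℝ) < m := lt_of_le_of_lt (by positivity) hm
  have hmne : m ≠ 0 := by rintro rfl; simp at hm0
  have hm1 : 4 * Λ * |Real.log δ| ≤ ε * m := by
    rw [div_lt_iff₀ hε] at hm
    linarith
  have hDpos : 0 < Λ + m * B + 1 := by positivity
  obtain ⟨η, hη⟩ : ∃ η : ℝ, η = ε / (2 * (Λ + m * B + 1)) := ⟨_, rfl⟩
  have hηpos : 0 < η := by rw [hη]; positivity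
  have hη2 : (Λ + m * B + 1) * η = ε / 2 := by
    rw [hη]
    field_simp
  refine ⟨η, hηpos, 2, fun N hN2 h hh v₁ v₂ h1 h12 h21 φ hhB hhL => ?_⟩
  set r := (v₂ - v₁) / m with hr
  have hr0 : 0 ≤ r := div_nonneg (by linarith) hm0.le
  have hr1 : r ≤ 1 / m := by
    rw [hr]
    exact div_le_div_of_nonneg_right (by linarith) hm0.le
  have hmr : m * r = v₂ - v₁ := by rw [hr]; field_simp
  have hv1 : 0 < v₁ := lt_of_lt_of_le hδ h1
  have key : ∀ j : ℕ, j ≤ m → |∑ p ∈ mtS N v₁ (v₁ + j * r), h p * φ (Real.log p / Real.log N)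
      - ∫ v in v₁..(v₁ + j * r), φ v / v|
      ≤ 2 * Λ * (1 / m) * Real.log ((v₁ + j * r) / v₁)
        + j * ((Λ * (1 / m) + B) * η) := by
    intro j
    induction j with
    | zero =>
      intro _
      simp [mtS_self, hv1.ne']
    | succ j ih =>
      intro hj
      have ih' := ih (by omega)
      have hjm : ((j + 1 : ℕ) : ℝ) ≤ m := by exact_mod_cast hj
      set s := v₁ + (j : ℝ) * r with hs
      set t := v₁ + ((j + 1 : ℕ) : ℝ) * r with ht
      have hst : t - s = r := by rw [hs, ht]; push_cast; ring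
      have hv1s : v₁ ≤ s := by rw [hs]; nlinarith [mul_nonneg (Nat.cast_nonneg (α := ℝ) j) hr0]
      have hsle : s ≤ t := by linarith
      have htv2 : t ≤ v₂ := by
        rw [ht]
        have := mul_le_mul_of_nonneg_right hjm hr0
        linarith
      have hs0 : 0 < s := lt_of_lt_of_le hv1 hv1s
      have hp := gm_piece hh hηpos.le hN2 s t B Λ (1 / m) hδ (h1.trans hv1s) hsle
        (htv2.trans h21) hB hΛ (by linarith) φ
        (fun v hv => hhB v ⟨hv1s.trans hv.1, hv.2.trans htv2⟩)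
        (fun v hv w hw => hhL v ⟨hv1s.trans hv.1, hv.2.trans htv2⟩ w
          ⟨hv1s.trans hw.1, hw.2.trans htv2⟩)
      rw [mtS_add N v₁ s t hv1s hsle]
      have hcont := mt_cont (h := φ) (Λ := Λ) (a := v₁) (b := v₂) hv1 hhL
      have hi1 : IntervalIntegrable (fun v => φ v / v) MeasureTheory.volume v₁ s := by
        refine ContinuousOn.intervalIntegrable ?_
        rw [Set.uIcc_of_le hv1s]
        exact hcont.mono (Set.Icc_subset_Icc le_rfl (hsle.trans htv2))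
      have hi2 : IntervalIntegrable (fun v => φ v / v) MeasureTheory.volume s t := by
        refine ContinuousOn.intervalIntegrable ?_
        rw [Set.uIcc_of_le hsle]
        exact hcont.mono (Set.Icc_subset_Icc hv1s htv2)
      rw [← intervalIntegral.integral_add_adjacent_intervals hi1 hi2]
      have hlog : Real.log (t / v₁) = Real.log (s / v₁) + Real.log (t / s) := by
        rw [← Real.log_mul (by positivity) (by have : 0 < t := by linarith
                                               positivity)]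
        congr 1
        field_simp
      rw [hlog]
      have e1 : ∑ p ∈ mtS N v₁ s, h p * φ (Real.log p / Real.log N)
          + ∑ p ∈ mtS N s t, h p * φ (Real.log p / Real.log N)
          - ((∫ v in v₁..s, φ v / v) + ∫ v in s..t, φ v / v)
          = (∑ p ∈ mtS N v₁ s, h p * φ (Real.log p / Real.log N) - ∫ v in v₁..s, φ v / v)
            + (∑ p ∈ mtS N s t, h p * φ (Real.log p / Real.log N) - ∫ v in s..t, φ v / v) := by
        ring
      rw [e1]
      refine (abs_add_le _ _).trans ?_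
      push_cast
      nlinarith
  have hfin := key m le_rfl
  have hv2 : v₁ + m * r = v₂ := by rw [hmr]; ring
  rw [hv2] at hfin
  have hsum : ∑ p ∈ (range N).filter (fun p : ℕ => p.Prime ∧ v₁ ≤ Real.log p / Real.log N ∧
          Real.log p / Real.log N < v₂), h p * φ (Real.log p / Real.log N)
      = ∑ p ∈ mtS N v₁ v₂, h p * φ (Real.log p / Real.log N) := by
    unfold mtS
    refine Finset.sum_congr ?_ fun _ _ => rfl
    ext p
    simp only [Finset.mem_filter]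
  rw [hsum]
  refine hfin.trans ?_
  have hlogle : Real.log (v₂ / v₁) ≤ |Real.log δ| := by
    have h3 : v₂ / v₁ ≤ 1 / δ := by
      rw [div_le_div_iff₀ hv1 hδ]
      nlinarith
    have h4 := Real.log_le_log (div_pos (by linarith) hv1) h3
    rw [one_div, Real.log_inv] at h4
    exact h4.trans (neg_le_abs _)
  have e1 : 2 * Λ * (1 / m) * Real.log (v₂ / v₁) ≤ ε / 2 := by
    calc 2 * Λ * (1 / m) * Real.log (v₂ / v₁) ≤ 2 * Λ * (1 / m) * |Real.log δ| := by gcongr
      _ = (4 * Λ * |Real.log δ|) / m / 2 := by ring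
      _ ≤ (ε * m) / m / 2 := by gcongr
      _ = ε / 2 := by field_simp
  have e2 : (m : ℝ) * ((Λ * (1 / m) + B) * η) ≤ ε / 2 := by
    have h5 : (m : ℝ) * ((Λ * (1 / m) + B) * η) = (Λ + m * B) * η := by
      field_simp
    rw [h5]
    nlinarith
  linarith

theorem mass_u (δ : ℝ) (hδ : 0 < δ) (hδ1 : δ ≤ 1) : ∃ N₀ : ℕ, ∀ N : ℕ, N₀ ≤ N →
    ∀ h : ℕ → ℝ, DimU h N δ 1 → ∑ p ∈ PQ (pw N δ) N, h p ≤ Real.log (1 / δ) + 1 := by
  refine ⟨2, fun N hN2 h hh => ?_⟩
  have h3 := gm_mass hh hN2 δ 1 hδ le_rfl hδ1 le_rfl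
  rw [Real.rpow_one, Nat.ceil_natCast] at h3
  have h4 : PQ (pw N δ) N = (Ico ⌈(N : ℝ) ^ δ⌉₊ N).filter Nat.Prime := rfl
  rw [h4]
  linarith [(abs_le.1 h3).2]

end Pool.Agent.Work.MP_73869e_nt.OW
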