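import Mathlib
import Pool.Agent.Work.MP_73869e_nt.OW.IndU
import Pool.Agent.Work.MP_73869e_nt.P5.GNum
import Pool.Agent.Work.MP_2dba45_nt.Sv.MainW

set_option autoImplicit false

/-!
Module MainWU (size M-L by length, a straight port of P5/GMainW.lean). Replace Dim1 h → ∃ N₀ ∀ N by
∃ η > 0, ∃ N₀, ∀ N ≥ N₀, ∀ h, DimU h N δ η (main_ind_g -> main_ind_u, mert_lip_g -> mert_lip_u, mass_g -> mass_u, with the
minimum of the η's and 1, DimU.mono).
-/

namespace Pool.Agent.Work.MP_73869e_nt.OW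

open Finset Pool.Agent.Work.MP_2dba45_nt.Sv
open Pool.Agent.Work.MP_2dba45_nt.Sel (gg)
open Pool.Agent.Work.MP_73869e_nt.P5 (zE yE lam5 wt5 num_ineq5)

private theorem mw5_insert (h : ℕ → ℝ) (P : Finset ℕ) (a : ℕ → ℕ) (par : Bool) (z : ℕ) (L : ℤ) (p : ℕ) (hp : z ≤ p) :
    SS P a par z L (fun T => (gg h) (insert p T)) = h p * SS P a par z L (gg h) := by
  rw [← mw_SS_smul]
  refine SS_congr P a par z L _ _ fun T hT => ?_
  have hnot : p ∉ T := by
    intro h
    have := hT h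
    rw [Finset.mem_filter] at this
    omega
  unfold gg
  rw [Finset.prod_insert hnot]

private theorem mw5_weight (N k p : ℕ) (hk : 1 ≤ k) :
    wt5 k (cost (1000 * k) N p) ≤ (1 - Real.log p / Real.log N / yE) + 1 / (450 * k) ∧
      wt5 k (cost (1000 * k) N p) ≤ 1 := by
  have hk0 : (0 : ℝ) < k := by exact_mod_cast hk
  unfold wt5 cost
  have h1 := Nat.lt_floor_add_one (((1000 * k : ℕ) : ℝ) * (Real.log p / Real.log N))
  push_cast at h1 ⊢
  constructor
  · have h2 : (1000 * (k : ℝ) * (Real.log p / Real.log N) - 1) / (450 * k)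
        ≤ ((⌊1000 * (k : ℝ) * (Real.log p / Real.log N)⌋₊ : ℝ) + 1 - 1) / (450 * k) := by
      apply div_le_div_of_nonneg_right _ (by positivity)
      linarith
    have h3 : (1000 * (k : ℝ) * (Real.log p / Real.log N) - 1) / (450 * k)
        = Real.log p / Real.log N / yE - 1 / (450 * k) := by
      unfold yE
      field_simp
      ring
    linarith
  · have h4 : 0 ≤ ((⌊1000 * (k : ℝ) * (Real.log p / Real.log N)⌋₊ : ℝ) + 1 - 1) / (450 * k) := by
      apply div_nonneg _ (by positivity)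
      simp
    linarith

private theorem mw5_filter (N : ℕ) (hN : 2 ≤ N) (δ : ℝ) (hδ : δ ≤ zE) :
    (PQ (pw N δ) N).filter (fun p => pw N zE ≤ p ∧ p < pw N yE)
      = (range N).filter (fun p : ℕ => p.Prime ∧ zE ≤ Real.log p / Real.log N ∧
          Real.log p / Real.log N < yE) := by
  ext p
  unfold PQ
  simp only [Finset.mem_filter, Finset.mem_Ico, Finset.mem_range]
  constructor
  · rintro ⟨⟨⟨_, h2⟩, h3⟩, h4, h5⟩
    refine ⟨h2, h3, ?_, (lt_pw_iff_log N p yE hN h3.pos).1 h5⟩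
    by_contra hcon
    push Not at hcon
    have := (lt_pw_iff_log N p zE hN h3.pos).2 hcon
    omega
  · rintro ⟨h1, h2, h3, h4⟩
    refine ⟨⟨⟨?_, h1⟩, h2⟩, ?_, (lt_pw_iff_log N p yE hN h2.pos).2 h4⟩
    · by_contra hcon
      push Not at hcon
      have := (lt_pw_iff_log N p δ hN h2.pos).1 hcon
      linarith
    · by_contra hcon
      push Not at hcon
      have := (lt_pw_iff_log N p zE hN h2.pos).1 hcon
      linarith

private theorem mw5_lip {F f : ℝ → ℝ} (h : DDE F f) {C : ℝ} (hC0 : 0 ≤ C)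
    (hC : ∀ s t : ℝ, 1 / 20 ≤ s → 1 / 20 ≤ t → |F s - F t| ≤ C * |s - t|) (v w : ℝ)
    (hv : v ∈ Set.Icc zE yE) (hw : w ∈ Set.Icc zE yE) :
    |(1 - v / yE) * F ((99 / 200 - v) / zE) - (1 - w / yE) * F ((99 / 200 - w) / zE)|
      ≤ (50 + C * 6) * |v - w| := by
  have hz : zE = 19 / 100 := rfl
  have hy : yE = 9 / 20 := rfl
  rw [hz, hy] at hv hw ⊢
  obtain ⟨hv1, hv2⟩ := hv
  obtain ⟨hw1, hw2⟩ := hw
  have e1 : 1 / 20 ≤ (99 / 200 - v) / (19 / 100) := by
    rw [le_div_iff₀ (by norm_num)]; linarith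
  have e2 : 1 / 20 ≤ (99 / 200 - w) / (19 / 100) := by
    rw [le_div_iff₀ (by norm_num)]; linarith
  have e3 := hC _ _ e1 e2
  have e4 := mw_F_le h e1
  have e5 := mw_F_nonneg h (lt_of_lt_of_le (by norm_num) e1)
  have e6 : (99 / 200 - v) / (19 / 100) - (99 / 200 - w) / (19 / 100) = (w - v) * (100 / 19) := by
    ring
  rw [e6, abs_mul, abs_sub_comm w v, abs_of_pos (by norm_num : (0 : ℝ) < 100 / 19)] at e3
  have e7 : (1 - v / (9 / 20)) * F ((99 / 200 - v) / (19 / 100))
      - (1 - w / (9 / 20)) * F ((99 / 200 - w) / (19 / 100))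
      = (w - v) * (20 / 9) * F ((99 / 200 - v) / (19 / 100))
        + (1 - w / (9 / 20)) * (F ((99 / 200 - v) / (19 / 100))
          - F ((99 / 200 - w) / (19 / 100))) := by ring
  rw [e7]
  refine (abs_add_le _ _).trans ?_
  rw [abs_mul, abs_mul, abs_mul, abs_sub_comm w v, abs_of_nonneg e5,
    abs_of_pos (by norm_num : (0 : ℝ) < 20 / 9)]
  have e8 : |1 - w / (9 / 20)| ≤ 1 := by
    rw [abs_le]
    constructor
    · have : w / (9 / 20) ≤ 1 := by rw [div_le_one (by norm_num)]; exact hw2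
      linarith
    · have : 0 ≤ w / (9 / 20) := div_nonneg (by linarith) (by norm_num)
      linarith
  have e9 : |v - w| * (20 / 9) * F ((99 / 200 - v) / (19 / 100)) ≤ 45 * |v - w| := by
    have := abs_nonneg (v - w)
    calc |v - w| * (20 / 9) * F ((99 / 200 - v) / (19 / 100))
        ≤ |v - w| * (20 / 9) * 20 := by gcongr
      _ ≤ 45 * |v - w| := by nlinarith
  have e10 : |1 - w / (9 / 20)| * |F ((99 / 200 - v) / (19 / 100))
      - F ((99 / 200 - w) / (19 / 100))| ≤ 1 * (C * (|v - w| * (100 / 19))) := by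
    exact mul_le_mul e8 e3 (abs_nonneg _) zero_le_one
  have e11 : 0 ≤ C * |v - w| := mul_nonneg hC0 (abs_nonneg _)
  nlinarith

theorem main_W_u : ∃ c : ℝ, 0 < c ∧ ∀ δ : ℝ, 0 < δ → δ ≤ 1 / 10 → ∃ k₀ : ℕ, ∀ κ : ℕ, k₀ ≤ κ →
    ∃ η : ℝ, 0 < η ∧ ∃ N₀ : ℕ, ∀ N : ℕ, N₀ ≤ N → ∀ h : ℕ → ℝ, DimU h N δ η →
      c * δ ≤ WW (PQ (pw N δ) N) (cost (1000 * κ) N) (pw N zE) (pw N yE) (495 * κ) (wt5 κ) lam5
        (gg h) := by
  obtain ⟨F, f, hD⟩ := dde_exists
  obtain ⟨c, hc, hnum⟩ := num_ineq5 F f hD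
  obtain ⟨CF, hCF0, hCF⟩ := lip_F hD
  have hz : zE = 19 / 100 := rfl
  have hy : yE = 9 / 20 := rfl
  have hlam1 : (0 : ℝ) ≤ lam5 := by unfold lam5; norm_num
  have hlam2 : lam5 ≤ 1 := by unfold lam5; norm_num
  refine ⟨c, hc, fun δ hδ hδ1 => ?_⟩
  -- constants
  set Gam := Real.log (1 / δ) + 1 with hGam
  have hGam0 : 0 ≤ Gam := by
    have : 0 ≤ Real.log (1 / δ) := Real.log_nonneg (by rw [le_div_iff₀ hδ]; linarith)
    linarith
  set A := 1 / f (2 / δ) with hA
  have h2d : 3 ≤ 2 / δ := by rw [le_div_iff₀ hδ]; linarith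
  have hf1 : 1 / 5 ≤ f (2 / δ) := f_pos hD _ h2d
  have hf2 : f (2 / δ) ≤ 1 / 3 := by
    have h1 := hD.fF (2 / δ) (by linarith)
    have h2 : F (2 / δ) ≤ F 3 :=
      hD.Fanti (show (0 : ℝ) < 3 by norm_num) (show (0 : ℝ) < 2 / δ by linarith) h2d
    rw [hD.F3 3 (by norm_num) le_rfl] at h2
    linarith
  have hf0 : 0 < f (2 / δ) := by linarith
  have hA3 : 3 ≤ A := by
    rw [hA, le_div_iff₀ hf0]; linarith
  have hA5 : A ≤ 5 := by
    rw [hA, div_le_iff₀ hf0]; linarith
  set ε := δ * c / (1 + 2 * Gam) with hε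
  have hεpos : 0 < ε := by positivity
  obtain ⟨K₀, hK₀⟩ := main_ind_u F f hD δ ε hδ hδ1 hεpos
  obtain ⟨k₁, hk₁⟩ := exists_nat_gt (50 * Gam * (20 + CF) / c)
  refine ⟨max (max K₀ k₁) 1, fun k hk => ?_⟩
  have hk1 : 1 ≤ k := (le_max_right _ _).trans hk
  have hkK : K₀ ≤ 1000 * k := by
    have : K₀ ≤ k := (le_max_left _ _).trans ((le_max_left _ _).trans hk)
    omega
  have hkk : (k₁ : ℝ) ≤ k := by
    exact_mod_cast (le_max_right K₀ k₁).trans ((le_max_left _ _).trans hk)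
  have hk0 : (0 : ℝ) < k := by exact_mod_cast hk1
  have hksmall : 50 * Gam * ((20 + CF) / k) ≤ c := by
    rw [div_lt_iff₀ hc] at hk₁
    rw [← mul_div_assoc, div_le_iff₀ hk0]
    nlinarith
  obtain ⟨η₁, hη₁, N₁, hN₁'⟩ := hK₀ (1000 * k) hkK
  obtain ⟨η₂, hη₂, N₂, hN₂'⟩ := mert_lip_u δ 20 (50 + CF * 6) (c / 50) hδ
    (by norm_num) (by positivity) (by positivity)
  obtain ⟨N₃, hN₃'⟩ := mass_u δ hδ (by linarith)
  refine ⟨min (min η₁ η₂) 1, lt_min (lt_min hη₁ hη₂) one_pos, max (max N₁ N₂) (max N₃ 2),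
    fun N hN h hh => ?_⟩
  have hh1 : DimU h N δ η₁ := hh.mono ((min_le_left _ _).trans (min_le_left _ _))
  have hh2 : DimU h N δ η₂ := hh.mono ((min_le_left _ _).trans (min_le_right _ _))
  have hh3 : DimU h N δ 1 := hh.mono (min_le_right _ _)
  have hNN1 : N₁ ≤ N := (le_max_left _ _).trans ((le_max_left _ _).trans hN)
  have hNN2 : N₂ ≤ N := (le_max_right _ _).trans ((le_max_left _ _).trans hN)
  have hNN3 : N₃ ≤ N := (le_max_left _ _).trans ((le_max_right _ _).trans hN)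
  have hNN4 : 2 ≤ N := (le_max_right _ _).trans ((le_max_right _ _).trans hN)
  set P := PQ (pw N δ) N with hP
  have hPmem : ∀ p, p ∈ P ↔ (pw N δ ≤ p ∧ p < N) ∧ p.Prime := by
    intro p
    rw [hP]
    unfold PQ
    rw [Finset.mem_filter, Finset.mem_Ico]
  have hmass : ∑ p ∈ P, h p ≤ Gam := hN₃' N hNN3 h hh3
  have hN₁ := hN₁' N hNN1 h hh1
  set z := pw N zE with hzdef
  set y := pw N yE with hydef
  have hziff : ∀ p ∈ P, (p < z ↔ Real.log p / Real.log N < zE) := fun p hp =>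
    lt_pw_iff_log N p zE hNN4 ((hPmem p).1 hp).2.pos
  -- integral quantity
  set Int := ∫ v in zE..yE, (1 - v / yE) * F ((99 / 200 - v) / zE) / v with hInt
  -- the lower bound for the first term
  have hLK : (((495 * k : ℕ) : ℝ)) / ((1000 * k : ℕ) : ℝ) = 99 / 200 := by
    push_cast
    field_simp
    norm_num
  have hfirst := (hN₁ (495 * k) (by omega) (by omega) z zE (by rw [hz]; linarith)
    (by rw [hz]; norm_num) hziff).2 (by rw [hLK, hz]; norm_num)
  rw [hLK] at hfirst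
  -- the second term
  set S := P.filter (fun p => z ≤ p ∧ p < y) with hS
  have hSm : ∀ p ∈ S, p ∈ P ∧ z ≤ p ∧ p < y := fun p hp => by
    rw [hS, Finset.mem_filter] at hp; exact hp
  have hyc : yE = ((450 * k : ℕ) : ℝ) / ((1000 * k : ℕ) : ℝ) := by
    rw [hy]
    push_cast
    field_simp
    norm_num
  set e0 := (20 + CF) / (k : ℝ) with he0
  have he0nn : 0 ≤ e0 := by positivity
  have hterm : ∀ p ∈ S, wt5 k (cost (1000 * k) N p) *
      SS P (cost (1000 * k) N) true z ((495 * k : ℤ) - (cost (1000 * k) N p : ℤ))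
        (fun T => (gg h) (insert p T))
      ≤ h p * (A * (δ / zE) * ((1 - Real.log p / Real.log N / yE)
          * F ((99 / 200 - Real.log p / Real.log N) / zE) + e0) + ε) := by
    intro p hp
    obtain ⟨hpP, hpz, hpy⟩ := hSm p hp
    have hpp := ((hPmem p).1 hpP).2
    rw [mw5_insert h P _ true z _ p hpz]
    have hcost : cost (1000 * k) N p ≤ 450 * k := by
      refine (lt_pw_iff_cost (1000 * k) N p (450 * k) (by omega) hNN4 hpp.pos).1 ?_
      rw [← hyc]; exact hpy
    obtain ⟨L', hL'⟩ : ∃ L' : ℕ, L' + cost (1000 * k) N p = 495 * k :=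
      ⟨495 * k - cost (1000 * k) N p, by omega⟩
    have hLint : ((495 * k : ℤ) - (cost (1000 * k) N p : ℤ)) = (L' : ℤ) := by
      have : ((L' + cost (1000 * k) N p : ℕ) : ℤ) = ((495 * k : ℕ) : ℤ) := by rw [hL']
      push_cast at this
      linarith
    rw [hLint]
    have hmain := (hN₁ L' (by omega) (by omega) z zE (by rw [hz]; linarith)
      (by rw [hz]; norm_num) hziff).1
    have hclose := cost_close (1000 * k) N p (by omega) hNN4 hpp.pos
    set l := Real.log p / Real.log N with hl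
    set w := wt5 k (cost (1000 * k) N p) with hw
    have hKpos : (0 : ℝ) < ((1000 * k : ℕ) : ℝ) := by push_cast; positivity
    have hcK : (cost (1000 * k) N p : ℝ) / ((1000 * k : ℕ) : ℝ) ≤ 9 / 20 := by
      rw [← hy, hyc]
      apply div_le_div_of_nonneg_right _ hKpos.le
      exact_mod_cast hcost
    have hLr : (L' : ℝ) / ((1000 * k : ℕ) : ℝ)
        = 99 / 200 - (cost (1000 * k) N p : ℝ) / ((1000 * k : ℕ) : ℝ) := by
      have e1 : (L' : ℝ) = ((495 * k : ℕ) : ℝ) - (cost (1000 * k) N p : ℝ) := by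
        rw [← hL']; push_cast; ring
      rw [e1, sub_div, hLK]
    set cK := (cost (1000 * k) N p : ℝ) / ((1000 * k : ℕ) : ℝ) with hcKdef
    have a1 : 1 / 20 ≤ (L' : ℝ) / ((1000 * k : ℕ) : ℝ) / zE := by
      rw [hLr, hz, le_div_iff₀ (by norm_num)]
      linarith only [hcK]
    have a2 : 1 / 20 ≤ (99 / 200 - l) / zE := by
      rw [hz, le_div_iff₀ (by norm_num)]
      linarith only [hclose.1, hcK]
    have a3 := hCF _ _ a1 a2
    have a4 : |(L' : ℝ) / ((1000 * k : ℕ) : ℝ) / zE - (99 / 200 - l) / zE|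
        ≤ 1 / k := by
      rw [hLr, hz]
      have e1 : (99 / 200 - cK) / (19 / 100) - (99 / 200 - l) / (19 / 100)
          = -((cK - l) * (100 / 19)) := by ring
      rw [e1, abs_neg, abs_mul, abs_of_nonneg (by linarith only [hclose.1]),
        abs_of_pos (by norm_num : (0 : ℝ) < 100 / 19)]
      have e2 : cK - l ≤ 1 / ((1000 * k : ℕ) : ℝ) := by linarith only [hclose.2]
      have e3 : 1 / ((1000 * k : ℕ) : ℝ) = (1 / k) * (1 / 1000) := by push_cast; ring
      rw [e3] at e2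
      have e4 : (0 : ℝ) ≤ 1 / k := by positivity
      linarith only [e2, e4]
    have a5 : F ((L' : ℝ) / ((1000 * k : ℕ) : ℝ) / zE) ≤ F ((99 / 200 - l) / zE) + CF / k := by
      have e1 := (abs_le.1 a3).2
      have e2 : CF * |(L' : ℝ) / ((1000 * k : ℕ) : ℝ) / zE - (99 / 200 - l) / zE|
          ≤ CF * (1 / k) := mul_le_mul_of_nonneg_left a4 hCF0
      have e3 : CF * (1 / k) = CF / k := by ring
      linarith only [e1, e2, e3]
    have a6 : 0 ≤ F ((99 / 200 - l) / zE) := mw_F_nonneg hD (lt_of_lt_of_le (by norm_num) a2)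
    have a7 : F ((99 / 200 - l) / zE) ≤ 20 := mw_F_le hD a2
    obtain ⟨a8, a9⟩ := mw5_weight N k p hk1
    rw [← hl] at a8
    have a10 : 0 ≤ w := by
      rw [hw]
      unfold wt5
      have e1 : ((cost (1000 * k) N p : ℕ) : ℝ) ≤ 450 * k := by exact_mod_cast hcost
      have e2 : ((cost (1000 * k) N p : ℝ) - 1) / (450 * k) ≤ 1 := by
        rw [div_le_one (by positivity)]
        linarith only [e1]
      linarith only [e2]
    have a11 : w * F ((L' : ℝ) / ((1000 * k : ℕ) : ℝ) / zE)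
        ≤ (1 - l / yE) * F ((99 / 200 - l) / zE) + e0 := by
      have e1 : w * F ((L' : ℝ) / ((1000 * k : ℕ) : ℝ) / zE)
          ≤ w * (F ((99 / 200 - l) / zE) + CF / k) := mul_le_mul_of_nonneg_left a5 a10
      have e2 : w * F ((99 / 200 - l) / zE)
          ≤ ((1 - l / yE) + 1 / (450 * k)) * F ((99 / 200 - l) / zE) :=
        mul_le_mul_of_nonneg_right a8 a6
      have e3 : w * (CF / k) ≤ 1 * (CF / k) := mul_le_mul_of_nonneg_right a9 (by positivity)
      have e4 : 1 / (450 * (k : ℝ)) ≤ 1 / k := by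
        apply one_div_le_one_div_of_le hk0
        linarith
      have e5 : 1 / (450 * (k : ℝ)) * F ((99 / 200 - l) / zE) ≤ 1 / k * 20 :=
        mul_le_mul e4 a7 a6 (by positivity)
      have e6 : e0 = 1 / k * 20 + CF / k := by rw [he0]; ring
      rw [e6]
      linarith only [e1, e2, e3, e5]
    have hAd : 0 ≤ A * (δ / zE) := by rw [hz]; positivity
    have a12 : w * SS P (cost (1000 * k) N) true z (L' : ℤ) (gg h)
        ≤ A * (δ / zE) * ((1 - l / yE) * F ((99 / 200 - l) / zE) + e0) + ε := by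
      have e1 : w * SS P (cost (1000 * k) N) true z (L' : ℤ) (gg h)
          ≤ w * (A * (δ / zE) * F ((L' : ℝ) / ((1000 * k : ℕ) : ℝ) / zE) + ε) :=
        mul_le_mul_of_nonneg_left hmain a10
      have e2 : w * ε ≤ 1 * ε := mul_le_mul_of_nonneg_right a9 hεpos.le
      have e3 := mul_le_mul_of_nonneg_left a11 hAd
      linarith only [e1, e2, e3]
    have a13 : 0 ≤ h p := hh.nn p
    calc w * (h p * SS P (cost (1000 * k) N) true z (L' : ℤ) (gg h))
        = h p * (w * SS P (cost (1000 * k) N) true z (L' : ℤ) (gg h)) := by ring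
      _ ≤ _ := mul_le_mul_of_nonneg_left a12 a13
  have hsum := Finset.sum_le_sum hterm
  have hSmass : ∑ p ∈ S, h p ≤ Gam := by
    refine (Finset.sum_le_sum_of_subset_of_nonneg (Finset.filter_subset _ _)
      fun p _ _ => hh.nn p).trans hmass
  have hSmass0 : 0 ≤ ∑ p ∈ S, h p := Finset.sum_nonneg fun p _ => hh.nn p
  have hlip := hN₂' N hNN2 h hh2 zE yE (by rw [hz]; linarith) (by rw [hz, hy]; norm_num) (by rw [hy]; norm_num)
    (fun v => (1 - v / yE) * F ((99 / 200 - v) / zE))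
    (by
      intro v hv
      rw [hz, hy] at hv
      rw [hz, hy]
      have e1 : 1 / 20 ≤ (99 / 200 - v) / (19 / 100) := by
        rw [le_div_iff₀ (by norm_num)]; linarith [hv.2]
      have e2 := mw_F_le hD e1
      have e3 := mw_F_nonneg hD (lt_of_lt_of_le (by norm_num) e1)
      have e4 : |1 - v / (9 / 20)| ≤ 1 := by
        rw [abs_le]
        constructor
        · have : v / (9 / 20) ≤ 1 := by rw [div_le_one (by norm_num)]; exact hv.2
          linarith
        · have : 0 ≤ v / (9 / 20) := div_nonneg (by linarith [hv.1]) (by norm_num)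
          linarith
      rw [abs_mul, abs_of_nonneg e3]
      calc |1 - v / (9 / 20)| * F ((99 / 200 - v) / (19 / 100)) ≤ 1 * 20 :=
            mul_le_mul e4 e2 e3 zero_le_one
        _ = 20 := one_mul _)
    (fun v hv w hw => mw5_lip hD hCF0 hCF v w hv hw)
  rw [← mw5_filter N hNN4 δ (by rw [hz]; linarith)] at hlip
  have hlip2 := (abs_le.1 hlip).2
  set Q := ∑ p ∈ S, h p * ((1 - Real.log p / Real.log N / yE)
          * F ((99 / 200 - Real.log p / Real.log N) / zE)) with hQ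
  have hQle : Q ≤ Int + c / 50 := by
    have : Q - Int ≤ c / 50 := hlip2
    linarith
  have hsum2 : ∑ p ∈ S, h p * (A * (δ / zE) * ((1 - Real.log p / Real.log N / yE)
          * F ((99 / 200 - Real.log p / Real.log N) / zE) + e0) + ε)
      = A * (δ / zE) * Q + (A * (δ / zE) * e0 + ε) * ∑ p ∈ S, h p := by
    rw [hQ, Finset.mul_sum, Finset.mul_sum, ← Finset.sum_add_distrib]
    refine Finset.sum_congr rfl fun p _ => ?_
    ring
  rw [hsum2] at hsum
  have hAd : 0 ≤ A * (δ / zE) := by rw [hz]; positivity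
  have hnum' : c ≤ f (99 / 200 / zE) - lam5 * Int := hnum
  unfold WW
  have hWW : A * (δ / zE) * f (99 / 200 / zE) - ε
      - lam5 * (A * (δ / zE) * (Int + c / 50) + (A * (δ / zE) * e0 + ε) * Gam)
      ≤ SS P (cost (1000 * k) N) false z (495 * k) (gg h)
        - lam5 * ∑ p ∈ P.filter (fun p => z ≤ p ∧ p < y), wt5 k (cost (1000 * k) N p) *
          SS P (cost (1000 * k) N) true z (495 * k - cost (1000 * k) N p)
            (fun T => (gg h) (insert p T)) := by
    have e1 : A * (δ / zE) * Q + (A * (δ / zE) * e0 + ε) * ∑ p ∈ S, h p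
        ≤ A * (δ / zE) * (Int + c / 50) + (A * (δ / zE) * e0 + ε) * Gam := by
      have e2 : A * (δ / zE) * Q ≤ A * (δ / zE) * (Int + c / 50) :=
        mul_le_mul_of_nonneg_left hQle hAd
      have e3 : (A * (δ / zE) * e0 + ε) * ∑ p ∈ S, h p
          ≤ (A * (δ / zE) * e0 + ε) * Gam :=
        mul_le_mul_of_nonneg_left hSmass (by positivity)
      linarith
    have e4 := mul_le_mul_of_nonneg_left (hsum.trans e1) hlam1
    have e5 : ((495 * k : ℕ) : ℤ) = 495 * (k : ℤ) := by push_cast; ring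
    rw [e5] at hfirst
    linarith
  refine le_trans ?_ hWW
  -- final numerics
  have e1 : A * (δ / zE) * c ≤ A * (δ / zE) * (f (99 / 200 / zE) - lam5 * Int) :=
    mul_le_mul_of_nonneg_left hnum' hAd
  have e2 : (40 / 3) * (δ * c) ≤ A * (δ / zE) * c := by
    rw [hz]
    have h0 : 0 ≤ δ * c := by positivity
    have e3 : A * (δ / (19 / 100)) * c = (100 / 19) * (A * (δ * c)) := by ring
    rw [e3]
    have e4 : 3 * (δ * c) ≤ A * (δ * c) := mul_le_mul_of_nonneg_right hA3 h0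
    linarith only [e4, h0]
  have e3 : ε * (1 + 2 * Gam) = δ * c := by
    rw [hε]
    field_simp
  have e4 : A * (δ / zE) ≤ 27 * δ := by
    rw [hz]
    have e5 : A * (δ / (19 / 100)) = (100 / 19) * (A * δ) := by ring
    rw [e5]
    have e6 : A * δ ≤ 5 * δ := mul_le_mul_of_nonneg_right hA5 hδ.le
    linarith only [e6, hδ]
  have e5 : lam5 * (A * (δ / zE) * (c / 50)) ≤ δ * c := by
    have e6 : A * (δ / zE) * (c / 50) ≤ 27 * δ * (c / 50) :=
      mul_le_mul_of_nonneg_right e4 (by positivity)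
    have e7 : 0 ≤ A * (δ / zE) * (c / 50) := by positivity
    have e8 : lam5 * (A * (δ / zE) * (c / 50)) ≤ 1 * (A * (δ / zE) * (c / 50)) :=
      mul_le_mul_of_nonneg_right hlam2 e7
    have e9 : 0 ≤ δ * c := by positivity
    linarith only [e6, e8, e9]
  have e6 : lam5 * (A * (δ / zE) * e0 * Gam) ≤ δ * c := by
    have e7 : A * (δ / zE) * (e0 * Gam) ≤ 27 * δ * (e0 * Gam) :=
      mul_le_mul_of_nonneg_right e4 (by positivity)
    have e8 : 50 * Gam * e0 ≤ c := hksmall
    have e9 : 0 ≤ A * (δ / zE) * e0 * Gam := by positivity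
    have e11 : δ * (50 * Gam * e0) ≤ δ * c := mul_le_mul_of_nonneg_left e8 hδ.le
    have e12 : lam5 * (A * (δ / zE) * e0 * Gam) ≤ 1 * (A * (δ / zE) * e0 * Gam) :=
      mul_le_mul_of_nonneg_right hlam2 e9
    have e13 : 0 ≤ δ * (e0 * Gam) := by positivity
    linarith only [e7, e11, e12, e13]
  have e7 : lam5 * (ε * Gam) ≤ ε * (2 * Gam) := by
    have e8 : 0 ≤ ε * Gam := by positivity
    have e9 : lam5 * (ε * Gam) ≤ 1 * (ε * Gam) := mul_le_mul_of_nonneg_right hlam2 e8
    linarith only [e8, e9]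
  have e8 : 0 ≤ δ * c := by positivity
  have e9 : lam5 * (A * (δ / zE) * (Int + c / 50) + (A * (δ / zE) * e0 + ε) * Gam) =
      lam5 * (A * (δ / zE)) * Int + lam5 * (A * (δ / zE) * (c / 50)) +
        lam5 * (A * (δ / zE) * e0 * Gam) + lam5 * (ε * Gam) := by ring
  have e10 : A * (δ / zE) * (f (99 / 200 / zE) - lam5 * Int) =
      A * (δ / zE) * f (99 / 200 / zE) - lam5 * (A * (δ / zE)) * Int := by ring
  rw [e10] at e1
  rw [e9]
  linarith only [e1, e2, e3, e5, e6, e7, e8]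

end Pool.Agent.Work.MP_73869e_nt.OW
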