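import Mathlib
import Pool.Agent.Work.MP_73869e_nt.OW.MainWU
import Pool.Agent.Work.MP_73869e_nt.OW.LawU
import Pool.Agent.Work.MP_73869e_nt.P5.PhB
import Pool.Agent.Work.MP_2dba45_nt.Sv.WWEq
import Pool.Agent.Work.MP_73869e_nt.AP.Beta

set_option autoImplicit false

/-!
Module WMu (size M, a port of P5/WMb.lean). With h = hk k, DimU (hk k) N δ η by law_unif for all k in (√K, K]
(N large): lower bound main_W_u; upper bound mass_u. (Psm, Pbg, PA are now defined with chi k p = 1.)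
-/

namespace Pool.Agent.Work.MP_73869e_nt.OW

open Finset Filter Pool.Agent.Work.MP_73869e_nt.AP
open Pool.Agent.Work.MP_73869e_nt.P5 (zE yE lam5 wt5 ph ML ph_le_one)

private theorem zN_lt (δ : ℝ) (hδ : 0 < δ) : ∀ᶠ N : ℕ in atTop,
    zN N < Pool.Agent.Work.MP_2dba45_nt.Sv.pw N δ := by
  filter_upwards [Beta.zN_le, Beta.ev_small 20 20 1 (δ / 2) (by positivity),
    Beta.log_tendsto.eventually_ge_atTop 3, eventually_ge_atTop 2] with N h1 h2 h3 hN
  rw [Pool.Agent.Work.MP_2dba45_nt.Sv.lt_pw_iff]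
  have hN0 : (0 : ℝ) < N := by exact_mod_cast (by omega : 0 < N)
  have hu : 0 ≤ Real.log (Real.log N) := Real.log_nonneg (by linarith)
  set u := Real.log (Real.log N)
  have h4 : 20 + 20 * u ≤ δ / 2 * Real.log N := by nlinarith
  have h5 : Real.log (zN N) < Real.log ((N : ℝ) ^ δ) := by
    rw [Real.log_rpow hN0]
    have : 0 < δ * Real.log N := mul_pos hδ (by linarith)
    linarith [h1.1]
  have h6 : (0 : ℝ) < zN N := by linarith [h1.2]
  exact (Real.log_lt_log_iff h6 (by positivity)).1 h5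

private theorem hk_nn (q p : ℕ) : 0 ≤ hk q p := by
  unfold hk
  split_ifs
  · positivity
  · exact le_refl _

private theorem gg_nn (q : ℕ) (T : Finset ℕ) : 0 ≤ Pool.Agent.Work.MP_2dba45_nt.Sel.gg (hk q) T :=
  Finset.prod_nonneg fun p _ => hk_nn q p

private theorem WM_eq (δ : ℝ) (κ N q : ℕ) (hz : zN N < Pool.Agent.Work.MP_2dba45_nt.Sv.pw N δ) :
    WM δ κ N q = ∑ T ∈ (Pool.Agent.Work.MP_2dba45_nt.Sv.PQ
      (Pool.Agent.Work.MP_2dba45_nt.Sv.pw N δ) N).powerset,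
        ph κ N T * Pool.Agent.Work.MP_2dba45_nt.Sel.gg (hk q) T := by
  classical
  have hmem : ∀ p : ℕ, p ∈ Pbg q δ N ↔ p ∈ Pool.Agent.Work.MP_2dba45_nt.Sv.PQ
      (Pool.Agent.Work.MP_2dba45_nt.Sv.pw N δ) N ∧ chi q p = 1 := by
    intro p
    unfold Pbg PA Pool.Agent.Work.MP_2dba45_nt.Sv.PQ
    simp only [Finset.mem_filter, Finset.mem_Ioo, Finset.mem_Ico]
    constructor
    · rintro ⟨⟨⟨_, h2⟩, h3, h4⟩, h5⟩
      exact ⟨⟨⟨h5, h2⟩, h3⟩, h4⟩
    · rintro ⟨⟨⟨h5, h2⟩, h3⟩, h4⟩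
      exact ⟨⟨⟨by omega, h2⟩, h3, h4⟩, h5⟩
  have hsub : Pbg q δ N ⊆ Pool.Agent.Work.MP_2dba45_nt.Sv.PQ
      (Pool.Agent.Work.MP_2dba45_nt.Sv.pw N δ) N := fun p hp => ((hmem p).1 hp).1
  have hpr : ∀ p ∈ Pool.Agent.Work.MP_2dba45_nt.Sv.PQ
      (Pool.Agent.Work.MP_2dba45_nt.Sv.pw N δ) N, p.Prime := by
    intro p hp
    unfold Pool.Agent.Work.MP_2dba45_nt.Sv.PQ at hp
    exact (Finset.mem_filter.1 hp).2
  unfold WM ML
  rw [← Finset.sum_subset (Finset.powerset_mono.2 hsub)]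
  · refine Finset.sum_congr rfl fun T hT => ?_
    congr 1
    unfold Pool.Agent.Work.MP_2dba45_nt.Sel.gg
    refine Finset.prod_congr rfl fun p hp => ?_
    have h1 := (hmem p).1 (Finset.mem_powerset.1 hT hp)
    unfold hk g
    rw [if_pos ⟨hpr p h1.1, h1.2⟩]
  · intro T hT hT'
    rw [Finset.mem_powerset] at hT hT'
    have : ∃ p ∈ T, p ∉ Pbg q δ N := by
      by_contra hcon
      push Not at hcon
      exact hT' hcon
    obtain ⟨p, hpT, hp⟩ := this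
    have h1 : hk q p = 0 := by
      unfold hk
      rw [if_neg]
      intro h2
      exact hp ((hmem p).2 ⟨hT hpT, h2.2⟩)
    unfold Pool.Agent.Work.MP_2dba45_nt.Sel.gg
    rw [Finset.prod_eq_zero hpT h1, mul_zero]

theorem WM_bounds_u : ∃ c₁ : ℝ, 0 < c₁ ∧ ∀ δ : ℝ, 0 < δ → δ ≤ 1 / 10 → ∃ k₀ : ℕ, ∀ κ : ℕ,
    k₀ ≤ κ → ∀ C : ℝ, 0 < C → ∀ᶠ N : ℕ in atTop, ∀ k ∈ Ioc (Nat.sqrt (KK C N)) (KK C N),
      c₁ * δ ≤ WM δ κ N k ∧ WM δ κ N k ≤ 3 / δ := by
  obtain ⟨c, hc, hmain⟩ := main_W_u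
  refine ⟨c, hc, fun δ hδ hδ1 => ?_⟩
  obtain ⟨k₀, hk₀⟩ := hmain δ hδ hδ1
  refine ⟨max k₀ 1, fun k hk C hC => ?_⟩
  have hk1 : 1 ≤ k := (le_max_right _ _).trans hk
  obtain ⟨η, hη, N₁, hN₁⟩ := hk₀ k ((le_max_left _ _).trans hk)
  obtain ⟨N₂, hN₂⟩ := mass_u δ hδ (by linarith)
  filter_upwards [zN_lt δ hδ, law_unif C δ (min η 1) hC hδ (lt_min hη one_pos),
    eventually_ge_atTop N₁, eventually_ge_atTop N₂,
    eventually_ge_atTop 2] with N hz hlaw h1 h2 hNN q hq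
  have hdim := hlaw q hq
  rw [WM_eq δ k N q hz]
  have hN1 : (1 : ℝ) ≤ N := by exact_mod_cast (by omega : 1 ≤ N)
  have hPprime : ∀ p ∈ Pool.Agent.Work.MP_2dba45_nt.Sv.PQ
      (Pool.Agent.Work.MP_2dba45_nt.Sv.pw N δ) N, p.Prime := by
    intro p hp
    unfold Pool.Agent.Work.MP_2dba45_nt.Sv.PQ at hp
    exact (Finset.mem_filter.1 hp).2
  constructor
  · have h := hN₁ N h1 (OW.hk q) (hdim.mono (min_le_left _ _))
    rw [Pool.Agent.Work.MP_2dba45_nt.Sv.WW_eq _ _ _ _ _ _ _ (190 * k) (450 * k)] at h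
    · exact h
    · intro p hp
      have h := Pool.Agent.Work.MP_2dba45_nt.Sv.lt_pw_iff_cost (1000 * k) N p (190 * k) (by omega)
        hNN (hPprime p hp).one_le
      rw [← h]
      have : (((190 * k : ℕ) : ℝ) / ((1000 * k : ℕ) : ℝ)) = zE := by
        have hk0 : (0 : ℝ) < k := by exact_mod_cast hk1
        unfold zE; push_cast; field_simp; norm_num
      rw [this]
    · intro p hp
      have h := Pool.Agent.Work.MP_2dba45_nt.Sv.lt_pw_iff_cost (1000 * k) N p (450 * k) (by omega)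
        hNN (hPprime p hp).one_le
      rw [← h]
      have : (((450 * k : ℕ) : ℝ) / ((1000 * k : ℕ) : ℝ)) = yE := by
        have hk0 : (0 : ℝ) < k := by exact_mod_cast hk1
        unfold yE; push_cast; field_simp; norm_num
      rw [this]
    · unfold Pool.Agent.Work.MP_2dba45_nt.Sv.pw
      apply Nat.ceil_mono
      exact Real.rpow_le_rpow_of_exponent_le hN1 (by unfold zE yE; norm_num)
  · have e1 : ∑ T ∈ (Pool.Agent.Work.MP_2dba45_nt.Sv.PQ
        (Pool.Agent.Work.MP_2dba45_nt.Sv.pw N δ) N).powerset,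
          ph k N T * Pool.Agent.Work.MP_2dba45_nt.Sel.gg (OW.hk q) T ≤
        ∑ T ∈ (Pool.Agent.Work.MP_2dba45_nt.Sv.PQ
        (Pool.Agent.Work.MP_2dba45_nt.Sv.pw N δ) N).powerset,
          Pool.Agent.Work.MP_2dba45_nt.Sel.gg (OW.hk q) T := by
      refine Finset.sum_le_sum fun T _ => ?_
      have h3 := (abs_le.1 (ph_le_one k hk1 N T)).2
      have h4 := mul_le_mul_of_nonneg_right h3 (gg_nn q T)
      rwa [one_mul] at h4
    have e2 : ∑ T ∈ (Pool.Agent.Work.MP_2dba45_nt.Sv.PQ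
        (Pool.Agent.Work.MP_2dba45_nt.Sv.pw N δ) N).powerset,
          Pool.Agent.Work.MP_2dba45_nt.Sel.gg (OW.hk q) T =
        ∏ p ∈ Pool.Agent.Work.MP_2dba45_nt.Sv.PQ
          (Pool.Agent.Work.MP_2dba45_nt.Sv.pw N δ) N, (1 + OW.hk q p) := by
      rw [Finset.prod_one_add]
      rfl
    have e3 : ∏ p ∈ Pool.Agent.Work.MP_2dba45_nt.Sv.PQ
          (Pool.Agent.Work.MP_2dba45_nt.Sv.pw N δ) N, (1 + OW.hk q p) ≤
        Real.exp (∑ p ∈ Pool.Agent.Work.MP_2dba45_nt.Sv.PQ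
          (Pool.Agent.Work.MP_2dba45_nt.Sv.pw N δ) N, OW.hk q p) := by
      rw [Real.exp_sum]
      refine Finset.prod_le_prod (fun p _ => by linarith [hk_nn q p]) fun p _ => ?_
      rw [add_comm]
      exact Real.add_one_le_exp _
    have e4 : Real.exp (∑ p ∈ Pool.Agent.Work.MP_2dba45_nt.Sv.PQ
          (Pool.Agent.Work.MP_2dba45_nt.Sv.pw N δ) N, OW.hk q p) ≤ Real.exp 1 / δ := by
      refine (Real.exp_le_exp.2 (hN₂ N h2 _ (hdim.mono (min_le_right _ _)))).trans (le_of_eq ?_)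
      rw [Real.exp_add, Real.exp_log (by positivity)]
      ring
    have e5 : Real.exp 1 / δ ≤ 3 / δ := by
      have := Real.exp_one_lt_d9
      apply div_le_div_of_nonneg_right _ hδ.le
      linarith
    rw [e2] at e1
    linarith

end Pool.Agent.Work.MP_73869e_nt.OW
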