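import Mathlib
import Pool.Agent.Work.MP_73869e_nt.OW.WMu
import Pool.Agent.Work.MP_73869e_nt.OW.EnvU
import Pool.Agent.Work.MP_73869e_nt.OW.FirstU
import Pool.Agent.Work.MP_73869e_nt.OW.SecU
import Pool.Agent.Work.MP_73869e_nt.OW.BigU
import Pool.Agent.Work.MP_73869e_nt.OW.PtU
import Pool.Agent.Work.MP_73869e_nt.P5.Abs5
import Pool.Agent.Work.MP_73869e_nt.AP.Cls2

set_option autoImplicit false

namespace Pool.Agent.Work.MP_73869e_nt.OW

open Finset Filter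
open Pool.Agent.Work.MP_73869e_nt.AP (NN ev_log_ge ev_small card_NN)
open Pool.Agent.Work.MP_73869e_nt.P5 (par5 abs5)

private theorem ev_small2 (η : ℝ) (hη : 0 < η) (Q : ℕ) (hQ : 0 < Q) : ∀ᶠ N : ℕ in atTop,
    (N : ℝ) / Real.log N ^ 2 ≤ η * ((N : ℝ) / Q) := by
  filter_upwards [ev_log_ge (max 1 (Q / η))] with N hN
  have hL1 : 1 ≤ Real.log N := (le_max_left _ _).trans hN
  have hL2 : Q / η ≤ Real.log N := (le_max_right _ _).trans hN
  have hQ0 : (0 : ℝ) < Q := by exact_mod_cast hQ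
  have hL0 : 0 < Real.log N := by linarith
  have h1 : (Q : ℝ) ≤ η * Real.log N ^ 2 := by
    have h2 : (Q : ℝ) ≤ Real.log N * η := by rwa [div_le_iff₀ hη] at hL2
    have h3 : Real.log N ≤ Real.log N ^ 2 := le_self_pow₀ hL1 (by norm_num)
    nlinarith
  rw [div_le_iff₀ (by positivity)]
  have hN0 : (0 : ℝ) ≤ N := by positivity
  calc (N : ℝ) = N / Q * Q := by field_simp
    _ ≤ N / Q * (η * Real.log N ^ 2) := by gcongr
    _ = _ := by ring

open Classical in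
theorem class_u (ε : ℝ) (hε : 0 < ε) (kk : ℕ) : ∃ (δ C : ℝ) (κ w : ℕ), 0 < δ ∧ δ ≤ 1 / 200 ∧
    0 < C ∧ 1 ≤ κ ∧ 16 ≤ w ∧ ∀ᶠ N : ℕ in atTop, ∀ a < primorial w,
      (#((NN w N a).filter (fun n => #((Fm C N (primorial w)
        (1 + (primorial w - 1) * a ^ 2)).filter (fun k => Gd δ κ w N a k n)) < kk)) : ℝ) ≤
      ε / 2 * ((N : ℝ) / primorial w) := by
  obtain ⟨c₁, hc₁, hWM⟩ := WM_bounds_u
  obtain ⟨b₀, henv⟩ := env_ev_u
  obtain ⟨C1, hC1, hpair⟩ := pair_avg_k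
  obtain ⟨C4, hC4, hsumck⟩ := sum_ck
  obtain ⟨δ, b, hδ, hδ1, hb, hlev, hexp⟩ := par5 (ε * c₁ / 192) (by positivity) b₀ (1 / 200)
    (by norm_num)
  obtain ⟨k₀, hk₀⟩ := hWM δ hδ (by linarith)
  set κ : ℕ := max k₀ 1 with hκdef
  have hκ : 1 ≤ κ := le_max_right _ _
  set m0 : ℝ := c₁ * δ with hm0def
  have hm0 : 0 < m0 := by positivity
  set ex : ℝ := Real.exp (-(b : ℝ)) with hexdef
  have hex : 0 < ex := Real.exp_pos _
  set β : ℝ := 2 * ex with hβdef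
  have hβ : 0 < β := by positivity
  have hβm : 24 * β / m0 ≤ ε / 4 := by
    rw [div_le_iff₀ hm0, hβdef, hm0def]
    nlinarith
  set η : ℝ := ε / (16 * (1 + 1 / m0) ^ 2) with hηdef
  have h1m : 0 < 1 + 1 / m0 := by positivity
  have hη : 0 < η := by positivity
  have hηm : 4 * η * (1 + 1 / m0) ^ 2 = ε / 4 := by
    rw [hηdef]
    field_simp
    ring
  set w : ℕ := max 16 ⌈3 * C1 * (3 / δ) ^ 2 / η⌉₊ with hwdef
  have hw : 16 ≤ w := le_max_left _ _
  have hw0 : (0 : ℝ) < w := by exact_mod_cast (by omega : 0 < w)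
  have hw9 : C1 / w * (3 / δ) ^ 2 ≤ η / 3 := by
    have h1 : 3 * C1 * (3 / δ) ^ 2 / η ≤ w := by
      calc 3 * C1 * (3 / δ) ^ 2 / η ≤ (⌈3 * C1 * (3 / δ) ^ 2 / η⌉₊ : ℝ) := Nat.le_ceil _
        _ ≤ w := by exact_mod_cast le_max_right _ _
    rw [div_le_iff₀ hη] at h1
    rw [div_mul_eq_mul_div, div_le_div_iff₀ hw0 (by norm_num)]
    linarith
  set Q := primorial w with hQdef
  have hQpos : 0 < Q := primorial_pos w
  have hQ0 : (0 : ℝ) < Q := by exact_mod_cast hQpos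
  set A : ℝ := (4 : ℝ) ^ (3 / δ) with hAdef
  have hA : 0 < A := by positivity
  set T : ℝ := 4 * C4 * Q / β with hTdef
  have hT : 0 < T := by positivity
  set C : ℝ := 288 * A * C4 * (Q : ℝ) ^ 2 / η + 16 * Q * kk * T / m0 with hCdef
  have hC2 : 0 ≤ 16 * Q * kk * T / m0 := by positivity
  have hC3 : 0 < 288 * A * C4 * (Q : ℝ) ^ 2 / η := by positivity
  have hC : 0 < C := by linarith
  have hCd : 288 * A * C4 * (Q : ℝ) ^ 2 ≤ η * C := by
    have h1 : 288 * A * C4 * (Q : ℝ) ^ 2 = η * (288 * A * C4 * (Q : ℝ) ^ 2 / η) := by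
      field_simp
    rw [h1]
    apply mul_le_mul_of_nonneg_left _ hη.le
    linarith
  have hCk : (kk : ℝ) * T ≤ m0 / 4 * (C / (4 * Q)) := by
    have h1 : (kk : ℝ) * T = m0 / 4 * ((16 * Q * kk * T / m0) / (4 * Q)) := by
      field_simp
      ring
    rw [h1]
    apply mul_le_mul_of_nonneg_left _ (by positivity)
    apply div_le_div_of_nonneg_right _ (by positivity)
    linarith
  refine ⟨δ, C, κ, w, hδ, hδ1, hC, hκ, hw, ?_⟩
  filter_upwards [henv b hb δ hδ, hk₀ κ (le_max_left _ _) C hC,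
    first_u_u C δ b κ w hC hδ hδ1 hlev hκ hw,
    first_t_u C δ b w hC hδ hδ1 hlev hw, first_e_u C δ b w hC hδ hδ1 hlev hw,
    sec_u_u C δ η b κ w hC hδ hδ1 hη hlev hκ hw C1 C4 hC1 hC4 (hpair w hw C hC)
      (hsumck C δ b w hC hδ hδ1 hw) hw9 hCd,
    big_k C δ T b w hC hδ hδ1 hT hw C4 hC4 (hsumck C δ b w hC hδ hδ1 hw),
    pt_u C δ b κ w hC hδ hδ1 hκ hw, ck_facts C δ b w hC hδ hδ1 hw,
    card_Fm_ge C hC Q hQpos, ev_small η hη Q hQpos,
    ev_small 1 one_pos Q hQpos, ev_small2 ex hex Q hQpos, ev_log_ge 1,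
    eventually_ge_atTop (⌈2 * (Q : ℝ) / η⌉₊ + 1)]
    with N hE hWMN hfu hft hfe hsu hbx hpt hcf hcard hs3 hs31 hs2 hlog1 hNbig
  obtain ⟨lp, dp, hEnv⟩ := hE
  intro a ha
  set bb := 1 + (Q - 1) * a ^ 2 with hbb
  set F := Fm C N Q bb with hF
  set X := (N : ℝ) / Q with hX
  have hN0 : (0 : ℝ) < N := by
    exact_mod_cast (by omega : 0 < N)
  have hX0 : 0 < X := by positivity
  have hlog0 : 0 < Real.log N := by linarith
  have hFm : ∀ x ∈ F, x ∈ Icc 1 (KK C N) := fun x hx => Fm_sub hx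
  have hFm2 : ∀ x ∈ F, x ∈ Ioc (Nat.sqrt (KK C N)) (KK C N) := fun x hx => (mem_Fm.1 hx).1
  have hcardb : C * Real.log N / (4 * Q) ≤ (#F : ℝ) := hcard bb
  have hF0 : (0 : ℝ) < #F := lt_of_lt_of_le (by positivity) hcardb
  have hNN : (#(NN w N a) : ℝ) ≤ (1 + η) * X := by
    have h5 := card_NN w N a ha
    have h6 : 2 ≤ η * X := by
      have h7 : 2 * (Q : ℝ) / η ≤ N := by
        calc 2 * (Q : ℝ) / η ≤ (⌈2 * (Q : ℝ) / η⌉₊ : ℝ) := Nat.le_ceil _
          _ ≤ N := by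
              have : ⌈2 * (Q : ℝ) / η⌉₊ ≤ N := by omega
              exact_mod_cast this
      rw [div_le_iff₀ hη] at h7
      rw [hX, mul_div_assoc', le_div_iff₀ hQ0]
      linarith
    have e : (N : ℝ) / primorial w = X := rfl
    rw [e] at h5
    linarith
  have h3 := abs5 (NN w N a) F X η m0 β (ε / 2) (T * Real.log N)
    (uu δ κ w N a lp) (ee δ w N a lp) (tt δ w N a lp) (ck δ w N lp) (fun x => WM δ κ N x)
    (fun x n => Gd δ κ w N a x n) kk hX0 (by exact_mod_cast hF0) hη.le hm0 hβ.le (by positivity)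
    hNN (fun x hx => (hWMN x (hFm2 x hx)).1) ?_ ?_ ?_ ?_ ?_ ?_ ?_ ?_ ?_ ?_ ?_ ?_
  · exact h3
  · -- first moment of u
    intro x hx
    have h4 := (abs_le.1 (hfu lp dp hEnv a ha x (hFm x hx))).1
    have e1 : (WM δ κ N x - η) * X = X * WM δ κ N x - η * X := by ring
    simp only [e1]
    linarith
  · exact hsu lp dp hEnv (fun q hq => ⟨(mul_pos hc₁ hδ).le.trans (hWMN q hq).1, (hWMN q hq).2⟩) a ha bb
  · exact fun x hx n _ => (hpt lp dp hEnv a x (hFm x hx) n).2.1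
  · intro x hx
    have h4 := hfe lp dp hEnv a ha x (hFm x hx)
    have e0 : Real.exp (-(b : ℝ)) = ex := rfl
    simp only [e0] at h4
    have e2 : β * X = X * ex + ex * X := by rw [hβdef]; ring
    rw [e2]
    linarith
  · exact fun x hx n _ => (hpt lp dp hEnv a x (hFm x hx) n).2.2.1
  · intro x hx
    have h4 := (abs_le.1 (hft lp dp hEnv a ha x (hFm x hx))).2
    linarith
  · exact fun x hx n _ => (hpt lp dp hEnv a x (hFm x hx) n).1
  · exact fun x hx n _ h => (hpt lp dp hEnv a x (hFm x hx) n).2.2.2 h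
  · intro x hx
    have h4 := (hcf lp dp hEnv x (hFm x hx)).2.2.2.2.2.1
    linarith
  · have h4 := hbx lp dp hEnv bb
    refine h4.trans (le_of_eq ?_)
    have e3 : 4 * C4 * (Q : ℝ) / T = β := by
      rw [hTdef]
      field_simp
    rw [e3]
  · -- kk T log N ≤ m0/4 #F
    calc (kk : ℝ) * (T * Real.log N) = kk * T * Real.log N := by ring
      _ ≤ m0 / 4 * (C / (4 * Q)) * Real.log N := by gcongr
      _ = m0 / 4 * (C * Real.log N / (4 * Q)) := by ring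
      _ ≤ m0 / 4 * #F := by gcongr
  · rw [hηm]
    linarith

end Pool.Agent.Work.MP_73869e_nt.OW
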