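import Mathlib
import Pool.Agent.Work.MP_73869e_nt.OW.Fmc
import Pool.Agent.Work.MP_73869e_nt.AP.SqOm

set_option autoImplicit false

/-!
Module SqU (size S-M, a port of P5/Sq5.lean; now all shifts k ≤ KK C N ≤ C log N, so p ≥ pw N zE does not divide k): the
number of n is at most C log N (4 N/N^(19/100) + 2 (N^(9/20) + 1)).
-/

namespace Pool.Agent.Work.MP_73869e_nt.OW

open Finset Filter
open Pool.Agent.Work.MP_73869e_nt.P5 (zE yE)
open Pool.Agent.Work.MP_2dba45_nt.Sv (pw)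

open Classical in
private theorem squ_gen (C α β ε : ℝ) (hC : 0 < C) (hα : 0 < α) (hβ : β < 1) (hε : 0 < ε) :
    ∀ᶠ N : ℕ in atTop,
    (#((Ioc N (2 * N)).filter (fun n => ∃ k ∈ Icc 1 (KK C N), ∃ p : ℕ, p.Prime ∧
      (N : ℝ) ^ α < p ∧ (p : ℝ) ≤ (N : ℝ) ^ β ∧ p ^ 2 ∣ n ^ 2 + k)) : ℝ) ≤ ε * N := by
  -- eventual facts
  have e1 : ∀ᶠ N : ℕ in atTop, (4 : ℝ) ≤ (N : ℝ) ^ α :=
    ((tendsto_rpow_atTop hα).comp tendsto_natCast_atTop_atTop).eventually_ge_atTop _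
  have e2 : ∀ᶠ N : ℕ in atTop, C * Real.log N / (N : ℝ) ^ α < 1 :=
    (AP.log_div_rpow_tendsto C α hα).eventually (gt_mem_nhds one_pos)
  have e3 : ∀ᶠ N : ℕ in atTop, (4 * C) * Real.log N / (N : ℝ) ^ α < ε / 2 :=
    (AP.log_div_rpow_tendsto (4 * C) α hα).eventually (gt_mem_nhds (half_pos hε))
  have e4 : ∀ᶠ N : ℕ in atTop, (2 * C) * Real.log N / (N : ℝ) ^ (1 - β) < ε / 2 :=
    (AP.log_div_rpow_tendsto (2 * C) (1 - β) (sub_pos.2 hβ)).eventually (gt_mem_nhds (half_pos hε))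
  filter_upwards [e1, e2, e3, e4, eventually_ge_atTop 3] with N h1 h2 h3 h4 hN
  have hN0 : (0 : ℝ) < N := by exact_mod_cast (by omega : 0 < N)
  have hNα : (0 : ℝ) < (N : ℝ) ^ α := Real.rpow_pos_of_pos hN0 _
  have hlog : 0 ≤ Real.log N := Real.log_natCast_nonneg N
  set A : ℕ := ⌊(N : ℝ) ^ α⌋₊ with hA
  set B : ℕ := ⌊(N : ℝ) ^ β⌋₊ with hB
  have hy0 : 0 ≤ (N : ℝ) ^ β := by positivity
  have hA1 : 1 ≤ A := by
    rw [hA]
    apply Nat.le_floor
    push_cast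
    linarith
  have hAhalf : (N : ℝ) ^ α / 2 ≤ A := by
    have := Nat.lt_floor_add_one ((N : ℝ) ^ α)
    rw [← hA] at this
    linarith
  have hJ : (KK C N : ℝ) ≤ C * Real.log N := by
    unfold KK
    exact Nat.floor_le (by positivity)
  -- cover
  have hsub : (Ioc N (2 * N)).filter (fun n => ∃ k ∈ Icc 1 (KK C N), ∃ p : ℕ, p.Prime ∧
      (N : ℝ) ^ α < p ∧ (p : ℝ) ≤ (N : ℝ) ^ β ∧ p ^ 2 ∣ n ^ 2 + k) ⊆
      (Icc 1 (KK C N)).biUnion (fun k =>
        ((Ioc A B).filter (fun p => p.Prime ∧ p ≠ 2 ∧ ¬ p ∣ k)).biUnion (fun p =>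
          (Ioc N (2 * N)).filter (fun n => p ^ 2 ∣ n ^ 2 + k))) := by
    intro n hn
    rw [Finset.mem_filter] at hn
    obtain ⟨hn1, k, hk, p, hp, hp1, hp2, hp3⟩ := hn
    simp only [Finset.mem_biUnion]
    refine ⟨k, hk, p, ?_, ?_⟩
    · rw [Finset.mem_filter, Finset.mem_Ioc]
      refine ⟨⟨(Nat.floor_lt hNα.le).2 hp1, (Nat.le_floor hp2)⟩, hp, ?_, ?_⟩
      · rintro rfl
        push_cast at hp1
        linarith
      · intro hd
        rw [Finset.mem_Icc] at hk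
        have h6 : p ≤ k := Nat.le_of_dvd (by omega) hd
        have h7 : (p : ℝ) ≤ KK C N := by exact_mod_cast h6.trans hk.2
        rw [div_lt_one hNα] at h2
        linarith
    · rw [Finset.mem_filter]
      exact ⟨hn1, hp3⟩
  have hcount : ∀ k ∈ Icc 1 (KK C N),
      ∑ p ∈ (Ioc A B).filter (fun p => p.Prime ∧ p ≠ 2 ∧ ¬ p ∣ k),
        (#((Ioc N (2 * N)).filter (fun n => p ^ 2 ∣ n ^ 2 + k)) : ℝ) ≤
      4 * N / (N : ℝ) ^ α + 2 * (N : ℝ) ^ β := by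
    intro k hk
    calc ∑ p ∈ (Ioc A B).filter (fun p => p.Prime ∧ p ≠ 2 ∧ ¬ p ∣ k),
        (#((Ioc N (2 * N)).filter (fun n => p ^ 2 ∣ n ^ 2 + k)) : ℝ)
        ≤ ∑ p ∈ (Ioc A B).filter (fun p => p.Prime ∧ p ≠ 2 ∧ ¬ p ∣ k),
          2 * ((N : ℝ) / p ^ 2 + 1) := by
          apply Finset.sum_le_sum
          intro p hp
          rw [Finset.mem_filter] at hp
          exact AP.card_sq_dvd_le N _ p hp.2.1 hp.2.2.1 hp.2.2.2
      _ ≤ ∑ p ∈ Ioc A B, 2 * ((N : ℝ) / p ^ 2 + 1) := by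
          apply Finset.sum_le_sum_of_subset_of_nonneg (Finset.filter_subset _ _)
          intros; positivity
      _ = 2 * N * ∑ p ∈ Ioc A B, (1 : ℝ) / (p : ℝ) ^ 2 + 2 * ((B - A : ℕ) : ℝ) := by
          have e5 : ∀ p ∈ Ioc A B, 2 * ((N : ℝ) / (p : ℝ) ^ 2 + 1) =
              2 * N * ((1 : ℝ) / (p : ℝ) ^ 2) + 2 := by
            intro p _
            ring
          rw [Finset.sum_congr rfl e5, Finset.sum_add_distrib, Finset.mul_sum]
          simp only [Finset.sum_const, Nat.card_Ioc, nsmul_eq_mul]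
          ring
      _ ≤ 2 * N * (1 / A) + 2 * (N : ℝ) ^ β := by
          apply add_le_add
          · exact mul_le_mul_of_nonneg_left (AP.sum_inv_sq_le A B hA1) (by positivity)
          · apply mul_le_mul_of_nonneg_left _ (by norm_num)
            calc ((B - A : ℕ) : ℝ) ≤ B := by exact_mod_cast Nat.sub_le _ _
              _ ≤ (N : ℝ) ^ β := Nat.floor_le hy0
      _ ≤ 2 * N * (2 / (N : ℝ) ^ α) + 2 * (N : ℝ) ^ β := by
          have hA0 : (0 : ℝ) < A := by exact_mod_cast (by omega : 0 < A)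
          have h6 : (1 : ℝ) / A ≤ 2 / (N : ℝ) ^ α := by
            rw [div_le_div_iff₀ hA0 hNα]
            linarith
          have h7 : 2 * (N : ℝ) * (1 / A) ≤ 2 * N * (2 / (N : ℝ) ^ α) :=
            mul_le_mul_of_nonneg_left h6 (by positivity)
          linarith
      _ = _ := by ring
  calc (#((Ioc N (2 * N)).filter (fun n => ∃ k ∈ Icc 1 (KK C N), ∃ p : ℕ, p.Prime ∧
      (N : ℝ) ^ α < p ∧ (p : ℝ) ≤ (N : ℝ) ^ β ∧ p ^ 2 ∣ n ^ 2 + k)) : ℝ)
      ≤ ∑ k ∈ Icc 1 (KK C N),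
          ∑ p ∈ (Ioc A B).filter (fun p => p.Prime ∧ p ≠ 2 ∧ ¬ p ∣ k),
          (#((Ioc N (2 * N)).filter (fun n => p ^ 2 ∣ n ^ 2 + k)) : ℝ) := by
        have := (Finset.card_le_card hsub).trans (Finset.card_biUnion_le.trans
          (Finset.sum_le_sum fun k _ => Finset.card_biUnion_le))
        exact_mod_cast this
    _ ≤ ∑ k ∈ Icc 1 (KK C N), (4 * N / (N : ℝ) ^ α + 2 * (N : ℝ) ^ β) :=
        Finset.sum_le_sum fun k hk => hcount k hk
    _ = (KK C N : ℝ) * (4 * N / (N : ℝ) ^ α + 2 * (N : ℝ) ^ β) := by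
        rw [Finset.sum_const, Nat.card_Icc, nsmul_eq_mul, Nat.add_sub_cancel]
    _ ≤ (C * Real.log N) * (4 * N / (N : ℝ) ^ α + 2 * (N : ℝ) ^ β) :=
        mul_le_mul_of_nonneg_right hJ (by positivity)
    _ = ((4 * C) * Real.log N / (N : ℝ) ^ α) * N +
        ((2 * C) * Real.log N / (N : ℝ) ^ (1 - β)) * N := by
        have : (N : ℝ) ^ β = N / (N : ℝ) ^ (1 - β) := by
          rw [eq_div_iff (Real.rpow_pos_of_pos hN0 _).ne', ← Real.rpow_add hN0]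
          norm_num
        rw [this]
        ring
    _ ≤ (ε / 2) * N + (ε / 2) * N := by gcongr
    _ = ε * N := by ring

open Classical in
theorem sq_count_u (C ε : ℝ) (hC : 0 < C) (hε : 0 < ε) : ∀ᶠ N : ℕ in atTop,
    (#((Ioc N (2 * N)).filter (fun n => ∃ k ∈ Icc 1 (KK C N), ∃ p : ℕ, p.Prime ∧
      pw N zE ≤ p ∧ p < pw N yE ∧ p ^ 2 ∣ n ^ 2 + k)) : ℝ) ≤ ε * N := by
  have hmain := squ_gen C (9 / 50) (9 / 20) ε hC (by norm_num) (by norm_num) hε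
  filter_upwards [hmain, eventually_ge_atTop 2] with N hN hN2
  refine le_trans ?_ hN
  have hN1 : (1 : ℝ) < N := by exact_mod_cast hN2
  norm_cast
  refine Finset.card_le_card fun n hn => ?_
  rw [Finset.mem_filter] at hn ⊢
  obtain ⟨hn1, k, hk, p, hp, hp1, hp2, hp3⟩ := hn
  refine ⟨hn1, k, hk, p, hp, ?_, ?_, hp3⟩
  · have h1 : (N : ℝ) ^ zE ≤ p := by
      unfold pw at hp1
      exact (Nat.le_ceil _).trans (by exact_mod_cast hp1)
    refine lt_of_lt_of_le (Real.rpow_lt_rpow_of_exponent_lt hN1 ?_) h1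
    unfold zE
    norm_num
  · unfold pw at hp2
    have h1 : (p : ℝ) < (N : ℝ) ^ yE := Nat.lt_ceil.1 hp2
    have h2 : yE = 9 / 20 := rfl
    rw [h2] at h1
    exact h1.le

end Pool.Agent.Work.MP_73869e_nt.OW
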