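import Mathlib
import Pool.Agent.Work.MP_73869e_nt.OW.ClsU
import Pool.Agent.Work.MP_73869e_nt.OW.SqU
import Pool.Agent.Work.MP_73869e_nt.P5.Om5
import Pool.Agent.Work.MP_73869e_nt.AP.Dyad

set_option autoImplicit false

/-!
Module DyU (size M, a port of P5/Dy5.lean). dyadic_u: n is exceptional only if it lies in the set of sq_count_u (ε/2) or,
with a = n % Q, in the set of class_u. Otherwise at least kk of the k in Fm satisfy Gd; k ≤ C log N ≤ log^2 N, and for
each of them every prime p ∣ n^2 + k is ≥ pw N zE: p ≤ w is impossible since n^2 + k ≡ a^2 + 1 + (Q-1) a^2 ≡ 1 mod Q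
(Q = primorial w), w < p ≤ zN N by n ∈ AA {k}, and zN N < p < pw N zE ≤ N gives chi k p = 1 (p ∤ 2k and -k ≡ n^2 mod p;
nu_chi: nu {k} p ≥ 1), so p ∈ PA k N, p ∈ Psm (Ro) or p ∈ Pbg (third part of Gd). Then om5 (with c = 1) as in Dy5.
almost_all_u: AP.from_dyadic; C log N ≤ C log n for n > N.
-/

namespace Pool.Agent.Work.MP_73869e_nt.OW

open Finset Filter
open Pool.Agent.Work.MP_73869e_nt.P5 (zE yE lam5 wt5 om5)
open Pool.Agent.Work.MP_2dba45_nt.Sv (pw)
open Pool.Agent.Work.MP_73869e_nt.AP (zN SS AA NN ev_ok ev_zN_ge from_dyadic ev_log_ge)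

/-- conclusion for `n` at scale `N` -/
def NiceU (C : ℝ) (kk N n : ℕ) : Prop :=
  kk ≤ Set.ncard {k : ℕ | 0 < k ∧ (k : ℝ) ≤ C * Real.log N ∧
    ArithmeticFunction.cardFactors (n ^ 2 + k) ≤ 5 ∧
    ∀ p : ℕ, p.Prime → p ∣ n ^ 2 + k → pw N zE ≤ p}

private theorem dyu_small (w k n p : ℕ) (hp : p.Prime) (hpw : p ≤ w)
    (hk : k % primorial w = (1 + (primorial w - 1) * (n % primorial w) ^ 2) % primorial w) :
    ¬ p ∣ n ^ 2 + k := by
  set Q := primorial w with hQ
  have hQ0 : 0 < Q := primorial_pos w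
  have hpQ : p ∣ Q := by
    rw [hQ, primorial]
    apply Finset.dvd_prod_of_mem
    rw [Finset.mem_filter, Finset.mem_range]
    exact ⟨by omega, hp⟩
  intro hd
  have h1 : n ^ 2 + k ≡ (n % Q) ^ 2 + (1 + (Q - 1) * (n % Q) ^ 2) [MOD Q] :=
    Nat.ModEq.add ((Nat.mod_modEq n Q).symm.pow 2) hk
  have h2 : (n % Q) ^ 2 + (1 + (Q - 1) * (n % Q) ^ 2) = 1 + Q * (n % Q) ^ 2 := by
    obtain ⟨Q', hQ'⟩ : ∃ Q', Q = Q' + 1 := ⟨Q - 1, by omega⟩
    rw [hQ', Nat.add_sub_cancel]
    ring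
  rw [h2] at h1
  have h3 : 1 + Q * (n % Q) ^ 2 ≡ 1 [MOD p] := by
    have h4 : Q * (n % Q) ^ 2 ≡ 0 [MOD p] :=
      (Nat.modEq_zero_iff_dvd).mpr (Dvd.dvd.mul_right hpQ _)
    exact Nat.ModEq.add_left 1 h4
  have h5 : n ^ 2 + k ≡ 1 [MOD p] := (h1.of_dvd hpQ).trans h3
  have h6 : p ∣ 1 := (h5.dvd_iff (dvd_refl p)).1 hd
  exact hp.one_lt.ne' (Nat.dvd_one.mp h6)

private theorem dyu_chi (k n p : ℕ) (hp : p.Prime) (hp2 : p ≠ 2) (hpk : ¬ p ∣ k)
    (hd : p ∣ n ^ 2 + k) : chi k p = 1 := by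
  have hodd : Odd p := hp.odd_of_ne_two hp2
  have hpn : ¬ p ∣ n := by
    intro h
    exact hpk ((Nat.dvd_add_right (Dvd.dvd.pow h (by norm_num))).1 hd)
  unfold chi
  rw [if_pos hodd]
  have h1 : (-(k : ℤ)) % (p : ℤ) = ((n : ℤ) ^ 2) % (p : ℤ) := by
    apply Int.ModEq.symm
    rw [Int.modEq_iff_dvd]
    have h2 : (p : ℤ) ∣ (n : ℤ) ^ 2 + k := by exact_mod_cast hd
    have h3 : -(k : ℤ) - (n : ℤ) ^ 2 = -((n : ℤ) ^ 2 + k) := by ring
    rw [h3]
    exact (dvd_neg).mpr h2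
  rw [jacobiSym.mod_left' h1]
  apply jacobiSym.sq_one'
  rw [Int.gcd_natCast_natCast]
  exact ((Nat.Prime.coprime_iff_not_dvd hp).2 hpn).symm

open Classical in
theorem dyadic_u (ε : ℝ) (hε : 0 < ε) (kk : ℕ) : ∃ C : ℝ, 0 < C ∧ ∀ᶠ N : ℕ in atTop,
    (#((Ioc N (2 * N)).filter (fun n => ¬ NiceU C kk N n)) : ℝ) ≤ ε * N := by
  obtain ⟨δ, C, κ, w, hδ, hδ1, hC, hκ, hw, hcls⟩ := class_u ε hε kk
  refine ⟨C, hC, ?_⟩
  set Q := primorial w with hQdef
  have hQpos : 0 < Q := primorial_pos w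
  have hQ0 : (0 : ℝ) < Q := by exact_mod_cast hQpos
  filter_upwards [hcls, ev_KK C δ 0 hC hδ, sq_count_u C (ε / 2) hC (by positivity),
    om5 1 one_pos κ hκ, ev_ok, ev_zN_ge (w + 3), ev_log_ge (max 1 C)]
    with N hclsN hKK hsq hom hok hzw hlogC
  obtain ⟨-, hK1, hK2, -, -⟩ := hKK
  have hN2 : 2 ≤ N := by have := hok.hN; omega
  have hN1 : (1 : ℝ) ≤ N := by exact_mod_cast (by omega : 1 ≤ N)
  have hN0 : (0 : ℝ) < N := by linarith
  have hzw' : w + 3 ≤ zN N := by exact_mod_cast hzw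
  have hl1 : 1 ≤ Real.log N := (le_max_left _ _).trans hlogC
  have hlC : C ≤ Real.log N := (le_max_right _ _).trans hlogC
  have hpwN : ∀ v : ℝ, v ≤ 1 → ∀ p : ℕ, p < pw N v → p < N := by
    intro v hv p hp
    rw [Pool.Agent.Work.MP_2dba45_nt.Sv.lt_pw_iff] at hp
    have h1 : (N : ℝ) ^ v ≤ (N : ℝ) ^ (1 : ℝ) := Real.rpow_le_rpow_of_exponent_le hN1 hv
    rw [Real.rpow_one] at h1
    exact_mod_cast hp.trans_le h1
  have hpwδ : pw N δ ≤ pw N zE := by
    unfold pw
    apply Nat.ceil_mono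
    apply Real.rpow_le_rpow_of_exponent_le hN1
    unfold zE
    linarith
  set Sq := (Ioc N (2 * N)).filter (fun n => ∃ k ∈ Icc 1 (KK C N), ∃ p : ℕ, p.Prime ∧
      pw N zE ≤ p ∧ p < pw N yE ∧ p ^ 2 ∣ n ^ 2 + k) with hSq
  have hsub : (Ioc N (2 * N)).filter (fun n => ¬ NiceU C kk N n) ⊆
      Sq ∪ (range Q).biUnion (fun a => (NN w N a).filter (fun n => #((Fm C N Q
          (1 + (Q - 1) * a ^ 2)).filter (fun k => Gd δ κ w N a k n)) < kk)) := by
    intro n hn
    rw [Finset.mem_filter] at hn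
    by_contra hcon
    rw [Finset.mem_union, not_or] at hcon
    obtain ⟨hnS, hnC⟩ := hcon
    set F := (Fm C N Q (1 + (Q - 1) * (n % Q) ^ 2)).filter (fun k => Gd δ κ w N (n % Q) k n)
      with hF
    have hgood : kk ≤ #F := by
      by_contra hg
      push Not at hg
      apply hnC
      rw [Finset.mem_biUnion]
      refine ⟨n % Q, Finset.mem_range.2 (Nat.mod_lt _ hQpos), ?_⟩
      rw [Finset.mem_filter]
      refine ⟨?_, hg⟩
      unfold NN
      rw [Finset.mem_filter]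
      exact ⟨hn.1, rfl⟩
    apply hn.2
    unfold NiceU
    set T := {k : ℕ | 0 < k ∧ (k : ℝ) ≤ C * Real.log N ∧
      ArithmeticFunction.cardFactors (n ^ 2 + k) ≤ 5 ∧
      ∀ p : ℕ, p.Prime → p ∣ n ^ 2 + k → pw N zE ≤ p} with hT
    have hTfin : T.Finite := by
      apply (Set.finite_Iic ⌊C * Real.log N⌋₊).subset
      intro k hk
      exact Nat.le_floor hk.2.1
    have himg : (F : Set ℕ) ⊆ T := by
      intro k hk
      rw [Finset.mem_coe, hF, Finset.mem_filter] at hk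
      obtain ⟨hkF, hAA, hRo, hmid, hsum⟩ := hk
      have hkI := Finset.mem_Icc.1 (Fm_sub hkF)
      have hkQ := (mem_Fm.1 hkF).2
      have hkc : (k : ℝ) ≤ C * Real.log N := by
        have h1 : (k : ℝ) ≤ KK C N := by exact_mod_cast hkI.2
        exact h1.trans hK1
      have hkc2 : (k : ℝ) ≤ 1 * Real.log N ^ 2 := by
        nlinarith
      have hndvd : ∀ p : ℕ, zN N < p → ¬ p ∣ k := by
        intro p hpz h
        have := Nat.le_of_dvd (by omega) h
        omega
      have hbig : ∀ p : ℕ, p.Prime → p ∣ n ^ 2 + k → zN N < p := by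
        intro p hp hpd
        by_contra hpz
        push Not at hpz
        rcases Nat.lt_or_ge w p with h | h
        · have hpS : p ∈ SS w N := by
            unfold SS
            rw [Finset.mem_filter, Finset.mem_Ioc]
            exact ⟨⟨h, hpz⟩, hp⟩
          unfold AA at hAA
          exact (Finset.mem_filter.1 hAA).2.2 p hpS _ (Finset.mem_singleton_self _) hpd
        · exact dyu_small w k n p hp h hkQ hpd
      have hPA : ∀ p : ℕ, p.Prime → p ∣ n ^ 2 + k → p < N → p ∈ PA k N := by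
        intro p hp hpd hpN
        have hz := hbig p hp hpd
        have hj := dyu_chi k n p hp (by omega) (hndvd p hz) hpd
        unfold PA
        rw [Finset.mem_filter, Finset.mem_Ioo]
        exact ⟨⟨hz, hpN⟩, hp, hj⟩
      have hrough : ∀ p : ℕ, p.Prime → p ∣ n ^ 2 + k → pw N zE ≤ p := by
        intro p hp hpd
        by_contra hpz
        push Not at hpz
        have hpN := hpwN zE (by unfold zE; norm_num) p hpz
        have hA := hPA p hp hpd hpN
        rcases Nat.lt_or_ge p (pw N δ) with h | h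
        · exact hRo p (by unfold Psm; rw [Finset.mem_filter]; exact ⟨hA, h⟩) hpd
        · exact hmid p (by unfold Pbg; rw [Finset.mem_filter]; exact ⟨hA, h⟩) hpz hpd
      refine ⟨by omega, hkc, ?_, hrough⟩
      apply hom n hn.1 _ hkc2 hrough
      · intro p hp hpα hpy hdvd
        apply hnS
        rw [hSq, Finset.mem_filter]
        exact ⟨hn.1, k, Fm_sub hkF, p, hp, hpα, hpy, hdvd⟩
      · refine lt_of_le_of_lt ?_ hsum
        apply mul_le_mul_of_nonneg_left _ (by unfold lam5; norm_num)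
        apply Finset.sum_le_sum_of_subset_of_nonneg
        · intro p hp
          rw [Finset.mem_filter, Nat.mem_primeFactors] at hp
          have hr := hrough p hp.1.1 hp.1.2.1
          rw [Finset.mem_filter]
          refine ⟨?_, hr, hp.2, hp.1.2.1⟩
          unfold Pbg
          rw [Finset.mem_filter]
          exact ⟨hPA p hp.1.1 hp.1.2.1 (hpwN yE (by unfold yE; norm_num) p hp.2), hpwδ.trans hr⟩
        · intro p hp _
          rw [Finset.mem_filter] at hp
          obtain ⟨hpP, -, hpy, -⟩ := hp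
          unfold Pbg PA at hpP
          rw [Finset.mem_filter, Finset.mem_filter] at hpP
          have hp1 : 1 ≤ p := hpP.1.2.1.one_le
          have hκ0 : (0 : ℝ) < κ := by exact_mod_cast (by omega : 0 < κ)
          have h1 := (Pool.Agent.Work.MP_2dba45_nt.Sv.lt_pw_iff_cost (1000 * κ) N p (450 * κ)
            (by omega) hN2 hp1).1 (by
              have e : (((450 * κ : ℕ) : ℝ) / ((1000 * κ : ℕ) : ℝ)) = yE := by
                unfold yE
                push_cast
                field_simp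
                norm_num
              rw [e]
              exact hpy)
          unfold wt5
          have h2 : (Pool.Agent.Work.MP_2dba45_nt.Sv.cost (1000 * κ) N p : ℝ) ≤ 450 * κ := by
            exact_mod_cast h1
          rw [sub_nonneg, div_le_one (by positivity)]
          linarith
    calc kk ≤ #F := hgood
      _ = Set.ncard (F : Set ℕ) := (Set.ncard_coe_finset _).symm
      _ ≤ T.ncard := Set.ncard_le_ncard himg hTfin
  have h1 : (#((Ioc N (2 * N)).filter (fun n => ¬ NiceU C kk N n)) : ℝ) ≤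
      (#Sq : ℝ) + ∑ a ∈ range Q, (#((NN w N a).filter (fun n => #((Fm C N Q
          (1 + (Q - 1) * a ^ 2)).filter (fun k => Gd δ κ w N a k n)) < kk)) : ℝ) := by
    have h2 := (Finset.card_le_card hsub).trans ((Finset.card_union_le _ _).trans
      (Nat.add_le_add_left Finset.card_biUnion_le _))
    exact_mod_cast h2
  refine h1.trans ?_
  have h3 : ∑ a ∈ range Q, (#((NN w N a).filter (fun n => #((Fm C N Q
          (1 + (Q - 1) * a ^ 2)).filter (fun k => Gd δ κ w N a k n)) < kk)) : ℝ) ≤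
      ε / 2 * N := by
    calc _ ≤ ∑ a ∈ range Q, ε / 2 * ((N : ℝ) / Q) :=
          Finset.sum_le_sum fun a ha => hclsN a (Finset.mem_range.1 ha)
      _ = ε / 2 * N := by
          rw [Finset.sum_const, Finset.card_range, nsmul_eq_mul]
          field_simp
  linarith

theorem almost_all_u (ε : ℝ) (hε : 0 < ε) (kk : ℕ) : ∃ C : ℝ, 0 < C ∧ ∀ᶠ N : ℕ in atTop,
    ({n : ℕ | 1 ≤ n ∧ n ≤ N ∧ {m : ℕ | n ^ 2 < m ∧
      (m : ℝ) ≤ (n : ℝ) ^ 2 + C * Real.log n ∧ ArithmeticFunction.cardFactors m ≤ 5 ∧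
      ∀ p : ℕ, p.Prime → p ∣ m → (n : ℝ) ^ ((9 : ℝ) / 50) < p}.ncard < kk}.ncard : ℝ) ≤ ε * N := by
  classical
  obtain ⟨C, hC, hdy⟩ := dyadic_u (ε / 3) (by positivity) kk
  refine ⟨C, hC, ?_⟩
  have h := from_dyadic (fun n => {m : ℕ | n ^ 2 < m ∧
      (m : ℝ) ≤ (n : ℝ) ^ 2 + C * Real.log n ∧ ArithmeticFunction.cardFactors m ≤ 5 ∧
      ∀ p : ℕ, p.Prime → p ∣ m → (n : ℝ) ^ ((9 : ℝ) / 50) < p}.ncard < kk) (ε / 3)
      (by positivity) ?_
  · filter_upwards [h] with N hN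
    refine hN.trans (le_of_eq ?_)
    ring
  · filter_upwards [hdy, eventually_gt_atTop (2 ^ 18)] with N hN h2
    have hN0 : (0 : ℝ) < N := by exact_mod_cast (by omega : 0 < N)
    have hroot : (2 : ℝ) < (N : ℝ) ^ ((1 : ℝ) / 18) := by
      have h3 : ((2 : ℝ) ^ (18 : ℕ)) < N := by exact_mod_cast h2
      have h4 := Real.rpow_lt_rpow (by positivity) h3 (by norm_num : (0 : ℝ) < 1 / 18)
      rwa [← Real.rpow_natCast, ← Real.rpow_mul (by norm_num),
        show (((18 : ℕ) : ℝ) * (1 / 18)) = 1 by norm_num, Real.rpow_one] at h4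
    have hsub : {n : ℕ | N < n ∧ n ≤ 2 * N ∧ {m : ℕ | n ^ 2 < m ∧
        (m : ℝ) ≤ (n : ℝ) ^ 2 + C * Real.log n ∧ ArithmeticFunction.cardFactors m ≤ 5 ∧
        ∀ p : ℕ, p.Prime → p ∣ m → (n : ℝ) ^ ((9 : ℝ) / 50) < p}.ncard < kk} ⊆
        ((Ioc N (2 * N)).filter (fun n => ¬ NiceU C kk N n) : Finset ℕ) := by
      intro n hn
      obtain ⟨hn1, hn2, hn3⟩ := hn
      simp only [Finset.coe_filter, Finset.mem_Ioc, Set.mem_ofPred_eq]
      refine ⟨⟨hn1, hn2⟩, ?_⟩
      intro hnice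
      unfold NiceU at hnice
      have hn0 : (0 : ℝ) < n := by exact_mod_cast (by omega : 0 < n)
      have hNn : (N : ℝ) ≤ n := by exact_mod_cast hn1.le
      have hlog : Real.log N ≤ Real.log n := Real.log_le_log hN0 hNn
      have hlog0 : 0 ≤ Real.log N := Real.log_natCast_nonneg N
      have hlt : (n : ℝ) ^ ((9 : ℝ) / 50) < (N : ℝ) ^ zE := by
        have h4 : (n : ℝ) < (N : ℝ) ^ ((19 : ℝ) / 18) := by
          have h5 : (n : ℝ) ≤ 2 * N := by exact_mod_cast hn2
          have h6 : (N : ℝ) ^ ((19 : ℝ) / 18) = N * (N : ℝ) ^ ((1 : ℝ) / 18) := by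
            rw [show ((19 : ℝ) / 18) = 1 + 1 / 18 by norm_num, Real.rpow_add hN0, Real.rpow_one]
          rw [h6]
          nlinarith
        calc (n : ℝ) ^ ((9 : ℝ) / 50) < ((N : ℝ) ^ ((19 : ℝ) / 18)) ^ ((9 : ℝ) / 50) :=
              Real.rpow_lt_rpow hn0.le h4 (by norm_num)
          _ = (N : ℝ) ^ zE := by
              rw [← Real.rpow_mul hN0.le]
              congr 1
              unfold zE
              norm_num
      refine absurd (hnice.trans ?_) (not_le.2 hn3)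
      have hfin : {m : ℕ | n ^ 2 < m ∧
          (m : ℝ) ≤ (n : ℝ) ^ 2 + C * Real.log n ∧ ArithmeticFunction.cardFactors m ≤ 5 ∧
          ∀ p : ℕ, p.Prime → p ∣ m → (n : ℝ) ^ ((9 : ℝ) / 50) < p}.Finite := by
        apply (Set.finite_Iic ⌊(n : ℝ) ^ 2 + C * Real.log n⌋₊).subset
        intro m hm
        exact Nat.le_floor hm.2.1
      apply Set.ncard_le_ncard_of_injOn (fun k => n ^ 2 + k) _ _ hfin
      · rintro k ⟨hk0, hkc, hom, hr⟩
        refine ⟨by omega, ?_, hom, fun p hp hpd => ?_⟩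
        · push_cast
          have h5 : C * Real.log N ≤ C * Real.log n := by gcongr
          linarith
        · have h6 := hr p hp hpd
          rw [← not_lt, Pool.Agent.Work.MP_2dba45_nt.Sv.lt_pw_iff, not_lt] at h6
          exact hlt.trans_le h6
      · intro a _ b _ hab
        simp only at hab
        omega
    calc _ ≤ (#((Ioc N (2 * N)).filter (fun n => ¬ NiceU C kk N n)) : ℝ) := by
          rw [← Set.ncard_coe_finset]
          exact_mod_cast Set.ncard_le_ncard hsub (Finset.finite_toSet _)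
      _ ≤ ε / 3 * N := hN

end Pool.Agent.Work.MP_73869e_nt.OW
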